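import Mathlib
import Pool.Agent.SHAF.ListDefs

set_option autoImplicit false

/-!
The list of the finite groups.
-/

namespace Pool.Agent.SHAF

/-- `G` is an extension of the alternating group of degree 5 by a group of order 2 that contains all
involutions of `G` (this describes the group `SL(2,5)`). -/
def BinIco (G : Type) [Group G] : Prop :=
  ∃ π : G →* alternatingGroup (Fin 5), Function.Surjective π ∧ Nat.card π.ker = 2 ∧
    ∀ g : G, g * g = 1 → g ∈ π.ker

/-- The list of finite groups. -/
def FinList (G : Type) [Group G] : Prop :=
  SolList G ∨ Nonempty (G ≃* alternatingGroup (Fin 5)) ∨ Nonempty (G ≃* Equiv.Perm (Fin 5)) ∨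
    BinIco G

end Pool.Agent.SHAF
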