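import Mathlib
import Pool.Agent.SHAN.Defs

set_option autoImplicit false

/-!
The group `SL(2,5)` (module SLA).
-/

namespace Pool.Agent.SHAF

/-- table of the class function -/
def slaN : ℕ :=
  18810461482658864866657266743746298849301099195526101937188286799937486648559570312500

/-- class of a matrix of trace zero and determinant one -/
def slaCl (x y z : ZMod 5) : Fin 5 :=
  ⟨slaN / 5 ^ (25 * x.val + 5 * y.val + z.val) % 5, Nat.mod_lt _ (by norm_num)⟩

/-- conjugation, first coordinate -/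
def slaP (a b c d x y z : ZMod 5) : ZMod 5 := a * d * x + b * d * z - a * c * y + b * c * x

/-- conjugation, second coordinate -/
def slaQ (a b x y z : ZMod 5) : ZMod 5 := a * a * y - 2 * a * b * x - b * b * z

/-- conjugation, third coordinate -/
def slaR (c d x y z : ZMod 5) : ZMod 5 := d * d * z + 2 * c * d * x - c * c * y

/-- representatives -/
def slaX : Fin 5 → ZMod 5 := ![0, 1, 1, 1, 1]

/-- representatives -/
def slaY : Fin 5 → ZMod 5 := ![1, 1, 2, 3, 4]

/-- representatives -/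
def slaZ : Fin 5 → ZMod 5 := ![4, 3, 4, 1, 2]

/-- class of a conjugate -/
def slaC (a b c d x y z : ZMod 5) : Fin 5 :=
  slaCl (slaP a b c d x y z) (slaQ a b x y z) (slaR c d x y z)

/-- the action on the classes -/
def slaAct (a b c d : ZMod 5) (i : Fin 5) : Fin 5 := slaC a b c d (slaX i) (slaY i) (slaZ i)

lemma sla_check1 : ∀ a b c d : ZMod 5, a * d - b * c = 1 → ∀ x y z : ZMod 5, x * x + y * z = -1 →
    slaC a b c d x y z = slaAct a b c d (slaCl x y z) := by
  decide +kernel

lemma sla_check2 : ∀ a b c d : ZMod 5, a * d - b * c = 1 → (∀ i, slaAct a b c d i = i) →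
    (a = 1 ∧ b = 0 ∧ c = 0 ∧ d = 1) ∨ (a = -1 ∧ b = 0 ∧ c = 0 ∧ d = -1) := by
  decide +kernel

lemma sla_check3 : ∀ a b c d : ZMod 5, a * d - b * c = 1 → a * a + b * c = 1 →
    a * b + b * d = 0 → c * a + d * c = 0 → c * b + d * d = 1 →
    (a = 1 ∧ b = 0 ∧ c = 0 ∧ d = 1) ∨ (a = -1 ∧ b = 0 ∧ c = 0 ∧ d = -1) := by
  decide +kernel

lemma sla_check4 : ∀ i, slaAct 1 0 0 1 i = i ∧ slaAct (-1) 0 0 (-1) i = i := by
  decide +kernel

lemma sla_check5 : ∀ i, slaX i * slaX i + slaY i * slaZ i = -1 := by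
  decide +kernel

lemma sla_check6 : Fintype.card {v : ZMod 5 × ZMod 5 × ZMod 5 × ZMod 5 //
    v.1 * v.2.2.2 - v.2.1 * v.2.2.1 = 1} = 120 := by
  decide +kernel

/-- the group -/
abbrev SlaG : Type := Matrix.SpecialLinearGroup (Fin 2) (ZMod 5)

lemma sla_det (M : SlaG) : M.1 0 0 * M.1 1 1 - M.1 0 1 * M.1 1 0 = 1 := by
  rw [← Matrix.det_fin_two]
  exact M.2

lemma sla_mul (a b c d a' b' c' d' : ZMod 5) (h : a * d - b * c = 1) (h' : a' * d' - b' * c' = 1)
    (i : Fin 5) :
    slaAct (a * a' + b * c') (a * b' + b * d') (c * a' + d * c') (c * b' + d * d') i =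
      slaAct a b c d (slaAct a' b' c' d' i) := by
  have h1 := sla_check1 a b c d h (slaP a' b' c' d' (slaX i) (slaY i) (slaZ i))
    (slaQ a' b' (slaX i) (slaY i) (slaZ i)) (slaR c' d' (slaX i) (slaY i) (slaZ i)) (by
      have h2 : ∀ x y z : ZMod 5, slaP a' b' c' d' x y z * slaP a' b' c' d' x y z +
          slaQ a' b' x y z * slaR c' d' x y z =
          (x * x + y * z) * ((a' * d' - b' * c') * (a' * d' - b' * c')) := by
        intro x y z
        unfold slaP slaQ slaR
        ring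
      rw [h2, h', sla_check5]
      ring)
  change slaC _ _ _ _ _ _ _ = slaAct a b c d (slaCl _ _ _)
  rw [← h1]
  unfold slaC
  congr 1
  · unfold slaP slaQ slaR
    ring
  · unfold slaP slaQ slaR
    ring
  · unfold slaP slaQ slaR
    ring

/-- the action as a homomorphism -/
def slaHom : SlaG →* Equiv.Perm (Fin 5) :=
  MonoidHom.toHomPerm (G := SlaG)
    { toFun := fun M i => slaAct (M.1 0 0) (M.1 0 1) (M.1 1 0) (M.1 1 1) i
      map_one' := by
        funext i
        exact (sla_check4 i).1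
      map_mul' := by
        intro M N
        funext i
        have := sla_mul _ _ _ _ _ _ _ _ (sla_det M) (sla_det N) i
        simp only [Matrix.SpecialLinearGroup.coe_mul, Matrix.mul_apply, Fin.sum_univ_two]
        exact this }

lemma slaHom_apply (M : SlaG) (i : Fin 5) :
    slaHom M i = slaAct (M.1 0 0) (M.1 0 1) (M.1 1 0) (M.1 1 1) i := rfl

lemma sla_ext (M : SlaG) (h : (M.1 0 0 = 1 ∧ M.1 0 1 = 0 ∧ M.1 1 0 = 0 ∧ M.1 1 1 = 1) ∨
    (M.1 0 0 = -1 ∧ M.1 0 1 = 0 ∧ M.1 1 0 = 0 ∧ M.1 1 1 = -1)) : M = 1 ∨ M = -1 := by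
  rcases h with ⟨h1, h2, h3, h4⟩ | ⟨h1, h2, h3, h4⟩
  · left
    ext i j
    fin_cases i <;> fin_cases j <;> simp [h1, h2, h3, h4]
  · right
    ext i j
    fin_cases i <;> fin_cases j <;> simp [h1, h2, h3, h4]

lemma sla_ker (M : SlaG) : M ∈ slaHom.ker ↔ M = 1 ∨ M = -1 := by
  rw [MonoidHom.mem_ker]
  constructor
  · intro h
    apply sla_ext
    apply sla_check2 _ _ _ _ (sla_det M)
    intro i
    rw [← slaHom_apply, h, Equiv.Perm.one_apply]
  · rintro (rfl | rfl)
    · exact map_one _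
    · ext i
      rw [slaHom_apply]
      have := (sla_check4 i).2
      simp [this]

lemma sla_ne : (1 : SlaG) ≠ -1 := by
  intro h
  have h1 := congrArg (fun M : SlaG => M.1 0 0) h
  have h2 : (1 : ZMod 5) = -1 := by simpa using h1
  revert h2
  decide

lemma sla_card_ker : Nat.card slaHom.ker = 2 := by
  have h1 : (slaHom.ker : Set SlaG) = {1, -1} := by
    ext M
    rw [SetLike.mem_coe, sla_ker]
    rfl
  have h2 : Nat.card slaHom.ker = Nat.card (slaHom.ker : Set SlaG) := rfl
  rw [h2, h1, Nat.card_coe_set_eq, Set.ncard_pair sla_ne]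

/-- coordinates -/
def slaEquiv : SlaG ≃ {v : ZMod 5 × ZMod 5 × ZMod 5 × ZMod 5 //
    v.1 * v.2.2.2 - v.2.1 * v.2.2.1 = 1} where
  toFun M := ⟨(M.1 0 0, M.1 0 1, M.1 1 0, M.1 1 1), sla_det M⟩
  invFun v := ⟨!![v.1.1, v.1.2.1; v.1.2.2.1, v.1.2.2.2], by
    rw [Matrix.det_fin_two_of]
    exact v.2⟩
  left_inv M := by
    ext i j
    fin_cases i <;> fin_cases j <;> rfl
  right_inv v := by
    rfl

lemma sla_card : Nat.card SlaG = 120 := by
  rw [Nat.card_congr slaEquiv, Nat.card_eq_fintype_card]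
  exact sla_check6

lemma sla_card_range : Nat.card slaHom.range = 60 := by
  have h1 := slaHom.ker.index_mul_card
  rw [Subgroup.index_ker, sla_card_ker, sla_card] at h1
  omega

lemma sla_range : slaHom.range = alternatingGroup (Fin 5) := by
  apply Equiv.Perm.eq_alternatingGroup_of_index_eq_two
  have h1 := slaHom.range.index_mul_card
  rw [sla_card_range, Nat.card_perm] at h1
  have h2 : (Nat.card (Fin 5)).factorial = 120 := by
    simp [Nat.factorial]
  rw [h2] at h1
  omega

theorem binico_sl : BinIco (Matrix.SpecialLinearGroup (Fin 2) (ZMod 5)) := by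
  refine ⟨slaHom.codRestrict (alternatingGroup (Fin 5)) (fun M => by
    rw [← sla_range]
    exact ⟨M, rfl⟩), ?_, ?_, ?_⟩
  · rintro ⟨x, hx⟩
    rw [← sla_range] at hx
    obtain ⟨M, rfl⟩ := hx
    exact ⟨M, rfl⟩
  · rw [MonoidHom.ker_codRestrict]
    exact sla_card_ker
  · intro g hg
    rw [MonoidHom.ker_codRestrict, sla_ker]
    apply sla_ext
    have h1 : ∀ i j, (g.1 * g.1) i j = (1 : Matrix (Fin 2) (Fin 2) (ZMod 5)) i j := by
      intro i j
      have h2 := congrArg (fun M : SlaG => M.1 i j) hg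
      exact h2
    have h00 := h1 0 0
    have h01 := h1 0 1
    have h10 := h1 1 0
    have h11 := h1 1 1
    rw [Matrix.mul_apply, Fin.sum_univ_two] at h00 h01 h10 h11
    simp only [Matrix.one_apply_eq, ne_eq, zero_ne_one, one_ne_zero, not_false_eq_true,
      Matrix.one_apply_ne] at h00 h01 h10 h11
    exact sla_check3 _ _ _ _ (sla_det g) h00 h01 h10 h11

end Pool.Agent.SHAF
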