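import Mathlib
import Pool.Agent.SHAN.Defs

set_option autoImplicit false

/-!
Uniqueness of `SL(2,5)` (module SLB).
-/

namespace Pool.Agent.SHAF

/-- A finite group of exponent two has enough characters with values in the units of the integers. -/
private theorem slb_exp2 {E : Type} [Group E] [Finite E] (h : ∀ x : E, x * x = 1) (c : E)
    (hc : c ≠ 1) : ∃ χ : E →* ℤˣ, χ c ≠ 1 := by
  letI : CommGroup E :=
    { (inferInstance : Group E) with
      mul_comm := fun a b => by
        have hinv : ∀ x : E, x⁻¹ = x := fun x => inv_eq_of_mul_eq_one_left (h x)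
        have := mul_inv_rev a b
        rw [hinv, hinv, hinv] at this
        exact this }
  have hexp : Monoid.exponent E = 2 := by
    have h1 : Monoid.exponent E ∣ 2 :=
      Monoid.exponent_dvd_of_forall_pow_eq_one (fun g => by rw [pow_two]; exact h g)
    rcases (Nat.dvd_prime Nat.prime_two).1 h1 with h2 | h2
    · exfalso
      apply hc
      have := Monoid.pow_exponent_eq_one c
      rwa [h2, pow_one] at this
    · exact h2
  haveI : HasEnoughRootsOfUnity ℤ (Monoid.exponent E) := by
    rw [hexp]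
    exact ⟨⟨-1, IsPrimitiveRoot.neg_one 0 (by norm_num)⟩, inferInstance⟩
  exact CommGroup.exists_apply_ne_one_of_hasEnoughRootsOfUnity E ℤ hc

/-- A group in which all squares lie in a central subgroup of order two has a character which is
trivial on this subgroup and not on a given element outside of it. -/
private theorem slb_hom {P : Type} [Group P] [Finite P] (z c : P) (hzc : ∀ x : P, x * z = z * x)
    (hz : z * z = 1) (hsq : ∀ x : P, x * x = 1 ∨ x * x = z) (hc1 : c ≠ 1) (hcz : c ≠ z) :
    ∃ χ : P →* ℤˣ, χ z = 1 ∧ χ c ≠ 1 := by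
  let Z : Subgroup P := Subgroup.zpowers z
  have hmem : ∀ x : P, x ∈ Z → x = 1 ∨ x = z := by
    intro x hx
    obtain ⟨k, rfl⟩ := Subgroup.mem_zpowers_iff.1 hx
    have hz2 : z ^ (2 : ℤ) = 1 := by rw [zpow_ofNat, pow_two]; exact hz
    rcases Int.even_or_odd' k with ⟨m, hm | hm⟩
    · left; rw [hm, zpow_mul, hz2, one_zpow]
    · right; rw [hm, zpow_add, zpow_mul, hz2, one_zpow, zpow_one, one_mul]
  haveI : Z.Normal := by
    refine ⟨fun n hn g => ?_⟩
    rcases hmem n hn with h | h
    · rw [h]; simp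
    · rw [h, hzc g, mul_assoc, mul_inv_cancel, mul_one]
      exact Subgroup.mem_zpowers z
  have hE : ∀ x : P ⧸ Z, x * x = 1 := by
    intro x
    induction x using QuotientGroup.induction_on with
    | H y =>
      rw [← QuotientGroup.mk_mul, QuotientGroup.eq_one_iff]
      rcases hsq y with h | h
      · rw [h]; exact Z.one_mem
      · rw [h]; exact Subgroup.mem_zpowers z
  have hc : (QuotientGroup.mk c : P ⧸ Z) ≠ 1 := by
    intro h
    rw [QuotientGroup.eq_one_iff] at h
    rcases hmem c h with h | h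
    · exact hc1 h
    · exact hcz h
  obtain ⟨χ, hχ⟩ := slb_exp2 hE _ hc
  refine ⟨χ.comp (QuotientGroup.mk' Z), ?_, ?_⟩
  · rw [MonoidHom.comp_apply]
    have : QuotientGroup.mk' Z z = 1 := by
      rw [QuotientGroup.mk'_apply, QuotientGroup.eq_one_iff]
      exact Subgroup.mem_zpowers z
    rw [this, map_one]
  · rw [MonoidHom.comp_apply]
    exact hχ

private theorem slb_perm : ∀ a : Equiv.Perm (Fin 5), Equiv.Perm.sign a = 1 → a ^ 4 = 1 →
    a * a = 1 := by
  decide +kernel

private theorem slb_alt (a : alternatingGroup (Fin 5)) (k : ℕ) (ha : a ^ 2 ^ k = 1) :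
    a * a = 1 := by
  have h1 : orderOf a ∣ 2 ^ k := orderOf_dvd_of_pow_eq_one ha
  have h2 : orderOf a ∣ 60 := by
    have := orderOf_dvd_natCard a
    rwa [show Nat.card (alternatingGroup (Fin 5)) = 60 by
      rw [nat_card_alternatingGroup]; simp [Nat.factorial]] at this
  have h3 : orderOf a ∣ 4 := by
    obtain ⟨j, hj, hj'⟩ := (Nat.dvd_prime_pow Nat.prime_two).1 h1
    rw [hj'] at h2 ⊢
    have : j ≤ 2 := by
      by_contra hcon
      have h8 : 2 ^ 3 ∣ 2 ^ j := pow_dvd_pow 2 (by omega)
      have := h8.trans h2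
      norm_num at this
    exact (pow_dvd_pow 2 this).trans (by norm_num)
  have h4 : a ^ 4 = 1 := orderOf_dvd_iff_pow_eq_one.1 h3
  have h5 := slb_perm (a : Equiv.Perm (Fin 5)) (Equiv.Perm.mem_alternatingGroup.1 a.2)
    (by rw [← Subgroup.coe_pow, h4, Subgroup.coe_one])
  exact Subtype.ext (by rw [Subgroup.coe_mul, h5, Subgroup.coe_one])

/-- Data of a double cover. -/
private theorem slb_data {G : Type} [Group G] (hG : BinIco G) :
    Finite G ∧ ∃ (π : G →* alternatingGroup (Fin 5)) (z : G), Function.Surjective π ∧ z ≠ 1 ∧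
      z * z = 1 ∧ (∀ x, x * z = z * x) ∧ (∀ x, π x = 1 ↔ x = 1 ∨ x = z) ∧
      (∀ x, x * x = 1 → x = 1 ∨ x = z) := by
  obtain ⟨π, hπ, hk, hi⟩ := hG
  haveI : Finite π.ker := Nat.finite_of_card_ne_zero (by rw [hk]; norm_num)
  haveI : Finite (G ⧸ π.ker) :=
    Finite.of_injective _ (QuotientGroup.quotientKerEquivOfSurjective π hπ).injective
  have hfin : Finite G := Finite.of_subgroup_quotient π.ker
  obtain ⟨w, hw1, hw⟩ : ∃ w : π.ker, w ≠ 1 ∧ ∀ x : π.ker, x = 1 ∨ x = w := by
    obtain ⟨a, b, hab, huniv⟩ := Nat.card_eq_two_iff.1 hk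
    have hall : ∀ x : π.ker, x = a ∨ x = b := by
      intro x
      have : x ∈ ({a, b} : Set π.ker) := by rw [huniv]; trivial
      simpa using this
    rcases hall 1 with h | h
    · refine ⟨b, fun hb => hab (h.symm.trans hb.symm), fun x => ?_⟩
      rcases hall x with hx | hx
      · left; rw [hx, h]
      · right; exact hx
    · refine ⟨a, fun hb => hab (hb.trans h), fun x => ?_⟩
      rcases hall x with hx | hx
      · right; exact hx
      · left; rw [hx, h]
  have hker : ∀ x : G, x ∈ π.ker → x = 1 ∨ x = w := by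
    intro x hx
    rcases hw ⟨x, hx⟩ with h | h
    · left; exact congrArg Subtype.val h
    · right; exact congrArg Subtype.val h
  have hwne : (w : G) ≠ 1 := fun h => hw1 (Subtype.ext h)
  refine ⟨hfin, π, w, hπ, hwne, ?_, ?_, ?_, ?_⟩
  · rcases hker (w * w) (π.ker.mul_mem w.2 w.2) with h | h
    · exact h
    · exfalso
      exact hwne (by simpa using h)
  · intro x
    have hn := (inferInstance : π.ker.Normal).conj_mem w w.2 x
    rcases hker _ hn with h | h
    · exfalso
      apply hwne
      have : (w : G) = x⁻¹ * (x * w * x⁻¹) * x := by group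
      rw [this, h]; group
    · calc x * (w : G) = (x * w * x⁻¹) * x := by group
        _ = w * x := by rw [h]
  · intro x
    constructor
    · intro h
      exact hker x (MonoidHom.mem_ker.2 h)
    · rintro (h | h)
      · rw [h, map_one]
      · rw [h]; exact MonoidHom.mem_ker.1 w.2
  · intro x hx
    exact hker x (hi x hx)

theorem binico_unique {G H : Type} [Group G] [Group H] (hG : BinIco G) (hH : BinIco H) :
    Nonempty (G ≃* H) := by
  obtain ⟨hGf, π, z, hπ, hz1, hzz, hzc, hzk, hzi⟩ := slb_data hG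
  obtain ⟨hHf, ρ, w, hρ, hw1, hww, hwc, hwk, hwi⟩ := slb_data hH
  have hπz : π z = 1 := (hzk z).2 (Or.inr rfl)
  have hρw : ρ w = 1 := (hwk w).2 (Or.inr rfl)
  let D : Subgroup (G × H) :=
    MonoidHom.eqLocus (π.comp (MonoidHom.fst G H)) (ρ.comp (MonoidHom.snd G H))
  have hD : ∀ x : G × H, x ∈ D ↔ π x.1 = ρ x.2 := fun x => Iff.rfl
  let c : D := ⟨(z, 1), by rw [hD]; simp [hπz]⟩
  let e : D := ⟨(1, w), by rw [hD]; simp [hρw]⟩
  let f : D := ⟨(z, w), by rw [hD]; simp [hπz, hρw]⟩
  have hfce : f = c * e := Subtype.ext (by simp [f, c, e])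
  have hcc : c * c = 1 := Subtype.ext (by simp [c, hzz])
  have hff : f * f = 1 := Subtype.ext (by simp [f, hzz, hww])
  have hcent_c : ∀ x : D, x * c = c * x := fun x => Subtype.ext (by
    simp only [c, Subgroup.coe_mul]
    exact Prod.ext (by simp [hzc]) (by simp))
  have hcent_f : ∀ x : D, x * f = f * x := fun x => Subtype.ext (by
    simp only [f, Subgroup.coe_mul]
    exact Prod.ext (by simp [hzc]) (by simp [hwc]))
  haveI : Finite D := inferInstance
  haveI : Fact (Nat.Prime 2) := ⟨Nat.prime_two⟩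
  obtain ⟨P⟩ : Nonempty (Sylow 2 D) := inferInstance
  haveI : (P : Subgroup D).FiniteIndex := inferInstance
  have hodd : ¬ 2 ∣ (P : Subgroup D).index := P.not_dvd_index
  have hpow : ∀ x : D, x * x = 1 → x ^ (P : Subgroup D).index = x := by
    intro x hx
    obtain ⟨m, hm⟩ : ∃ m, (P : Subgroup D).index = 2 * m + 1 := by
      refine ⟨(P : Subgroup D).index / 2, ?_⟩
      omega
    rw [hm, pow_succ, pow_mul, pow_two, hx, one_pow, one_mul]
  have hkey : ∀ g : D, (∀ x : D, x * g = g * x) → ∀ (k : ℕ) (g₀ : D),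
      g₀⁻¹ * g ^ k * g₀ ∈ (P : Subgroup D) → g₀⁻¹ * g ^ k * g₀ = g ^ k := by
    intro g hg k g₀ _
    have : Commute g₀ (g ^ k) := (show Commute g₀ g from hg g₀).pow_right k
    rw [mul_assoc, ← this.eq, ← mul_assoc, inv_mul_cancel, one_mul]
  have hcP : c ∈ (P : Subgroup D) := by
    have := MonoidHom.transfer_eq_pow_aux c (hkey c hcent_c)
    rwa [hpow c hcc] at this
  have hfP : f ∈ (P : Subgroup D) := by
    have := MonoidHom.transfer_eq_pow_aux f (hkey f hcent_f)
    rwa [hpow f hff] at this
  have hsq : ∀ x : (P : Subgroup D), x * x = 1 ∨ x * x = ⟨f, hfP⟩ := by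
    intro x
    obtain ⟨k, hk⟩ := P.isPGroup' x
    have hk1 : ((x : D) : G × H) ^ 2 ^ k = 1 := by
      have := congrArg (fun y : (P : Subgroup D) => ((y : D) : G × H)) hk
      simpa using this
    have hx : π ((x : D) : G × H).1 = ρ ((x : D) : G × H).2 := (hD _).1 (x : D).2
    have hp : (π ((x : D) : G × H).1) ^ 2 ^ k = 1 := by
      rw [← map_pow, ← Prod.pow_fst, hk1]; simp
    have hp2 := slb_alt _ k hp
    have hq2 : ρ ((x : D) : G × H).2 * ρ ((x : D) : G × H).2 = 1 := by rw [← hx]; exact hp2
    rw [← map_mul] at hp2 hq2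
    by_cases h1 : π ((x : D) : G × H).1 = 1
    · left
      have h2 : ρ ((x : D) : G × H).2 = 1 := hx ▸ h1
      apply Subtype.ext
      apply Subtype.ext
      apply Prod.ext
      · rcases (hzk _).1 h1 with h | h <;> simp [h, hzz]
      · rcases (hwk _).1 h2 with h | h <;> simp [h, hww]
    · right
      have h2 : ¬ ρ ((x : D) : G × H).2 = 1 := hx ▸ h1
      apply Subtype.ext
      apply Subtype.ext
      apply Prod.ext
      · rcases (hzk _).1 hp2 with h | h
        · exact absurd ((hzk _).2 (hzi _ h)) h1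
        · simpa [f] using h
      · rcases (hwk _).1 hq2 with h | h
        · exact absurd ((hwk _).2 (hwi _ h)) h2
        · simpa [f] using h
  obtain ⟨χ, hχf, hχc⟩ := slb_hom (P := (P : Subgroup D)) ⟨f, hfP⟩ ⟨c, hcP⟩
    (fun x => Subtype.ext (hcent_f x)) (Subtype.ext hff) hsq
    (fun h => hz1 (by
      have := congrArg (fun y : (P : Subgroup D) => ((y : D) : G × H).1) h
      simpa [c] using this))
    (fun h => hw1 (by
      have := congrArg (fun y : (P : Subgroup D) => ((y : D) : G × H).2) h
      simpa [c, f] using this.symm))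
  let τ : D →* ℤˣ := MonoidHom.transfer χ
  have hτf : τ f = 1 := by
    have h := MonoidHom.transfer_eq_pow χ f (hkey f hcent_f)
    rw [show τ f = MonoidHom.transfer χ f from rfl, h]
    have : (⟨f ^ (P : Subgroup D).index, MonoidHom.transfer_eq_pow_aux f (hkey f hcent_f)⟩ :
        (P : Subgroup D)) = ⟨f, hfP⟩ := Subtype.ext (hpow f hff)
    rw [this, hχf]
  have hτc : τ c = -1 := by
    have h := MonoidHom.transfer_eq_pow χ c (hkey c hcent_c)
    rw [show τ c = MonoidHom.transfer χ c from rfl, h]
    have : (⟨c ^ (P : Subgroup D).index, MonoidHom.transfer_eq_pow_aux c (hkey c hcent_c)⟩ :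
        (P : Subgroup D)) = ⟨c, hcP⟩ := Subtype.ext (hpow c hcc)
    rw [this]
    rcases Int.units_eq_one_or (χ ⟨c, hcP⟩) with h | h
    · exact absurd h hχc
    · exact h
  have hτe : τ e = -1 := by
    have h := hτf
    rw [hfce, map_mul, hτc] at h
    rcases Int.units_eq_one_or (τ e) with h' | h'
    · rw [h'] at h; exact absurd h (by decide)
    · exact h'
  let K : Subgroup D := τ.ker
  let pG : K →* G := ((MonoidHom.fst G H).comp D.subtype).comp K.subtype
  let pH : K →* H := ((MonoidHom.snd G H).comp D.subtype).comp K.subtype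
  have hpG : Function.Bijective pG := by
    constructor
    · rw [injective_iff_map_eq_one]
      intro x hx
      have hx1 : ((x : D) : G × H).1 = 1 := hx
      have hxD : π ((x : D) : G × H).1 = ρ ((x : D) : G × H).2 := (hD _).1 (x : D).2
      rw [hx1, map_one] at hxD
      rcases (hwk _).1 hxD.symm with h | h
      · exact Subtype.ext (Subtype.ext (Prod.ext hx1 h))
      · exfalso
        have : (x : D) = e := Subtype.ext (Prod.ext hx1 h)
        have hk : τ (x : D) = 1 := MonoidHom.mem_ker.1 x.2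
        rw [this, hτe] at hk
        exact absurd hk (by decide)
    · intro g
      obtain ⟨h, hh⟩ := hρ (π g)
      let x : D := ⟨(g, h), by rw [hD]; exact hh.symm⟩
      rcases Int.units_eq_one_or (τ x) with h' | h'
      · exact ⟨⟨x, MonoidHom.mem_ker.2 h'⟩, rfl⟩
      · refine ⟨⟨x * e, MonoidHom.mem_ker.2 (by rw [map_mul, h', hτe]; decide)⟩, ?_⟩
        change ((x * e : D) : G × H).1 = g
        simp [x, e]
  have hpH : Function.Bijective pH := by
    constructor
    · rw [injective_iff_map_eq_one]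
      intro x hx
      have hx1 : ((x : D) : G × H).2 = 1 := hx
      have hxD : π ((x : D) : G × H).1 = ρ ((x : D) : G × H).2 := (hD _).1 (x : D).2
      rw [hx1, map_one] at hxD
      rcases (hzk _).1 hxD with h | h
      · exact Subtype.ext (Subtype.ext (Prod.ext h hx1))
      · exfalso
        have : (x : D) = c := Subtype.ext (Prod.ext h hx1)
        have hk : τ (x : D) = 1 := MonoidHom.mem_ker.1 x.2
        rw [this, hτc] at hk
        exact absurd hk (by decide)
    · intro h
      obtain ⟨g, hg⟩ := hπ (ρ h)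
      let x : D := ⟨(g, h), by rw [hD]; exact hg⟩
      rcases Int.units_eq_one_or (τ x) with h' | h'
      · exact ⟨⟨x, MonoidHom.mem_ker.2 h'⟩, rfl⟩
      · refine ⟨⟨x * c, MonoidHom.mem_ker.2 (by rw [map_mul, h', hτc]; decide)⟩, ?_⟩
        change ((x * c : D) : G × H).2 = h
        simp [x, c]
  exact ⟨(MulEquiv.ofBijective pG hpG).symm.trans (MulEquiv.ofBijective pH hpH)⟩

end Pool.Agent.SHAF
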