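import Mathlib
import Pool.Agent.SHAF.ListSol
import Pool.Agent.SHAN.Defs

set_option autoImplicit false

/-!
Small facts on the list (module SM).
-/

namespace Pool.Agent.SHAF

open Pool.Agent.SHA

lemma sm_cent_aux (a : Fin 5) (z : Equiv.Perm (Fin 5))
    (hz : ∀ g ∈ alternatingGroup (Fin 5), z * g = g * z) : z a = a := by
  have hsw : ∀ b c d e : Fin 5, b ≠ c → d ≠ e → Equiv.swap b c * Equiv.swap d e ∈ alternatingGroup (Fin 5) := by
    intro b c d e h1 h2
    rw [Equiv.Perm.mem_alternatingGroup, Equiv.Perm.sign_mul, Equiv.Perm.sign_swap h1, Equiv.Perm.sign_swap h2]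
    rfl
  have hmove : ∀ g ∈ alternatingGroup (Fin 5), g a ≠ a → g (z a) ≠ z a := by
    intro g hg h1 h2
    apply h1
    have h3 : z (g a) = g (z a) := by
      have h4 := congrArg (fun p : Equiv.Perm (Fin 5) => p a) (hz g hg)
      exact h4
    rw [h2] at h3
    exact z.injective h3
  have h1 : ∀ a y : Fin 5, (Equiv.swap a (a + 1) * Equiv.swap (a + 1) (a + 2)) a ≠ a ∧
      (Equiv.swap a (a + 3) * Equiv.swap (a + 3) (a + 4)) a ≠ a ∧ a ≠ a + 1 ∧ a + 1 ≠ a + 2 ∧ a ≠ a + 3 ∧
      a + 3 ≠ a + 4 ∧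
      ((Equiv.swap a (a + 1) * Equiv.swap (a + 1) (a + 2)) y ≠ y →
        (Equiv.swap a (a + 3) * Equiv.swap (a + 3) (a + 4)) y ≠ y → y = a) := by decide
  obtain ⟨k1, k2, k3, k4, k5, k6, k7⟩ := h1 a (z a)
  exact k7 (hmove _ (hsw _ _ _ _ k3 k4) k1) (hmove _ (hsw _ _ _ _ k5 k6) k2)

/-- facts on the alternating group of degree 5 -/
theorem a5_facts : Nat.card (alternatingGroup (Fin 5)) = 60 ∧ Nat.card (Equiv.Perm (Fin 5)) = 120 ∧
    ¬ Group.IsSolvable (alternatingGroup (Fin 5)) ∧ ¬ Group.IsSolvable (Equiv.Perm (Fin 5)) ∧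
    (∀ z : alternatingGroup (Fin 5), (∀ g, z * g = g * z) → z = 1) ∧
    (∀ z : Equiv.Perm (Fin 5), (∀ g ∈ alternatingGroup (Fin 5), z * g = g * z) → z = 1) := by
  have hS : ¬ Group.IsSolvable (Equiv.Perm (Fin 5)) := Equiv.Perm.not_isSolvable_fin_5
  have hc : ∀ z : Equiv.Perm (Fin 5), (∀ g ∈ alternatingGroup (Fin 5), z * g = g * z) → z = 1 := by
    intro z hz
    apply Equiv.ext
    intro a
    exact sm_cent_aux a z hz
  refine ⟨?_, ?_, ?_, hS, ?_, hc⟩
  · rw [nat_card_alternatingGroup, Nat.card_eq_fintype_card, Fintype.card_fin]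
    rfl
  · rw [Nat.card_eq_fintype_card, Fintype.card_perm, Fintype.card_fin]
    rfl
  · intro hA
    apply hS
    haveI := hA
    refine Group.isSolvable_of_ker_le_range (alternatingGroup (Fin 5)).subtype
      (Equiv.Perm.sign : Equiv.Perm (Fin 5) →* ℤˣ) ?_
    rw [Subgroup.range_subtype]
    exact le_of_eq rfl
  · intro z hz
    have h1 := hc z.1 (fun g hg => congrArg Subtype.val (hz ⟨g, hg⟩))
    exact Subtype.ext h1

theorem binico_facts {G : Type} [Group G] (h : BinIco G) : Finite G ∧ Nat.card G = 120 ∧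
    ¬ Group.IsSolvable G ∧ (∀ z : G, (∀ g, z * g = g * z) → z * z = 1) ∧
    (∀ z : G, z * z = 1 → ∀ g, z * g = g * z) ∧
    (∀ y z : G, y * y = 1 → y ≠ 1 → z * z = 1 → z ≠ 1 → y = z) := by
  obtain ⟨π, hπ, h2, hinv⟩ := h
  obtain ⟨a1, a2, a3, a4, a5, a6⟩ := a5_facts
  have hcard : Nat.card G = 120 := by
    rw [Subgroup.card_eq_card_quotient_mul_card_subgroup π.ker, h2,
      Nat.card_congr (QuotientGroup.quotientKerEquivOfSurjective π hπ).toEquiv, a1]
  have hfin : Finite G := Nat.finite_of_card_ne_zero (by rw [hcard]; norm_num)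
  have hsq : ∀ z ∈ π.ker, z * z = 1 := by
    intro z hz
    have h3 : (⟨z, hz⟩ : π.ker) ^ Nat.card π.ker = 1 := pow_card_eq_one'
    rw [h2, pow_two] at h3
    exact congrArg Subtype.val h3
  have huniq : ∀ y ∈ π.ker, ∀ z ∈ π.ker, y ≠ 1 → z ≠ 1 → y = z := by
    intro y hy z hz hy1 hz1
    by_contra hne
    have h3 : 3 ≤ Nat.card π.ker := by
      have h4 : Function.Injective (![⟨1, π.ker.one_mem⟩, ⟨y, hy⟩, ⟨z, hz⟩] : Fin 3 → π.ker) := by
        intro i j hij
        have hij' := congrArg Subtype.val hij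
        fin_cases i <;> fin_cases j <;> simp at hij' ⊢
        · exact hy1 hij'.symm
        · exact hz1 hij'.symm
        · exact hy1 hij'
        · exact hne hij'
        · exact hz1 hij'
        · exact hne hij'.symm
      have h5 := Nat.card_le_card_of_injective _ h4
      rw [Nat.card_eq_fintype_card, Fintype.card_fin] at h5
      exact h5
    omega
  refine ⟨hfin, hcard, ?_, ?_, ?_, ?_⟩
  · intro hs
    haveI := hs
    exact a3 (Group.isSolvable_of_surjective hπ)
  · intro z hz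
    apply hsq
    rw [MonoidHom.mem_ker]
    apply a5
    intro g
    obtain ⟨g, rfl⟩ := hπ g
    rw [← map_mul, hz, map_mul]
  · intro z hz g
    have hk := hinv z hz
    by_cases h1 : z = 1
    · rw [h1, one_mul, mul_one]
    · have h3 : g⁻¹ * z * g ∈ π.ker := by
        have h4 := (MonoidHom.normal_ker π).conj_mem z hk g⁻¹
        rw [inv_inv] at h4
        exact h4
      have h4 : g⁻¹ * z * g ≠ 1 := by
        intro h5
        apply h1
        have h6 : z = g * (g⁻¹ * z * g) * g⁻¹ := by group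
        rw [h6, h5, mul_one, mul_inv_cancel]
      have h5 := huniq _ h3 _ hk h4 h1
      have h6 : z * g = g * (g⁻¹ * z * g) := by group
      rw [h6, h5]
  · intro y z hy hy1 hz hz1
    exact huniq y (hinv y hy) z (hinv z hz) hy1 hz1

theorem finlist_finite {G : Type} [Group G] (h : FinList G) : Finite G := by
  rcases h with h | ⟨⟨e⟩⟩ | ⟨⟨e⟩⟩ | h
  · exact h.1
  · exact Finite.of_equiv _ e.symm.toEquiv
  · exact Finite.of_equiv _ e.symm.toEquiv
  · exact (binico_facts h).1

theorem finlist_sol {G : Type} [Group G] (h : FinList G) (hs : Group.IsSolvable G) : SolList G := by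
  obtain ⟨a1, a2, a3, a4, a5, a6⟩ := a5_facts
  haveI := hs
  rcases h with h | ⟨⟨e⟩⟩ | ⟨⟨e⟩⟩ | h
  · exact h
  · exact absurd (Group.isSolvable_of_surjective (f := e.toMonoidHom) e.surjective) a3
  · exact absurd (Group.isSolvable_of_surjective (f := e.toMonoidHom) e.surjective) a4
  · exact absurd hs (binico_facts h).2.2.1

lemma sm_central {G : Type} [Group G] (h : FinList G) (z : G) (hz1 : z ≠ 1) (hc : ∀ g, z * g = g * z) :
    SolList G ∨ BinIco G := by
  obtain ⟨a1, a2, a3, a4, a5, a6⟩ := a5_facts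
  rcases h with h | ⟨⟨e⟩⟩ | ⟨⟨e⟩⟩ | h
  · exact Or.inl h
  · exfalso
    apply hz1
    have h1 : e z = 1 := by
      apply a5
      intro g
      obtain ⟨g, rfl⟩ := e.surjective g
      rw [← map_mul, hc, map_mul]
    exact e.injective (h1.trans (map_one e).symm)
  · exfalso
    apply hz1
    have h1 : e z = 1 := by
      apply a6
      intro g _
      obtain ⟨g, rfl⟩ := e.surjective g
      rw [← map_mul, hc, map_mul]
    exact e.injective (h1.trans (map_one e).symm)
  · exact Or.inr h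

/-- a member with a central element of odd prime order is soluble -/
theorem central_odd {G : Type} [Group G] (h : FinList G) {p : ℕ} (hp : p.Prime) (hp2 : p ≠ 2)
    (z : G) (hz : orderOf z = p) (hc : ∀ g, z * g = g * z) : SolList G := by
  have hz1 : z ≠ 1 := by
    rintro rfl
    rw [orderOf_one] at hz
    exact hp.one_lt.ne hz
  rcases sm_central h z hz1 hc with h1 | h1
  · exact h1
  · exfalso
    have h2 := (binico_facts h1).2.2.2.1 z hc
    have h3 : orderOf z ∣ 2 := orderOf_dvd_of_pow_eq_one (by rw [pow_two, h2])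
    rw [hz] at h3
    exact hp2 ((Nat.prime_dvd_prime_iff_eq hp Nat.prime_two).1 h3)

/-- a member with a central involution is soluble or `SL(2,5)` -/
theorem central_two {G : Type} [Group G] (h : FinList G)
    (z : G) (hz : z * z = 1) (hz1 : z ≠ 1) (hc : ∀ g, z * g = g * z) : SolList G ∨ BinIco G :=
  sm_central h z hz1 hc

/-- nonsoluble members have order 60 or 120; those of order not divisible by 8 are `A_5` -/
theorem nonsol_order {G : Type} [Group G] (h : FinList G) (hs : ¬ Group.IsSolvable G) :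
    (Nat.card G = 60 ∧ Nonempty (G ≃* alternatingGroup (Fin 5))) ∨
      (Nat.card G = 120 ∧ (Nonempty (G ≃* Equiv.Perm (Fin 5)) ∨ BinIco G)) := by
  obtain ⟨a1, a2, a3, a4, a5, a6⟩ := a5_facts
  rcases h with h | ⟨⟨e⟩⟩ | ⟨⟨e⟩⟩ | h
  · exact absurd (list_sol h) hs
  · exact Or.inl ⟨(Nat.card_congr e.toEquiv).trans a1, ⟨e⟩⟩
  · exact Or.inr ⟨(Nat.card_congr e.toEquiv).trans a2, Or.inl ⟨e⟩⟩
  · exact Or.inr ⟨(binico_facts h).2.1, Or.inr h⟩

theorem finlist_e3 : ¬ FinList (E 3) := by
  obtain ⟨a1, a2, a3, a4, a5, a6⟩ := a5_facts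
  have h8 := e3_card
  rintro (h | ⟨⟨e⟩⟩ | ⟨⟨e⟩⟩ | h)
  · exact list_e3 h
  · have h1 := Nat.card_congr e.toEquiv
    omega
  · have h1 := Nat.card_congr e.toEquiv
    omega
  · have h1 := (binico_facts h).2.1
    omega

end Pool.Agent.SHAF
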