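import Mathlib
import Pool.Agent.SHAN.Small

set_option autoImplicit false

/-!
Automorphisms of `A_5` and `S_5` (module AUTA5).
-/

namespace Pool.Agent.SHAF

theorem auta5_uniq : ∀ s : Equiv.Perm (Fin 5), s * s = 1 → s ≠ 1 → Equiv.Perm.sign s = 1 →
    ∃ i, s i = i ∧ ∀ j, s j = j → j = i := by
  decide +kernel

theorem auta5_comm : ∀ s t : Equiv.Perm (Fin 5), (s * s = 1 ∧ s ≠ 1 ∧ Equiv.Perm.sign s = 1) ∧
    (t * t = 1 ∧ t ≠ 1 ∧ Equiv.Perm.sign t = 1) → (s * t = t * s ↔ ∃ i, s i = i ∧ t i = i) := by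
  decide +kernel

theorem auta5_ex : ∀ i : Fin 5, ∃ s : Equiv.Perm (Fin 5), s * s = 1 ∧ s ≠ 1 ∧
    Equiv.Perm.sign s = 1 ∧ s i = i := by
  decide +kernel

/-- the involutions of the alternating group -/
def auta5_Inv (s : alternatingGroup (Fin 5)) : Prop := s * s = 1 ∧ s ≠ 1

/-- the fixed point of an involution -/
def auta5_Fix (s : alternatingGroup (Fin 5)) (i : Fin 5) : Prop := (s : Equiv.Perm (Fin 5)) i = i

theorem auta5_inv_coe {s : alternatingGroup (Fin 5)} (h : auta5_Inv s) :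
    (s : Equiv.Perm (Fin 5)) * s = 1 ∧ (s : Equiv.Perm (Fin 5)) ≠ 1 ∧
      Equiv.Perm.sign (s : Equiv.Perm (Fin 5)) = 1 := by
  refine ⟨?_, ?_, s.2⟩
  · have := congrArg Subtype.val h.1
    exact this
  · intro h1
    exact h.2 (Subtype.ext h1)

theorem auta5_exists_fix {s : alternatingGroup (Fin 5)} (h : auta5_Inv s) : ∃ i, auta5_Fix s i := by
  obtain ⟨h1, h2, h3⟩ := auta5_inv_coe h
  obtain ⟨i, hi, -⟩ := auta5_uniq s h1 h2 h3
  exact ⟨i, hi⟩

theorem auta5_fix_uniq {s : alternatingGroup (Fin 5)} (h : auta5_Inv s) {i j : Fin 5}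
    (hi : auta5_Fix s i) (hj : auta5_Fix s j) : i = j := by
  obtain ⟨h1, h2, h3⟩ := auta5_inv_coe h
  obtain ⟨k, -, hk⟩ := auta5_uniq s h1 h2 h3
  rw [hk i hi, hk j hj]

theorem auta5_comm_iff {s t : alternatingGroup (Fin 5)} (hs : auta5_Inv s) (ht : auta5_Inv t) :
    s * t = t * s ↔ ∃ i, auta5_Fix s i ∧ auta5_Fix t i := by
  obtain ⟨h1, h2, h3⟩ := auta5_inv_coe hs
  obtain ⟨k1, k2, k3⟩ := auta5_inv_coe ht
  rw [← Subtype.coe_inj]
  exact auta5_comm s t ⟨⟨h1, h2, h3⟩, k1, k2, k3⟩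

theorem auta5_exists_inv (i : Fin 5) : ∃ s : alternatingGroup (Fin 5), auta5_Inv s ∧ auta5_Fix s i := by
  obtain ⟨s, h1, h2, h3, h4⟩ := auta5_ex i
  refine ⟨⟨s, h3⟩, ⟨Subtype.ext h1, fun h => h2 (congrArg Subtype.val h)⟩, h4⟩

theorem auta5_inv_aut (α : MulAut (alternatingGroup (Fin 5))) {s : alternatingGroup (Fin 5)}
    (h : auta5_Inv s) : auta5_Inv (α s) := by
  refine ⟨by rw [← map_mul, h.1, map_one], fun h1 => h.2 ?_⟩
  exact α.injective (by rw [h1, map_one])

/-- the action on points -/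
noncomputable def auta5_act (α : MulAut (alternatingGroup (Fin 5))) (i : Fin 5) : Fin 5 :=
  (auta5_exists_fix (auta5_inv_aut α (auta5_exists_inv i).choose_spec.1)).choose

theorem auta5_act_spec (α : MulAut (alternatingGroup (Fin 5))) {s : alternatingGroup (Fin 5)}
    (h : auta5_Inv s) {i : Fin 5} (hi : auta5_Fix s i) : auta5_Fix (α s) (auta5_act α i) := by
  have h1 := (auta5_exists_inv i).choose_spec
  have h2 : auta5_Fix (α (auta5_exists_inv i).choose) (auta5_act α i) :=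
    (auta5_exists_fix (auta5_inv_aut α (auta5_exists_inv i).choose_spec.1)).choose_spec
  have h3 : s * (auta5_exists_inv i).choose = (auta5_exists_inv i).choose * s :=
    (auta5_comm_iff h h1.1).2 ⟨i, hi, h1.2⟩
  have h4 : α s * α (auta5_exists_inv i).choose = α (auta5_exists_inv i).choose * α s := by
    rw [← map_mul, h3, map_mul]
  obtain ⟨j, hj, hj'⟩ := (auta5_comm_iff (auta5_inv_aut α h) (auta5_inv_aut α h1.1)).1 h4
  rwa [auta5_fix_uniq (auta5_inv_aut α h1.1) h2 hj']

/-- the homomorphism to the monoid of the maps -/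
noncomputable def auta5_hom : MulAut (alternatingGroup (Fin 5)) →* Function.End (Fin 5) where
  toFun α := auta5_act α
  map_one' := by
    funext i
    obtain ⟨s, hs, hi⟩ := auta5_exists_inv i
    exact auta5_fix_uniq hs (auta5_act_spec 1 hs hi) hi
  map_mul' := by
    intro α β
    funext i
    obtain ⟨s, hs, hi⟩ := auta5_exists_inv i
    have h1 := auta5_act_spec (α * β) hs hi
    have h2 := auta5_act_spec α (auta5_inv_aut β hs) (auta5_act_spec β hs hi)
    exact auta5_fix_uniq (auta5_inv_aut (α * β) hs) h1 h2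

theorem aut_a5 : ∃ f : MulAut (alternatingGroup (Fin 5)) →* Equiv.Perm (Fin 5),
    Function.Injective f := by
  refine ⟨auta5_hom.toHomPerm, ?_⟩
  rw [injective_iff_map_eq_one]
  intro α hα
  have hact : ∀ i, auta5_act α i = i := fun i => by
    have h1 := congrArg (fun p : Equiv.Perm (Fin 5) => p i) hα
    exact h1
  ext1 g
  apply Subtype.ext
  apply Equiv.ext
  intro i
  obtain ⟨s, hs, hi⟩ := auta5_exists_inv i
  have hinv : auta5_Inv (g * s * g⁻¹) := by
    refine ⟨?_, fun h => hs.2 ?_⟩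
    · have : g * s * g⁻¹ * (g * s * g⁻¹) = g * (s * s) * g⁻¹ := by group
      rw [this, hs.1]
      group
    · have : s = g⁻¹ * (g * s * g⁻¹) * g := by group
      rw [this, h]
      group
  have hfix : ∀ (k t : alternatingGroup (Fin 5)), auta5_Fix t i →
      auta5_Fix (k * t * k⁻¹) ((k : Equiv.Perm (Fin 5)) i) := by
    intro k t ht
    show (k : Equiv.Perm (Fin 5)) ((t : Equiv.Perm (Fin 5)) ((k : Equiv.Perm (Fin 5))⁻¹
      ((k : Equiv.Perm (Fin 5)) i))) = (k : Equiv.Perm (Fin 5)) i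
    have h9 : (k : Equiv.Perm (Fin 5))⁻¹ ((k : Equiv.Perm (Fin 5)) i) = i :=
      (k : Equiv.Perm (Fin 5)).symm_apply_apply i
    rw [h9]
    exact congrArg _ ht
  have h1 := auta5_act_spec α hinv (hfix g s hi)
  rw [hact] at h1
  have h2 : auta5_Fix (α s) i := by
    have := auta5_act_spec α hs hi
    rwa [hact] at this
  have h3 := hfix (α g) (α s) h2
  rw [← map_inv, ← map_mul, ← map_mul] at h3
  exact auta5_fix_uniq (auta5_inv_aut α hinv) h3 h1

theorem aut_s5 : ∃ f : MulAut (Equiv.Perm (Fin 5)) →* MulAut (alternatingGroup (Fin 5)),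
    Function.Injective f := by
  refine ⟨MulAut.characteristic (alternatingGroup (Fin 5)), ?_⟩
  rw [injective_iff_map_eq_one]
  intro α hα
  have hfix : ∀ h : Equiv.Perm (Fin 5), h ∈ alternatingGroup (Fin 5) → α h = h := by
    intro h hh
    have h1 := congrArg (fun p : MulAut (alternatingGroup (Fin 5)) =>
      ((p ⟨h, hh⟩ : alternatingGroup (Fin 5)) : Equiv.Perm (Fin 5))) hα
    exact h1
  ext1 g
  have hc : g⁻¹ * α g = 1 := by
    apply a5_facts.2.2.2.2.2
    intro h hh
    have h1 : g * h * g⁻¹ ∈ alternatingGroup (Fin 5) :=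
      (inferInstance : (alternatingGroup (Fin 5)).Normal).conj_mem h hh g
    have h2 := hfix _ h1
    rw [map_mul, map_mul, map_inv, hfix h hh] at h2
    have h3 : α g * h = g * h * g⁻¹ * α g := by
      rw [← h2]
      group
    calc g⁻¹ * α g * h = g⁻¹ * (α g * h) := by group
      _ = g⁻¹ * (g * h * g⁻¹ * α g) := by rw [h3]
      _ = h * (g⁻¹ * α g) := by group
  have h4 : α g = g := by
    rw [inv_mul_eq_one] at hc
    exact hc.symm
  exact h4

end Pool.Agent.SHAF
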