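import Mathlib
import Pool.Agent.SHAN.Small

set_option autoImplicit false

/-!
Subgroups of the symmetric group of degree 5 (module SUBS5).
-/

namespace Pool.Agent.SHAF

open Pool.Agent.SHA

/-- restriction of an action to an invariant set -/
def subs5_res {H : Type} [Group H] (f : H →* Equiv.Perm (Fin 5)) (p : Fin 5 → Prop)
    (hp : ∀ h x, p (f h x) ↔ p x) : H →* Equiv.Perm {x // p x} where
  toFun h := (f h).subtypePerm (hp h)
  map_one' := by
    ext x
    simp
  map_mul' a b := Equiv.ext fun x => Subtype.ext (by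
    simp only [Equiv.Perm.mul_apply, Equiv.Perm.subtypePerm_apply, map_mul])

lemma subs5_res_apply {H : Type} [Group H] (f : H →* Equiv.Perm (Fin 5)) (p : Fin 5 → Prop)
    (hp : ∀ h x, p (f h x) ↔ p x) (h : H) (hh : subs5_res f p hp h = 1) (x : Fin 5) (hx : p x) :
    f h x = x := by
  have h1 := congrArg (fun e : Equiv.Perm {x // p x} => (e ⟨x, hx⟩ : Fin 5)) hh
  simpa [subs5_res] using h1

lemma subs5_inj {H : Type} [Group H] (f : H →* Equiv.Perm (Fin 5)) (hf : Function.Injective f)
    (p : Fin 5 → Prop) (hp : ∀ h x, p (f h x) ↔ p x) (hq : ∀ h x, ¬ p (f h x) ↔ ¬ p x) :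
    Function.Injective ((subs5_res f p hp).prod (subs5_res f (fun x => ¬ p x) hq)) := by
  rw [injective_iff_map_eq_one]
  intro h hh
  apply hf
  rw [map_one]
  ext x
  rw [Equiv.Perm.one_apply]
  have h1 : subs5_res f p hp h = 1 := congrArg Prod.fst hh
  have h2 : subs5_res f (fun x => ¬ p x) hq h = 1 := congrArg Prod.snd hh
  by_cases hx : p x
  · rw [subs5_res_apply f p hp h h1 x hx]
  · rw [subs5_res_apply f (fun x => ¬ p x) hq h h2 x hx]

/-- the case of a fixed point -/
lemma subs5_fix {H : Type} [Group H] [Finite H] (f : H →* Equiv.Perm (Fin 5))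
    (hf : Function.Injective f) (p : Fin 5 → Prop) (hp : ∀ h x, p (f h x) ↔ p x)
    (hc : Nat.card {x // p x} = 1) (hd : Nat.card {x // ¬ p x} = 4) : SolList H := by
  have hq : ∀ h x, ¬ p (f h x) ↔ ¬ p x := fun h x => not_congr (hp h x)
  apply perm4_sol
  have : Subsingleton {x // p x} := (Nat.card_eq_one_iff_unique.mp hc).1
  have e : {x // ¬ p x} ≃ Fin 4 := Finite.equivFinOfCardEq hd
  refine ⟨(e.permCongrHom.toMonoidHom).comp (subs5_res f (fun x => ¬ p x) hq), ?_⟩
  refine e.permCongrHom.injective.comp ?_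
  rw [injective_iff_map_eq_one]
  intro h hh
  have h1 : subs5_res f p hp h = 1 := Subsingleton.elim _ _
  apply subs5_inj f hf p hp hq
  rw [map_one]
  exact Prod.ext h1 hh

/-- the case of orbits of lengths 2 and 3 -/
lemma subs5_two {H : Type} [Group H] [Finite H] (f : H →* Equiv.Perm (Fin 5))
    (hf : Function.Injective f) (p : Fin 5 → Prop) (hp : ∀ h x, p (f h x) ↔ p x)
    (hc : Nat.card {x // p x} = 3) (hd : Nat.card {x // ¬ p x} = 2) : SolList H := by
  have hq : ∀ h x, ¬ p (f h x) ↔ ¬ p x := fun h x => not_congr (hp h x)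
  have e : {x // p x} ≃ Fin 3 := Finite.equivFinOfCardEq hc
  have e' : {x // ¬ p x} ≃ Fin 2 := Finite.equivFinOfCardEq hd
  have hj := subs5_inj f hf p hp hq
  have hk : Function.Injective (MonoidHom.prodMap e.permCongrHom.toMonoidHom
      e'.permCongrHom.toMonoidHom) := by
    rintro ⟨a, b⟩ ⟨c, d⟩ h
    have h1 := congrArg Prod.fst h
    have h2 := congrArg Prod.snd h
    exact Prod.ext (e.permCongrHom.injective h1) (e'.permCongrHom.injective h2)
  have hl : SolList (Equiv.Perm (Fin 3) × Equiv.Perm (Fin 2)) :=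
    ⟨inferInstance, Or.inr (Or.inr (Or.inr (Or.inr (Or.inr (Or.inr meta_s3c2)))))⟩
  exact list_sub ((MonoidHom.prodMap e.permCongrHom.toMonoidHom
      e'.permCongrHom.toMonoidHom).comp ((subs5_res f p hp).prod
        (subs5_res f (fun x => ¬ p x) hq))) (hk.comp hj) hl

/-- intransitive groups -/
lemma subs5_intrans {H : Type} [Group H] [Finite H] (f : H →* Equiv.Perm (Fin 5))
    (hf : Function.Injective f) (p : Fin 5 → Prop) (hp : ∀ h x, p (f h x) ↔ p x)
    (a b : Fin 5) (ha : p a) (hb : ¬ p b) : SolList H := by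
  classical
  have hq : ∀ h x, ¬ p (f h x) ↔ ¬ p x := fun h x => not_congr (hp h x)
  have hnn : ∀ h x, ¬ ¬ p (f h x) ↔ ¬ ¬ p x := fun h x => not_congr (hq h x)
  have : Nonempty {x // p x} := ⟨⟨a, ha⟩⟩
  have : Nonempty {x // ¬ p x} := ⟨⟨b, hb⟩⟩
  have h1 : 0 < Nat.card {x // p x} := Nat.card_pos
  have h2 : 0 < Nat.card {x // ¬ p x} := Nat.card_pos
  have h3 : Nat.card {x // p x} + Nat.card {x // ¬ p x} = 5 := by
    rw [← Nat.card_sum, Nat.card_congr (Equiv.sumCompl p)]
    simp
  have h4 : Nat.card {x // ¬ ¬ p x} = Nat.card {x // p x} :=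
    Nat.card_congr (Equiv.subtypeEquivRight (fun x => not_not))
  have h5 : Nat.card {x // p x} = 1 ∨ Nat.card {x // p x} = 2 ∨ Nat.card {x // p x} = 3 ∨
      Nat.card {x // p x} = 4 := by omega
  rcases h5 with h5 | h5 | h5 | h5
  · exact subs5_fix f hf p hp h5 (by omega)
  · exact subs5_two f hf (fun x => ¬ p x) hq (by omega) (by omega)
  · exact subs5_two f hf p hp h5 (by omega)
  · exact subs5_fix f hf (fun x => ¬ p x) hq (by omega) (by omega)

/-- if 5 does not divide the order, the group is intransitive -/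
lemma subs5_not_five {H : Type} [Group H] [Finite H] (f : H →* Equiv.Perm (Fin 5))
    (hf : Function.Injective f) (h5 : ¬ 5 ∣ Nat.card H) : SolList H := by
  by_cases ht : ∀ x, ∃ h, f h 0 = x
  · exfalso
    apply h5
    let _ : MulAction H (Fin 5) := MulAction.compHom (Fin 5) f
    have h1 : MulAction.orbit H (0 : Fin 5) = Set.univ := by
      ext x
      simp only [Set.mem_univ, iff_true]
      obtain ⟨h, hh⟩ := ht x
      exact ⟨h, hh⟩
    have h2 := MulAction.index_stabilizer H (0 : Fin 5)
    have h3 := (MulAction.stabilizer H (0 : Fin 5)).index_mul_card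
    rw [h2, h1, Set.ncard_univ, Nat.card_eq_fintype_card, Fintype.card_fin] at h3
    exact ⟨_, h3.symm⟩
  · push Not at ht
    obtain ⟨b, hb⟩ := ht
    refine subs5_intrans f hf (fun x => ∃ h, f h 0 = x) ?_ 0 b ⟨1, by simp⟩ ?_
    · intro h x
      constructor
      · rintro ⟨k, hk⟩
        refine ⟨h⁻¹ * k, ?_⟩
        rw [map_mul, map_inv, Equiv.Perm.mul_apply, hk]
        simp
      · rintro ⟨k, hk⟩
        refine ⟨h * k, ?_⟩
        rw [map_mul, Equiv.Perm.mul_apply, hk]
    · rintro ⟨h, hh⟩
      exact hb h hh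

/-- orders divisible by 15 -/
lemma subs5_fifteen {H : Type} [Group H] [Finite H] (f : H →* Equiv.Perm (Fin 5))
    (hf : Function.Injective f) (h5 : 5 ∣ Nat.card H) (h3 : 3 ∣ Nat.card H) :
    Nonempty (H ≃* alternatingGroup (Fin 5)) ∨ Nonempty (H ≃* Equiv.Perm (Fin 5)) := by
  have : Fact (Nat.Prime 5) := ⟨by norm_num⟩
  have : Fact (Nat.Prime 3) := ⟨by norm_num⟩
  obtain ⟨s, hs⟩ := exists_prime_orderOf_dvd_card' 5 h5
  obtain ⟨t, ht⟩ := exists_prime_orderOf_dvd_card' 3 h3
  have hs' : orderOf (f s) = 5 := by rw [orderOf_injective f hf, hs]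
  have ht' : orderOf (f t) = 3 := by rw [orderOf_injective f hf, ht]
  have hsc : (f s).IsCycle := Equiv.Perm.isCycle_of_prime_order'' (by simp; norm_num) (by simp [hs'])
  have htc : (f t).IsCycle := Equiv.Perm.isCycle_of_prime_order' (by rw [ht']; norm_num)
    (by rw [ht']; simp)
  have ht3 : (f t).IsThreeCycle := by
    rw [← card_support_eq_three_iff, ← htc.orderOf, ht']
  have hss : (f s).support = Finset.univ := by
    apply Finset.eq_univ_of_card
    rw [← hsc.orderOf, hs']
    simp
  have htr : MulAction.IsPretransitive f.range (Fin 5) := by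
    constructor
    intro x y
    obtain ⟨i, hi⟩ := hsc.sameCycle (x := x) (y := y)
      (by rw [← Equiv.Perm.mem_support, hss]; exact Finset.mem_univ _)
      (by rw [← Equiv.Perm.mem_support, hss]; exact Finset.mem_univ _)
    exact ⟨⟨(f s) ^ i, ⟨s ^ i, map_zpow f s i⟩⟩, hi⟩
  have hpr : MulAction.IsPreprimitive f.range (Fin 5) :=
    MulAction.IsPreprimitive.of_prime_card (by simp; norm_num)
  have hle : alternatingGroup (Fin 5) ≤ f.range :=
    Equiv.Perm.alternatingGroup_le_of_isPreprimitive_of_isThreeCycle_mem hpr ht3 ⟨t, rfl⟩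
  have e : H ≃* f.range := MonoidHom.ofInjective hf
  by_cases h : f.range = ⊤
  · right
    exact ⟨(e.trans (MulEquiv.subgroupCongr h)).trans Subgroup.topEquiv⟩
  · left
    have h1 : alternatingGroup (Fin 5) = f.range := by
      have h2 := two_mul_nat_card_alternatingGroup (α := Fin 5)
      have h4 : Nat.card f.range ∣ Nat.card (Equiv.Perm (Fin 5)) := Subgroup.card_subgroup_dvd_card _
      have h6 : Nat.card (Equiv.Perm (Fin 5)) = 120 := by
        rw [Nat.card_perm]
        simp [Nat.factorial]
      apply Subgroup.eq_of_le_of_card_ge hle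
      by_contra h7
      rw [h6] at h2 h4
      obtain ⟨k, hk⟩ := h4
      have h8 : k = 1 := by
        rcases k with _ | _ | k
        · omega
        · rfl
        · exfalso
          have h9 : 2 * Nat.card f.range ≤ Nat.card f.range * (k + 1 + 1) := by nlinarith
          omega
      apply h
      rw [h8, mul_one] at hk
      exact Subgroup.eq_top_of_card_eq _ (by rw [h6, hk])
    exact ⟨e.trans (MulEquiv.subgroupCongr h1.symm)⟩


lemma subs5_cent (g : Equiv.Perm (Fin 5)) (hg : orderOf g = 5) :
    Nat.card (Subgroup.centralizer {g}) = 5 := by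
  have hc : g.IsCycle := Equiv.Perm.isCycle_of_prime_order'' (by norm_num) (by simp [hg])
  have hs : g.support.card = 5 := by rw [← hc.orderOf, hg]
  rw [Equiv.Perm.nat_card_centralizer, hc.cycleType, hs]
  simp

/-- orders divisible by 5 and not by 3 -/
lemma subs5_twenty {H : Type} [Group H] [Finite H] (f : H →* Equiv.Perm (Fin 5))
    (hf : Function.Injective f) (h5 : 5 ∣ Nat.card H) (h3 : ¬ 3 ∣ Nat.card H) : SolList H := by
  have : Fact (Nat.Prime 5) := ⟨by norm_num⟩
  have hd : Nat.card H ∣ 120 := by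
    have h := Subgroup.card_dvd_of_injective f hf
    rw [Nat.card_perm] at h
    simpa [Nat.factorial] using h
  obtain ⟨m, hm⟩ := h5
  have hm1 : m ∣ 24 := by
    rw [hm] at hd
    exact Nat.dvd_of_mul_dvd_mul_left (by norm_num : 0 < 5) (by simpa using hd)
  have hm8 : m = 1 ∨ m = 2 ∨ m = 4 ∨ m = 8 := by
    have h1 : m ≤ 24 := Nat.le_of_dvd (by norm_num) hm1
    rw [hm] at h3
    interval_cases m <;> omega
  obtain ⟨P⟩ : Nonempty (Sylow 5 H) := inferInstance
  have hP : Nat.card P = 5 := by
    have h1 : 5 ^ 1 ∣ Nat.card P := P.pow_dvd_card_of_pow_dvd_card (by rw [hm]; simp)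
    have h2 := P.card_coprime_index
    have h3 := (P : Subgroup H).card_mul_index
    obtain ⟨k, hk⟩ := P.2.exists_card_eq
    change Nat.card P = 5 ^ k at hk
    have h4 : Nat.card P * (P : Subgroup H).index = 5 * m := by rw [← hm]; exact h3
    rcases k with _ | _ | k
    · rw [hk] at h1
      norm_num at h1
    · rw [hk]
      norm_num
    · exfalso
      rw [hk] at h4
      have h6 : 5 * (5 ^ k * 5 * (P : Subgroup H).index) = 5 * m := by rw [← h4]; ring
      have h7 := Nat.eq_of_mul_eq_mul_left (by norm_num) h6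
      have h8 : 5 ∣ m := ⟨5 ^ k * (P : Subgroup H).index, by rw [← h7]; ring⟩
      omega
  have hPi : (P : Subgroup H).index = m := by
    have h3 := (P : Subgroup H).card_mul_index
    rw [hm] at h3
    change Nat.card P * _ = _ at h3
    rw [hP] at h3
    exact Nat.eq_of_mul_eq_mul_left (by norm_num) h3
  have hn : Nat.card (Sylow 5 H) = 1 := by
    have h1 := card_sylow_modEq_one 5 H
    have h2 := P.card_dvd_index
    rw [hPi] at h2
    have h4 : Nat.card (Sylow 5 H) ∣ 8 := h2.trans (by rcases hm8 with rfl | rfl | rfl | rfl <;> norm_num)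
    have h5 : Nat.card (Sylow 5 H) ≤ 8 := Nat.le_of_dvd (by norm_num) h4
    unfold Nat.ModEq at h1
    generalize Nat.card (Sylow 5 H) = n at *
    interval_cases n <;> omega
  have hPn : (P : Subgroup H).Normal := by
    rw [← Subgroup.normalizer_eq_top_iff, ← Subgroup.index_eq_one]
    exact P.card_eq_index_normalizer.symm.trans hn
  obtain ⟨s, hs⟩ := exists_prime_orderOf_dvd_card' (G := P) 5 (by rw [hP])
  have hs1 : orderOf (s : H) = 5 := by rw [Subgroup.orderOf_coe, hs]
  have hs2 : orderOf (f s) = 5 := by rw [orderOf_injective f hf, hs1]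
  have hC : Nat.card (Subgroup.centralizer ((P : Subgroup H) : Set H)) = 5 := by
    apply le_antisymm
    · refine le_trans ?_ (le_of_eq (subs5_cent (f s) hs2))
      refine Nat.card_le_card_of_injective (fun x => ⟨f x.1, ?_⟩) ?_
      · rw [Subgroup.mem_centralizer_iff]
        intro y hy
        rw [Set.mem_singleton_iff] at hy
        subst hy
        rw [← map_mul, ← map_mul, Subgroup.mem_centralizer_iff.mp x.2 s s.2]
      · intro x y hxy
        have := congrArg Subtype.val hxy
        exact Subtype.ext (hf this)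
    · have h1 := cent_le (by norm_num : Nat.Prime 5) (P : Subgroup H) hP
      have h2 := Subgroup.card_le_of_le h1
      change Nat.card P ≤ _ at h2
      rw [hP] at h2
      exact h2
  by_cases hm2 : m = 1
  · exact small_list (by rw [hm, hm2]; norm_num)
  · have hcyc : IsCyclic (MulAut (P : Subgroup H)) :=
      (mulAut_prime_cyc (by norm_num : Nat.Prime 5) hP).1
    have hker : (MulAut.conjNormal : H →* MulAut (P : Subgroup H)).ker = (P : Subgroup H) := by
      rw [← cent_eq_ker]
      symm
      apply Subgroup.eq_of_le_of_card_ge (cent_le (by norm_num : Nat.Prime 5) (P : Subgroup H) hP)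
      rw [hC]
      rw [hP]
    refine ⟨inferInstance, Or.inr (Or.inr (Or.inr (Or.inr (Or.inr (Or.inr (int_meta
      ⟨5, 1, m, MulAut (P : Subgroup H), IsCyclic.commGroup, MulAut.conjNormal, by norm_num, ?_, ?_, ?_, ?_, ?_, ?_⟩))))))⟩
    · rw [hker]; exact hP
    · rw [hker, hC]
    · rw [hm]
    · omega
    · exact Or.inl ⟨rfl, goodPP_5⟩
    · intro h
      omega

/-- groups that embed in the symmetric group of degree 5 are in the list -/
theorem perm5_sub {H : Type} [Group H] (f : H →* Equiv.Perm (Fin 5)) (hf : Function.Injective f) :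
    FinList H := by
  have : Finite H := Finite.of_injective f hf
  by_cases h5 : 5 ∣ Nat.card H
  · by_cases h3 : 3 ∣ Nat.card H
    · rcases subs5_fifteen f hf h5 h3 with h | h
      · exact Or.inr (Or.inl h)
      · exact Or.inr (Or.inr (Or.inl h))
    · exact Or.inl (subs5_twenty f hf h5 h3)
  · exact Or.inl (subs5_not_five f hf h5)

end Pool.Agent.SHAF
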