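import Mathlib
import Pool.Agent.SHAN.AutA5
import Pool.Agent.SHAN.SubS5

set_option autoImplicit false

/-!
Automorphisms of `SL(2,5)` and closure under automorphism groups (module AUTBI).
-/

namespace Pool.Agent.SHAF

open Pool.Agent.SHA

/-- an automorphism of `G` that is the identity modulo `ker π` is the identity -/
theorem autbi_fix {G : Type} [Group G] (h : BinIco G) (π : G →* alternatingGroup (Fin 5))
    (hπ : Function.Surjective π) (hk : Nat.card π.ker = 2) (hi : ∀ g : G, g * g = 1 → g ∈ π.ker)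
    (α : MulAut G) (hα : ∀ g, π (α g) = π g) : α = 1 := by
  obtain ⟨hfin, hcard, -, -, hcen, -⟩ := binico_facts h
  have hsq : ∀ z ∈ π.ker, z * z = 1 := by
    intro z hz
    have h1 : (⟨z, hz⟩ : π.ker) ^ Nat.card π.ker = 1 := pow_card_eq_one'
    rw [hk, pow_two] at h1
    exact congrArg Subtype.val h1
  have hχ : ∀ g, g⁻¹ * α g ∈ π.ker := by
    intro g
    rw [MonoidHom.mem_ker, map_mul, map_inv, hα, inv_mul_cancel]
  let χ : G →* π.ker :=
    { toFun := fun g => ⟨g⁻¹ * α g, hχ g⟩
      map_one' := Subtype.ext (by simp)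
      map_mul' := fun g k => Subtype.ext (by
        show (g * k)⁻¹ * α (g * k) = g⁻¹ * α g * (k⁻¹ * α k)
        have h1 := hcen _ (hsq _ (hχ g)) k⁻¹
        rw [map_mul, mul_inv_rev]
        calc k⁻¹ * g⁻¹ * (α g * α k) = k⁻¹ * (g⁻¹ * α g) * α k := by group
          _ = g⁻¹ * α g * k⁻¹ * α k := by rw [h1]
          _ = g⁻¹ * α g * (k⁻¹ * α k) := by group) }
  have hidx : χ.ker.index ∣ 2 := by
    rw [Subgroup.index_ker, ← hk]
    exact Subgroup.card_subgroup_dvd_card _
  have hfix : ∀ g ∈ χ.ker, α g = g := by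
    intro g hg
    have h1 : g⁻¹ * α g = 1 := congrArg Subtype.val (MonoidHom.mem_ker.1 hg)
    exact (inv_mul_eq_one.1 h1).symm
  rcases (Nat.dvd_prime Nat.prime_two).1 hidx with h1 | h1
  · rw [Subgroup.index_eq_one] at h1
    ext g
    exact hfix g (h1 ▸ Subgroup.mem_top g)
  exfalso
  have hK : Nat.card χ.ker = 60 := by
    have h2 := χ.ker.card_mul_index
    rw [h1, hcard] at h2
    omega
  have hmap : (χ.ker.map π) = ⊤ := by
    have h2 : (χ.ker.map π).index ∣ 2 := by
      have h3 := Subgroup.index_map_dvd χ.ker hπ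
      rwa [h1] at h3
    rcases (Nat.dvd_prime Nat.prime_two).1 h2 with h3 | h3
    · exact Subgroup.index_eq_one.1 h3
    · exfalso
      have hn : (χ.ker.map π).Normal := Subgroup.normal_of_index_eq_two h3
      have hs : IsSimpleGroup (alternatingGroup (Fin 5)) := alternatingGroup.isSimpleGroup_five
      rcases hs.eq_bot_or_eq_top_of_normal _ hn with h4 | h4
      · rw [h4, Subgroup.index_bot, a5_facts.1] at h3
        omega
      · rw [h4, Subgroup.index_top] at h3
        omega
  let ρ : χ.ker → alternatingGroup (Fin 5) := fun k => π k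
  have hρ : Function.Surjective ρ := by
    intro a
    have ha : a ∈ χ.ker.map π := hmap ▸ Subgroup.mem_top a
    obtain ⟨k, hk, rfl⟩ := Subgroup.mem_map.1 ha
    exact ⟨⟨k, hk⟩, rfl⟩
  have hρ' : Function.Bijective ρ :=
    hρ.bijective_of_nat_card_le (by rw [hK, a5_facts.1])
  obtain ⟨y, hy⟩ := exists_prime_orderOf_dvd_card' (G := χ.ker) 2 (by rw [hK]; norm_num)
  have hyy : (y : G) * (y : G) = 1 := by
    have h2 := pow_orderOf_eq_one y
    rw [hy, pow_two] at h2
    exact congrArg Subtype.val h2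
  have h2 : ρ y = ρ 1 := by
    show π (y : G) = π ((1 : χ.ker) : G)
    rw [MonoidHom.mem_ker.1 (hi _ hyy)]
    exact (map_one π).symm
  have h3 : y = 1 := hρ'.1 h2
  rw [h3, orderOf_one] at hy
  omega

theorem aut_binico {G : Type} [Group G] (h : BinIco G) :
    ∃ f : MulAut G →* MulAut (alternatingGroup (Fin 5)), Function.Injective f := by
  obtain ⟨π, hπ, hk, hi⟩ := id h
  have hsq : ∀ z ∈ π.ker, z * z = 1 := by
    intro z hz
    have h1 : (⟨z, hz⟩ : π.ker) ^ Nat.card π.ker = 1 := pow_card_eq_one'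
    rw [hk, pow_two] at h1
    exact congrArg Subtype.val h1
  have key : ∀ (α : MulAut G) (g g' : G), π g = π g' → π (α g) = π (α g') := by
    intro α g g' hg
    have h1 : g⁻¹ * g' ∈ π.ker := by
      rw [MonoidHom.mem_ker, map_mul, map_inv, hg, inv_mul_cancel]
    have h2 : α (g⁻¹ * g') ∈ π.ker := by
      apply hi
      rw [← map_mul, hsq _ h1, map_one]
    rw [MonoidHom.mem_ker, map_mul, map_inv, map_mul, map_inv] at h2
    exact inv_mul_eq_one.1 h2
  let s := Function.surjInv hπ
  have hs : ∀ a, π (s a) = a := Function.surjInv_eq hπ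
  let F : MulAut G → MulAut (alternatingGroup (Fin 5)) := fun α =>
    { toFun := fun a => π (α (s a))
      invFun := fun a => π (α⁻¹ (s a))
      left_inv := fun a => by
        show π (α⁻¹ (s (π (α (s a))))) = a
        rw [key α⁻¹ _ (α (s a)) (hs _), MulAut.inv_apply_self, hs]
      right_inv := fun a => by
        show π (α (s (π (α⁻¹ (s a))))) = a
        rw [key α _ (α⁻¹ (s a)) (hs _), MulAut.apply_inv_self, hs]
      map_mul' := fun a b => by
        show π (α (s (a * b))) = π (α (s a)) * π (α (s b))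
        rw [key α _ (s a * s b) (by rw [hs, map_mul, hs, hs]), map_mul, map_mul] }
  have hF : ∀ α g, F α (π g) = π (α g) := fun α g => key α _ _ (hs _)
  let f : MulAut G →* MulAut (alternatingGroup (Fin 5)) :=
    { toFun := F
      map_one' := by
        ext1 a
        exact hs a
      map_mul' := fun α β => by
        ext1 a
        show π (α (β (s a))) = F α (F β a)
        exact (hF α (β (s a))).symm }
  refine ⟨f, ?_⟩
  rw [injective_iff_map_eq_one]
  intro α hα
  refine autbi_fix h π hπ hk hi α fun g => ?_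
  rw [← hF α g]
  have h1 : F α = 1 := hα
  rw [h1]
  rfl

theorem fin_aut {G : Type} [Group G] (h : FinList G) : FinList (MulAut G) := by
  obtain ⟨f, hf⟩ := aut_a5
  rcases h with h | ⟨⟨e⟩⟩ | ⟨⟨e⟩⟩ | h
  · exact Or.inl (list_aut h)
  · exact perm5_sub (f.comp (MulAut.congr e).toMonoidHom) (hf.comp (MulAut.congr e).injective)
  · obtain ⟨g, hg⟩ := aut_s5
    exact perm5_sub ((f.comp g).comp (MulAut.congr e).toMonoidHom)
      ((hf.comp hg).comp (MulAut.congr e).injective)
  · obtain ⟨g, hg⟩ := aut_binico h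
    exact perm5_sub (f.comp g) (hf.comp hg)

end Pool.Agent.SHAF
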