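import Mathlib
import Pool.Agent.SHAF.GoodDefs

set_option autoImplicit false

/-!
Arithmetic (modules AR1, AR2, AR3).
-/

namespace Pool.Agent.SHAF

/-- the local data at the prime `p` -/
structure Loc (a n p s : ℕ) : Prop where
  hp : p.Prime
  hp2 : p ≠ 2
  ha : ¬ p ∣ a
  good : GoodPP p
  even : 2 ∣ s
  pos : 0 < s
  cd : ∃ c d, s * (c * d) = a ∧ 2 ∣ d ∧ d ∣ p - 1 ∧ (c = 1 ∨ (c = 3 ∧ (p = 5 ∨ (p = 7 ∧ d = 2))))
  syl : ∃ N, N * p = s * n ∧ N % p = 1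
  sq : ¬ p ^ 2 ∣ n

end Pool.Agent.SHAF
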