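import Mathlib
import Pool.Agent.SHAN.Arith

set_option autoImplicit false

/-!
Arithmetic, Klein four-groups (module AR2).
-/

namespace Pool.Agent.SHAF

lemma ar2_good {m : ℕ} (h : GoodPP m) (hp : m.Prime) (hm : m ≤ 400) :
    m = 3 ∨ m = 5 ∨ m = 7 ∨ m = 11 ∨ m = 13 ∨ m = 17 ∨ m = 19 ∨ m = 23 ∨ m = 29 ∨ m = 31 ∨
      m = 37 ∨ m = 43 ∨ m = 47 ∨ m = 59 ∨ m = 163 := by
  rcases h with ⟨k, hk, rfl⟩ | h | ⟨_, j, hj, rfl⟩
  · have h1 : (3 : ℕ) ∣ 3 ^ k := dvd_pow_self 3 (by omega)
    have h2 := (Nat.prime_dvd_prime_iff_eq Nat.prime_three hp).1 h1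
    left
    exact h2.symm
  · simp only [List.mem_cons, List.not_mem_nil, or_false] at h
    have h25 : m ≠ 25 := by
      rintro rfl
      revert hp
      norm_num
    have h49 : m ≠ 49 := by
      rintro rfl
      revert hp
      norm_num
    omega
  · have hj5 : j < 5 := by
      by_contra hj5
      have := Nat.pow_le_pow_right (n := 3) (by norm_num) (not_lt.1 hj5)
      norm_num at this
      omega
    interval_cases j
    · right; right; left; norm_num
    · norm_num
    · exfalso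
      revert hp
      norm_num
    · norm_num

lemma ar2_dvd {a n p s : ℕ} (h : Loc a n p s) : p ∣ n := by
  obtain ⟨N, hN, _⟩ := h.syl
  obtain ⟨c, d, hcd, _⟩ := h.cd
  have h0 : p ∣ s * n := ⟨N, by rw [← hN, mul_comm]⟩
  rcases h.hp.dvd_mul.1 h0 with h1 | h1
  · exact absurd (h1.trans ⟨c * d, hcd.symm⟩) h.ha
  · exact h1

lemma ar2_odd {a n p s : ℕ} (h : Loc a n p s) : 3 ≤ p ∧ p % 2 = 1 := by
  have h1 := h.hp.eq_two_or_odd
  have h2 := h.hp2
  have h3 := h.hp.two_le
  omega

lemma ar2_half {a n p s : ℕ} (ha : 0 < a) (h : Loc a n p s) : 2 * s ≤ a := by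
  obtain ⟨c, d, hcd, ⟨e, he⟩, _⟩ := h.cd
  have hc : 0 < c := by
    rcases Nat.eq_zero_or_pos c with h0 | h0
    · rw [h0, zero_mul, mul_zero] at hcd
      omega
    · exact h0
  have he0 : 0 < e := by
    rcases Nat.eq_zero_or_pos e with h0 | h0
    · rw [he, h0, mul_zero, mul_zero, mul_zero] at hcd
      omega
    · exact h0
  have h1 : 1 ≤ c * e := Nat.mul_pos hc he0
  calc 2 * s = (2 * s) * 1 := (mul_one _).symm
    _ ≤ (2 * s) * (c * e) := Nat.mul_le_mul_left _ h1
    _ = s * (c * (2 * e)) := by ring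
    _ = a := by rw [← he, hcd]

lemma ar2_prod (k : ℕ) : ∀ U : Finset ℕ, U.card = k → (∀ p ∈ U, 3 ≤ p ∧ p % 2 = 1) →
    ∏ i ∈ Finset.range k, (2 * i + 3) ≤ ∏ p ∈ U, p := by
  induction k with
  | zero =>
    intro U hU _
    rw [Finset.card_eq_zero] at hU
    simp [hU]
  | succ k ih =>
    intro U hU h
    have hne : U.Nonempty := by
      rw [← Finset.card_pos, hU]
      exact Nat.succ_pos k
    obtain ⟨m, hm, hmax⟩ := U.exists_max_image id hne
    have hk : (U.erase m).card = k := by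
      rw [Finset.card_erase_of_mem hm, hU]
      rfl
    have h1 := ih (U.erase m) hk fun p hp => h p (Finset.mem_of_mem_erase hp)
    have h2 : 2 * k + 3 ≤ m := by
      have h3 : U.card ≤ (Finset.range ((m - 1) / 2)).card := by
        refine Finset.card_le_card_of_injOn (fun x => (x - 3) / 2) ?_ ?_
        · intro x hx
          have hx' := h x hx
          have hx2 : x ≤ m := hmax x hx
          simp only [Finset.coe_range, Set.mem_Iio]
          omega
        · intro x hx y hy hxy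
          have hx' := h x hx
          have hy' := h y hy
          simp only at hxy
          omega
      rw [hU, Finset.card_range] at h3
      omega
    rw [Finset.prod_range_succ, ← Finset.mul_prod_erase U (fun x => x) hm, mul_comm]
    exact Nat.mul_le_mul h2 h1

lemma ar2_dfac (j : ℕ) : 35 * (j + 3) ≤ ∏ i ∈ Finset.range (j + 3), (2 * i + 3) := by
  induction j with
  | zero => decide
  | succ j ih =>
    rw [show j + 1 + 3 = (j + 3) + 1 by ring, Finset.prod_range_succ]
    calc 35 * (j + 3 + 1) ≤ 35 * (j + 3) * (2 * (j + 3) + 3) := by nlinarith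
      _ ≤ _ := Nat.mul_le_mul_right _ ih

/-- at most three primes -/
lemma ar2_card {a n B : ℕ} (ha0 : 0 < a) (ha : a ≤ 28) (hB : B ≤ 183) (T : Finset ℕ) (s : ℕ → ℕ)
    (hL : ∀ p ∈ T, Loc a n p (s p)) (hn : n = B + ∑ p ∈ T, (p - 1) * s p) : T.card ≤ 3 := by
  by_contra hcard
  push Not at hcard
  have hne : T.Nonempty := Finset.card_pos.1 (by omega)
  obtain ⟨q, hq, hmax⟩ := T.exists_max_image id hne
  obtain ⟨j, hj⟩ : ∃ j, T.card = j + 4 := ⟨T.card - 4, by omega⟩
  have hk : (T.erase q).card = j + 3 := by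
    rw [Finset.card_erase_of_mem hq, hj]
    rfl
  have h1 := ar2_prod (j + 3) (T.erase q) hk fun p hp => ar2_odd (hL p (Finset.mem_of_mem_erase hp))
  have h2 := (ar2_dfac j).trans h1
  have h3 : ∏ p ∈ T, p ∣ n := by
    apply Finset.prod_primes_dvd
    · intro p hp
      exact (hL p hp).hp.prime
    · intro p hp
      exact ar2_dvd (hL p hp)
  have hqL := hL q hq
  have hq3 := ar2_odd hqL
  have hterm : 0 < (q - 1) * s q := Nat.mul_pos (by omega) hqL.pos
  have hn0 : 0 < n := by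
    have h4 := Finset.single_le_sum (f := fun p => (p - 1) * s p) (fun p _ => Nat.zero_le _) hq
    omega
  have h5 := Nat.le_of_dvd hn0 h3
  rw [← Finset.mul_prod_erase T (fun x => x) hq] at h5
  have h6 : ∑ p ∈ T, (p - 1) * s p ≤ T.card • ((q - 1) * 14) := by
    apply Finset.sum_le_card_nsmul
    intro p hp
    have h7 := ar2_half ha0 (hL p hp)
    have h8 : p ≤ q := hmax p hp
    exact Nat.mul_le_mul (by omega) (by omega)
  rw [smul_eq_mul, hj] at h6
  have h9 : q * (35 * (j + 3)) ≤ q * ∏ p ∈ T.erase q, p := Nat.mul_le_mul_left _ h2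
  have h10 : q * (35 * (j + 3)) ≤ 183 + (j + 4) * ((q - 1) * 14) := by
    calc q * (35 * (j + 3)) ≤ q * ∏ p ∈ T.erase q, p := h9
      _ ≤ n := h5
      _ ≤ _ := by omega
  have hq4 : 4 ≤ q := by
    obtain ⟨p, hp⟩ : (T.erase q).Nonempty := Finset.card_pos.1 (by omega)
    have h11 := ar2_odd (hL p (Finset.mem_of_mem_erase hp))
    have h12 : p ≤ q := hmax p (Finset.mem_of_mem_erase hp)
    have h13 : p ≠ q := Finset.ne_of_mem_erase hp
    omega
  obtain ⟨r, rfl⟩ : ∃ r, q = r + 1 := ⟨q - 1, by omega⟩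
  rw [Nat.add_sub_cancel] at h10
  have hr : 3 ≤ r := by omega
  nlinarith [Nat.zero_le (j * r)]

lemma ar2_w {n q C t : ℕ} (hq : q ∣ n) (hn : n = C + (q - 1) * t) (hq1 : 1 ≤ q) (ht : t ≤ C) :
    q ∣ C - t := by
  obtain ⟨r, rfl⟩ : ∃ r, q = r + 1 := ⟨q - 1, by omega⟩
  rw [Nat.add_sub_cancel] at hn
  have h1 : n = (C - t) + (r + 1) * t := by
    rw [hn, Nat.add_mul, one_mul]
    omega
  rw [h1] at hq
  exact (Nat.dvd_add_left (Dvd.intro _ rfl)).1 hq

lemma ar2_s20 {n p s : ℕ} (h : Loc 20 n p s) : (s = 2 ∧ 10 ∣ p - 1) ∨ s = 10 := by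
  obtain ⟨c, d, hcd, h2d, hdp, hc⟩ := h.cd
  have hs : s ≤ 10 := by
    have := ar2_half (by norm_num) h
    omega
  have he := h.even
  have hpos := h.pos
  rcases hc with rfl | ⟨rfl, _⟩
  · rw [one_mul] at hcd
    interval_cases s <;> first | omega | (obtain rfl : d = 10 := by omega
                                          exact Or.inl ⟨rfl, hdp⟩)
  · interval_cases s <;> omega

lemma ar2_s28 {n p s : ℕ} (h : Loc 28 n p s) : (s = 2 ∧ 14 ∣ p - 1) ∨ s = 14 := by
  obtain ⟨c, d, hcd, h2d, hdp, hc⟩ := h.cd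
  have hs : s ≤ 14 := by
    have := ar2_half (by norm_num) h
    omega
  have he := h.even
  have hpos := h.pos
  rcases hc with rfl | ⟨rfl, _⟩
  · rw [one_mul] at hcd
    interval_cases s <;> first | omega | (obtain rfl : d = 14 := by omega
                                          exact Or.inl ⟨rfl, hdp⟩)
  · interval_cases s <;> omega

lemma ar2_s8 {n p s : ℕ} (h : Loc 8 n p s) : (s = 2 ∧ 4 ∣ p - 1) ∨ s = 4 := by
  obtain ⟨c, d, hcd, h2d, hdp, hc⟩ := h.cd
  have hs : s ≤ 4 := by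
    have := ar2_half (by norm_num) h
    omega
  have he := h.even
  have hpos := h.pos
  rcases hc with rfl | ⟨rfl, _⟩
  · rw [one_mul] at hcd
    interval_cases s <;> first | omega | (obtain rfl : d = 4 := by omega
                                          exact Or.inl ⟨rfl, hdp⟩)
  · interval_cases s <;> omega

/-- the sum over a set with at most three elements, one of them 3 -/
lemma ar2_three {T : Finset ℕ} (h3 : 3 ∈ T) (hc : T.card ≤ 3) (f : ℕ → ℕ) :
    (∑ p ∈ T, f p = f 3 ∧ T = {3}) ∨ (∃ q ∈ T, q ≠ 3 ∧ ∑ p ∈ T, f p = f 3 + f q) ∨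
      ∃ p ∈ T, ∃ q ∈ T, p ≠ 3 ∧ q ≠ 3 ∧ p < q ∧ ∑ p ∈ T, f p = f 3 + (f p + f q) := by
  have h1 : (T.erase 3).card ≤ 2 := by
    rw [Finset.card_erase_of_mem h3]
    omega
  have h2 : ∑ p ∈ T, f p = f 3 + ∑ p ∈ T.erase 3, f p := (Finset.add_sum_erase T f h3).symm
  rcases Nat.lt_or_ge (T.erase 3).card 1 with h4 | h4
  · left
    have h5 : T.erase 3 = ∅ := Finset.card_eq_zero.1 (by omega)
    rw [h2, h5, Finset.sum_empty, add_zero]
    refine ⟨rfl, ?_⟩
    rw [← Finset.insert_erase h3, h5]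
    rfl
  · right
    rcases Nat.lt_or_ge (T.erase 3).card 2 with h5 | h5
    · left
      obtain ⟨q, hq⟩ := Finset.card_eq_one.1 (show (T.erase 3).card = 1 by omega)
      have hq' : q ∈ T.erase 3 := by rw [hq]; exact Finset.mem_singleton_self q
      refine ⟨q, Finset.mem_of_mem_erase hq', Finset.ne_of_mem_erase hq', ?_⟩
      rw [h2, hq, Finset.sum_singleton]
    · right
      obtain ⟨x, y, hxy, hq⟩ := Finset.card_eq_two.1 (show (T.erase 3).card = 2 by omega)
      have hx : x ∈ T.erase 3 := by rw [hq]; simp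
      have hy : y ∈ T.erase 3 := by rw [hq]; simp
      rcases lt_or_gt_of_ne hxy with hlt | hlt
      · refine ⟨x, Finset.mem_of_mem_erase hx, y, Finset.mem_of_mem_erase hy,
          Finset.ne_of_mem_erase hx, Finset.ne_of_mem_erase hy, hlt, ?_⟩
        rw [h2, hq, Finset.sum_pair hxy]
      · refine ⟨y, Finset.mem_of_mem_erase hy, x, Finset.mem_of_mem_erase hx,
          Finset.ne_of_mem_erase hy, Finset.ne_of_mem_erase hx, hlt, ?_⟩
        rw [h2, hq, Finset.sum_pair hxy, add_comm (f x)]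

lemma ar2_mul3 {n p q : ℕ} (hp : p.Prime) (hq : q.Prime) (hp3 : p ≠ 3) (hq3 : q ≠ 3) (hpq : p < q)
    (h3n : 3 ∣ n) (hpn : p ∣ n) (hqn : q ∣ n) : 3 * (p * q) ∣ n := by
  have h1 : Nat.Coprime p q := (Nat.coprime_primes hp hq).2 hpq.ne
  have h2 : p * q ∣ n := h1.mul_dvd_of_dvd_of_dvd hpn hqn
  have h3 : Nat.Coprime 3 (p * q) :=
    Nat.Coprime.mul_right ((Nat.coprime_primes Nat.prime_three hp).2 (Ne.symm hp3))
      ((Nat.coprime_primes Nat.prime_three hq).2 (Ne.symm hq3))
  exact h3.mul_dvd_of_dvd_of_dvd h3n h2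

theorem arith_k20 (n : ℕ) (T : Finset ℕ) (s : ℕ → ℕ) (h : ∀ p ∈ T, Loc 20 n p (s p))
    (h3 : 3 ∈ T) (hn : n = 91 + ∑ p ∈ T, (p - 1) * s p) : n = 111 := by
  have hc := ar2_card (by norm_num) (by norm_num) (by norm_num) T s h hn
  have hs3 : s 3 = 10 := by
    have := ar2_s20 (h 3 h3)
    omega
  have h3n := ar2_dvd (h 3 h3)
  rcases ar2_three h3 hc (fun p => (p - 1) * s p) with ⟨h1, _⟩ | ⟨q, hq, hq3, h1⟩ |
    ⟨p, hp, q, hq, hp3, hq3, hpq, h1⟩
  · rw [h1] at hn
    simp only [hs3] at hn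
    omega
  · exfalso
    rw [h1] at hn
    simp only [hs3] at hn
    have hqL := h q hq
    have hqn := ar2_dvd hqL
    have hq1 := ar2_odd hqL
    have hsq := ar2_s20 hqL
    have hw := ar2_w (C := 111) (t := s q) hqn (by omega) (by omega) (by omega)
    have hq4 : q ≤ 400 := (Nat.le_of_dvd (by omega) hw).trans (by omega)
    rcases ar2_good hqL.good hqL.hp hq4 with rfl | rfl | rfl | rfl | rfl | rfl | rfl | rfl | rfl |
      rfl | rfl | rfl | rfl | rfl | rfl <;>
      rcases hsq with ⟨h5, h6⟩ | h5 <;> rw [h5] at hw hn <;> omega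
  · exfalso
    rw [h1] at hn
    simp only [hs3] at hn
    have hpL := h p hp
    have hqL := h q hq
    have hpn := ar2_dvd hpL
    have hqn := ar2_dvd hqL
    have hp1 := ar2_odd hpL
    have hq1 := ar2_odd hqL
    have hsp := ar2_s20 hpL
    have hsq := ar2_s20 hqL
    have hn0 : 0 < n := by omega
    have h7 := Nat.le_of_dvd hn0 (ar2_mul3 hpL.hp hqL.hp hp3 hq3 hpq h3n hpn hqn)
    have hp10 : p ≤ 10 := by
      by_contra hp10
      push Not at hp10
      have h8 : (p - 1) * s p ≤ (p - 1) * 10 := Nat.mul_le_mul_left _ (by omega)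
      have h9 : (q - 1) * s q ≤ (q - 1) * 10 := Nat.mul_le_mul_left _ (by omega)
      have h10 : 11 * q ≤ p * q := Nat.mul_le_mul_right _ hp10
      omega
    have hp7 : p = 7 := by
      have h8 := ar2_good hpL.good hpL.hp (by omega)
      have h9 : p ≠ 5 := by
        rintro rfl
        exact hpL.ha (by norm_num)
      omega
    subst hp7
    have hs7 : s 7 = 10 := by omega
    rw [hs7] at hn
    have hw := ar2_w (C := 171) (t := s q) hqn (by omega) (by omega) (by omega)
    have hq4 : q ≤ 400 := (Nat.le_of_dvd (by omega) hw).trans (by omega)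
    rcases ar2_good hqL.good hqL.hp hq4 with rfl | rfl | rfl | rfl | rfl | rfl | rfl | rfl | rfl |
      rfl | rfl | rfl | rfl | rfl | rfl <;>
      rcases hsq with ⟨h5, h6⟩ | h5 <;> rw [h5] at hw hn <;> omega

theorem arith_k28 (n : ℕ) (T : Finset ℕ) (s : ℕ → ℕ) (h : ∀ p ∈ T, Loc 28 n p (s p))
    (h3 : 3 ∈ T) (hn : n = 183 + ∑ p ∈ T, (p - 1) * s p) : False := by
  have hc := ar2_card (by norm_num) (by norm_num) (by norm_num) T s h hn
  have hs3 : s 3 = 14 := by
    have := ar2_s28 (h 3 h3)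
    omega
  have h3n := ar2_dvd (h 3 h3)
  rcases ar2_three h3 hc (fun p => (p - 1) * s p) with ⟨h1, _⟩ | ⟨q, hq, hq3, h1⟩ |
    ⟨p, hp, q, hq, hp3, hq3, hpq, h1⟩
  · rw [h1] at hn
    simp only [hs3] at hn
    omega
  · rw [h1] at hn
    simp only [hs3] at hn
    have hqL := h q hq
    have hqn := ar2_dvd hqL
    have hq1 := ar2_odd hqL
    have hsq := ar2_s28 hqL
    have hw := ar2_w (C := 211) (t := s q) hqn (by omega) (by omega) (by omega)
    have hq4 : q ≤ 400 := (Nat.le_of_dvd (by omega) hw).trans (by omega)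
    rcases ar2_good hqL.good hqL.hp hq4 with rfl | rfl | rfl | rfl | rfl | rfl | rfl | rfl | rfl |
      rfl | rfl | rfl | rfl | rfl | rfl <;>
      rcases hsq with ⟨h5, h6⟩ | h5 <;> rw [h5] at hw hn <;> omega
  · rw [h1] at hn
    simp only [hs3] at hn
    have hpL := h p hp
    have hqL := h q hq
    have hpn := ar2_dvd hpL
    have hqn := ar2_dvd hqL
    have hp1 := ar2_odd hpL
    have hq1 := ar2_odd hqL
    have hsp := ar2_s28 hpL
    have hsq := ar2_s28 hqL
    have hn0 : 0 < n := by omega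
    have h7 := Nat.le_of_dvd hn0 (ar2_mul3 hpL.hp hqL.hp hp3 hq3 hpq h3n hpn hqn)
    have hp12 : p ≤ 12 := by
      by_contra hp12
      push Not at hp12
      have h8 : (p - 1) * s p ≤ (p - 1) * 14 := Nat.mul_le_mul_left _ (by omega)
      have h9 : (q - 1) * s q ≤ (q - 1) * 14 := Nat.mul_le_mul_left _ (by omega)
      have h10 : 13 * q ≤ p * q := Nat.mul_le_mul_right _ hp12
      omega
    have hp7 : p = 5 ∨ p = 11 := by
      have h8 := ar2_good hpL.good hpL.hp (by omega)
      have h9 : p ≠ 7 := by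
        rintro rfl
        exact hpL.ha (by norm_num)
      omega
    rcases hp7 with rfl | rfl
    · have hs7 : s 5 = 14 := by omega
      rw [hs7] at hn
      have hw := ar2_w (C := 267) (t := s q) hqn (by omega) (by omega) (by omega)
      have hq4 : q ≤ 400 := (Nat.le_of_dvd (by omega) hw).trans (by omega)
      rcases ar2_good hqL.good hqL.hp hq4 with rfl | rfl | rfl | rfl | rfl | rfl | rfl | rfl | rfl |
        rfl | rfl | rfl | rfl | rfl | rfl <;>
        rcases hsq with ⟨h5, h6⟩ | h5 <;> rw [h5] at hw hn <;> omega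
    · have hs7 : s 11 = 14 := by omega
      rw [hs7] at hn
      have hw := ar2_w (C := 351) (t := s q) hqn (by omega) (by omega) (by omega)
      have hq4 : q ≤ 400 := (Nat.le_of_dvd (by omega) hw).trans (by omega)
      rcases ar2_good hqL.good hqL.hp hq4 with rfl | rfl | rfl | rfl | rfl | rfl | rfl | rfl | rfl |
        rfl | rfl | rfl | rfl | rfl | rfl <;>
        rcases hsq with ⟨h5, h6⟩ | h5 <;> rw [h5] at hw hn <;> omega

lemma ar2_two {T : Finset ℕ} (hc : T.card ≤ 2) (f : ℕ → ℕ) :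
    ∑ p ∈ T, f p = 0 ∨ (∃ q ∈ T, ∑ p ∈ T, f p = f q) ∨
      ∃ p ∈ T, ∃ q ∈ T, p < q ∧ ∑ p ∈ T, f p = f p + f q := by
  rcases Nat.lt_or_ge T.card 1 with h4 | h4
  · left
    have h5 : T = ∅ := Finset.card_eq_zero.1 (by omega)
    rw [h5, Finset.sum_empty]
  · right
    rcases Nat.lt_or_ge T.card 2 with h5 | h5
    · left
      obtain ⟨q, hq⟩ := Finset.card_eq_one.1 (show T.card = 1 by omega)
      refine ⟨q, by rw [hq]; exact Finset.mem_singleton_self q, ?_⟩
      rw [hq, Finset.sum_singleton]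
    · right
      obtain ⟨x, y, hxy, hq⟩ := Finset.card_eq_two.1 (show T.card = 2 by omega)
      have hx : x ∈ T := by rw [hq]; simp
      have hy : y ∈ T := by rw [hq]; simp
      rcases lt_or_gt_of_ne hxy with hlt | hlt
      · exact ⟨x, hx, y, hy, hlt, by rw [hq, Finset.sum_pair hxy]⟩
      · exact ⟨y, hy, x, hx, hlt, by rw [hq, Finset.sum_pair hxy, add_comm (f x)]⟩

lemma ar2_d8a {n q t : ℕ} (hqL : Loc 8 n q t) (hn : n = 13 + ((3 - 1) * 4 + (q - 1) * t))
    (hq3 : 3 < q) (h3 : 3 ∣ n) : False := by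
  have hsq := ar2_s8 hqL
  have hw := ar2_w (C := 21) (t := t) (ar2_dvd hqL) (by omega) (by omega) (by omega)
  have hq4 : q ≤ 400 := (Nat.le_of_dvd (by omega) hw).trans (by omega)
  rcases ar2_good hqL.good hqL.hp hq4 with rfl | rfl | rfl | rfl | rfl | rfl | rfl | rfl |
    rfl | rfl | rfl | rfl | rfl | rfl | rfl <;>
    rcases hsq with ⟨rfl, h6⟩ | rfl <;> omega

lemma ar2_d8b {n q t N : ℕ} (hqL : Loc 8 n q t) (hn : n = 13 + ((5 - 1) * 2 + (q - 1) * t))
    (hq3 : 5 < q) (hN : N * 5 = 2 * n) (hN1 : N % 5 = 1) : False := by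
  have hsq := ar2_s8 hqL
  have hw := ar2_w (C := 21) (t := t) (ar2_dvd hqL) (by omega) (by omega) (by omega)
  have hq4 : q ≤ 400 := (Nat.le_of_dvd (by omega) hw).trans (by omega)
  rcases ar2_good hqL.good hqL.hp hq4 with rfl | rfl | rfl | rfl | rfl | rfl | rfl | rfl |
    rfl | rfl | rfl | rfl | rfl | rfl | rfl <;>
    rcases hsq with ⟨rfl, h6⟩ | rfl <;> omega

lemma ar2_d8c {n q t : ℕ} (hqL : Loc 8 n q t) (hn : n = 13 + ((5 - 1) * 4 + (q - 1) * t))
    (hq3 : 5 < q) : False := by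
  have hsq := ar2_s8 hqL
  have hw := ar2_w (C := 29) (t := t) (ar2_dvd hqL) (by omega) (by omega) (by omega)
  have hq4 : q ≤ 400 := (Nat.le_of_dvd (by omega) hw).trans (by omega)
  rcases ar2_good hqL.good hqL.hp hq4 with rfl | rfl | rfl | rfl | rfl | rfl | rfl | rfl |
    rfl | rfl | rfl | rfl | rfl | rfl | rfl <;>
    rcases hsq with ⟨rfl, h6⟩ | rfl <;> omega

lemma ar2_d8d {n q t N : ℕ} (hqL : Loc 8 n q t) (hn : n = 13 + ((7 - 1) * 4 + (q - 1) * t))
    (hq3 : 7 < q) (hN : N * 7 = 4 * n) (hN1 : N % 7 = 1) : False := by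
  have hsq := ar2_s8 hqL
  have hw := ar2_w (C := 37) (t := t) (ar2_dvd hqL) (by omega) (by omega) (by omega)
  have hq4 : q ≤ 400 := (Nat.le_of_dvd (by omega) hw).trans (by omega)
  rcases ar2_good hqL.good hqL.hp hq4 with rfl | rfl | rfl | rfl | rfl | rfl | rfl | rfl |
    rfl | rfl | rfl | rfl | rfl | rfl | rfl <;>
    rcases hsq with ⟨rfl, h6⟩ | rfl <;> omega

theorem arith_d8 (n : ℕ) (T : Finset ℕ) (s : ℕ → ℕ) (h : ∀ p ∈ T, Loc 8 n p (s p))
    (hn : n = 13 + ∑ p ∈ T, (p - 1) * s p) : n = 13 ∨ n = 21 := by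
  have hc := ar2_card (by norm_num) (by norm_num) (by norm_num) T s h hn
  have hc2 : T.card ≤ 2 := by
    by_contra hc2
    have hc3 : T.card = 3 := by omega
    have hne : T.Nonempty := Finset.card_pos.1 (by omega)
    obtain ⟨q, hq, hmax⟩ := T.exists_max_image id hne
    have hk : (T.erase q).card = 2 := by
      rw [Finset.card_erase_of_mem hq, hc3]
    have h1 := ar2_prod 2 (T.erase q) hk fun p hp => ar2_odd (h p (Finset.mem_of_mem_erase hp))
    have h2 : 15 ≤ ∏ p ∈ T.erase q, p := by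
      refine le_trans ?_ h1
      decide
    have h3 : ∏ p ∈ T, p ∣ n := by
      apply Finset.prod_primes_dvd
      · intro p hp
        exact (h p hp).hp.prime
      · intro p hp
        exact ar2_dvd (h p hp)
    have h5 := Nat.le_of_dvd (by omega) h3
    rw [← Finset.mul_prod_erase T (fun x => x) hq] at h5
    have h6 : ∑ p ∈ T, (p - 1) * s p ≤ T.card • ((q - 1) * 4) := by
      apply Finset.sum_le_card_nsmul
      intro p hp
      have h7 := ar2_half (by norm_num) (h p hp)
      have h8 : p ≤ q := hmax p hp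
      exact Nat.mul_le_mul (by omega) (by omega)
    rw [smul_eq_mul, hc3] at h6
    have h9 : q * 15 ≤ q * ∏ p ∈ T.erase q, p := Nat.mul_le_mul_left _ h2
    have hq3 := ar2_odd (h q hq)
    omega
  rcases ar2_two hc2 (fun p => (p - 1) * s p) with h1 | ⟨q, hq, h1⟩ | ⟨p, hp, q, hq, hpq, h1⟩
  · omega
  · rw [h1] at hn
    have hqL := h q hq
    have hqn := ar2_dvd hqL
    have hq1 := ar2_odd hqL
    have hsq := ar2_s8 hqL
    have hw := ar2_w (C := 13) (t := s q) hqn (by omega) (by omega) (by omega)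
    have hq4 : q ≤ 400 := (Nat.le_of_dvd (by omega) hw).trans (by omega)
    rcases ar2_good hqL.good hqL.hp hq4 with rfl | rfl | rfl | rfl | rfl | rfl | rfl | rfl | rfl |
      rfl | rfl | rfl | rfl | rfl | rfl <;>
      rcases hsq with ⟨h5, h6⟩ | h5 <;> rw [h5] at hw hn <;> omega
  · exfalso
    rw [h1] at hn
    have hpL := h p hp
    have hqL := h q hq
    have hpn := ar2_dvd hpL
    have hqn := ar2_dvd hqL
    have hp1 := ar2_odd hpL
    have hq1 := ar2_odd hqL
    have hsp := ar2_s8 hpL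
    have hsq := ar2_s8 hqL
    have hn0 : 0 < n := by omega
    have h7 := Nat.le_of_dvd hn0
      (((Nat.coprime_primes hpL.hp hqL.hp).2 hpq.ne).mul_dvd_of_dvd_of_dvd hpn hqn)
    have hp8 : p ≤ 8 := by
      by_contra hp8
      push Not at hp8
      have h8 : (p - 1) * s p ≤ (p - 1) * 4 := Nat.mul_le_mul_left _ (by omega)
      have h9 : (q - 1) * s q ≤ (q - 1) * 4 := Nat.mul_le_mul_left _ (by omega)
      have h10 : 9 * q ≤ p * q := Nat.mul_le_mul_right _ hp8
      omega
    obtain ⟨N, hN, hN1⟩ := hpL.syl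
    have hp7 : p = 3 ∨ p = 5 ∨ p = 7 := by
      have h8 := ar2_good hpL.good hpL.hp (by omega)
      omega
    rcases hp7 with rfl | rfl | rfl
    · have h5 : s 3 = 4 := by omega
      rw [h5] at hn
      exact ar2_d8a hqL hn (by omega) hpn
    · rcases hsp with ⟨h5, h6⟩ | h5
      · rw [h5] at hn hN
        exact ar2_d8b hqL hn (by omega) hN hN1
      · rw [h5] at hn
        exact ar2_d8c hqL hn (by omega)
    · have h5 : s 7 = 4 := by omega
      rw [h5] at hn hN
      exact ar2_d8d hqL hn (by omega) hN hN1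

end Pool.Agent.SHAF
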