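import Mathlib
import Pool.Agent.SHAF.ListSol

set_option autoImplicit false

/-!
Soluble groups of the list with a noncentral normal subgroup of odd prime order (module SOLN).
-/

namespace Pool.Agent.SHAF

open Pool.Agent.SHA

lemma soln_cent3 : ∀ g y : Equiv.Perm (Fin 4), y * y * y = 1 → y ≠ 1 → g * y = y * g →
    g = 1 ∨ g = y ∨ g = y * y := by decide +kernel

lemma soln_three {p : ℕ} (hp : p.Prime) (hp2 : p ≠ 2) (h : p ∣ 24) : p = 3 := by
  have h1 : p ∣ 2 ^ 3 * 3 := h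
  rcases (Nat.Prime.dvd_mul hp).1 h1 with h2 | h2
  · exact absurd ((Nat.prime_dvd_prime_iff_eq hp Nat.prime_two).1 (hp.dvd_of_dvd_pow h2)) hp2
  · exact (Nat.prime_dvd_prime_iff_eq hp Nat.prime_three).1 h2

lemma soln_perm4 {X : Type} [Group X] [Finite X] (f : X →* Equiv.Perm (Fin 4)) (hf : Function.Injective f)
    {p : ℕ} (hp : p.Prime) (hp2 : p ≠ 2)
    (Q : Subgroup X) [Q.Normal] (hQ : Nat.card Q = p) (hx : ∃ x : X, ∃ y ∈ Q, x * y ≠ y * x) :
    ∃ (c d : ℕ) (H : Subgroup X), Q.IsComplement' H ∧ (∀ x ∈ H, ∀ y ∈ H, x * y = y * x) ∧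
      Nat.card (H ⊓ Subgroup.centralizer (Q : Set X) : Subgroup X) = c ∧ Nat.card H = c * d ∧
      1 < d ∧ d ∣ p - 1 ∧ Params p c d ∧ (c = 4 → IsCyclic H) := by
  have h24 : Nat.card X ∣ 24 := by
    have h1 := Subgroup.card_dvd_of_injective f hf
    rw [Nat.card_eq_fintype_card (α := Equiv.Perm (Fin 4)), Fintype.card_perm, Fintype.card_fin] at h1
    exact h1
  have hpX : p ∣ Nat.card X := hQ ▸ Subgroup.card_subgroup_dvd_card Q
  obtain rfl : p = 3 := soln_three hp hp2 (hpX.trans h24)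
  -- a generator of Q
  haveI : Fact (Nat.Prime 3) := ⟨hp⟩
  obtain ⟨y, hy⟩ := exists_prime_orderOf_dvd_card' (G := Q) 3 (by rw [hQ])
  have hy3 : (y : X) * y * y = 1 := by
    have h1 : y ^ 3 = 1 := by rw [← hy]; exact pow_orderOf_eq_one y
    have h2 := congrArg Subtype.val h1
    rw [← pow_three']
    simpa using h2
  have hy1 : (y : X) ≠ 1 := by
    intro h
    have h1 : y = 1 := Subtype.ext h
    rw [h1, orderOf_one] at hy
    omega
  have hC : Subgroup.centralizer (Q : Set X) ≤ Q := by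
    intro g hg
    rw [Subgroup.mem_centralizer_iff] at hg
    have h1 := hg y y.2
    have h2 : f g * f y = f y * f g := by rw [← map_mul, ← map_mul, h1]
    have h3 : f y * f y * f y = 1 := by rw [← map_mul, ← map_mul, hy3, map_one]
    have h4 : f y ≠ 1 := fun h => hy1 (hf (h.trans (map_one f).symm))
    rcases soln_cent3 _ _ h3 h4 h2 with h5 | h5 | h5
    · rw [hf (h5.trans (map_one f).symm)]
      exact Q.one_mem
    · rw [hf h5]
      exact y.2
    · rw [← map_mul] at h5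
      rw [hf h5]
      exact Q.mul_mem y.2 y.2
  have hCQ : Subgroup.centralizer (Q : Set X) = Q := le_antisymm hC (cent_le hp Q hQ)
  have hidx := idx_dvd hp Q hQ
  rw [hCQ] at hidx
  have hne : Q.index ≠ 1 := by
    rw [Ne, Subgroup.index_eq_one]
    intro h
    obtain ⟨x, z, hz, hxz⟩ := hx
    have h1 : x ∈ Subgroup.centralizer (Q : Set X) := by
      rw [hCQ, h]
      trivial
    rw [Subgroup.mem_centralizer_iff] at h1
    exact hxz (h1 z hz).symm
  have hidx2 : Q.index = 2 := by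
    rcases (Nat.dvd_prime Nat.prime_two).1 (show Q.index ∣ 2 from hidx) with h | h
    · exact absurd h hne
    · exact h
  have hcX : Nat.card X = 6 := by
    rw [← Q.card_mul_index, hQ, hidx2]
  haveI : Fact (Nat.Prime 2) := ⟨Nat.prime_two⟩
  obtain ⟨t, ht⟩ := exists_prime_orderOf_dvd_card' (G := X) 2 (by rw [hcX]; norm_num)
  have hH : Nat.card (Subgroup.zpowers t) = 2 := by rw [Nat.card_zpowers, ht]
  have hcop : Nat.Coprime (Nat.card Q) (Nat.card (Subgroup.zpowers t)) := by rw [hQ, hH]; norm_num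
  have hcompl : Q.IsComplement' (Subgroup.zpowers t) := by
    refine Subgroup.isComplement'_of_coprime ?_ hcop
    rw [hQ, hH, hcX]
  refine ⟨1, 2, Subgroup.zpowers t, hcompl, ?_, ?_, ?_, by norm_num, by norm_num,
    Or.inl ⟨rfl, goodPP_3⟩, fun h => absurd h (by norm_num)⟩
  · rintro a ⟨i, rfl⟩ b ⟨j, rfl⟩
    show t ^ i * t ^ j = t ^ j * t ^ i
    rw [← zpow_add, ← zpow_add, add_comm]
  · rw [hCQ, inf_comm, Subgroup.inf_eq_bot_of_coprime hcop, Subgroup.card_bot]
  · rw [hH]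

lemma soln_meta {X : Type} [Group X] [Finite X] (h : MetaList X) {p : ℕ} (hp : p.Prime)
    (Q : Subgroup X) [Q.Normal] (hQ : Nat.card Q = p) (hx : ∃ x : X, ∃ y ∈ Q, x * y ≠ y * x) :
    ∃ (c d : ℕ) (H : Subgroup X), Q.IsComplement' H ∧ (∀ x ∈ H, ∀ y ∈ H, x * y = y * x) ∧
      Nat.card (H ⊓ Subgroup.centralizer (Q : Set X) : Subgroup X) = c ∧ Nat.card H = c * d ∧
      1 < d ∧ d ∣ p - 1 ∧ Params p c d ∧ (c = 4 → IsCyclic H) := by
  obtain ⟨q, c, d, N, H, hq, hN, hNc, hcompl, hH, hHC, hHc, hd, hP, h4⟩ := h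
  have hQN : Q = N := by
    by_contra hne
    have hdis : Q ⊓ N = ⊥ := by
      have h1 : Nat.card (Q ⊓ N : Subgroup X) ∣ Nat.card Q := Subgroup.card_dvd_of_le inf_le_left
      have h2 : Nat.card (Q ⊓ N : Subgroup X) ∣ Nat.card N := Subgroup.card_dvd_of_le inf_le_right
      rw [hQ] at h1
      rw [hNc] at h2
      rcases (Nat.dvd_prime hp).1 h1 with h3 | h3
      · exact Subgroup.card_eq_one.1 h3
      · rcases (Nat.dvd_prime hq).1 h2 with h5 | h5
        · exact Subgroup.card_eq_one.1 h5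
        · exfalso
          apply hne
          have e1 : Q ⊓ N = Q := Subgroup.eq_of_le_of_card_ge inf_le_left (by rw [hQ, h3])
          have e2 : Q ⊓ N = N := Subgroup.eq_of_le_of_card_ge inf_le_right (by rw [hNc, h5])
          rw [← e1, e2]
    obtain ⟨π, hπk, hπs⟩ := compl_proj N H hcompl
    obtain ⟨x, y, hy, hxy⟩ := hx
    apply hxy
    have h1 : x * y * x⁻¹ * y⁻¹ ∈ Q :=
      Q.mul_mem (Subgroup.Normal.conj_mem inferInstance y hy x) (Q.inv_mem hy)
    have h2 : x * y * x⁻¹ * y⁻¹ ∈ N := by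
      rw [← hπk, MonoidHom.mem_ker, map_mul, map_mul, map_mul, map_inv, map_inv]
      have h3 : π x * π y = π y * π x :=
        Subtype.ext (hH (π x) (π x).2 (π y) (π y).2)
      rw [h3]
      group
    have h3 : x * y * x⁻¹ * y⁻¹ ∈ Q ⊓ N := ⟨h1, h2⟩
    rw [hdis, Subgroup.mem_bot] at h3
    have h5 : x * y = x * y * x⁻¹ * y⁻¹ * (y * x) := by group
    rw [h5, h3, one_mul]
  subst hQN
  have hpq : p = q := by rw [← hQ, hNc]
  subst hpq
  refine ⟨c, d, H, hcompl, hH, hHC, hHc, hd, ?_, hP, h4⟩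
  have h1 := compl_card hq Q H hNc hcompl
  rw [hHC, hHc] at h1
  have hc0 : 0 < c := by
    have := params_c hP
    omega
  rw [← Nat.eq_of_mul_eq_mul_left hc0 h1]
  exact idx_dvd hq Q hNc

theorem sol_norm_prime {X : Type} [Group X] (h : SolList X) {p : ℕ} (hp : p.Prime) (hp2 : p ≠ 2)
    (Q : Subgroup X) [Q.Normal] (hQ : Nat.card Q = p) (hx : ∃ x : X, ∃ y ∈ Q, x * y ≠ y * x) :
    ∃ (c d : ℕ) (H : Subgroup X), Q.IsComplement' H ∧ (∀ x ∈ H, ∀ y ∈ H, x * y = y * x) ∧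
      Nat.card (H ⊓ Subgroup.centralizer (Q : Set X) : Subgroup X) = c ∧ Nat.card H = c * d ∧
      1 < d ∧ d ∣ p - 1 ∧ Params p c d ∧ (c = 4 → IsCyclic H) := by
  obtain ⟨hfin, h⟩ := h
  have hpX : p ∣ Nat.card X := hQ ▸ Subgroup.card_subgroup_dvd_card Q
  have hab : (∀ a b : X, a * b = b * a) → False := by
    intro hc
    obtain ⟨x, y, _, hxy⟩ := hx
    exact hxy (hc x y)
  rcases h with ⟨h1, h2⟩ | ⟨⟨e⟩⟩ | ⟨⟨e⟩⟩ | ⟨f, hf⟩ | ⟨⟨e⟩⟩ | ⟨h24, R, hRn, ⟨e⟩, hC⟩ | h
  · exfalso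
    letI := IsCyclic.commGroup (α := X)
    exact hab (fun a b => mul_comm a b)
  · exact absurd (fun a b => e.injective (by rw [map_mul, map_mul, mul_comm])) hab
  · exact absurd (fun a b => e.injective (by rw [map_mul, map_mul, mul_comm])) hab
  · exact soln_perm4 f hf hp hp2 Q hQ hx
  · exfalso
    rw [Nat.card_congr e.toEquiv, Nat.card_eq_fintype_card, QuaternionGroup.card] at hpX
    have h1 : p ∣ 2 ^ 3 := hpX
    exact hp2 ((Nat.prime_dvd_prime_iff_eq hp Nat.prime_two).1 (hp.dvd_of_dvd_pow h1))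
  · exfalso
    have hRc : Nat.card R = 8 := by
      rw [Nat.card_congr e.toEquiv, Nat.card_eq_fintype_card, QuaternionGroup.card]
    rw [h24] at hpX
    obtain rfl : p = 3 := soln_three hp hp2 hpX
    have hdis : Q ⊓ R = ⊥ := Subgroup.inf_eq_bot_of_coprime (by rw [hQ, hRc]; norm_num)
    have hle : Q ≤ Subgroup.centralizer (R : Set X) := by
      intro y hy
      rw [Subgroup.mem_centralizer_iff]
      intro r hr
      exact Subgroup.commute_of_normal_of_disjoint R Q hRn inferInstance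
        (disjoint_iff.2 (by rw [inf_comm]; exact hdis)) r y hr hy
    have h1 : Q ≤ Q ⊓ R := le_inf le_rfl (hle.trans hC)
    rw [hdis, le_bot_iff] at h1
    rw [h1, Subgroup.card_bot] at hQ
    omega
  · exact soln_meta h hp Q hQ hx

end Pool.Agent.SHAF
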