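import Mathlib
import Pool.Agent.SHAF.Nonsol
import Pool.Agent.SHAN.Small
import Pool.Agent.SHAN.SolN

set_option autoImplicit false

/-!
Normalisers of subgroups of odd prime order in a simple group (module NORMQ).
-/

namespace Pool.Agent.SHAF

open Pool.Agent.SHA

/-- The normaliser of `Q` (of prime order `p`) is the product of `Q` and the abelian group `H`, `c`
is the order of the centraliser of `Q` in `H`, `d` its index in `H`, and `Q` is a Sylow subgroup. -/
structure NData {G : Type} [Group G] (p c d : ℕ) (Q H : Subgroup G) : Prop where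
  hp : p.Prime
  hp2 : p ≠ 2
  hQ : Nat.card Q = p
  hH : H ≤ Subgroup.normalizer (Q : Set G)
  inf : Q ⊓ H = ⊥
  sup : Q ⊔ H = Subgroup.normalizer (Q : Set G)
  cardN : Nat.card (Subgroup.normalizer (Q : Set G)) = p * (c * d)
  ab : ∀ x ∈ H, ∀ y ∈ H, x * y = y * x
  cardH : Nat.card H = c * d
  cardC : Nat.card (H ⊓ Subgroup.centralizer (Q : Set G) : Subgroup G) = c
  d1 : 1 < d
  dp : d ∣ p - 1
  par : Params p c d
  cyc : c = 4 → IsCyclic H
  syl : ∀ P : Sylow p G, Nat.card P = p

variable {K : (G : Type) → [Group G] → Prop}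

lemma nq_sol {K : (G : Type) → [Group G] → Prop} (hK : SHAClosed K) {G : Type} [Group G] [Finite G]
    [IsSimpleGroup G] (hG : K G) (hns : ¬ Group.IsSolvable G)
    (IH : ∀ (H : Type) [Group H] [Finite H], K H → Nat.card H < Nat.card G → FinList H)
    {p : ℕ} (hp : p.Prime) (hp2 : p ≠ 2) (Q : Subgroup G) (hQ : Nat.card Q = p) :
    Group.IsSolvable (Subgroup.normalizer (Q : Set G)) := by
  have := Fact.mk hp
  have hQc : IsCyclic Q := isCyclic_of_prime_card hQ
  have hQtop : Q ≠ ⊤ := by
    rintro rfl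
    apply hns
    rw [Subgroup.card_top] at hQ
    exact sol_cyc (isCyclic_of_prime_card hQ)
  have hQbot : Q ≠ ⊥ := by
    rintro rfl
    rw [Subgroup.card_bot] at hQ
    exact hp.one_lt.ne hQ
  have hNtop : Subgroup.normalizer (Q : Set G) ≠ ⊤ := by
    intro h
    have h1 : Q.Normal := Subgroup.normalizer_eq_top_iff.mp h
    rcases IsSimpleGroup.eq_bot_or_eq_top_of_normal Q h1 with h2 | h2
    · exact hQbot h2
    · exact hQtop h2
  have hCN : Subgroup.centralizer (Q : Set G) ≤ Subgroup.normalizer (Q : Set G) :=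
    Subgroup.centralizer_le_normalizer _
  have hCtop : Subgroup.centralizer (Q : Set G) ≠ ⊤ := fun h => hNtop (top_le_iff.1 (h ▸ hCN))
  have hlt : Nat.card (Subgroup.centralizer (Q : Set G)) < Nat.card G := by
    refine lt_of_le_of_ne (Subgroup.card_le_card_group _) fun h => hCtop ?_
    exact Subgroup.eq_top_of_card_eq _ h
  have hfin := IH (Subgroup.centralizer (Q : Set G))
    (hK.sub _ _ (Subgroup.centralizer (Q : Set G)).subtype (Subgroup.subtype_injective _) hG) hlt
  obtain ⟨y, hy⟩ := exists_prime_orderOf_dvd_card' (G := Q) p (by rw [hQ])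
  have hyC : (y : G) ∈ Subgroup.centralizer (Q : Set G) := by
    rw [Subgroup.mem_centralizer_iff]
    intro x hx
    let _ := IsCyclic.commGroup (α := Q)
    have h1 := mul_comm (⟨x, hx⟩ : Q) y
    exact congrArg Subtype.val h1
  have hsol : SolList (Subgroup.centralizer (Q : Set G)) := by
    refine central_odd hfin hp hp2 ⟨(y : G), hyC⟩ ?_ ?_
    · rw [Subgroup.orderOf_mk, Subgroup.orderOf_coe, hy]
    · intro g
      apply Subtype.ext
      exact (Subgroup.mem_centralizer_iff.1 g.2) (y : G) y.2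
  have h1 : Group.IsSolvable (Subgroup.centralizer (Q : Set G)) := list_sol hsol
  have h2 : Group.IsSolvable (MulAut Q) :=
    Group.isSolvable_of_isSolvable_injective (f := (IsCyclic.mulAutMulEquiv Q).toMonoidHom)
      (IsCyclic.mulAutMulEquiv Q).injective
  refine Group.isSolvable_of_ker_le_range (Subgroup.inclusion hCN) Q.normalizerMonoidHom ?_
  rw [Subgroup.normalizerMonoidHom_ker]
  intro x hx
  exact ⟨⟨x, hx⟩, Subtype.ext rfl⟩

theorem norm_data (hK : SHAClosed K) (hE : ¬ K (E 3)) {G : Type} [Group G] [Finite G]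
    [IsSimpleGroup G] (hG : K G) (hns : ¬ Group.IsSolvable G)
    (IH : ∀ (H : Type) [Group H] [Finite H], K H → Nat.card H < Nat.card G → FinList H)
    {p : ℕ} (hp : p.Prime) (hp2 : p ≠ 2) (Q : Subgroup G) (hQ : Nat.card Q = p)
    (hx : ∃ x ∈ Subgroup.normalizer (Q : Set G), ∃ y ∈ Q, x * y ≠ y * x) :
    ∃ (c d : ℕ) (H : Subgroup G), NData p c d Q H := by
  have := Fact.mk hp
  have h1 : Group.IsSolvable (Subgroup.normalizer (Q : Set G)) :=
    nq_sol hK hG hns IH hp hp2 Q hQ
  have hQN : Q ≤ Subgroup.normalizer (Q : Set G) := Subgroup.le_normalizer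
  have hL : SolList (Subgroup.normalizer (Q : Set G)) := sol_forward hK hE _
    (hK.sub _ _ (Subgroup.normalizer (Q : Set G)).subtype (Subgroup.subtype_injective _) hG)
  have hcardQ : Nat.card (Q.subgroupOf (Subgroup.normalizer (Q : Set G))) = p := by
    rw [Nat.card_congr (Subgroup.subgroupOfEquivOfLe hQN).toEquiv, hQ]
  obtain ⟨x, hxN, y, hyQ, hxy⟩ := hx
  obtain ⟨c, d, H, hcompl, hab, hcC, hcH, hd1, hdp, hpar, hcyc⟩ := sol_norm_prime hL hp hp2
    (Q.subgroupOf (Subgroup.normalizer (Q : Set G))) hcardQ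
    ⟨⟨x, hxN⟩, ⟨y, hQN hyQ⟩, hyQ, fun h => hxy (congrArg Subtype.val h)⟩
  have hinj := Subgroup.subtype_injective (Subgroup.normalizer (Q : Set G))
  have hmapQ : (Q.subgroupOf (Subgroup.normalizer (Q : Set G))).map
      (Subgroup.normalizer (Q : Set G)).subtype = Q := Subgroup.map_subgroupOf_eq_of_le hQN
  have hcN : Nat.card (Subgroup.normalizer (Q : Set G)) = p * (c * d) := by
    rw [← hcompl.card_mul_card, hcardQ, hcH]
  refine ⟨c, d, H.map (Subgroup.normalizer (Q : Set G)).subtype, ?_⟩
  refine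
    { hp := hp
      hp2 := hp2
      hQ := hQ
      hH := Subgroup.map_subtype_le H
      inf := ?_
      sup := ?_
      cardN := hcN
      ab := ?_
      cardH := ?_
      cardC := ?_
      d1 := hd1
      dp := hdp
      par := hpar
      cyc := ?_
      syl := ?_ }
  · nth_rewrite 1 [← hmapQ]
    rw [← Subgroup.map_inf _ _ _ hinj, hcompl.disjoint.eq_bot, Subgroup.map_bot]
  · nth_rewrite 1 [← hmapQ]
    rw [← Subgroup.map_sup, hcompl.sup_eq_top, ← MonoidHom.range_eq_map, Subgroup.range_subtype]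
  · rintro _ ⟨a, ha, rfl⟩ _ ⟨b, hb, rfl⟩
    exact congrArg Subtype.val (hab a ha b hb)
  · rw [Subgroup.card_map_of_injective hinj, hcH]
  · have h2 : H.map (Subgroup.normalizer (Q : Set G)).subtype ⊓ Subgroup.centralizer (Q : Set G) =
        (H ⊓ Subgroup.centralizer
          (Q.subgroupOf (Subgroup.normalizer (Q : Set G)) : Set (Subgroup.normalizer (Q : Set G)))).map
          (Subgroup.normalizer (Q : Set G)).subtype := by
      ext g
      constructor
      · rintro ⟨⟨a, ha, rfl⟩, hg⟩
        refine ⟨a, ⟨ha, ?_⟩, rfl⟩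
        refine Subgroup.mem_centralizer_iff.2 ?_
        intro b hb
        apply Subtype.ext
        exact (Subgroup.mem_centralizer_iff.1 hg) (b : G) hb
      · rintro ⟨a, ⟨ha, ha'⟩, rfl⟩
        refine ⟨⟨a, ha, rfl⟩, ?_⟩
        refine Subgroup.mem_centralizer_iff.2 ?_
        intro b hb
        exact congrArg Subtype.val ((Subgroup.mem_centralizer_iff.1 ha') ⟨b, hQN hb⟩ hb)
    rw [h2, Subgroup.card_map_of_injective hinj, hcC]
  · intro hc
    have := hcyc hc
    exact isCyclic_of_surjective (H.equivMapOfInjective _ hinj).toMonoidHom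
      (H.equivMapOfInjective _ hinj).surjective
  · intro P
    have hpc : ¬ p ∣ c := params_coprime hpar hp
    have hpd : ¬ p ∣ d := by
      intro h
      have h2 : p ∣ p - 1 := h.trans hdp
      have h3 := Nat.le_of_dvd (by have := hp.two_le; omega) h2
      have := hp.two_le
      omega
    have hpcd : ¬ p ∣ c * d := fun h => (hp.dvd_mul.1 h).elim hpc hpd
    have hmod : Nat.card (Subgroup.normalizer (Q : Set G)) ≡ Nat.card G [MOD p ^ (1 + 1)] :=
      Sylow.card_normalizer_modEq_card (by rw [hQ, pow_one])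
    have h2 : ¬ p ^ 2 ∣ Nat.card G := by
      intro h
      have h3 : p ^ 2 ∣ p * (c * d) := by
        rw [← hcN]
        exact (Nat.ModEq.dvd_iff hmod (dvd_refl _)).2 h
      rw [pow_two] at h3
      exact hpcd (Nat.dvd_of_mul_dvd_mul_left hp.pos h3)
    have h4 : p ∣ Nat.card G := by
      rw [← hQ]
      exact Subgroup.card_subgroup_dvd_card Q
    have h5 : (Nat.card G).factorization p = 1 := by
      have hne : Nat.card G ≠ 0 := Nat.card_pos.ne'
      have h6 : 1 ≤ (Nat.card G).factorization p :=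
        (hp.dvd_iff_one_le_factorization hne).1 h4
      have h7 : ¬ 2 ≤ (Nat.card G).factorization p := fun h =>
        h2 ((hp.pow_dvd_iff_le_factorization hne).2 h)
      omega
    rw [P.card_eq_multiplicity, h5, pow_one]

end Pool.Agent.SHAF
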