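import Mathlib
import Pool.Agent.SHAN.NormQ

set_option autoImplicit false

/-!
Counting elements of odd order inverted by an involution, local part (module ODDA).
-/

namespace Pool.Agent.SHAF

variable {G : Type} [Group G] [Finite G] {p c d : ℕ} {Q H : Subgroup G}

/-- elements of the product -/
private theorem odda_dec (h : NData p c d Q H) {g : G} (hg : g ∈ Subgroup.normalizer (Q : Set G)) :
    ∃ y ∈ Q, ∃ x ∈ H, g = y * x := by
  let S : Subgroup G :=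
    { carrier := {g | ∃ y ∈ Q, ∃ x ∈ H, g = y * x}
      mul_mem' := by
        rintro _ _ ⟨y, hy, x, hx, rfl⟩ ⟨y', hy', x', hx', rfl⟩
        refine ⟨y * (x * y' * x⁻¹), Q.mul_mem hy ?_, x * x', H.mul_mem hx hx', by group⟩
        exact (Subgroup.mem_normalizer_iff.1 (h.hH hx) y').1 hy'
      one_mem' := ⟨1, Q.one_mem, 1, H.one_mem, by group⟩
      inv_mem' := by
        rintro _ ⟨y, hy, x, hx, rfl⟩
        refine ⟨x⁻¹ * y⁻¹ * x, ?_, x⁻¹, H.inv_mem hx, by group⟩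
        have h1 := (Subgroup.mem_normalizer_iff.1 (h.hH (H.inv_mem hx)) y⁻¹).1 (Q.inv_mem hy)
        rwa [inv_inv] at h1 }
  have hS : Subgroup.normalizer (Q : Set G) ≤ S := by
    rw [← h.sup]
    refine sup_le ?_ ?_
    · intro y hy
      exact ⟨y, hy, 1, H.one_mem, by group⟩
    · intro x hx
      exact ⟨1, Q.one_mem, x, hx, by group⟩
  exact hS hg

private theorem odda_uniq (h : NData p c d Q H) {y y' x x' : G} (hy : y ∈ Q) (hy' : y' ∈ Q) (hx : x ∈ H)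
    (hx' : x' ∈ H) (he : y * x = y' * x') : y = y' ∧ x = x' := by
  have h1 : y'⁻¹ * y = x' * x⁻¹ := by
    rw [inv_mul_eq_iff_eq_mul, ← mul_assoc, ← he]
    group
  have h2 : y'⁻¹ * y ∈ Q ⊓ H := by
    refine ⟨Q.mul_mem (Q.inv_mem hy') hy, ?_⟩
    show y'⁻¹ * y ∈ H
    rw [h1]
    exact H.mul_mem hx' (H.inv_mem hx)
  rw [h.inf, Subgroup.mem_bot] at h2
  have h3 : y = y' := (inv_mul_eq_one.1 h2).symm
  refine ⟨h3, ?_⟩
  rw [h3] at he
  exact mul_left_cancel he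

private theorem odda_comm (h : NData p c d Q H) {y y' : G} (hy : y ∈ Q) (hy' : y' ∈ Q) : y * y' = y' * y := by
  have hp : Fact p.Prime := ⟨h.hp⟩
  have hc : IsCyclic Q := isCyclic_of_prime_card h.hQ
  have h1 := (IsCyclic.isMulCommutative (α := Q)).is_comm.comm ⟨y, hy⟩ ⟨y', hy'⟩
  exact congrArg Subtype.val h1

private theorem odda_cen (_h : NData p c d Q H) {x : G} :
    x ∈ Subgroup.centralizer (Q : Set G) ↔ ∀ y ∈ Q, x * y * x⁻¹ = y := by
  rw [Subgroup.mem_centralizer_iff]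
  constructor
  · intro h1 y hy
    rw [← h1 y hy]
    group
  · intro h1 y hy
    rw [eq_comm, ← mul_inv_eq_iff_eq_mul]
    exact h1 y hy

private theorem odda_QC (h : NData p c d Q H) {y : G} (hy : y ∈ Q) : y ∈ Subgroup.centralizer (Q : Set G) := by
  rw [Subgroup.mem_centralizer_iff]
  intro z hz
  exact odda_comm h hz hy

private theorem odda_CN {x : G} (hx : x ∈ Subgroup.centralizer (Q : Set G)) :
    x ∈ Subgroup.normalizer (Q : Set G) := by
  rw [Subgroup.mem_normalizer_iff]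
  intro y
  rw [Subgroup.mem_centralizer_iff] at hx
  constructor
  · intro hy
    rw [← hx y hy]
    simpa using hy
  · intro hy
    have h1 := hx _ hy
    have h2 : x * y * x⁻¹ = y := by
      have h3 : x * y * x⁻¹ * x = x * y := by group
      rw [h3] at h1
      exact (mul_left_cancel h1).symm
    rwa [h2] at hy

/-- elements inverting `Q` -/
private theorem odda_IN {s : G} (hs : ∀ y ∈ Q, s * y * s⁻¹ = y⁻¹) :
    s ∈ Subgroup.normalizer (Q : Set G) := by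
  rw [Subgroup.mem_normalizer_iff]
  intro y
  constructor
  · intro hy
    rw [hs y hy]
    exact Q.inv_mem hy
  · intro hy
    -- s⁻¹ z s = z⁻¹ for z ∈ Q
    have h1 : ∀ z ∈ Q, s⁻¹ * z * s = z⁻¹ := by
      intro z hz
      have h2 := hs z⁻¹ (Q.inv_mem hz)
      rw [inv_inv] at h2
      calc s⁻¹ * z * s = s⁻¹ * (s * z⁻¹ * s⁻¹) * s := by rw [h2]
        _ = z⁻¹ := by group
    have h3 := h1 _ hy
    have h4 : s⁻¹ * (s * y * s⁻¹) * s = y := by group
    rw [h4] at h3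
    rw [h3]
    exact Q.inv_mem hy

private theorem odda_inv_dec (h : NData p c d Q H) {s : G} (hs : ∀ y ∈ Q, s * y * s⁻¹ = y⁻¹) :
    ∃ y ∈ Q, ∃ x ∈ H, s = y * x ∧ (∀ z ∈ Q, x * z * x⁻¹ = z⁻¹) ∧ s * s = x * x := by
  obtain ⟨y, hy, x, hx, rfl⟩ := odda_dec h (odda_IN hs)
  have hxz : ∀ z ∈ Q, x * z * x⁻¹ = z⁻¹ := by
    intro z hz
    have h1 := hs z hz
    have hm : x * z * x⁻¹ ∈ Q := (Subgroup.mem_normalizer_iff.1 (h.hH hx) z).1 hz
    have h2 : y * x * z * (y * x)⁻¹ = y * (x * z * x⁻¹) * y⁻¹ := by group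
    rw [h2, odda_comm h hy hm, mul_inv_cancel_right] at h1
    exact h1
  refine ⟨y, hy, x, hx, rfl, hxz, ?_⟩
  have h3 : y * x * (y * x) = y * (x * y * x⁻¹) * (x * x) := by group
  rw [h3, hxz y hy, mul_inv_cancel, one_mul]

/-- the order of the centraliser -/
theorem odda_cent (h : NData p c d Q H) :
    Nat.card (Subgroup.centralizer (Q : Set G)) = p * c := by
  rw [← h.hQ, ← h.cardC, ← Nat.card_prod]
  refine (Nat.card_congr (Equiv.ofBijective
    (fun z : Q × (H ⊓ Subgroup.centralizer (Q : Set G) : Subgroup G) =>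
      (⟨(z.1 : G) * (z.2 : G), Subgroup.mul_mem _ (odda_QC h z.1.2) z.2.2.2⟩ :
        Subgroup.centralizer (Q : Set G))) ⟨?_, ?_⟩)).symm
  · rintro ⟨⟨y, hy⟩, ⟨x, hx⟩⟩ ⟨⟨y', hy'⟩, ⟨x', hx'⟩⟩ he
    have he' : y * x = y' * x' := congrArg Subtype.val he
    obtain ⟨h1, h2⟩ := odda_uniq h hy hy' hx.1 hx'.1 he'
    subst h1
    subst h2
    rfl
  · rintro ⟨g, hg⟩
    obtain ⟨y, hy, x, hx, rfl⟩ := odda_dec h (odda_CN hg)
    have hxc : x ∈ Subgroup.centralizer (Q : Set G) :=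
      (Subgroup.mul_mem_cancel_left _ (odda_QC h hy)).1 hg
    exact ⟨(⟨y, hy⟩, ⟨x, hx, hxc⟩), rfl⟩

/-- the number of involutions that invert `Q` -/
theorem odda_inv (h : NData p c d Q H) (t : G) (ht : t * t = 1) (hi : ∀ y ∈ Q, t * y * t⁻¹ = y⁻¹) :
    Nat.card {s : G // s * s = 1 ∧ ∀ y ∈ Q, s * y * s⁻¹ = y⁻¹} =
      p * Nat.card {x : G // x ∈ H ∧ x ∈ Subgroup.centralizer (Q : Set G) ∧ x * x = 1} := by
  obtain ⟨y0, hy0, t', ht'H, hty, hti, htt⟩ := odda_inv_dec h hi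
  rw [ht] at htt
  have ht'1 : t'⁻¹ = t' := inv_eq_of_mul_eq_one_left htt.symm
  rw [← h.hQ, ← Nat.card_prod]
  refine (Nat.card_congr (Equiv.ofBijective
    (fun z : Q × {x : G // x ∈ H ∧ x ∈ Subgroup.centralizer (Q : Set G) ∧ x * x = 1} =>
      (⟨(z.1 : G) * (z.2 : G) * t', ?_, ?_⟩ : {s : G // s * s = 1 ∧ ∀ y ∈ Q, s * y * s⁻¹ = y⁻¹}))
      ⟨?_, ?_⟩)).symm
  · obtain ⟨⟨y, hy⟩, ⟨x, hxH, hxC, hxx⟩⟩ := z
    show y * x * t' * (y * x * t') = 1
    have h1 : t' * y = y⁻¹ * t' := by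
      rw [← hti y hy]
      group
    have h2 : x * y⁻¹ = y⁻¹ * x := ((Subgroup.mem_centralizer_iff.1 hxC) _ (Q.inv_mem hy)).symm
    have h3 : t' * x = x * t' := h.ab _ ht'H _ hxH
    calc y * x * t' * (y * x * t') = y * x * (t' * y) * x * t' := by group
      _ = y * (x * y⁻¹) * (t' * x) * t' := by rw [h1]; group
      _ = (x * x) * (t' * t') := by rw [h2, h3]; group
      _ = 1 := by rw [hxx, ← htt, one_mul]
  · obtain ⟨⟨y, hy⟩, ⟨x, hxH, hxC, hxx⟩⟩ := z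
    intro z hz
    show y * x * t' * z * (y * x * t')⁻¹ = z⁻¹
    have h1 : y * x * t' * z * (y * x * t')⁻¹ = y * (x * (t' * z * t'⁻¹) * x⁻¹) * y⁻¹ := by group
    rw [h1, hti z hz, (odda_cen h).1 hxC _ (Q.inv_mem hz), (odda_cen h).1 (odda_QC h hy) _ (Q.inv_mem hz)]
  · rintro ⟨⟨y, hy⟩, ⟨x, hx⟩⟩ ⟨⟨y', hy'⟩, ⟨x', hx'⟩⟩ he
    have he' : y * x * t' = y' * x' * t' := congrArg Subtype.val he
    obtain ⟨h1, h2⟩ := odda_uniq h hy hy' hx.1 hx'.1 (mul_right_cancel he')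
    subst h1
    subst h2
    rfl
  · rintro ⟨s, hs1, hs2⟩
    obtain ⟨y, hy, x, hx, hsy, hxi, hxx⟩ := odda_inv_dec h hs2
    rw [hs1] at hxx
    refine ⟨(⟨y, hy⟩, ⟨x * t', H.mul_mem hx ht'H, ?_, ?_⟩), ?_⟩
    · rw [odda_cen h]
      intro z hz
      have h1 : x * t' * z * (x * t')⁻¹ = x * (t' * z * t'⁻¹) * x⁻¹ := by group
      rw [h1, hti z hz, hxi _ (Q.inv_mem hz), inv_inv]
    · have h3 : t' * x = x * t' := h.ab _ ht'H _ hx
      calc x * t' * (x * t') = x * (t' * x) * t' := by group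
        _ = (x * x) * (t' * t') := by rw [h3]; group
        _ = 1 := by rw [← hxx, ← htt, one_mul]
    · apply Subtype.ext
      show y * (x * t') * t' = s
      have h4 : y * (x * t') * t' = y * x * (t' * t') := by group
      rw [h4, ← htt, mul_one, hsy]

private theorem odda_cardne (h : NData p c d Q H) : Nat.card {y : G // y ∈ Q ∧ y ≠ 1} = p - 1 := by
  have h1 : Nat.card {y : G // y ∈ Q ∧ y ≠ 1} = ((Q : Set G) \ {1}).ncard := rfl
  rw [h1, Set.ncard_sdiff_singleton_of_mem Q.one_mem]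
  have h2 : (Q : Set G).ncard = Nat.card Q := rfl
  rw [h2, h.hQ]

/-- the number of elements in the centraliser of `Q` that are inverted by `t` and of order divisible
by `p` -/
theorem odda_elt (h : NData p c d Q H) (t : G) (ht : t * t = 1) (hi : ∀ y ∈ Q, t * y * t⁻¹ = y⁻¹) :
    Nat.card {x : G // x ∈ Subgroup.centralizer (Q : Set G) ∧ t * x * t⁻¹ = x⁻¹ ∧ p ∣ orderOf x} =
      (p - 1) * Nat.card {x : G // x ∈ H ∧ x ∈ Subgroup.centralizer (Q : Set G) ∧ x * x = 1} := by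
  obtain ⟨y0, hy0, t', ht'H, hty, hti, htt⟩ := odda_inv_dec h hi
  have htx : ∀ x, x ∈ H → x ∈ Subgroup.centralizer (Q : Set G) → t * x * t⁻¹ = x := by
    intro x hx hxC
    have h1 : t * x * t⁻¹ = y0 * (t' * x * t'⁻¹) * y0⁻¹ := by rw [hty]; group
    have h2 : t' * x * t'⁻¹ = x := by rw [h.ab _ ht'H _ hx]; group
    have h3 : y0 * x = x * y0 := (Subgroup.mem_centralizer_iff.1 hxC) _ hy0
    rw [h1, h2, h3]
    group
  rw [← odda_cardne h, ← Nat.card_prod]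
  refine (Nat.card_congr (Equiv.ofBijective
    (fun z : {y : G // y ∈ Q ∧ y ≠ 1} × {x : G // x ∈ H ∧ x ∈ Subgroup.centralizer (Q : Set G) ∧ x * x = 1} =>
      (⟨(z.1 : G) * (z.2 : G), ?_, ?_, ?_⟩ :
        {x : G // x ∈ Subgroup.centralizer (Q : Set G) ∧ t * x * t⁻¹ = x⁻¹ ∧ p ∣ orderOf x}))
      ⟨?_, ?_⟩)).symm
  · obtain ⟨⟨y, hy, hy1⟩, ⟨x, hxH, hxC, hxx⟩⟩ := z
    exact Subgroup.mul_mem _ (odda_QC h hy) hxC
  · obtain ⟨⟨y, hy, hy1⟩, ⟨x, hxH, hxC, hxx⟩⟩ := z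
    show t * (y * x) * t⁻¹ = (y * x)⁻¹
    have h1 : t * (y * x) * t⁻¹ = (t * y * t⁻¹) * (t * x * t⁻¹) := by group
    have h2 : x⁻¹ = x := inv_eq_of_mul_eq_one_left hxx
    have h3 : y⁻¹ * x = x * y⁻¹ := (Subgroup.mem_centralizer_iff.1 hxC) _ (Q.inv_mem hy)
    rw [h1, hi y hy, htx x hxH hxC, mul_inv_rev, h2, h3]
  · obtain ⟨⟨y, hy, hy1⟩, ⟨x, hxH, hxC, hxx⟩⟩ := z
    show p ∣ orderOf (y * x)
    have hc : Commute y x := (Subgroup.mem_centralizer_iff.1 hxC) _ hy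
    have h1 : y ^ orderOf (y * x) * x ^ orderOf (y * x) = 1 := by
      rw [← hc.mul_pow, pow_orderOf_eq_one]
    have h2 : y ^ orderOf (y * x) = 1 :=
      (odda_uniq h (Q.pow_mem hy _) Q.one_mem (H.pow_mem hxH _) H.one_mem (by rw [h1, one_mul])).1
    have h3 : orderOf y = p := by
      have h4 : orderOf y ∣ p := by
        have h5 : orderOf (⟨y, hy⟩ : Q) ∣ Nat.card Q := orderOf_dvd_natCard _
        rwa [h.hQ, Subgroup.orderOf_mk] at h5
      rcases (Nat.dvd_prime h.hp).1 h4 with h5 | h5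
      · exact absurd (orderOf_eq_one_iff.1 h5) hy1
      · exact h5
    rw [← h3]
    exact orderOf_dvd_of_pow_eq_one h2
  · rintro ⟨⟨y, hy⟩, ⟨x, hx⟩⟩ ⟨⟨y', hy'⟩, ⟨x', hx'⟩⟩ he
    have he' : y * x = y' * x' := congrArg Subtype.val he
    obtain ⟨h1, h2⟩ := odda_uniq h hy.1 hy'.1 hx.1 hx'.1 he'
    subst h1
    subst h2
    rfl
  · rintro ⟨g, hg, hgi, hgp⟩
    obtain ⟨y, hy, x, hx, rfl⟩ := odda_dec h (odda_CN hg)
    have hxC : x ∈ Subgroup.centralizer (Q : Set G) :=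
      (Subgroup.mul_mem_cancel_left _ (odda_QC h hy)).1 hg
    have hxx : x * x = 1 := by
      have h1 : t * (y * x) * t⁻¹ = (t * y * t⁻¹) * (t * x * t⁻¹) := by group
      have h3 : x⁻¹ * y⁻¹ = y⁻¹ * x⁻¹ :=
        ((Subgroup.mem_centralizer_iff.1 (Subgroup.inv_mem _ hxC)) _ (Q.inv_mem hy)).symm
      rw [h1, hi y hy, htx x hx hxC, mul_inv_rev, h3] at hgi
      have h4 : x = x⁻¹ := mul_left_cancel hgi
      exact mul_eq_one_iff_eq_inv.2 h4
    have hy1 : y ≠ 1 := by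
      rintro rfl
      rw [one_mul] at hgp
      have h1 : orderOf x ∣ 2 := orderOf_dvd_of_pow_eq_one (by rw [pow_two, hxx])
      exact h.hp2 ((Nat.prime_dvd_prime_iff_eq h.hp Nat.prime_two).1 (hgp.trans h1))
    exact ⟨(⟨y, hy, hy1⟩, ⟨x, hx, hxC, hxx⟩), rfl⟩

/-- `d` is even -/
theorem odda_even (h : NData p c d Q H) (t : G) (ht : t * t = 1)
    (hi : ∀ y ∈ Q, t * y * t⁻¹ = y⁻¹) : 2 ∣ d := by
  obtain ⟨y0, hy0, t', ht'H, hty, hti, htt⟩ := odda_inv_dec h hi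
  rw [ht] at htt
  have ht'C : t' ∉ Subgroup.centralizer (Q : Set G) := by
    intro hC
    have hcard : 0 < Nat.card {y : G // y ∈ Q ∧ y ≠ 1} := by
      rw [odda_cardne h]
      have := h.hp.two_le
      omega
    obtain ⟨⟨y, hy, hy1⟩⟩ := (Nat.card_pos_iff.1 hcard).1
    have h1 := (odda_cen h).1 hC y hy
    rw [hti y hy] at h1
    have h2 : y ^ 2 = 1 := by
      rw [pow_two]
      exact mul_eq_one_iff_eq_inv.2 h1.symm
    have h4 : orderOf y ∣ p := by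
      have h5 : orderOf (⟨y, hy⟩ : Q) ∣ Nat.card Q := orderOf_dvd_natCard _
      rwa [h.hQ, Subgroup.orderOf_mk] at h5
    rcases (Nat.dvd_prime h.hp).1 h4 with h5 | h5
    · exact hy1 (orderOf_eq_one_iff.1 h5)
    · have h6 := orderOf_dvd_of_pow_eq_one h2
      rw [h5] at h6
      exact h.hp2 ((Nat.prime_dvd_prime_iff_eq h.hp Nat.prime_two).1 h6)
  set S : Subgroup H := (H ⊓ Subgroup.centralizer (Q : Set G)).subgroupOf H with hS
  have hn : S.Normal := by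
    constructor
    rintro ⟨a, ha⟩ haS ⟨g, hg⟩
    have h1 : (⟨g, hg⟩ * ⟨a, ha⟩ * (⟨g, hg⟩ : H)⁻¹ : H) = ⟨a, ha⟩ := by
      apply Subtype.ext
      show g * a * g⁻¹ = a
      rw [h.ab g hg a ha]
      group
    rw [h1]
    exact haS
  have hcS : Nat.card S = c := by
    rw [← h.cardC]
    exact Nat.card_congr (Subgroup.subgroupOfEquivOfLe inf_le_left).toEquiv
  have hidx : S.index = d := by
    have h1 := S.card_mul_index
    rw [hcS, h.cardH] at h1
    have h2 : 0 < c := by rw [← h.cardC]; exact Nat.card_pos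
    exact Nat.eq_of_mul_eq_mul_left h2 h1
  have hcq : Nat.card (H ⧸ S) = d := by rw [← hidx]; rfl
  rw [← hcq]
  have ho : orderOf (QuotientGroup.mk (⟨t', ht'H⟩ : H) : H ⧸ S) = 2 := by
    have h2 : Fact (Nat.Prime 2) := ⟨Nat.prime_two⟩
    refine orderOf_eq_prime ?_ ?_
    · rw [← QuotientGroup.mk_pow, pow_two]
      have h1 : (⟨t', ht'H⟩ * ⟨t', ht'H⟩ : H) = 1 := Subtype.ext htt.symm
      rw [h1, QuotientGroup.mk_one]
    · intro h1
      rw [QuotientGroup.eq_one_iff, hS, Subgroup.mem_subgroupOf] at h1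
      exact ht'C h1.2
  rw [← ho]
  exact orderOf_dvd_natCard _

end Pool.Agent.SHAF
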