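import Mathlib
import Pool.Agent.SHAN.OddA

set_option autoImplicit false

/-!
Counting elements of odd order inverted by an involution (module ODDB).
-/

namespace Pool.Agent.SHAF

variable {G : Type} [Group G] [Finite G] {p c d : ℕ} {Q H : Subgroup G}

theorem oddb_card_fib {α β : Type} [Finite α] [Finite β] (f : α → β) (k : ℕ)
    (h : ∀ b, Nat.card {a // f a = b} = k) : Nat.card α = Nat.card β * k := by
  classical
  haveI := Fintype.ofFinite β
  rw [Nat.card_congr (Equiv.sigmaFiberEquiv f).symm, Nat.card_sigma, Finset.sum_congr rfl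
    (fun b _ => h b), Finset.sum_const, Finset.card_univ, smul_eq_mul, Nat.card_eq_fintype_card]

theorem oddb_fib_sub {α β : Type} (P : α → Prop) (f : {a // P a} → β) (b : β) (Q : α → Prop)
    (h1 : ∀ a (h : P a), f ⟨a, h⟩ = b → Q a) (h2 : ∀ a, Q a → ∃ h : P a, f ⟨a, h⟩ = b) :
    Nat.card {a // f a = b} = Nat.card {a // Q a} := by
  apply Nat.card_congr
  refine ⟨fun x => ⟨x.1.1, h1 x.1.1 x.1.2 x.2⟩,
    fun x => ⟨⟨x.1, (h2 x.1 x.2).choose⟩, (h2 x.1 x.2).choose_spec⟩, ?_, ?_⟩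
  · intro x
    rfl
  · intro x
    rfl

theorem oddb_syl (h : NData p c d Q H) (Q' : Subgroup G) (hQ' : Nat.card Q' = p) :
    ∃ P : Sylow p G, (P : Subgroup G) = Q' := by
  haveI : Fact p.Prime := ⟨h.hp⟩
  have hpg : IsPGroup p Q' := IsPGroup.of_card (n := 1) (by rw [hQ', pow_one])
  obtain ⟨P, hP⟩ := hpg.exists_le_sylow
  refine ⟨P, ?_⟩
  symm
  apply Subgroup.eq_of_le_of_card_ge hP
  rw [hQ']
  exact (h.syl P).le

theorem oddb_conj (h : NData p c d Q H) (Q' : Subgroup G) (hQ' : Nat.card Q' = p) :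
    ∃ g : G, Q' = Q.map (MulAut.conj g).toMonoidHom := by
  haveI : Fact p.Prime := ⟨h.hp⟩
  obtain ⟨P, hP⟩ := oddb_syl h Q h.hQ
  obtain ⟨P', hP'⟩ := oddb_syl h Q' hQ'
  obtain ⟨g, hg⟩ := MulAction.exists_smul_eq G P P'
  refine ⟨g, ?_⟩
  rw [← hP', ← hg, ← hP, Sylow.coe_subgroup_smul]
  rfl

theorem oddb_count (h : NData p c d Q H) :
    Nat.card {Q' : Subgroup G // Nat.card Q' = p} * (p * (c * d)) = Nat.card G := by
  haveI : Fact p.Prime := ⟨h.hp⟩
  obtain ⟨P, hP⟩ := oddb_syl h Q h.hQ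
  have e : Nat.card (Sylow p G) = Nat.card {Q' : Subgroup G // Nat.card Q' = p} := by
    apply Nat.card_congr
    refine Equiv.ofBijective (fun P' => ⟨(P' : Subgroup G), h.syl P'⟩) ⟨?_, ?_⟩
    · intro A B hAB
      exact Sylow.ext (Subtype.mk.inj hAB)
    · rintro ⟨Q', hQ'⟩
      obtain ⟨P', hP'⟩ := oddb_syl h Q' hQ'
      exact ⟨P', Subtype.ext hP'⟩
  have h1 := Sylow.card_eq_index_normalizer P
  have h2 := Subgroup.index_mul_card (Subgroup.normalizer (P : Set G))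
  have hP' : (P : Set G) = (Q : Set G) := by rw [← hP]; rfl
  rw [← h1, hP', h.cardN, e] at h2
  exact h2

theorem oddb_ne (h : NData p c d Q H) (Q' : Subgroup G) (hQ' : Nat.card Q' = p) (t : G)
    (hi : ∀ y ∈ Q', t * y * t⁻¹ = y⁻¹) : t ≠ 1 := by
  rintro rfl
  have hp2 := h.hp2
  have hp := h.hp
  have h1 : ∀ y ∈ Q', y * y = 1 := by
    intro y hy
    have := hi y hy
    simp only [one_mul, inv_one, mul_one] at this
    nth_rewrite 2 [this]
    exact mul_inv_cancel y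
  have h3 : ∀ y ∈ Q', y = 1 := by
    intro y hy
    have h4 : y ^ 2 = 1 := by rw [pow_two]; exact h1 y hy
    have h5 : y ^ p = 1 := by
      have := pow_card_eq_one' (x := (⟨y, hy⟩ : Q'))
      rw [hQ'] at this
      simpa using congrArg Subtype.val this
    have h6 : y ^ Nat.gcd 2 p = 1 := pow_gcd_eq_one.2 ⟨h4, h5⟩
    have h7 : Nat.gcd 2 p = 1 := by
      rcases (Nat.coprime_primes Nat.prime_two hp).2 (fun hh => hp2 hh.symm) with h
      exact h
    rw [h7, pow_one] at h6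
    exact h6
  have h8 : Q' = ⊥ := by
    rw [Subgroup.eq_bot_iff_forall]
    exact h3
  rw [h8, Subgroup.card_bot] at hQ'
  exact hp.one_lt.ne hQ'

theorem oddb_inv_count (h : NData p c d Q H) (t : G) (ht : t * t = 1)
    (hi : ∀ y ∈ Q, t * y * t⁻¹ = y⁻¹) (g : G) (Q' : Subgroup G)
    (hg : Q' = Q.map (MulAut.conj g).toMonoidHom) :
    Nat.card {s : G // s * s = 1 ∧ ∀ y ∈ Q', s * y * s⁻¹ = y⁻¹} =
      p * Nat.card {x : G // x ∈ H ∧ x ∈ Subgroup.centralizer (Q : Set G) ∧ x * x = 1} := by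
  rw [← odda_inv h t ht hi]
  apply Nat.card_congr
  refine (MulAut.conj g⁻¹).toEquiv.subtypeEquiv ?_
  intro s
  simp only [MulEquiv.toEquiv_eq_coe, EquivLike.coe_coe, MulAut.conj_apply, inv_inv]
  subst hg
  constructor
  · rintro ⟨h1, h2⟩
    refine ⟨?_, ?_⟩
    · calc g⁻¹ * s * g * (g⁻¹ * s * g) = g⁻¹ * (s * s) * g := by group
        _ = 1 := by rw [h1]; group
    · intro y hy
      have := h2 (g * y * g⁻¹) ⟨y, hy, rfl⟩
      calc g⁻¹ * s * g * y * (g⁻¹ * s * g)⁻¹ = g⁻¹ * (s * (g * y * g⁻¹) * s⁻¹) * g := by group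
        _ = y⁻¹ := by rw [this]; group
  · rintro ⟨h1, h2⟩
    refine ⟨?_, ?_⟩
    · calc s * s = g * (g⁻¹ * s * g * (g⁻¹ * s * g)) * g⁻¹ := by group
        _ = 1 := by rw [h1]; group
    · rintro _ ⟨y, hy, rfl⟩
      have := h2 y hy
      change s * (g * y * g⁻¹) * s⁻¹ = (g * y * g⁻¹)⁻¹
      calc s * (g * y * g⁻¹) * s⁻¹ = g * (g⁻¹ * s * g * y * (g⁻¹ * s * g)⁻¹) * g⁻¹ := by group
        _ = (g * y * g⁻¹)⁻¹ := by rw [this]; group

theorem oddb_elt_count (h : NData p c d Q H) (t : G) (ht : t * t = 1) (g : G) (Q' : Subgroup G)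
    (hg : Q' = Q.map (MulAut.conj g).toMonoidHom) (hi : ∀ y ∈ Q', t * y * t⁻¹ = y⁻¹) :
    Nat.card {x : G // x ∈ Subgroup.centralizer (Q' : Set G) ∧ t * x * t⁻¹ = x⁻¹ ∧
      p ∣ orderOf x} = (p - 1) *
        Nat.card {x : G // x ∈ H ∧ x ∈ Subgroup.centralizer (Q : Set G) ∧ x * x = 1} := by
  subst hg
  have hi' : ∀ y ∈ Q, (g⁻¹ * t * g) * y * (g⁻¹ * t * g)⁻¹ = y⁻¹ := by
    intro y hy
    have := hi (g * y * g⁻¹) ⟨y, hy, rfl⟩
    calc g⁻¹ * t * g * y * (g⁻¹ * t * g)⁻¹ = g⁻¹ * (t * (g * y * g⁻¹) * t⁻¹) * g := by group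
      _ = y⁻¹ := by rw [this]; group
  have ht' : (g⁻¹ * t * g) * (g⁻¹ * t * g) = 1 := by
    calc g⁻¹ * t * g * (g⁻¹ * t * g) = g⁻¹ * (t * t) * g := by group
      _ = 1 := by rw [ht]; group
  rw [← odda_elt h (g⁻¹ * t * g) ht' hi']
  apply Nat.card_congr
  refine (MulAut.conj g⁻¹).toEquiv.subtypeEquiv ?_
  intro x
  have ho : orderOf (g⁻¹ * x * g) = orderOf x := by
    have := orderOf_injective (MulAut.conj g⁻¹).toMonoidHom (MulAut.conj g⁻¹).injective x
    simpa using this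
  simp only [MulEquiv.toEquiv_eq_coe, EquivLike.coe_coe, MulAut.conj_apply, inv_inv]
  rw [ho]
  refine and_congr ?_ (and_congr ?_ Iff.rfl)
  · rw [Subgroup.mem_centralizer_iff, Subgroup.mem_centralizer_iff]
    constructor
    · intro h1 y hy
      have := h1 (g * y * g⁻¹) ⟨y, hy, rfl⟩
      calc y * (g⁻¹ * x * g) = g⁻¹ * (g * y * g⁻¹ * x) * g := by group
        _ = (g⁻¹ * x * g) * y := by rw [this]; group
    · rintro h1 _ ⟨y, hy, rfl⟩
      have := h1 y hy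
      change (g * y * g⁻¹) * x = x * (g * y * g⁻¹)
      calc (g * y * g⁻¹) * x = g * (y * (g⁻¹ * x * g)) * g⁻¹ := by group
        _ = x * (g * y * g⁻¹) := by rw [this]; group
  · constructor
    · intro h1
      calc g⁻¹ * t * g * (g⁻¹ * x * g) * (g⁻¹ * t * g)⁻¹ = g⁻¹ * (t * x * t⁻¹) * g := by group
        _ = (g⁻¹ * x * g)⁻¹ := by rw [h1]; group
    · intro h1
      calc t * x * t⁻¹ = g * (g⁻¹ * t * g * (g⁻¹ * x * g) * (g⁻¹ * t * g)⁻¹) * g⁻¹ := by group
        _ = x⁻¹ := by rw [h1]; group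

theorem oddb_class (t : G) (ht : t * t = 1) (ht1 : t ≠ 1)
    (hconj : ∀ s t : G, s * s = 1 → s ≠ 1 → t * t = 1 → t ≠ 1 → ∃ g, g * s * g⁻¹ = t) :
    Nat.card G = Nat.card {s : G // s * s = 1 ∧ s ≠ 1} * Nat.card (Subgroup.centralizer {t}) := by
  refine oddb_card_fib (fun g : G => (⟨g * t * g⁻¹, ?_, ?_⟩ : {s : G // s * s = 1 ∧ s ≠ 1})) _ ?_
  · calc g * t * g⁻¹ * (g * t * g⁻¹) = g * (t * t) * g⁻¹ := by group
      _ = 1 := by rw [ht]; group
  · intro h1
    apply ht1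
    calc t = g⁻¹ * (g * t * g⁻¹) * g := by group
      _ = 1 := by rw [h1]; group
  · rintro ⟨s, hs, hs1⟩
    obtain ⟨g₀, hg₀⟩ := hconj t s ht ht1 hs hs1
    apply Nat.card_congr
    refine (Equiv.mulLeft g₀⁻¹).subtypeEquiv ?_
    intro g
    simp only [Equiv.coe_mulLeft, Subtype.mk.injEq]
    rw [Subgroup.mem_centralizer_singleton_iff]
    constructor
    · intro h1
      have h2 : g * t = s * g := by rw [← h1]; group
      have h3 : g₀ * t = s * g₀ := by rw [← hg₀]; group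
      have h4 : g₀⁻¹ * s = t * g₀⁻¹ := by
        rw [inv_mul_eq_iff_eq_mul, ← mul_assoc, h3]; group
      calc g₀⁻¹ * g * t = g₀⁻¹ * (g * t) := by group
        _ = (g₀⁻¹ * s) * g := by rw [h2]; group
        _ = t * (g₀⁻¹ * g) := by rw [h4]; group
    · intro h1
      calc g * t * g⁻¹ = g₀ * (g₀⁻¹ * g * t) * g⁻¹ := by group
        _ = g₀ * t * g₀⁻¹ := by rw [h1]; group
        _ = s := hg₀

theorem oddb_hinv {t : G} (x : G) (hx : t * x * t⁻¹ = x⁻¹) (k : ℤ) :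
    t * x ^ k * t⁻¹ = (x ^ k)⁻¹ := by
  have h1 : t * x ^ k * t⁻¹ = (t * x * t⁻¹) ^ k := by
    rw [← MulAut.conj_apply, map_zpow, MulAut.conj_apply]
  rw [h1, hx, inv_zpow]

/-- the subgroup of order `p` of `⟨x⟩` -/
theorem oddb_zp (_ : NData p c d Q H) {x : G} (hx : p ∣ orderOf x) :
    Nat.card (Subgroup.zpowers (x ^ (orderOf x / p))) = p := by
  rw [Nat.card_zpowers, orderOf_pow, Nat.gcd_eq_right (Nat.div_dvd_of_dvd hx)]
  exact Nat.div_div_self hx (orderOf_pos x).ne'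

theorem oddb_unique (h : NData p c d Q H) (A B : Subgroup G) (hA : Nat.card A = p)
    (hB : Nat.card B = p) (hAB : B ≤ Subgroup.centralizer (A : Set G)) : A = B := by
  haveI : Fact p.Prime := ⟨h.hp⟩
  have hAp : IsPGroup p A := IsPGroup.of_card (n := 1) (by rw [hA, pow_one])
  have hBp : IsPGroup p B := IsPGroup.of_card (n := 1) (by rw [hB, pow_one])
  have hn : B ≤ Subgroup.normalizer (A : Set G) :=
    hAB.trans (Subgroup.centralizer_le_normalizer _)
  have hsup : IsPGroup p (B ⊔ A : Subgroup G) := hBp.to_sup_of_normal_right' hAp hn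
  obtain ⟨P, hP⟩ := hsup.exists_le_sylow
  have h1 : A = P := by
    apply Subgroup.eq_of_le_of_card_ge (le_sup_right.trans hP)
    rw [hA]; exact (h.syl P).le
  have h2 : B = P := by
    apply Subgroup.eq_of_le_of_card_ge (le_sup_left.trans hP)
    rw [hB]; exact (h.syl P).le
  rw [h1, h2]

/-- the map to the subgroups -/
noncomputable def oddb_map (h : NData p c d Q H) (t : G) :
    {x : G // t * x * t⁻¹ = x⁻¹ ∧ p ∣ orderOf x} →
      {A : Subgroup G // Nat.card A = p ∧ ∀ y ∈ A, t * y * t⁻¹ = y⁻¹} :=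
  fun x => ⟨Subgroup.zpowers (x.1 ^ (orderOf x.1 / p)), by
    refine ⟨oddb_zp h x.2.2, ?_⟩
    rintro y ⟨k, hk⟩
    have hk' : (x.1 ^ (orderOf x.1 / p)) ^ k = y := hk
    rw [← hk', ← zpow_natCast, ← zpow_mul]
    exact oddb_hinv _ x.2.1 _⟩

theorem oddb_inverted (h : NData p c d Q H) (t : G) (ht : t * t = 1) {j : ℕ}
    (hj : Nat.card {x : G // x ∈ H ∧ x ∈ Subgroup.centralizer (Q : Set G) ∧ x * x = 1} = j) :
    Nat.card {x : G // t * x * t⁻¹ = x⁻¹ ∧ p ∣ orderOf x} =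
      Nat.card {A : Subgroup G // Nat.card A = p ∧ ∀ y ∈ A, t * y * t⁻¹ = y⁻¹} *
        ((p - 1) * j) := by
  apply oddb_card_fib (oddb_map h t)
  rintro ⟨A, hA, hAt⟩
  obtain ⟨g, hg⟩ := oddb_conj h A hA
  rw [← hj, ← oddb_elt_count h t ht g A hg hAt]
  apply oddb_fib_sub
  · intro x hx h0
    have h1 : Subgroup.zpowers (x ^ (orderOf x / p)) = A := congrArg Subtype.val h0
    refine ⟨?_, hx⟩
    rw [Subgroup.mem_centralizer_iff]
    intro y hy
    rw [← h1] at hy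
    obtain ⟨k, rfl⟩ := hy
    exact ((Commute.refl x).pow_left _).zpow_left k
  · intro x hx
    refine ⟨hx.2, ?_⟩
    apply Subtype.ext
    symm
    refine oddb_unique h A (Subgroup.zpowers (x ^ (orderOf x / p))) hA (oddb_zp h hx.2.2) ?_
    rw [Subgroup.zpowers_le]
    exact Subgroup.pow_mem _ hx.1 _

/-- the number `s` of subgroups of order `p` inverted by `t`, and the number of elements of order
divisible by `p` that are inverted by `t` -/
theorem odd_count (h : NData p c d Q H)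
    (hconj : ∀ s t : G, s * s = 1 → s ≠ 1 → t * t = 1 → t ≠ 1 → ∃ g, g * s * g⁻¹ = t)
    (t : G) (ht : t * t = 1) (hi : ∀ y ∈ Q, t * y * t⁻¹ = y⁻¹) {j : ℕ}
    (hj : Nat.card {x : G // x ∈ H ∧ x ∈ Subgroup.centralizer (Q : Set G) ∧ x * x = 1} = j) :
    ∃ s, 0 < s ∧ s * (c * d) = Nat.card (Subgroup.centralizer {t}) * j ∧
      Nat.card {x : G // t * x * t⁻¹ = x⁻¹ ∧ p ∣ orderOf x} = (p - 1) * (j * s) := by
  have ht1 : t ≠ 1 := oddb_ne h Q h.hQ t hi
  have hp := h.hp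
  set R : Subgroup G → G → Prop := fun A s => ∀ y ∈ A, s * y * s⁻¹ = y⁻¹ with hR
  set S : G → Type := fun s => {A : Subgroup G // Nat.card A = p ∧ R A s} with hS
  have hN := oddb_count h
  have hcl := oddb_class t ht ht1 hconj
  set n := Nat.card {s : G // s * s = 1 ∧ s ≠ 1} with hn
  set N := Nat.card {Q' : Subgroup G // Nat.card Q' = p} with hNdef
  -- the number of subgroups inverted does not depend on the involution
  have hind : ∀ s : G, s * s = 1 → s ≠ 1 → Nat.card (S s) = Nat.card (S t) := by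
    intro s hs hs1
    obtain ⟨g, hg⟩ := hconj s t hs hs1 ht ht1
    apply Nat.card_congr
    have hgi : ∀ y : G, t * (g * y * g⁻¹) * t⁻¹ = g * (s * y * s⁻¹) * g⁻¹ := by
      intro y
      rw [← hg]; group
    refine Equiv.subtypeEquiv (MulEquiv.mapSubgroup (MulAut.conj g)).toEquiv ?_
    intro A
    refine and_congr ?_ ?_
    · rw [iff_iff_eq]
      congr 1
      apply Nat.card_congr
      exact (A.equivMapOfInjective (MulAut.conj g).toMonoidHom (MulAut.conj g).injective).toEquiv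
    · constructor
      · rintro h1 _ ⟨y, hy, rfl⟩
        change t * (g * y * g⁻¹) * t⁻¹ = (g * y * g⁻¹)⁻¹
        rw [hgi, h1 y hy]; group
      · intro h1 y hy
        have h2 : t * (g * y * g⁻¹) * t⁻¹ = (g * y * g⁻¹)⁻¹ := h1 _ ⟨y, hy, rfl⟩
        rw [hgi] at h2
        calc s * y * s⁻¹ = g⁻¹ * (g * (s * y * s⁻¹) * g⁻¹) * g := by group
          _ = y⁻¹ := by rw [h2]; group
  -- the pairs
  have hA : Nat.card {q : Subgroup G × G // Nat.card q.1 = p ∧ q.2 * q.2 = 1 ∧ R q.1 q.2} =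
      N * (p * j) := by
    refine oddb_card_fib (fun q => (⟨q.1.1, q.2.1⟩ : {Q' : Subgroup G // Nat.card Q' = p})) _ ?_
    rintro ⟨A, hA⟩
    obtain ⟨g, hg⟩ := oddb_conj h A hA
    rw [← hj, ← oddb_inv_count h t ht hi g A hg]
    apply Nat.card_congr
    refine ⟨fun q => ⟨q.1.1.2, q.1.2.2.1, ?_⟩, fun s => ⟨⟨(A, s.1), hA, s.2.1, s.2.2⟩, rfl⟩, ?_, ?_⟩
    · have h1 : q.1.1.1 = A := congrArg Subtype.val q.2
      have h2 := q.1.2.2.2
      rw [h1] at h2
      exact h2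
    · rintro ⟨⟨⟨B, s⟩, h1, h2, h3⟩, h4⟩
      have h5 : B = A := congrArg Subtype.val h4
      subst h5
      rfl
    · rintro ⟨s, h1, h2⟩
      rfl
  have hB : Nat.card {q : Subgroup G × G // Nat.card q.1 = p ∧ q.2 * q.2 = 1 ∧ R q.1 q.2} =
      n * Nat.card (S t) := by
    refine oddb_card_fib (fun q => (⟨q.1.2, q.2.2.1, oddb_ne h q.1.1 q.2.1 q.1.2 q.2.2.2⟩ :
      {s : G // s * s = 1 ∧ s ≠ 1})) _ ?_
    rintro ⟨s, hs, hs1⟩
    rw [← hind s hs hs1]
    apply Nat.card_congr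
    refine ⟨fun q => ⟨q.1.1.1, q.1.2.1, ?_⟩, fun A => ⟨⟨(A.1, s), A.2.1, hs, A.2.2⟩, rfl⟩, ?_, ?_⟩
    · have h1 : q.1.1.2 = s := congrArg Subtype.val q.2
      have h2 := q.1.2.2.2
      rw [h1] at h2
      exact h2
    · rintro ⟨⟨⟨B, s'⟩, h1, h2, h3⟩, h4⟩
      have h5 : s' = s := congrArg Subtype.val h4
      subst h5
      rfl
    · rintro ⟨A, h1, h2⟩
      rfl
  have hX : Nat.card {x : G // t * x * t⁻¹ = x⁻¹ ∧ p ∣ orderOf x} =
      Nat.card (S t) * ((p - 1) * j) := oddb_inverted h t ht hj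
  have hs0 : 0 < Nat.card (S t) := by
    haveI : Nonempty (S t) := ⟨⟨Q, h.hQ, hi⟩⟩
    exact Nat.card_pos
  have hn0 : 0 < n := by
    haveI : Nonempty {s : G // s * s = 1 ∧ s ≠ 1} := ⟨⟨t, ht, ht1⟩⟩
    exact Nat.card_pos
  refine ⟨Nat.card (S t), hs0, ?_, ?_⟩
  · apply Nat.eq_of_mul_eq_mul_left hn0
    calc n * (Nat.card (S t) * (c * d)) = (n * Nat.card (S t)) * (c * d) := by ring
      _ = (N * (p * (c * d))) * j := by rw [← hB, hA]; ring
      _ = n * (Nat.card (Subgroup.centralizer {t}) * j) := by rw [hN, hcl]; ring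
  · rw [hX]; ring

/-- all subgroups of order `p` are conjugate to `Q`, and Sylow's congruence -/
theorem odd_sylow (h : NData p c d Q H) :
    (∀ Q' : Subgroup G, Nat.card Q' = p → ∃ g : G, Q' = Q.map (MulAut.conj g).toMonoidHom) ∧
      ∃ N, N % p = 1 ∧ N * (p * (c * d)) = Nat.card G := by
  haveI : Fact p.Prime := ⟨h.hp⟩
  refine ⟨fun Q' hQ' => oddb_conj h Q' hQ', Nat.card (Sylow p G), ?_, ?_⟩
  · have h1 : Nat.card (Sylow p G) % p = 1 % p := card_sylow_modEq_one p G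
    rw [h1]
    exact Nat.mod_eq_of_lt h.hp.one_lt
  · obtain ⟨P, hP⟩ := oddb_syl h Q h.hQ
    have h1 := Sylow.card_eq_index_normalizer P
    have h2 := Subgroup.index_mul_card (Subgroup.normalizer (P : Set G))
    have hP' : (P : Set G) = (Q : Set G) := by rw [← hP]; rfl
    rw [← h1, hP', h.cardN] at h2
    exact h2

end Pool.Agent.SHAF
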