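import Mathlib
import Pool.Agent.SHAN.NormQ

set_option autoImplicit false

/-!
Parity (module PAR).
-/

namespace Pool.Agent.SHAF

/-- a 2-subgroup with the order of a Sylow 2-subgroup is a Sylow 2-subgroup -/
lemma par_syl {G : Type} [Group G] [Finite G] (P : Sylow 2 G) (S : Subgroup G)
    (hS : Nat.card S = Nat.card P) : ∃ P' : Sylow 2 G, S = (P' : Subgroup G) := by
  haveI : Fact (Nat.Prime 2) := ⟨Nat.prime_two⟩
  have h1 : IsPGroup 2 S := by
    obtain ⟨k, hk⟩ := IsPGroup.iff_card.mp P.2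
    exact IsPGroup.of_card (n := k) (by rw [hS]; exact hk)
  obtain ⟨P', hP'⟩ := h1.exists_le_sylow
  refine ⟨P', ?_⟩
  have h2 : Nat.card P' = Nat.card S := by
    rw [hS]
    exact Nat.card_congr (Sylow.equiv P' P).toEquiv
  exact Subgroup.eq_of_le_of_card_ge hP' h2.le

/-- the order of a noncyclic Sylow 2-subgroup does not divide `c * d` if `c` is odd -/
theorem par_even {G : Type} [Group G] [Finite G] {p c d : ℕ} {Q H : Subgroup G}
    (h : NData p c d Q H) (P : Sylow 2 G) (hnc : ¬ IsCyclic P) (hc : ¬ 2 ∣ c) {a s : ℕ}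
    (ha : Nat.card P ∣ a) (hs : s * (c * d) = a) (hs0 : 0 < s) : 2 ∣ s := by
  haveI : Fact (Nat.Prime 2) := ⟨Nat.prime_two⟩
  by_contra hs2
  apply hnc
  obtain ⟨k, hk⟩ := IsPGroup.iff_card.mp P.2
  have hk' : Nat.card P = 2 ^ k := hk
  have hcop : ∀ m : ℕ, ¬ 2 ∣ m → Nat.Coprime (2 ^ k) m := fun m hm =>
    Nat.Coprime.pow_left k ((Nat.Prime.coprime_iff_not_dvd Nat.prime_two).mpr hm)
  have hd : 2 ^ k ∣ d := by
    have h1 : 2 ^ k ∣ s * (c * d) := by
      rw [hs, ← hk']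
      exact ha
    exact (hcop c hc).dvd_of_dvd_mul_left ((hcop s hs2).dvd_of_dvd_mul_left h1)
  obtain ⟨hAc, hAn⟩ := mulAut_prime_cyc h.hp h.hQ
  have hAc' : IsCyclic (MulAut Q) := hAc
  let κ : H →* MulAut Q := (Subgroup.normalizerMonoidHom Q).comp (Subgroup.inclusion h.hH)
  have hker : Nat.card κ.ker = c := by
    rw [← h.cardC]
    refine Nat.card_congr (Equiv.ofBijective (fun x : κ.ker => (⟨(x : H), ⟨(x : H).2, ?_⟩⟩ :
      (H ⊓ Subgroup.centralizer (Q : Set G) : Subgroup G))) ⟨?_, ?_⟩)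
    · have h1 : Subgroup.inclusion h.hH (x : H) ∈ (Subgroup.normalizerMonoidHom Q).ker := x.2
      rw [Subgroup.normalizerMonoidHom_ker] at h1
      exact h1
    · intro x y hxy
      have h1 := congrArg Subtype.val hxy
      exact Subtype.ext (Subtype.ext h1)
    · rintro ⟨x, hx1, hx2⟩
      refine ⟨⟨⟨x, hx1⟩, ?_⟩, rfl⟩
      show Subgroup.inclusion h.hH ⟨x, hx1⟩ ∈ (Subgroup.normalizerMonoidHom Q).ker
      rw [Subgroup.normalizerMonoidHom_ker]
      exact hx2
  have hcpos : 0 < c := by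
    rw [← hker]
    exact Nat.card_pos
  have hran : Nat.card κ.range = d := by
    have h1 := κ.ker.card_mul_index
    rw [Subgroup.index_ker, hker, h.cardH] at h1
    exact Nat.eq_of_mul_eq_mul_left hcpos h1
  have hrc : IsCyclic κ.range := inferInstance
  obtain ⟨g, hg⟩ := hrc.exists_ofOrder_eq_natCard
  obtain ⟨x, hx⟩ := g.2
  have hord : orderOf (κ x) = d := by
    rw [hx, ← hran, ← hg, Subgroup.orderOf_coe]
  have hdx : d ∣ orderOf x := by
    rw [← hord]
    exact orderOf_map_dvd κ x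
  have h2x : 2 ^ k ∣ orderOf (x : G) := by
    rw [Subgroup.orderOf_coe]
    exact hd.trans hdx
  have hx0 : 0 < orderOf (x : G) := orderOf_pos _
  obtain ⟨m, hm⟩ := h2x
  have hm0 : m ≠ 0 := by
    rintro rfl
    rw [mul_zero] at hm
    omega
  have hy : orderOf ((x : G) ^ m) = 2 ^ k := by
    rw [orderOf_pow_of_dvd hm0 (by rw [hm]; exact Dvd.intro_left _ rfl), hm]
    exact Nat.mul_div_cancel _ (Nat.pos_of_ne_zero hm0)
  obtain ⟨P', hP'⟩ := par_syl P (Subgroup.zpowers ((x : G) ^ m)) (by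
    rw [Nat.card_zpowers, hy, hk'])
  have h1 : IsCyclic P' := by
    have h2 : IsCyclic (Subgroup.zpowers ((x : G) ^ m)) := inferInstance
    rw [hP'] at h2
    exact h2
  exact isCyclic_of_surjective (Sylow.equiv P' P) (Sylow.equiv P' P).surjective

/-- Klein four-group as Sylow 2-subgroup: `c = 4` does not occur if `d` is even, and `c = 2` implies
`d = 2` -/
theorem par_klein {G : Type} [Group G] [Finite G] {p c d : ℕ} {Q H : Subgroup G}
    (h : NData p c d Q H) (P : Sylow 2 G) (h4 : Nat.card P = 4) (hnc : ¬ IsCyclic P)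
    (hC : Subgroup.centralizer ((P : Subgroup G) : Set G) ≤ P) (hd : 2 ∣ d) (hc : 2 ∣ c) :
    c = 2 ∧ d = 2 := by
  haveI : Fact (Nat.Prime 2) := ⟨Nat.prime_two⟩
  have hc2 : c = 2 := by
    have h1 := h.par
    unfold Params at h1
    omega
  refine ⟨hc2, ?_⟩
  have h2 : 2 ^ 2 ∣ Nat.card H := by
    rw [h.cardH, hc2]
    obtain ⟨e, he⟩ := hd
    exact ⟨e, by rw [he]; ring⟩
  obtain ⟨S, hS⟩ := Sylow.exists_subgroup_card_pow_prime 2 h2
  obtain ⟨P', hP'⟩ := par_syl P (S.map H.subtype) (by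
    rw [h4, ← Nat.card_congr (Subgroup.equivMapOfInjective S _ H.subtype_injective).toEquiv, hS]
    norm_num)
  obtain ⟨g, hg⟩ := MulAction.exists_smul_eq G P P'
  have hconj : ∀ y ∈ (P : Subgroup G), g * y * g⁻¹ ∈ (P' : Subgroup G) := by
    intro y hy
    rw [← hg, Sylow.coe_subgroup_smul, Subgroup.mem_smul_pointwise_iff_exists]
    exact ⟨y, hy, rfl⟩
  have hconj' : ∀ y ∈ (P' : Subgroup G), g⁻¹ * y * g ∈ (P : Subgroup G) := by
    intro y hy
    rw [← hg, Sylow.coe_subgroup_smul, Subgroup.mem_smul_pointwise_iff_exists] at hy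
    obtain ⟨z, hz, rfl⟩ := hy
    have h3 : g⁻¹ * (g * z * g⁻¹) * g = z := by group
    show g⁻¹ * (g * z * g⁻¹) * g ∈ _
    rw [h3]
    exact hz
  have hHP : H ≤ (P' : Subgroup G) := by
    intro x hx
    have h3 : g⁻¹ * x * g ∈ Subgroup.centralizer ((P : Subgroup G) : Set G) := by
      rw [Subgroup.mem_centralizer_iff]
      intro y hy
      have h4' : g * y * g⁻¹ ∈ (P' : Subgroup G) := hconj y hy
      rw [← hP'] at h4'
      obtain ⟨w, _, hw⟩ := h4'
      have h5 : g * y * g⁻¹ ∈ H := by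
        rw [← hw]
        exact w.2
      have h6 := h.ab _ h5 _ hx
      calc y * (g⁻¹ * x * g) = g⁻¹ * ((g * y * g⁻¹) * x) * g := by group
        _ = g⁻¹ * (x * (g * y * g⁻¹)) * g := by rw [h6]
        _ = g⁻¹ * x * g * y := by group
    have h7 := hconj _ (hC h3)
    have h8 : g * (g⁻¹ * x * g) * g⁻¹ = x := by group
    rwa [h8] at h7
  have h9 : Nat.card H ≤ Nat.card P' := Subgroup.card_le_of_le hHP
  have h10 : Nat.card P' = 4 := by
    rw [← h4]
    exact Nat.card_congr (Sylow.equiv P' P).toEquiv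
  rw [h10, h.cardH, hc2] at h9
  have := h.d1
  omega

end Pool.Agent.SHAF
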