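import Mathlib

set_option autoImplicit false

/-!
The elements inverted by an involution (module TOT).
-/

namespace Pool.Agent.SHAF

/-- the number of involutions and the order of the centraliser -/
theorem class_count {G : Type} [Group G] [Finite G]
    (hconj : ∀ s t : G, s * s = 1 → s ≠ 1 → t * t = 1 → t ≠ 1 → ∃ g, g * s * g⁻¹ = t)
    (t : G) (ht : t * t = 1) (ht1 : t ≠ 1) :
    ∃ n, Nat.card {s : G // s * s = 1} = n + 1 ∧
      Nat.card (Subgroup.centralizer {t}) * n = Nat.card G := by
  classical
  have h1 : ({s : G | s * s = 1}) = insert 1 {s : G | s * s = 1 ∧ s ≠ 1} := by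
    ext s
    constructor
    · intro h
      by_cases hs : s = 1
      · exact Or.inl hs
      · exact Or.inr ⟨h, hs⟩
    · rintro (h | h)
      · rw [h]
        exact one_mul 1
      · exact h.1
  refine ⟨Nat.card {s : G // s * s = 1 ∧ s ≠ 1}, ?_, ?_⟩
  · have h2 : Nat.card {s : G // s * s = 1} = ({s : G | s * s = 1}).ncard := rfl
    have h3 : Nat.card {s : G // s * s = 1 ∧ s ≠ 1} = ({s : G | s * s = 1 ∧ s ≠ 1}).ncard := rfl
    rw [h2, h3, h1, Set.ncard_insert_of_notMem (fun h => h.2 rfl) (Set.toFinite _)]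
  · have hmem : ∀ a b : G, a⁻¹ * b ∈ Subgroup.centralizer {t} ↔ a * t * a⁻¹ = b * t * b⁻¹ := by
      intro a b
      rw [Subgroup.mem_centralizer_singleton_iff]
      constructor
      · intro h
        have h4 : b * t = a * (a⁻¹ * b * t) := by group
        rw [h4, h]
        group
      · intro h
        have h4 : a⁻¹ * b * t = a⁻¹ * (b * t * b⁻¹) * b := by group
        rw [h4, ← h]
        group
    have hinv : ∀ a : G, a * t * a⁻¹ * (a * t * a⁻¹) = 1 ∧ a * t * a⁻¹ ≠ 1 := by
      intro a
      constructor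
      · have h4 : a * t * a⁻¹ * (a * t * a⁻¹) = a * (t * t) * a⁻¹ := by group
        rw [h4, ht]
        group
      · intro h
        apply ht1
        have h4 : t = a⁻¹ * (a * t * a⁻¹) * a := by group
        rw [h4, h]
        group
    let φ : G ⧸ (Subgroup.centralizer {t} : Subgroup G) → {s : G // s * s = 1 ∧ s ≠ 1} :=
      Quotient.lift (s := QuotientGroup.leftRel (Subgroup.centralizer {t}))
        (fun a => ⟨a * t * a⁻¹, hinv a⟩) fun a b hab =>
          Subtype.ext ((hmem a b).1 (QuotientGroup.leftRel_apply.1 hab))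
    have hφ : Function.Bijective φ := by
      constructor
      · intro a b
        induction a using QuotientGroup.induction_on with
        | H a =>
          induction b using QuotientGroup.induction_on with
          | H b =>
            intro h
            have h4 : a * t * a⁻¹ = b * t * b⁻¹ := congrArg Subtype.val h
            exact QuotientGroup.eq.2 ((hmem a b).2 h4)
      · rintro ⟨s, hs, hs1⟩
        obtain ⟨g, hg⟩ := hconj t s ht ht1 hs hs1
        exact ⟨(g : G ⧸ (Subgroup.centralizer {t} : Subgroup G)), Subtype.ext hg⟩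
    rw [← Nat.card_congr (Equiv.ofBijective φ hφ), mul_comm]
    exact (Subgroup.card_eq_card_quotient_mul_card_subgroup (Subgroup.centralizer {t})).symm

/-- the number of elements with square 1 is the number of elements inverted by `t`; sum over the
primes -/
theorem total_count {G : Type} [Group G] [Finite G] (t : G) (ht : t * t = 1)
    (hd : ∀ x : G, t * x * t⁻¹ = x⁻¹ → ∀ p q : ℕ, p.Prime → q.Prime → p ≠ 2 → q ≠ 2 →
      p ∣ orderOf x → q ∣ orderOf x → p = q) :
    Nat.card {s : G // s * s = 1} =
      Nat.card {x : G // t * x * t⁻¹ = x⁻¹ ∧ ∃ k, orderOf x = 2 ^ k} +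
        ∑ p ∈ (Nat.card G).primeFactors.erase 2,
          Nat.card {x : G // t * x * t⁻¹ = x⁻¹ ∧ p ∣ orderOf x} := by
  classical
  have hti : t⁻¹ = t := inv_eq_of_mul_eq_one_left ht
  have e : {s : G // s * s = 1} ≃ {x : G // t * x * t⁻¹ = x⁻¹} :=
    { toFun := fun s => ⟨t * s.1, by
        rw [hti]
        refine eq_inv_of_mul_eq_one_left ?_
        have h1 : t * (t * s.1) * t * (t * s.1) = (t * t) * s.1 * (t * t) * s.1 := by group
        rw [h1, ht, one_mul, mul_one, s.2]⟩
      invFun := fun x => ⟨t * x.1, by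
        have h1 : ∀ y : G, t * y * (t * y) = t * y * t⁻¹ * y := fun y => by rw [hti]; group
        rw [h1, x.2, inv_mul_cancel]⟩
      left_inv := fun s => Subtype.ext (by
        show t * (t * s.1) = s.1
        rw [← mul_assoc, ht, one_mul])
      right_inv := fun x => Subtype.ext (by
        show t * (t * x.1) = x.1
        rw [← mul_assoc, ht, one_mul]) }
  rw [Nat.card_congr e]
  have : Fintype G := Fintype.ofFinite G
  have hcard : ∀ P : G → Prop, Nat.card {x : G // P x} = ∑ x : G, if P x then 1 else 0 := by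
    intro P
    rw [Nat.card_eq_fintype_card, Fintype.card_subtype, Finset.card_filter]
  simp only [hcard]
  rw [Finset.sum_comm, ← Finset.sum_add_distrib]
  refine Finset.sum_congr rfl fun x _ => ?_
  by_cases hx : t * x * t⁻¹ = x⁻¹
  swap
  · simp [hx]
  rw [if_pos hx]
  by_cases hk : ∃ k, orderOf x = 2 ^ k
  · rw [if_pos ⟨hx, hk⟩]
    refine (Nat.add_eq_left.2 (Finset.sum_eq_zero fun p hp => if_neg ?_)).symm
    rintro ⟨-, h⟩
    obtain ⟨k, hk⟩ := hk
    rw [Finset.mem_erase] at hp
    have hpp := Nat.prime_of_mem_primeFactors hp.2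
    rw [hk] at h
    exact hp.1 ((Nat.prime_dvd_prime_iff_eq hpp Nat.prime_two).1 (hpp.dvd_of_dvd_pow h))
  · rw [if_neg (fun h => hk h.2), zero_add]
    obtain ⟨p, hp, hp2, hpx⟩ : ∃ p, p.Prime ∧ p ≠ 2 ∧ p ∣ orderOf x := by
      by_contra hno
      push Not at hno
      apply hk
      have h0 : orderOf x ≠ 0 := (orderOf_pos x).ne'
      refine ⟨_, Nat.eq_prime_pow_of_unique_prime_dvd h0 fun {q} hq hqx => ?_⟩
      by_contra hq2
      exact hno q hq hq2 hqx
    have hpc : p ∈ (Nat.card G).primeFactors.erase 2 := by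
      rw [Finset.mem_erase, Nat.mem_primeFactors]
      exact ⟨hp2, hp, hpx.trans (orderOf_dvd_natCard x), Nat.card_pos.ne'⟩
    rw [Finset.sum_eq_single_of_mem p hpc, if_pos ⟨hx, hpx⟩]
    intro q hq hqp
    rw [if_neg]
    rintro ⟨-, h⟩
    rw [Finset.mem_erase] at hq
    exact hqp (hd x hx q p (Nat.prime_of_mem_primeFactors hq.2) hp hq.1 hp2 h hpx)

end Pool.Agent.SHAF
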