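import Mathlib
import Pool.Agent.SHAN.OddB
import Pool.Agent.SHAN.Par
import Pool.Agent.SHAN.Arith
import Pool.Agent.SHAN.Total

set_option autoImplicit false

/-!
The contribution of one prime (module LOC).
-/

namespace Pool.Agent.SHAF

open Pool.Agent.SHA

/-- the number of elements inverted by `t` of order divisible by `p` -/
noncomputable def gcount {G : Type} [Group G] (t : G) (p : ℕ) : ℕ :=
  Nat.card {x : G // t * x * t⁻¹ = x⁻¹ ∧ p ∣ orderOf x}

variable {G : Type} [Group G] [Finite G]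

/-- an involution that normalises a group of prime order and does not centralise it inverts it -/
theorem inverts {p : ℕ} (hp : p.Prime) (Q : Subgroup G) (hQ : Nat.card Q = p) (t : G)
    (ht : t * t = 1) (hN : t ∈ Subgroup.normalizer (Q : Set G)) (hx : ∃ y ∈ Q, t * y ≠ y * t) :
    ∀ y ∈ Q, t * y * t⁻¹ = y⁻¹ := by
  haveI : Fact p.Prime := ⟨hp⟩
  haveI : IsCyclic Q := isCyclic_of_prime_card hQ
  have hcomm : ∀ a ∈ Q, ∀ b ∈ Q, a * b = b * a := by
    intro a ha b hb
    have := IsCyclic.commGroup (α := Q)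
    have h1 : (⟨a, ha⟩ : Q) * ⟨b, hb⟩ = ⟨b, hb⟩ * ⟨a, ha⟩ := by
      obtain ⟨g, hg⟩ := IsCyclic.exists_generator (α := Q)
      obtain ⟨i, hi⟩ := Subgroup.mem_zpowers_iff.mp (hg ⟨a, ha⟩)
      obtain ⟨j, hj⟩ := Subgroup.mem_zpowers_iff.mp (hg ⟨b, hb⟩)
      rw [← hi, ← hj, ← zpow_add, ← zpow_add, add_comm]
    exact congrArg Subtype.val h1
  have hti : t⁻¹ = t := inv_eq_of_mul_eq_one_right ht
  -- the fixed points
  let F : Subgroup G :=
    { carrier := {z | z ∈ Q ∧ t * z * t⁻¹ = z}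
      one_mem' := ⟨Q.one_mem, by simp⟩
      mul_mem' := by
        rintro a b ⟨ha, ha'⟩ ⟨hb, hb'⟩
        refine ⟨Q.mul_mem ha hb, ?_⟩
        calc t * (a * b) * t⁻¹ = (t * a * t⁻¹) * (t * b * t⁻¹) := by group
          _ = a * b := by rw [ha', hb']
      inv_mem' := by
        rintro a ⟨ha, ha'⟩
        refine ⟨Q.inv_mem ha, ?_⟩
        calc t * a⁻¹ * t⁻¹ = (t * a * t⁻¹)⁻¹ := by group
          _ = a⁻¹ := by rw [ha'] }
  have hFQ : F ≤ Q := fun z hz => hz.1
  have hF : F = ⊥ := by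
    have hd : Nat.card F ∣ p := by
      rw [← hQ]
      exact Subgroup.card_dvd_of_le hFQ
    rcases (Nat.dvd_prime hp).mp hd with h | h
    · exact Subgroup.card_eq_one.mp h
    · exfalso
      have hEq : F = Q := Subgroup.eq_of_le_of_card_ge hFQ (by rw [h, hQ])
      obtain ⟨y, hy, hne⟩ := hx
      have : y ∈ F := by rw [hEq]; exact hy
      apply hne
      have h2 := this.2
      calc t * y = (t * y * t⁻¹) * t := by group
        _ = y * t := by rw [h2]
  intro y hy
  have hty : t * y * t⁻¹ ∈ Q := (Subgroup.mem_normalizer_iff.mp hN y).mp hy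
  have hz : y * (t * y * t⁻¹) ∈ F := by
    refine ⟨Q.mul_mem hy hty, ?_⟩
    calc t * (y * (t * y * t⁻¹)) * t⁻¹ = (t * y * t⁻¹) * ((t * t) * y * (t * t)⁻¹) := by group
      _ = (t * y * t⁻¹) * y := by rw [ht]; simp
      _ = y * (t * y * t⁻¹) := hcomm _ hty _ hy
  rw [hF, Subgroup.mem_bot] at hz
  exact eq_inv_of_mul_eq_one_right hz

omit [Finite G] in
/-- powers of inverted elements are inverted -/
lemma loc_pow {t x : G} (h : t * x * t⁻¹ = x⁻¹) (k : ℕ) : t * x ^ k * t⁻¹ = (x ^ k)⁻¹ := by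
  rw [← conj_pow, h, inv_pow]

omit [Finite G] in
lemma loc_zpow {t x : G} (h : t * x * t⁻¹ = x⁻¹) (y : G) (hy : y ∈ Subgroup.zpowers x) :
    t * y * t⁻¹ = y⁻¹ := by
  obtain ⟨k, rfl⟩ := Subgroup.mem_zpowers_iff.mp hy
  rw [← conj_zpow, h, inv_zpow]

/-- the element of prime order -/
lemma loc_elt {t x : G} (h : t * x * t⁻¹ = x⁻¹) {p : ℕ} (hp : p.Prime) (hd : p ∣ orderOf x) :
    ∃ y : G, orderOf y = p ∧ t * y * t⁻¹ = y⁻¹ ∧
      x ∈ Subgroup.centralizer ((Subgroup.zpowers y : Subgroup G) : Set G) := by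
  refine ⟨x ^ (orderOf x / p), ?_, loc_pow h _, ?_⟩
  · exact orderOf_pow_orderOf_div (orderOf_pos x).ne' hd
  · rw [Subgroup.mem_centralizer_iff]
    intro z hz
    obtain ⟨k, rfl⟩ := Subgroup.mem_zpowers_iff.mp hz
    rw [← zpow_natCast, ← zpow_mul]
    exact (Commute.refl x).zpow_left _

/-- odd primes: disjointness -/
theorem disj (t : G) (ht : t * t = 1)
    (hND : ∀ p : ℕ, p.Prime → p ≠ 2 → ∀ y : G, orderOf y = p → t * y * t⁻¹ = y⁻¹ →
      ∃ (c d : ℕ) (H : Subgroup G), NData p c d (Subgroup.zpowers y) H) :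
    ∀ x : G, t * x * t⁻¹ = x⁻¹ → ∀ p q : ℕ, p.Prime → q.Prime → p ≠ 2 → q ≠ 2 →
      p ∣ orderOf x → q ∣ orderOf x → p = q := by
  have key : ∀ x : G, t * x * t⁻¹ = x⁻¹ → ∀ p q : ℕ, p.Prime → q.Prime → p ≠ 2 → q ≠ 2 →
      p ∣ orderOf x → q ∣ orderOf x → p ≠ q → q = 3 := by
    intro x hx p q hp hq hp2 hq2 hpx hqx hne
    obtain ⟨y, hy, hyi, hxc⟩ := loc_elt hx hp hpx
    obtain ⟨c, d, H, h⟩ := hND p hp hp2 y hy hyi
    have h1 : orderOf x ∣ p * c := by
      rw [← odda_cent h]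
      have h2 : orderOf (⟨x, hxc⟩ : Subgroup.centralizer ((Subgroup.zpowers y : Subgroup G) : Set G)) ∣
        Nat.card (Subgroup.centralizer ((Subgroup.zpowers y : Subgroup G) : Set G)) :=
        orderOf_dvd_natCard _
      rwa [Subgroup.orderOf_mk] at h2
    have h2 : q ∣ p * c := hqx.trans h1
    rcases (hq.dvd_mul).mp h2 with h3 | h3
    · exact absurd ((Nat.prime_dvd_prime_iff_eq hq hp).mp h3).symm hne
    · rcases params_c h.par with h4 | h4 | h4 | h4 <;> rw [h4] at h3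
      · exact absurd (Nat.dvd_one.mp h3) hq.one_lt.ne'
      · exact absurd ((Nat.prime_dvd_prime_iff_eq hq Nat.prime_two).mp h3) hq2
      · exact (Nat.prime_dvd_prime_iff_eq hq Nat.prime_three).mp h3
      · exfalso
        have h5 : q ∣ 2 ^ 2 := h3
        exact hq2 ((Nat.prime_dvd_prime_iff_eq hq Nat.prime_two).mp (hq.dvd_of_dvd_pow h5))
  intro x hx p q hp hq hp2 hq2 hpx hqx
  by_contra hne
  have h1 := key x hx p q hp hq hp2 hq2 hpx hqx hne
  have h2 := key x hx q p hq hp hq2 hp2 hqx hpx (Ne.symm hne)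
  exact hne (h2.trans h1.symm)

/-- the contribution of one prime -/
theorem local_loc
    (hconj : ∀ s t : G, s * s = 1 → s ≠ 1 → t * t = 1 → t ≠ 1 → ∃ g, g * s * g⁻¹ = t)
    (t : G) (ht : t * t = 1) (ht1 : t ≠ 1)
    (hND : ∀ p : ℕ, p.Prime → p ≠ 2 → ∀ y : G, orderOf y = p → t * y * t⁻¹ = y⁻¹ →
      ∃ (c d : ℕ) (H : Subgroup G), NData p c d (Subgroup.zpowers y) H)
    (P : Sylow 2 G) (hnc : ¬ IsCyclic P) {a n : ℕ} (ha : Nat.card (Subgroup.centralizer {t}) = a)
    (hP : Nat.card P ∣ a) (hn : a * n = Nat.card G) {p : ℕ} (hp : p.Prime) (hp2 : p ≠ 2) :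
    gcount t p = 0 ∨ (∃ s, Loc a n p s ∧ gcount t p = (p - 1) * s) ∨
      ∃ (Q H : Subgroup G) (c d : ℕ), NData p c d Q H ∧ (∀ y ∈ Q, t * y * t⁻¹ = y⁻¹) ∧ 2 ∣ d ∧
        2 ∣ c ∧ ∃ s, 0 < s ∧ s * (c * d) = a *
          Nat.card {x : G // x ∈ H ∧ x ∈ Subgroup.centralizer (Q : Set G) ∧ x * x = 1} ∧
          gcount t p = (p - 1) * (Nat.card {x : G // x ∈ H ∧
            x ∈ Subgroup.centralizer (Q : Set G) ∧ x * x = 1} * s) := by
  by_cases h0 : gcount t p = 0
  · exact Or.inl h0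
  right
  have hne : Nonempty {x : G // t * x * t⁻¹ = x⁻¹ ∧ p ∣ orderOf x} := by
    by_contra hcon
    rw [not_nonempty_iff] at hcon
    exact h0 Nat.card_of_isEmpty
  obtain ⟨x, hx, hpx⟩ := hne
  obtain ⟨y, hy, hyi, hxc⟩ := loc_elt hx hp hpx
  obtain ⟨c, d, H, h⟩ := hND p hp hp2 y hy hyi
  have hi : ∀ z ∈ Subgroup.zpowers y, t * z * t⁻¹ = z⁻¹ := fun z hz => loc_zpow hyi z hz
  have hd2 := odda_even h t ht hi
  obtain ⟨s, hs0, hs, hg⟩ := odd_count h hconj t ht hi rfl
  by_cases hc : 2 ∣ c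
  · right
    refine ⟨Subgroup.zpowers y, H, c, d, h, hi, hd2, hc, s, hs0, ?_, hg⟩
    rw [hs, ha]
  · left
    -- j = 1
    have hj : Nat.card {x : G // x ∈ H ∧
        x ∈ Subgroup.centralizer ((Subgroup.zpowers y : Subgroup G) : Set G) ∧ x * x = 1} = 1 := by
      rw [Nat.card_eq_one_iff_unique]
      constructor
      · constructor
        rintro ⟨u, hu1, hu2, hu3⟩ ⟨v, hv1, hv2, hv3⟩
        have key : ∀ w : G, w ∈ H → w ∈ Subgroup.centralizer ((Subgroup.zpowers y : Subgroup G) : Set G) →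
            w * w = 1 → w = 1 := by
          intro w hw1 hw2 hw3
          have h1 : orderOf w ∣ 2 := orderOf_dvd_of_pow_eq_one (by rw [pow_two, hw3])
          have h2 : orderOf w ∣ c := by
            rw [← h.cardC]
            have h9 : w ∈ (H ⊓ Subgroup.centralizer ((Subgroup.zpowers y : Subgroup G) : Set G) :
              Subgroup G) := ⟨hw1, hw2⟩
            have := orderOf_dvd_natCard (⟨w, h9⟩ :
              (H ⊓ Subgroup.centralizer ((Subgroup.zpowers y : Subgroup G) : Set G) : Subgroup G))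
            rwa [Subgroup.orderOf_mk] at this
          rcases (Nat.dvd_prime Nat.prime_two).mp h1 with h3 | h3
          · exact orderOf_eq_one_iff.mp h3
          · rw [h3] at h2
            exact absurd h2 hc
        apply Subtype.ext
        change u = v
        rw [key u hu1 hu2 hu3, key v hv1 hv2 hv3]
      · exact ⟨⟨1, H.one_mem, Subgroup.one_mem _, mul_one 1⟩⟩
    rw [hj, one_mul] at hg
    rw [hj, mul_one, ha] at hs
    -- p does not divide a
    have hpa : ¬ p ∣ a := by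
      intro hpa
      haveI : Fact p.Prime := ⟨hp⟩
      rw [← ha] at hpa
      obtain ⟨⟨w, hw⟩, hw2⟩ := exists_prime_orderOf_dvd_card' p hpa
      rw [Subgroup.orderOf_mk] at hw2
      obtain ⟨hconjQ, -⟩ := odd_sylow h
      obtain ⟨g, hgQ⟩ := hconjQ (Subgroup.zpowers w) (by rw [Nat.card_zpowers, hw2])
      -- an involution centralises Q
      have hcen : g⁻¹ * t * g ∈ Subgroup.centralizer ((Subgroup.zpowers y : Subgroup G) : Set G) := by
        rw [Subgroup.mem_centralizer_iff]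
        intro z hz
        have h1 : g * z * g⁻¹ ∈ Subgroup.zpowers w := by
          rw [hgQ]
          exact ⟨z, hz, rfl⟩
        have h2 : t * (g * z * g⁻¹) = (g * z * g⁻¹) * t := by
          obtain ⟨k, hk⟩ := Subgroup.mem_zpowers_iff.mp h1
          have h3 : Commute t w := by
            rw [Subgroup.mem_centralizer_iff] at hw
            exact hw t (Set.mem_singleton t)
          rw [← hk]
          exact (h3.zpow_right k)
        calc z * (g⁻¹ * t * g) = g⁻¹ * ((g * z * g⁻¹) * t) * g := by group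
          _ = g⁻¹ * (t * (g * z * g⁻¹)) * g := by rw [h2]
          _ = (g⁻¹ * t * g) * z := by group
      have h3 : orderOf (g⁻¹ * t * g) = 2 := by
        rw [orderOf_eq_prime_iff]
        constructor
        · rw [pow_two]
          calc g⁻¹ * t * g * (g⁻¹ * t * g) = g⁻¹ * (t * t) * g := by group
            _ = 1 := by rw [ht]; group
        · intro h4
          apply ht1
          calc t = g * (g⁻¹ * t * g) * g⁻¹ := by group
            _ = 1 := by rw [h4]; group
      have h4 : 2 ∣ p * c := by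
        rw [← odda_cent h]
        have h5 := orderOf_dvd_natCard (⟨g⁻¹ * t * g, hcen⟩ :
          Subgroup.centralizer ((Subgroup.zpowers y : Subgroup G) : Set G))
        rwa [Subgroup.orderOf_mk, h3] at h5
      rcases (Nat.prime_two.dvd_mul).mp h4 with h5 | h5
      · exact hp2 ((Nat.prime_dvd_prime_iff_eq Nat.prime_two hp).mp h5).symm
      · exact hc h5
    have hapos : 0 < a := by
      rw [← ha]
      exact Nat.card_pos
    refine ⟨s, ⟨hp, hp2, hpa, params_q h.par, ?_, hs0, ⟨c, d, hs, hd2, h.dp, ?_⟩, ?_, ?_⟩, hg⟩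
    · exact par_even h P hnc hc hP hs hs0
    · have hpar := h.par
      rcases hpar with ⟨h1, h2⟩ | ⟨h1, h2⟩ | ⟨h1, h2⟩ | ⟨h1, h2, h3⟩ | ⟨h1, h2⟩ | ⟨h1, h2, h3⟩
      · exact Or.inl h1
      · exact absurd (by rw [h1]) hc
      · exact absurd (by rw [h1]) hc
      · exact absurd (by rw [h2]; decide) hc
      · exact Or.inr ⟨h2, Or.inl h1⟩
      · exact Or.inr ⟨h2, Or.inr ⟨h1, h3⟩⟩
    · obtain ⟨-, N, hN, hN2⟩ := odd_sylow h
      refine ⟨N, ?_, hN⟩
      have hcd : 0 < c * d := by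
        rcases Nat.eq_zero_or_pos (c * d) with h1 | h1
        · rw [h1, mul_zero] at hs
          omega
        · exact h1
      apply Nat.eq_of_mul_eq_mul_right hcd
      calc N * p * (c * d) = N * (p * (c * d)) := by ring
        _ = a * n := by rw [hN2, hn]
        _ = s * n * (c * d) := by rw [← hs]; ring
    · intro hsq
      haveI : Fact p.Prime := ⟨hp⟩
      have h1 : p ^ 2 ∣ Nat.card G := by
        rw [← hn]
        exact hsq.mul_left a
      obtain ⟨P'⟩ : Nonempty (Sylow p G) := inferInstance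
      have h2 := h.syl P'
      have h3 : p ^ 2 ∣ Nat.card P' := by
        rw [Sylow.card_eq_multiplicity]
        exact pow_dvd_pow p ((hp.pow_dvd_iff_le_factorization Nat.card_pos.ne').mp h1)
      rw [h2] at h3
      have h4 := Nat.le_of_dvd hp.pos h3
      have h5 : p * 1 < p * p := Nat.mul_lt_mul_of_pos_left hp.one_lt hp.pos
      rw [pow_two] at h4
      omega

end Pool.Agent.SHAF
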