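import Mathlib
import Pool.Agent.SHAN.Local

set_option autoImplicit false

/-!
Common steps of the three cases (module COMMON).
-/

namespace Pool.Agent.SHAF

open Pool.Agent.SHA

variable {K : (G : Type) → [Group G] → Prop}

/-- the sum over the primes -/
lemma loc_sum (T : Finset ℕ) (g : ℕ → ℕ) {a n : ℕ}
    (h : ∀ p ∈ T, g p = 0 ∨ ∃ s, Loc a n p s ∧ g p = (p - 1) * s) :
    (∀ p ∈ T.filter (fun p => g p ≠ 0), Loc a n p (g p / (p - 1))) ∧
      ∑ p ∈ T, g p = ∑ p ∈ T.filter (fun p => g p ≠ 0), (p - 1) * (g p / (p - 1)) := by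
  have key : ∀ p ∈ T.filter (fun p => g p ≠ 0), Loc a n p (g p / (p - 1)) ∧
      g p = (p - 1) * (g p / (p - 1)) := by
    intro p hp
    rw [Finset.mem_filter] at hp
    rcases h p hp.1 with h0 | ⟨s, hs, hg⟩
    · exact absurd h0 hp.2
    · have hpos : 0 < p - 1 := by
        have := hs.hp.two_le
        omega
      have h1 : g p / (p - 1) = s := by
        rw [hg]
        exact Nat.mul_div_cancel_left s hpos
      rw [h1]
      exact ⟨hs, hg⟩
  refine ⟨fun p hp => (key p hp).1, ?_⟩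
  rw [← Finset.sum_filter_ne_zero]
  exact Finset.sum_congr rfl fun p hp => (key p hp).2

lemma center_triv {G : Type} [Group G] [Finite G] [IsSimpleGroup G]
    (hns : ¬ Group.IsSolvable G) (z : G) (hz : ∀ g, z * g = g * z) : z = 1 := by
  have hmem : z ∈ Subgroup.center G := by
    rw [Subgroup.mem_center_iff]
    intro g
    exact (hz g).symm
  rcases (inferInstance : (Subgroup.center G).Normal).eq_bot_or_eq_top with h | h
  · rw [h] at hmem
    exact Subgroup.mem_bot.mp hmem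
  · exfalso
    apply hns
    have hc : ∀ a b : G, a * b = b * a := by
      intro a b
      have : a ∈ Subgroup.center G := by rw [h]; exact Subgroup.mem_top a
      exact (Subgroup.mem_center_iff.mp this b).symm
    exact Group.isSolvable_of_comm hc

lemma cent_lt {G : Type} [Group G] [Finite G] [IsSimpleGroup G]
    (hns : ¬ Group.IsSolvable G) (t : G) (ht1 : t ≠ 1) :
    Nat.card (Subgroup.centralizer ({t} : Set G)) < Nat.card G := by
  refine lt_of_le_of_ne (Subgroup.card_le_card_group _) fun h => ?_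
  have h1 := Subgroup.eq_top_of_card_eq _ h
  apply ht1
  apply center_triv hns t
  intro g
  have : g ∈ Subgroup.centralizer ({t} : Set G) := by rw [h1]; exact Subgroup.mem_top g
  exact Subgroup.mem_centralizer_iff.mp this t (Set.mem_singleton t)

/-- the data at an element of odd prime order inverted by `t` -/
lemma nd_of (hK : SHAClosed K) (hE : ¬ K (E 3)) {G : Type} [Group G] [Finite G]
    [IsSimpleGroup G] (hG : K G) (hns : ¬ Group.IsSolvable G)
    (IH : ∀ (H : Type) [Group H] [Finite H], K H → Nat.card H < Nat.card G → FinList H) (t : G) :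
    ∀ p : ℕ, p.Prime → p ≠ 2 → ∀ y : G, orderOf y = p → t * y * t⁻¹ = y⁻¹ →
      ∃ (c d : ℕ) (H : Subgroup G), NData p c d (Subgroup.zpowers y) H := by
  intro p hp hp2 y hy hyi
  refine norm_data hK hE hG hns IH hp hp2 (Subgroup.zpowers y) (by rw [Nat.card_zpowers, hy])
    ⟨t, ?_, y, Subgroup.mem_zpowers y, ?_⟩
  · rw [Subgroup.mem_normalizer_iff]
    intro z
    constructor
    · intro hz
      rw [loc_zpow hyi z hz]
      exact Subgroup.inv_mem _ hz
    · intro hz
      obtain ⟨k, hk⟩ := Subgroup.mem_zpowers_iff.mp hz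
      have h1 : z = t⁻¹ * y ^ k * t := by
        rw [hk]
        group
      have h2 : t⁻¹ * y * t = y⁻¹ := by
        have h3 : t * y⁻¹ * t⁻¹ = y := by
          calc t * y⁻¹ * t⁻¹ = (t * y * t⁻¹)⁻¹ := by group
            _ = y := by rw [hyi, inv_inv]
        calc t⁻¹ * y * t = t⁻¹ * (t * y⁻¹ * t⁻¹) * t := by rw [h3]
          _ = y⁻¹ := by group
      have h4 : t⁻¹ * y ^ k * t = (t⁻¹ * y * t) ^ k := by
        have := conj_zpow (a := t⁻¹) (b := y) (i := k)
        rw [inv_inv] at this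
        exact this.symm
      rw [h1, h4, h2]
      exact Subgroup.zpow_mem _ (Subgroup.inv_mem _ (Subgroup.mem_zpowers y)) k
  · intro h
    have h1 : y⁻¹ = y := by
      rw [← hyi, h]
      group
    have h2 : orderOf y ∣ 2 := by
      apply orderOf_dvd_of_pow_eq_one
      rw [pow_two]
      nth_rewrite 1 [← h1]
      exact inv_mul_cancel y
    rw [hy] at h2
    exact hp2 ((Nat.prime_dvd_prime_iff_eq hp Nat.prime_two).mp h2)

/-- `c = 2`: the involution centralising `Q` commutes with the involution inverting it -/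
lemma c2_comm {G : Type} [Group G] [Finite G] {p d : ℕ} {Q H : Subgroup G}
    (h : NData p 2 d Q H) (t : G) (hi : ∀ y ∈ Q, t * y * t⁻¹ = y⁻¹) (s : G) (hs : s * s = 1)
    (hs1 : s ≠ 1) (hsc : s ∈ Subgroup.centralizer (Q : Set G)) : s * t = t * s := by
  set C := Subgroup.centralizer (Q : Set G) with hC
  have hQcyc : ∀ a ∈ Q, ∀ b ∈ Q, a * b = b * a := by
    haveI : Fact p.Prime := ⟨h.hp⟩
    haveI : IsCyclic Q := isCyclic_of_prime_card h.hQ
    intro a ha b hb
    obtain ⟨g, hg⟩ := IsCyclic.exists_generator (α := Q)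
    obtain ⟨i, hi'⟩ := Subgroup.mem_zpowers_iff.mp (hg ⟨a, ha⟩)
    obtain ⟨j, hj⟩ := Subgroup.mem_zpowers_iff.mp (hg ⟨b, hb⟩)
    have h1 : (⟨a, ha⟩ : Q) * ⟨b, hb⟩ = ⟨b, hb⟩ * ⟨a, ha⟩ := by
      rw [← hi', ← hj, ← zpow_add, ← zpow_add, add_comm]
    exact congrArg Subtype.val h1
  have hQC : Q ≤ C := by
    intro a ha
    rw [hC, Subgroup.mem_centralizer_iff]
    intro b hb
    exact hQcyc b hb a ha
  have hcard : Nat.card C = p * 2 := odda_cent h
  have hidx : (Q.subgroupOf C).index = 2 := by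
    have h1 := Subgroup.card_mul_index (Q.subgroupOf C)
    rw [Nat.card_congr (Subgroup.subgroupOfEquivOfLe hQC).toEquiv, h.hQ, hcard] at h1
    exact Nat.eq_of_mul_eq_mul_left h.hp.pos h1
  have hodd : ∀ q ∈ Q, q * q = 1 → q = 1 := by
    intro q hq hqq
    have h1 : orderOf q ∣ 2 := orderOf_dvd_of_pow_eq_one (by rw [pow_two, hqq])
    have h2 : orderOf q ∣ p := by
      rw [← h.hQ]
      have := orderOf_dvd_natCard (⟨q, hq⟩ : Q)
      rwa [Subgroup.orderOf_mk] at this
    rcases (Nat.dvd_prime Nat.prime_two).mp h1 with h3 | h3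
    · exact orderOf_eq_one_iff.mp h3
    · rw [h3] at h2
      exact absurd ((Nat.prime_dvd_prime_iff_eq Nat.prime_two h.hp).mp h2).symm h.hp2
  -- the conjugate of s
  have hti : ∀ y ∈ Q, t⁻¹ * y * t = y⁻¹ := by
    intro y hy
    have h3 : t * y⁻¹ * t⁻¹ = y := by
      rw [hi _ (Q.inv_mem hy), inv_inv]
    calc t⁻¹ * y * t = t⁻¹ * (t * y⁻¹ * t⁻¹) * t := by rw [h3]
      _ = y⁻¹ := by group
  have hs'c : t * s * t⁻¹ ∈ C := by
    rw [hC, Subgroup.mem_centralizer_iff]
    intro y hy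
    have h1 : t⁻¹ * y * t ∈ Q := by rw [hti y hy]; exact Q.inv_mem hy
    have h2 := Subgroup.mem_centralizer_iff.mp hsc _ h1
    calc y * (t * s * t⁻¹) = t * ((t⁻¹ * y * t) * s) * t⁻¹ := by group
      _ = t * (s * (t⁻¹ * y * t)) * t⁻¹ := by rw [h2]
      _ = t * s * t⁻¹ * y := by group
  have hsQ : s ∉ Q := fun hsQ => hs1 (hodd s hsQ hs)
  have hss' : t * s * t⁻¹ * (t * s * t⁻¹) = 1 := by
    calc t * s * t⁻¹ * (t * s * t⁻¹) = t * (s * s) * t⁻¹ := by group
      _ = 1 := by rw [hs]; group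
  have hs'1 : t * s * t⁻¹ ≠ 1 := by
    intro h1
    apply hs1
    calc s = t⁻¹ * (t * s * t⁻¹) * t := by group
      _ = 1 := by rw [h1]; group
  have hs'Q : t * s * t⁻¹ ∉ Q := fun h1 => hs'1 (hodd _ h1 hss')
  have hprod : (⟨t * s * t⁻¹, hs'c⟩ : C) * ⟨s, hsc⟩ ∈ Q.subgroupOf C := by
    rw [Subgroup.mul_mem_iff_of_index_two hidx]
    simp only [Subgroup.mem_subgroupOf]
    exact ⟨fun h1 => absurd h1 hs'Q, fun h1 => absurd h1 hsQ⟩
  have hprod' : t * s * t⁻¹ * s ∈ Q := hprod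
  have h1 : (t * s * t⁻¹ * s) * (t * s * t⁻¹ * s) = 1 := by
    have h2 := Subgroup.mem_centralizer_iff.mp hsc _ hprod'
    calc (t * s * t⁻¹ * s) * (t * s * t⁻¹ * s) = (t * s * t⁻¹) * (s * (t * s * t⁻¹ * s)) := by group
      _ = (t * s * t⁻¹) * ((t * s * t⁻¹ * s) * s) := by rw [← h2]
      _ = (t * s * t⁻¹ * (t * s * t⁻¹)) * (s * s) := by group
      _ = 1 := by rw [hss', hs, one_mul]
  have h3 := hodd _ hprod' h1
  have h4 : t * s * t⁻¹ = s := by
    calc t * s * t⁻¹ = (t * s * t⁻¹ * s) * s⁻¹ := by group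
      _ = s⁻¹ := by rw [h3, one_mul]
      _ = s := inv_eq_of_mul_eq_one_right hs
  calc s * t = (t * s * t⁻¹) * t := by rw [h4]
    _ = t * s := by group

/-- an involution centralises `Q` if `c` is even -/
lemma c2_exists {G : Type} [Group G] [Finite G] {p c d : ℕ} {Q H : Subgroup G}
    (h : NData p c d Q H) (hc : 2 ∣ c) :
    ∃ s : G, s * s = 1 ∧ s ≠ 1 ∧ s ∈ Subgroup.centralizer (Q : Set G) := by
  haveI : Fact (Nat.Prime 2) := ⟨Nat.prime_two⟩
  have h1 : 2 ∣ Nat.card (Subgroup.centralizer (Q : Set G)) := by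
    rw [odda_cent h]
    exact hc.mul_left p
  obtain ⟨⟨s, hs⟩, hs2⟩ := exists_prime_orderOf_dvd_card' 2 h1
  rw [Subgroup.orderOf_mk] at hs2
  refine ⟨s, ?_, ?_, hs⟩
  · have := pow_orderOf_eq_one s
    rwa [hs2, pow_two] at this
  · rintro rfl
    rw [orderOf_one] at hs2
    omega

/-- `c = 2` if `c` and `d` are even -/
lemma c_two {G : Type} [Group G] [Finite G] {p c d : ℕ} {Q H : Subgroup G}
    (h : NData p c d Q H) (hc : 2 ∣ c) (hd : 2 ∣ d) : c = 2 := by
  rcases h.par with ⟨h1, h2⟩ | ⟨h1, h2⟩ | ⟨h1, h2⟩ | ⟨h1, h2, h3⟩ | ⟨h1, h2⟩ | ⟨h1, h2, h3⟩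
  · rw [h1] at hc
    omega
  · exact h1
  · exact h1
  · rw [h3] at hd
    omega
  · rw [h2] at hc
    omega
  · rw [h2] at hc
    omega

/-- an involution centralising `Q` and conjugacy: `p` divides the order of `C(t)` -/
lemma dvd_cent {G : Type} [Group G] [Finite G] {p c d : ℕ} {Q H : Subgroup G}
    (h : NData p c d Q H)
    (hconj : ∀ s t : G, s * s = 1 → s ≠ 1 → t * t = 1 → t ≠ 1 → ∃ g, g * s * g⁻¹ = t)
    (hc : 2 ∣ c) (t : G) (ht : t * t = 1) (ht1 : t ≠ 1) :
    p ∣ Nat.card (Subgroup.centralizer ({t} : Set G)) := by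
  obtain ⟨s, hs, hs1, hsc⟩ := c2_exists h hc
  obtain ⟨g, hg⟩ := hconj s t hs hs1 ht ht1
  have h1 : Q.map (MulAut.conj g).toMonoidHom ≤ Subgroup.centralizer ({t} : Set G) := by
    rintro _ ⟨y, hy, rfl⟩
    rw [Subgroup.mem_centralizer_iff]
    rintro w rfl
    have h2 := Subgroup.mem_centralizer_iff.mp hsc y hy
    change w * (g * y * g⁻¹) = (g * y * g⁻¹) * w
    rw [← hg]
    calc g * s * g⁻¹ * (g * y * g⁻¹) = g * (s * y) * g⁻¹ := by group
      _ = g * (y * s) * g⁻¹ := by rw [h2]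
      _ = g * y * g⁻¹ * (g * s * g⁻¹) := by group
  have h3 : Nat.card (Q.map (MulAut.conj g).toMonoidHom) = p := by
    rw [← h.hQ]
    exact Nat.card_congr (Q.equivMapOfInjective _ (MulAut.conj g).injective).symm.toEquiv
  rw [← h3]
  exact Subgroup.card_dvd_of_le h1

end Pool.Agent.SHAF
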