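import Mathlib

set_option autoImplicit false

/-!
Centralisers of conjugate elements.
-/

namespace Pool.Agent.SHAF

/-- centralisers of conjugate elements are isomorphic -/
lemma cd_conj {G : Type} [Group G] (g s t : G) (h : g * s * g⁻¹ = t) :
    Nonempty (Subgroup.centralizer ({t} : Set G) ≃* Subgroup.centralizer ({s} : Set G)) := by
  have h1 : ∀ x, x ∈ Subgroup.centralizer ({t} : Set G) →
      g⁻¹ * x * g ∈ Subgroup.centralizer ({s} : Set G) := by
    intro x hx
    have h2 := Subgroup.mem_centralizer_iff.mp hx t (Set.mem_singleton t)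
    rw [Subgroup.mem_centralizer_iff]
    rintro w rfl
    calc w * (g⁻¹ * x * g) = g⁻¹ * ((g * w * g⁻¹) * x) * g := by group
      _ = g⁻¹ * (x * (g * w * g⁻¹)) * g := by rw [h, h2]
      _ = g⁻¹ * x * g * w := by group
  have h2 : ∀ x, x ∈ Subgroup.centralizer ({s} : Set G) →
      g * x * g⁻¹ ∈ Subgroup.centralizer ({t} : Set G) := by
    intro x hx
    have h2 := Subgroup.mem_centralizer_iff.mp hx s (Set.mem_singleton s)
    rw [Subgroup.mem_centralizer_iff]
    rintro w rfl
    rw [← h]
    calc g * s * g⁻¹ * (g * x * g⁻¹) = g * (s * x) * g⁻¹ := by group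
      _ = g * (x * s) * g⁻¹ := by rw [h2]
      _ = g * x * g⁻¹ * (g * s * g⁻¹) := by group
  refine ⟨{ toFun := fun x => ⟨g⁻¹ * x.1 * g, h1 x.1 x.2⟩
            invFun := fun x => ⟨g * x.1 * g⁻¹, h2 x.1 x.2⟩
            left_inv := fun x => Subtype.ext (by simp [mul_assoc])
            right_inv := fun x => Subtype.ext (by simp [mul_assoc])
            map_mul' := fun x y => Subtype.ext (by simp [mul_assoc]) }⟩

end Pool.Agent.SHAF
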