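import Mathlib

set_option autoImplicit false

/-!
Simple groups of order 168, 660, 1092: the action on the Sylow subgroups (module IDA).
-/

namespace Pool.Agent.SHAF

/-- `φ` is a faithful action of `G` on the projective line over `ZMod p` (`none` is the point at
infinity), containing the translations, and the stabiliser of `∞` and `0` consists of the
multiplications with squares. -/
structure Line (p : ℕ) {G : Type} [Group G] (φ : G →* Equiv.Perm (Option (ZMod p))) : Prop where
  inj : Function.Injective φ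
  tau : ∃ u : G, φ u none = none ∧ ∀ x, φ u (some x) = some (x + 1)
  stab : ∀ g : G, φ g none = none → φ g (some 0) = some 0 →
    ∃ l : ZMod p, l ≠ 0 ∧ ∀ x, φ g (some x) = some (l * x)
  sq : ∀ l : ZMod p, l ≠ 0 → (IsSquare l ↔ ∃ g : G, φ g none = none ∧ ∀ x, φ g (some x) = some (l * x))
  trans : ∀ x, ∃ g : G, φ g none = x

section IdA

variable {G : Type} [Group G] [Finite G] {p : ℕ} [Fact p.Prime]

theorem ida_card {m : ℕ} (hG : Nat.card G = p * m) (hpm : ¬ p ∣ m) (P : Sylow p G) :
    Nat.card P = p := by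
  have hp : p.Prime := Fact.out
  have hm : m ≠ 0 := by
    rintro rfl
    exact hpm (dvd_zero _)
  rw [P.card_eq_multiplicity, hG, Nat.factorization_mul hp.ne_zero hm, Finsupp.add_apply,
    hp.factorization_self, Nat.factorization_eq_zero_of_not_dvd hpm, add_zero, pow_one]

theorem ida_norm [IsSimpleGroup G] {m : ℕ} (hG : Nat.card G = p * m) (hpm : ¬ p ∣ m) (h1 : 1 < m)
    (P : Sylow p G) : Subgroup.normalizer (P : Set G) ≠ ⊤ := by
  intro h
  have hp : p.Prime := Fact.out
  have h2 : (P : Subgroup G).Normal := Subgroup.normalizer_eq_top_iff.1 h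
  have h3 : Nat.card (P : Subgroup G) = p := ida_card hG hpm P
  rcases h2.eq_bot_or_eq_top with h4 | h4
  · rw [h4, Subgroup.card_bot] at h3
    exact hp.one_lt.ne h3
  · rw [h4, Subgroup.card_top, hG] at h3
    have h5 := hp.pos
    nlinarith

theorem ida_num [IsSimpleGroup G] {m : ℕ} (hG : Nat.card G = p * m) (hpm : ¬ p ∣ m) (h1 : 1 < m)
    (hN : ∀ N, N ∣ m → N % p = 1 → N = 1 ∨ N = p + 1) : Nat.card (Sylow p G) = p + 1 := by
  have hp : p.Prime := Fact.out
  let P : Sylow p G := default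
  have h2 : (P : Subgroup G).index = m := by
    have h3 := (P : Subgroup G).card_mul_index
    rw [ida_card hG hpm P, hG] at h3
    exact Nat.eq_of_mul_eq_mul_left hp.pos h3
  have h3 := P.card_dvd_index
  rw [h2] at h3
  have h4 : Nat.card (Sylow p G) % p = 1 := by
    have h5 := card_sylow_modEq_one p G
    have h6 : (1 : ℕ) % p = 1 := Nat.mod_eq_of_lt hp.one_lt
    rw [Nat.ModEq, h6] at h5
    exact h5
  rcases hN _ h3 h4 with h5 | h5
  · exfalso
    rw [P.card_eq_index_normalizer, Subgroup.index_eq_one] at h5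
    exact ida_norm hG hpm h1 P h5
  · exact h5

/-- a nontrivial element of a Sylow subgroup normalises no other one -/
theorem ida_fix {m : ℕ} (hG : Nat.card G = p * m) (hpm : ¬ p ∣ m) {P Q : Sylow p G} {g : G}
    (hg : g ∈ P) (h1 : g ≠ 1) (h : g • Q = Q) : Q = P := by
  have hp : p.Prime := Fact.out
  have h2 : g ∈ Subgroup.normalizer (Q : Set G) := Sylow.smul_eq_iff_mem_normalizer.1 h
  have h3 : g ∈ (P : Subgroup G) ⊓ (Q : Subgroup G) := by
    have h4 := P.isPGroup'.inf_normalizer_sylow Q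
    have h5 : g ∈ (P : Subgroup G) ⊓ Subgroup.normalizer (Q : Set G) := ⟨hg, h2⟩
    rw [h4] at h5
    exact h5
  have h4 : Nat.card ((P : Subgroup G) ⊓ (Q : Subgroup G) : Subgroup G) = p := by
    have h5 : Nat.card ((P : Subgroup G) ⊓ (Q : Subgroup G) : Subgroup G) ∣ p := by
      have h6 := Subgroup.card_dvd_of_le (inf_le_left : (P : Subgroup G) ⊓ (Q : Subgroup G) ≤ P)
      rwa [show Nat.card (P : Subgroup G) = p from ida_card hG hpm P] at h6
    rcases (Nat.dvd_prime hp).1 h5 with h6 | h6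
    · exfalso
      have h7 := Subgroup.eq_bot_of_card_eq _ h6
      rw [h7, Subgroup.mem_bot] at h3
      exact h1 h3
    · exact h6
  have h5 : (P : Subgroup G) ⊓ (Q : Subgroup G) = P := Subgroup.eq_of_le_of_card_ge inf_le_left (by
    rw [h4]
    exact (ida_card hG hpm P).le)
  have h6 : (P : Subgroup G) ⊓ (Q : Subgroup G) = Q := Subgroup.eq_of_le_of_card_ge inf_le_right (by
    rw [h4]
    exact (ida_card hG hpm Q).le)
  exact Sylow.ext (h6.symm.trans h5)

theorem ida_self {P : Sylow p G} {g : G} (hg : g ∈ P) : g • P = P :=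
  Sylow.smul_eq_iff_mem_normalizer.2 (Subgroup.le_normalizer (H := (P : Subgroup G)) hg)

theorem ida_order {m : ℕ} (hG : Nat.card G = p * m) (hpm : ¬ p ∣ m) {P : Sylow p G} {u : G}
    (hu : u ∈ P) (h1 : u ≠ 1) : orderOf u = p ∧ Subgroup.zpowers u = (P : Subgroup G) := by
  have hp : p.Prime := Fact.out
  have h2 : Subgroup.zpowers u ≤ (P : Subgroup G) := by
    rw [Subgroup.zpowers_le]
    exact hu
  have h3 : orderOf u = p := by
    have h4 := Subgroup.card_dvd_of_le h2
    rw [Nat.card_zpowers, show Nat.card (P : Subgroup G) = p from ida_card hG hpm P] at h4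
    rcases (Nat.dvd_prime hp).1 h4 with h5 | h5
    · exact absurd (orderOf_eq_one_iff.1 h5) h1
    · exact h5
  refine ⟨h3, Subgroup.eq_of_le_of_card_ge h2 ?_⟩
  rw [Nat.card_zpowers, h3]
  exact (ida_card hG hpm P).le

theorem ida_pow {u : G} (hu : orderOf u = p) {a b : ℕ} (h : (a : ZMod p) = b) : u ^ a = u ^ b := by
  rw [pow_eq_pow_iff_modEq, hu]
  exact (ZMod.natCast_eq_natCast_iff a b p).1 h

/-- the points of the line as Sylow subgroups -/
def idaE (P₀ P₁ : Sylow p G) (u : G) : Option (ZMod p) → Sylow p G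
  | none => P₀
  | some x => u ^ x.val • P₁

theorem idaE_inj {m : ℕ} (hG : Nat.card G = p * m) (hpm : ¬ p ∣ m) {P₀ P₁ : Sylow p G}
    (h : P₁ ≠ P₀) {u : G} (hu : u ∈ P₀) (h1 : u ≠ 1) : Function.Injective (idaE P₀ P₁ u) := by
  have hp : p.Prime := Fact.out
  have h2 := (ida_order hG hpm hu h1).1
  have hpow : ∀ n : ℕ, u ^ n ∈ P₀ := fun n => (P₀ : Subgroup G).pow_mem hu n
  have h3 : ∀ y : ZMod p, P₀ ≠ u ^ y.val • P₁ := by
    intro y hy
    have h4 : (u ^ y.val)⁻¹ • P₀ = P₁ := by rw [hy, inv_smul_smul]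
    rw [ida_self ((P₀ : Subgroup G).inv_mem (hpow _))] at h4
    exact h h4.symm
  intro a b hab
  match a, b, hab with
  | none, none, _ => rfl
  | none, some y, hab => exact absurd hab (h3 y)
  | some x, none, hab => exact absurd hab.symm (h3 x)
  | some x, some y, hab =>
    have h4 : u ^ x.val • P₁ = u ^ y.val • P₁ := hab
    have h5 : ((u ^ y.val)⁻¹ * u ^ x.val) • P₁ = P₁ := by
      rw [mul_smul, h4, inv_smul_smul]
    have h6 : (u ^ y.val)⁻¹ * u ^ x.val = 1 := by
      by_contra h7
      exact h (ida_fix hG hpm ((P₀ : Subgroup G).mul_mem ((P₀ : Subgroup G).inv_mem (hpow _))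
        (hpow _)) h7 h5)
    have h7 : u ^ y.val = u ^ x.val := inv_mul_eq_one.1 h6
    have h8 : y.val = x.val := by
      refine pow_injOn_Iio_orderOf ?_ ?_ h7
      · show y.val < orderOf u
        rw [h2]
        exact y.val_lt
      · show x.val < orderOf u
        rw [h2]
        exact x.val_lt
    rw [ZMod.val_injective p h8]

/-- the action transported by a bijection -/
theorem ida_trans {α : Type} [MulAction G α] {β : Type} (E : β ≃ α) :
    ∃ φ : G →* Equiv.Perm β, ∀ g x, E (φ g x) = g • E x := by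
  refine ⟨(Equiv.permCongrHom E.symm).toMonoidHom.comp (MulAction.toPermHom G α), fun g x => ?_⟩
  show E (E.symm (g • E.symm.symm x)) = _
  rw [Equiv.apply_symm_apply]
  rfl

/-- the count of the stabiliser of two points -/
theorem ida_count {φ : G →* Equiv.Perm (Option (ZMod p))}
    (htau : ∃ u : G, φ u none = none ∧ ∀ x, φ u (some x) = some (x + 1))
    (htrans : ∀ x, ∃ g : G, φ g none = x) {H : Subgroup G}
    (hH : ∀ g, g ∈ H ↔ φ g none = none ∧ φ g (some 0) = some 0) :
    Nat.card G = (p + 1) * (p * Nat.card H) := by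
  obtain ⟨u, hu, hu'⟩ := htau
  choose c hc using htrans
  have hpow : ∀ n : ℕ, φ (u ^ n) none = none ∧ ∀ x, φ (u ^ n) (some x) = some (x + n) := by
    intro n
    induction n with
    | zero =>
      refine ⟨by rw [pow_zero, map_one]; rfl, fun x => ?_⟩
      rw [pow_zero, map_one, Nat.cast_zero, add_zero]
      rfl
    | succ n ih =>
      refine ⟨?_, fun x => ?_⟩
      · rw [pow_succ, map_mul, Equiv.Perm.mul_apply, hu, ih.1]
      · rw [pow_succ, map_mul, Equiv.Perm.mul_apply, hu', ih.2]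
        congr 1
        push_cast
        ring
  have hpow0 : ∀ y : ZMod p, φ (u ^ y.val) (some 0) = some y := by
    intro y
    rw [(hpow _).2, zero_add, ZMod.natCast_val, ZMod.cast_id]
  let F : Option (ZMod p) × ZMod p × H → G := fun w => c w.1 * (u ^ w.2.1.val * w.2.2)
  have hF : Function.Bijective F := by
    constructor
    · rintro ⟨x, y, h⟩ ⟨x', y', h'⟩ he
      have he' : c x * (u ^ y.val * h) = c x' * (u ^ y'.val * h') := he
      have e1 : x = x' := by
        have e2 := congrArg (fun g => φ g none) he'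
        simp only [map_mul, Equiv.Perm.mul_apply] at e2
        rw [((hH _).1 h.2).1, ((hH _).1 h'.2).1, (hpow _).1, (hpow _).1, hc, hc] at e2
        exact e2
      subst e1
      have he2 : u ^ y.val * (h : G) = u ^ y'.val * h' := mul_left_cancel he'
      have e3 : y = y' := by
        have e2 := congrArg (fun g => φ g (some 0)) he2
        simp only [map_mul, Equiv.Perm.mul_apply] at e2
        rw [((hH _).1 h.2).2, ((hH _).1 h'.2).2, hpow0, hpow0] at e2
        exact Option.some_injective _ e2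
      subst e3
      have e4 : h = h' := Subtype.ext (mul_left_cancel he2)
      rw [e4]
    · intro g
      have e1 : φ ((c (φ g none))⁻¹ * g) none = none := by
        rw [map_mul, Equiv.Perm.mul_apply, map_inv, Equiv.Perm.inv_eq_iff_eq]
        exact (hc _).symm
      obtain ⟨y, hy⟩ : ∃ y, φ ((c (φ g none))⁻¹ * g) (some 0) = some y := by
        rcases h : φ ((c (φ g none))⁻¹ * g) (some 0) with _ | y
        · exfalso
          have e2 := (φ ((c (φ g none))⁻¹ * g)).injective (h.trans e1.symm)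
          exact Option.some_ne_none _ e2
        · exact ⟨y, rfl⟩
      have e2 : (u ^ y.val)⁻¹ * ((c (φ g none))⁻¹ * g) ∈ H := by
        rw [hH]
        constructor
        · rw [map_mul, Equiv.Perm.mul_apply, e1, map_inv, Equiv.Perm.inv_eq_iff_eq]
          exact (hpow _).1.symm
        · rw [map_mul, Equiv.Perm.mul_apply, hy, map_inv, Equiv.Perm.inv_eq_iff_eq]
          exact (hpow0 _).symm
      refine ⟨⟨φ g none, y, ⟨_, e2⟩⟩, ?_⟩
      show c (φ g none) * (u ^ y.val * ((u ^ y.val)⁻¹ * ((c (φ g none))⁻¹ * g))) = g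
      rw [mul_inv_cancel_left, mul_inv_cancel_left]
  have h1 := Nat.card_congr (Equiv.ofBijective F hF)
  rw [Nat.card_prod, Nat.card_prod, Nat.card_zmod] at h1
  rw [← h1]
  congr 1
  rw [Nat.card_eq_fintype_card, Fintype.card_option, ZMod.card]

theorem ida_main [IsSimpleGroup G] {m : ℕ} (hG : Nat.card G = p * m) (hpm : ¬ p ∣ m) (h1 : 1 < m)
    (hN : ∀ N, N ∣ m → N % p = 1 → N = 1 ∨ N = p + 1) (hm : m = (p + 1) * (p / 2))
    (hs : ∃ A : Finset (ZMod p), A.card = p / 2 ∧ ∀ l, l ≠ 0 → l ^ (p / 2) = 1 → l ∈ A) :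
    ∃ φ : G →* Equiv.Perm (Option (ZMod p)), Line p φ := by
  have hp : p.Prime := Fact.out
  have hnum := ida_num hG hpm h1 hN
  obtain ⟨P₀, P₁, h01⟩ : ∃ P₀ P₁ : Sylow p G, P₁ ≠ P₀ := by
    by_contra hcon
    push Not at hcon
    have : Subsingleton (Sylow p G) := ⟨fun a b => hcon b a⟩
    have h2 : Nat.card (Sylow p G) ≤ 1 := Finite.card_le_one_iff_subsingleton.2 this
    have := hp.pos
    omega
  obtain ⟨u, hu, hu1⟩ : ∃ u ∈ P₀, u ≠ 1 := by
    have h2 : (P₀ : Subgroup G) ≠ ⊥ := by
      intro h3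
      have h4 : Nat.card (P₀ : Subgroup G) = p := ida_card hG hpm P₀
      rw [h3, Subgroup.card_bot] at h4
      exact hp.one_lt.ne h4
    obtain ⟨a, ha⟩ := Subgroup.ne_bot_iff_exists_ne_one.1 h2
    exact ⟨a, a.2, fun h => ha (Subtype.ext h)⟩
  obtain ⟨hord, hzp⟩ := ida_order hG hpm hu hu1
  have hbij : Function.Bijective (idaE P₀ P₁ u) :=
    (idaE_inj hG hpm h01 hu hu1).bijective_of_nat_card_le (by
      rw [hnum, Nat.card_eq_fintype_card, Fintype.card_option, ZMod.card])
  obtain ⟨φ, hφ⟩ := ida_trans (G := G) (Equiv.ofBijective _ hbij)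
  set E : Option (ZMod p) ≃ Sylow p G := Equiv.ofBijective _ hbij with hE
  have E0 : E none = P₀ := rfl
  have E1 : ∀ x : ZMod p, E (some x) = u ^ x.val • P₁ := fun x => rfl
  have E2 : E (some 0) = P₁ := by
    rw [E1, ZMod.val_zero, pow_zero, one_smul]
  have iff0 : ∀ g, φ g none = none ↔ g • P₀ = P₀ := by
    intro g
    rw [← E.injective.eq_iff, hφ, E0]
  have iff1 : ∀ g, φ g (some 0) = some 0 ↔ g • P₁ = P₁ := by
    intro g
    rw [← E.injective.eq_iff, hφ, E2]
  have inj : Function.Injective φ := by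
    rw [← MonoidHom.ker_eq_bot_iff]
    rcases (MonoidHom.normal_ker φ).eq_bot_or_eq_top with h2 | h2
    · exact h2
    · exfalso
      refine ida_norm hG hpm h1 P₀ ((Subgroup.eq_top_iff' _).2 fun g => ?_)
      rw [← Sylow.smul_eq_iff_mem_normalizer, ← iff0]
      have h3 : φ g = 1 := by
        rw [← MonoidHom.mem_ker, h2]
        trivial
      rw [h3]
      rfl
  have tau : φ u none = none ∧ ∀ x, φ u (some x) = some (x + 1) := by
    refine ⟨(iff0 u).2 (ida_self hu), fun x => E.injective ?_⟩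
    rw [hφ, E1, E1, smul_smul, ← pow_succ']
    congr 1
    refine ida_pow hord ?_
    rw [Nat.cast_add, ZMod.natCast_val, ZMod.natCast_val, ZMod.cast_id, ZMod.cast_id, Nat.cast_one]
  have stab : ∀ g : G, φ g none = none → φ g (some 0) = some 0 →
      ∃ l : ZMod p, l ≠ 0 ∧ ∀ x, φ g (some x) = some (l * x) := by
    intro g h2 h3
    rw [iff0] at h2
    rw [iff1] at h3
    have h4 : g * u * g⁻¹ ∈ (P₀ : Subgroup G) :=
      (Subgroup.mem_normalizer_iff.1 (Sylow.smul_eq_iff_mem_normalizer.1 h2) u).1 hu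
    rw [← hzp] at h4
    obtain ⟨k, hk'⟩ : ∃ k : ℕ, u ^ k = g * u * g⁻¹ :=
      (Submonoid.mem_powers_iff _ _).1 (mem_powers_iff_mem_zpowers.2 h4)
    refine ⟨(k : ZMod p), ?_, fun x => E.injective ?_⟩
    · intro h5
      have h6 : u ^ k = u ^ 0 := ida_pow hord (by rw [h5, Nat.cast_zero])
      rw [pow_zero, hk'] at h6
      rw [mul_inv_eq_one, mul_eq_left] at h6
      exact hu1 h6
    · rw [hφ, E1, E1]
      have h5 : u ^ ((k : ZMod p) * x).val = (g * u * g⁻¹) ^ x.val := by
        rw [← hk', ← pow_mul]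
        refine ida_pow hord ?_
        rw [Nat.cast_mul, ZMod.natCast_val, ZMod.natCast_val, ZMod.cast_id, ZMod.cast_id]
      rw [h5, conj_pow, mul_smul, mul_smul]
      congr 2
      rw [← h3, inv_smul_smul, h3]
  have trans : ∀ x, ∃ g : G, φ g none = x := by
    intro x
    obtain ⟨g, hg⟩ := MulAction.exists_smul_eq G P₀ (E x)
    refine ⟨g, E.injective ?_⟩
    rw [hφ, E0, hg]
  let H : Subgroup G :=
    { carrier := {g | φ g none = none ∧ φ g (some 0) = some 0}
      mul_mem' := by
        rintro a b ⟨ha, ha'⟩ ⟨hb, hb'⟩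
        refine ⟨?_, ?_⟩
        · rw [map_mul, Equiv.Perm.mul_apply, hb, ha]
        · rw [map_mul, Equiv.Perm.mul_apply, hb', ha']
      one_mem' := by
        refine ⟨?_, ?_⟩
        · rw [map_one]
          rfl
        · rw [map_one]
          rfl
      inv_mem' := by
        rintro a ⟨ha, ha'⟩
        refine ⟨?_, ?_⟩
        · rw [map_inv, Equiv.Perm.inv_eq_iff_eq, ha]
        · rw [map_inv, Equiv.Perm.inv_eq_iff_eq, ha'] }
  have hH : ∀ g, g ∈ H ↔ φ g none = none ∧ φ g (some 0) = some 0 := fun g => Iff.rfl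
  have hcard : Nat.card H = p / 2 := by
    have h2 := ida_count ⟨u, tau⟩ trans hH
    rw [hG, hm] at h2
    have h3 : p * ((p + 1) * (p / 2)) = p * ((p + 1) * Nat.card H) := by
      rw [h2]
      ring
    exact (Nat.eq_of_mul_eq_mul_left (Nat.succ_pos p) (Nat.eq_of_mul_eq_mul_left hp.pos h3)).symm
  -- the multipliers
  obtain ⟨A, hAc, hAm⟩ := hs
  have hpowH : ∀ g ∈ H, ∀ l : ZMod p, (∀ x, φ g (some x) = some (l * x)) → l ^ (p / 2) = 1 := by
    intro g hg l hl
    have h2 : ∀ n : ℕ, ∀ x, φ (g ^ n) (some x) = some (l ^ n * x) := by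
      intro n
      induction n with
      | zero =>
        intro x
        rw [pow_zero, map_one, pow_zero, one_mul]
        rfl
      | succ n ih =>
        intro x
        rw [pow_succ, map_mul, Equiv.Perm.mul_apply, hl, ih]
        congr 1
        ring
    have h3 : g ^ (p / 2) = 1 := by
      have h4 : (⟨g, hg⟩ : H) ^ Nat.card H = 1 := pow_card_eq_one'
      rw [hcard] at h4
      exact congrArg Subtype.val h4
    have h4 := h2 (p / 2) 1
    rw [h3, map_one, mul_one] at h4
    exact (Option.some_injective _ h4).symm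
  have hAB : ∀ l ∈ A, ∃ g : G, φ g none = none ∧ ∀ x, φ g (some x) = some (l * x) := by
    have h2 : ∀ g : H, ∃ l : ZMod p, l ≠ 0 ∧ ∀ x, φ g (some x) = some (l * x) :=
      fun g => stab g g.2.1 g.2.2
    choose f hf0 hf using h2
    have hfinj : Function.Injective f := by
      intro a b hab
      refine Subtype.ext (inj (Equiv.ext fun x => ?_))
      rcases x with _ | x
      · rw [a.2.1, b.2.1]
      · rw [hf, hf, hab]
    have hfin : Fintype H := Fintype.ofFinite H
    have h3 : (Finset.univ.image f) ⊆ A := by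
      intro l hl
      obtain ⟨g, -, rfl⟩ := Finset.mem_image.1 hl
      exact hAm _ (hf0 g) (hpowH g g.2 _ (hf g))
    have h4 : (Finset.univ.image f) = A := by
      refine Finset.eq_of_subset_of_card_le h3 ?_
      rw [Finset.card_image_of_injective _ hfinj, Finset.card_univ, ← Nat.card_eq_fintype_card,
        hcard]
      exact hAc.le
    intro l hl
    rw [← h4] at hl
    obtain ⟨g, -, rfl⟩ := Finset.mem_image.1 hl
    exact ⟨g, g.2.1, hf g⟩
  refine ⟨φ, inj, ⟨u, tau⟩, stab, fun l hl => ?_, trans⟩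
  rw [ZMod.euler_criterion p hl]
  constructor
  · intro h2
    exact hAB l (hAm l hl h2)
  · rintro ⟨g, hg, hg'⟩
    refine hpowH g ⟨hg, ?_⟩ l hg'
    rw [hg', mul_zero]

end IdA

theorem ida_s7 : ∃ A : Finset (ZMod 7), A.card = 3 ∧ ∀ l, l ≠ 0 → l ^ 3 = 1 → l ∈ A :=
  ⟨{1, 2, 4}, by decide, by decide⟩

theorem ida_s11 : ∃ A : Finset (ZMod 11), A.card = 5 ∧ ∀ l, l ≠ 0 → l ^ 5 = 1 → l ∈ A :=
  ⟨{1, 3, 4, 5, 9}, by decide, by decide⟩

theorem ida_s13 : ∃ A : Finset (ZMod 13), A.card = 6 ∧ ∀ l, l ≠ 0 → l ^ 6 = 1 → l ∈ A :=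
  ⟨{1, 3, 4, 9, 10, 12}, by decide, by decide⟩

theorem exists_line {G : Type} [Group G] [Finite G] [IsSimpleGroup G] (p : ℕ)
    (hp : p = 7 ∨ p = 11 ∨ p = 13) (hG : 2 * Nat.card G = p * (p * p - 1)) :
    ∃ φ : G →* Equiv.Perm (Option (ZMod p)), Line p φ := by
  rcases hp with rfl | rfl | rfl
  · have : Fact (Nat.Prime 7) := ⟨by norm_num⟩
    refine ida_main (m := 24) (by omega) (by norm_num) (by norm_num) ?_ (by norm_num) ida_s7
    intro N hN h
    have h1 := Nat.le_of_dvd (by norm_num) hN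
    interval_cases N <;> revert hN h <;> decide
  · have : Fact (Nat.Prime 11) := ⟨by norm_num⟩
    refine ida_main (m := 60) (by omega) (by norm_num) (by norm_num) ?_ (by norm_num) ida_s11
    intro N hN h
    have h1 := Nat.le_of_dvd (by norm_num) hN
    interval_cases N <;> revert hN h <;> decide
  · have : Fact (Nat.Prime 13) := ⟨by norm_num⟩
    refine ida_main (m := 84) (by omega) (by norm_num) (by norm_num) ?_ (by norm_num) ida_s13
    intro N hN h
    have h1 := Nat.le_of_dvd (by norm_num) hN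
    interval_cases N <;> revert hN h <;> decide

end Pool.Agent.SHAF
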