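import Mathlib
import Pool.Agent.SHAN.IdA

set_option autoImplicit false

/-!
Simple groups of order 168, 660, 1092: an involution (module IDB).
-/

namespace Pool.Agent.SHAF

section idb

variable {G : Type} [Group G] {p : ℕ} {φ : G →* Equiv.Perm (Option (ZMod p))}

theorem idb_mul (a b : G) (z : Option (ZMod p)) : φ (a * b) z = φ a (φ b z) := by
  rw [map_mul, Equiv.Perm.mul_apply]

theorem idb_inv (a : G) (z : Option (ZMod p)) : φ a⁻¹ (φ a z) = z := by
  rw [← idb_mul, inv_mul_cancel, map_one, Equiv.Perm.one_apply]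

theorem idb_inv' (a : G) (z : Option (ZMod p)) : φ a (φ a⁻¹ z) = z := by
  rw [← idb_mul, mul_inv_cancel, map_one, Equiv.Perm.one_apply]

theorem idb_trans [NeZero p] (h : Line p φ) (i : ZMod p) :
    ∃ v : G, φ v none = none ∧ ∀ x, φ v (some x) = some (x + i) := by
  obtain ⟨u, h1, h2⟩ := h.tau
  have key : ∀ n : ℕ, φ (u ^ n) none = none ∧ ∀ x, φ (u ^ n) (some x) = some (x + n) := by
    intro n
    induction n with
    | zero =>
      refine ⟨by rw [pow_zero, map_one, Equiv.Perm.one_apply], fun x => ?_⟩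
      rw [pow_zero, map_one, Equiv.Perm.one_apply, Nat.cast_zero, add_zero]
    | succ n ih =>
      refine ⟨by rw [pow_succ, idb_mul, h1, ih.1], fun x => ?_⟩
      rw [pow_succ, idb_mul, h2, ih.2, Nat.cast_succ]
      congr 1
      ring
  refine ⟨u ^ i.val, (key _).1, fun x => ?_⟩
  rw [(key _).2, ZMod.natCast_zmod_val]

theorem idb_one {a : G} (h : Line p φ) (h1 : φ a none = none) (h2 : ∀ x, φ a (some x) = some x) :
    a = 1 := by
  apply h.inj
  rw [map_one]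
  ext1 z
  rw [Equiv.Perm.one_apply]
  cases z with
  | none => exact h1
  | some x => exact h2 x

theorem idb_nofix [Fact p.Prime] (h : Line p φ)
    (H3 : ∀ l : ZMod p, IsSquare l → l * l = 1 → l = 1) (H4 : (2 : ZMod p) ≠ 0) {t : G}
    (ht : t * t = 1) (ht1 : t ≠ 1) (z : Option (ZMod p)) : φ t z ≠ z := by
  intro hz
  obtain ⟨g, hg⟩ := h.trans z
  have e1 : (g⁻¹ * t * g) * (g⁻¹ * t * g) = 1 := by
    calc (g⁻¹ * t * g) * (g⁻¹ * t * g) = g⁻¹ * (t * t) * g := by group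
      _ = 1 := by rw [ht]; group
  have e2 : g⁻¹ * t * g ≠ 1 := by
    intro h0
    apply ht1
    calc t = g * (g⁻¹ * t * g) * g⁻¹ := by group
      _ = 1 := by rw [h0]; group
  have e3 : φ (g⁻¹ * t * g) none = none := by
    rw [idb_mul, idb_mul, hg, hz, ← hg, idb_inv]
  generalize g⁻¹ * t * g = s at e1 e2 e3
  have hs : ∀ z, φ s (φ s z) = z := by
    intro z
    rw [← idb_mul, e1, map_one, Equiv.Perm.one_apply]
  have hne : ∀ x : ZMod p, ∃ y, φ s (some x) = some y := by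
    intro x
    cases hy : φ s (some x) with
    | some y => exact ⟨y, rfl⟩
    | none =>
      have := hs (some x)
      rw [hy, e3] at this
      exact absurd this (Option.some_ne_none x).symm
  obtain ⟨i, hi⟩ := hne 0
  obtain ⟨v, hv, hv'⟩ := idb_trans h (-i)
  obtain ⟨l, hl, hl'⟩ := h.stab (v * s) (by rw [idb_mul, e3, hv])
    (by rw [idb_mul, hi, hv', add_neg_cancel])
  have hsq : IsSquare l := (h.sq l hl).2 ⟨v * s, by rw [idb_mul, e3, hv], hl'⟩
  have hsx : ∀ x, φ s (some x) = some (l * x + i) := by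
    intro x
    obtain ⟨y, hy⟩ := hne x
    have h1 := hl' x
    rw [idb_mul, hy, hv'] at h1
    have h2 := Option.some.inj h1
    rw [hy, ← h2]
    congr 1
    ring
  have f0 := hs (some 0)
  rw [hsx, hsx] at f0
  have f1 := hs (some 1)
  rw [hsx, hsx] at f1
  have g0 := Option.some.inj f0
  have g1 := Option.some.inj f1
  have g2 : l * l = 1 := by linear_combination g1 - g0
  have g3 := H3 l hsq g2
  rw [g3] at g0
  have g4 : (2 : ZMod p) * i = 0 := by linear_combination g0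
  have g5 := (mul_eq_zero.1 g4).resolve_left H4
  exact e2 (idb_one h e3 fun x => by rw [hsx, g3, g5, one_mul, add_zero])

theorem idb_core [Finite G] [Fact p.Prime] (h : Line p φ) (h2 : 2 ∣ Nat.card G)
    (m : ZMod p) (d : ℕ) (hd : d.Prime) (hm0 : m ≠ 0) (hm1 : m ≠ 1) (hmsq : IsSquare m)
    (hmd : m ^ d = 1)
    (hC : ∀ t : G, t * t = 1 → t ≠ 1 → ¬ d ∣ Nat.card (Subgroup.centralizer {t}))
    (H1 : ∀ s : ZMod p, s ≠ 0 → IsSquare s → ∃ k : ℕ, s = m ^ k ∧ (s ^ k = m → s = m ∨ s * m = 1))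
    (H2 : ∀ x e : ZMod p, x ≠ 0 → e ≠ 0 →
      (∃ i : ℕ, m ^ i * m ^ i = e) ∨ (∃ i : ℕ, x = m ^ i) ∨ ∃ i : ℕ, x = m ^ i * e)
    (H3 : ∀ l : ZMod p, IsSquare l → l * l = 1 → l = 1) (H4 : (2 : ZMod p) ≠ 0) :
    ∃ (g : G) (a : ZMod p), a ≠ 0 ∧ φ g none = some 0 ∧ φ g (some 0) = none ∧
      ∀ x, x ≠ 0 → φ g (some x) = some (a * x⁻¹) := by
  have : Fact (Nat.Prime 2) := ⟨Nat.prime_two⟩
  -- an involution
  obtain ⟨t0, ht0⟩ := exists_prime_orderOf_dvd_card' 2 h2
  have a1 : t0 * t0 = 1 := by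
    rw [← sq, ← ht0, pow_orderOf_eq_one]
  have a2 : t0 ≠ 1 := by
    intro h0
    rw [h0, orderOf_one] at ht0
    exact absurd ht0 (by norm_num)
  -- move it
  obtain ⟨t, ht, ht1, hn, hz⟩ : ∃ t : G, t * t = 1 ∧ t ≠ 1 ∧ φ t none = some 0 ∧
      φ t (some 0) = none := by
    have hne : φ t0 none ≠ none := idb_nofix h H3 H4 a1 a2 none
    obtain ⟨i, hi⟩ := Option.ne_none_iff_exists'.1 hne
    obtain ⟨v, hv, hv'⟩ := idb_trans h i
    refine ⟨v⁻¹ * t0 * v, ?_, ?_, ?_, ?_⟩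
    · calc (v⁻¹ * t0 * v) * (v⁻¹ * t0 * v) = v⁻¹ * (t0 * t0) * v := by group
        _ = 1 := by rw [a1]; group
    · intro h0
      apply a2
      calc t0 = v * (v⁻¹ * t0 * v) * v⁻¹ := by group
        _ = 1 := by rw [h0]; group
    · rw [idb_mul, idb_mul, hv, hi]
      have := idb_inv (φ := φ) v (some 0)
      rwa [hv', zero_add] at this
    · rw [idb_mul, idb_mul, hv', zero_add, ← hi, ← idb_mul t0, a1, map_one, Equiv.Perm.one_apply]
      have := idb_inv (φ := φ) v none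
      rwa [hv] at this
  have htt : ∀ z, φ t (φ t z) = z := by
    intro z
    rw [← idb_mul, ht, map_one, Equiv.Perm.one_apply]
  have hex : ∀ x : ZMod p, x ≠ 0 → ∃ y, y ≠ 0 ∧ φ t (some x) = some y := by
    intro x hx
    cases hy : φ t (some x) with
    | none =>
      have := htt (some x)
      rw [hy, hn] at this
      exact absurd (Option.some.inj this).symm hx
    | some y =>
      refine ⟨y, ?_, rfl⟩
      rintro rfl
      have := htt (some x)
      rw [hy, hz] at this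
      exact absurd this (Option.some_ne_none x).symm
  choose! f hf0 hf using hex
  have hff : ∀ x, x ≠ 0 → f (f x) = x := by
    intro x hx
    have := htt (some x)
    rw [hf x hx, hf _ (hf0 x hx)] at this
    exact Option.some.inj this
  have hfx : ∀ x, x ≠ 0 → f x ≠ x := by
    intro x hx h0
    apply idb_nofix h H3 H4 ht ht1 (some x)
    rw [hf x hx, h0]
  -- the multiplication with `m`
  obtain ⟨g, hg, hg'⟩ := (h.sq m hm0).1 hmsq
  obtain ⟨s, hs, hs'⟩ := h.stab (t * g * t) (by rw [idb_mul, idb_mul, hn, hg', mul_zero, hz])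
    (by rw [idb_mul, idb_mul, hz, hg, hn])
  have hssq : IsSquare s := (h.sq s hs).2
    ⟨t * g * t, by rw [idb_mul, idb_mul, hn, hg', mul_zero, hz], hs'⟩
  have hfm : ∀ y, y ≠ 0 → f (m * y) = s * f y := by
    intro y hy
    have h1 := hs' (f y)
    rw [idb_mul, idb_mul, hf _ (hf0 y hy), hff y hy, hg', hf _ (mul_ne_zero hm0 hy)] at h1
    exact Option.some.inj h1
  have hpow : ∀ (k : ℕ) (y : ZMod p), y ≠ 0 → f (m ^ k * y) = s ^ k * f y := by
    intro k
    induction k with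
    | zero =>
      intro y _
      rw [pow_zero, one_mul, pow_zero, one_mul]
    | succ k ih =>
      intro y hy
      rw [pow_succ, mul_assoc, ih _ (mul_ne_zero hm0 hy), hfm y hy, ← mul_assoc, ← pow_succ]
  obtain ⟨k, hk, hk'⟩ := H1 s hs hssq
  have hsk : s ^ k = m := by
    have h1 := hff m hm0
    have h3 := hfm 1 one_ne_zero
    rw [mul_one] at h3
    rw [h3] at h1
    nth_rewrite 1 [hk] at h1
    rw [hpow k _ (hf0 1 one_ne_zero), hff 1 one_ne_zero, mul_one] at h1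
    exact h1
  rcases hk' hsk with hsm | hsm
  · -- `t` commutes with `g`
    exfalso
    apply hC t ht ht1
    have hcomm : t * g * t = g := by
      apply h.inj
      ext1 z
      cases z with
      | none => rw [idb_mul, idb_mul, hn, hg', mul_zero, hz, hg]
      | some x => rw [hs', hg', hsm]
    have hgt : g * t = t * g := by
      calc g * t = (t * g * t) * t := by rw [hcomm]
        _ = t * g * (t * t) := by group
        _ = t * g := by rw [ht, mul_one]
    have hgpow : ∀ n : ℕ, φ (g ^ n) none = none ∧ ∀ x, φ (g ^ n) (some x) = some (m ^ n * x) := by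
      intro n
      induction n with
      | zero =>
        refine ⟨by rw [pow_zero, map_one, Equiv.Perm.one_apply], fun x => ?_⟩
        rw [pow_zero, map_one, Equiv.Perm.one_apply, pow_zero, one_mul]
      | succ n ih =>
        refine ⟨by rw [pow_succ, idb_mul, hg, ih.1], fun x => ?_⟩
        rw [pow_succ, idb_mul, hg', ih.2, pow_succ, mul_assoc]
    have hgd : g ^ d = 1 := idb_one h (hgpow d).1 fun x => by rw [(hgpow d).2, hmd, one_mul]
    have hg1 : g ≠ 1 := by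
      intro h0
      have h1 := hg' 1
      rw [h0, map_one, Equiv.Perm.one_apply, mul_one] at h1
      exact hm1 (Option.some.inj h1).symm
    have : Fact d.Prime := ⟨hd⟩
    have ho : orderOf g = d := orderOf_eq_prime hgd hg1
    have hmem : g ∈ Subgroup.centralizer {t} := by
      rw [Subgroup.mem_centralizer_singleton_iff]
      exact hgt
    have h1 := orderOf_dvd_natCard (⟨g, hmem⟩ : Subgroup.centralizer {t})
    rwa [Subgroup.orderOf_mk, ho] at h1
  · -- inversion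
    have hinv : s = m⁻¹ := eq_inv_of_mul_eq_one_left hsm
    refine ⟨t, f 1, hf0 1 one_ne_zero, hn, hz, fun x hx => ?_⟩
    rw [hf x hx]
    congr 1
    have e0 := hf0 1 one_ne_zero
    have q1 : ∀ i : ℕ, f (m ^ i) = (m ^ i)⁻¹ * f 1 := by
      intro i
      have := hpow i 1 one_ne_zero
      rwa [mul_one, hinv, inv_pow] at this
    have q2 : ∀ i : ℕ, f (m ^ i * f 1) = (m ^ i)⁻¹ := by
      intro i
      have := hpow i (f 1) e0
      rwa [hff 1 one_ne_zero, mul_one, hinv, inv_pow] at this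
    have hmi : ∀ i : ℕ, m ^ i ≠ 0 := fun i => pow_ne_zero i hm0
    rcases H2 x (f 1) hx e0 with ⟨i, hi⟩ | ⟨i, hi⟩ | ⟨i, hi⟩
    · exfalso
      apply hfx (m ^ i) (hmi i)
      rw [q1, ← hi, inv_mul_cancel_left₀ (hmi i)]
    · rw [hi, q1, mul_comm]
    · rw [hi, q2, mul_inv, mul_comm ((m ^ i)⁻¹), mul_inv_cancel_left₀ e0]

end idb

/-- `G` contains a map `x ↦ a / x` -/
theorem line_inv7 {G : Type} [Group G] [Finite G] (p : ℕ) (hp : p = 7 ∨ p = 11)
    (φ : G →* Equiv.Perm (Option (ZMod p))) (h : Line p φ) (h2 : 2 ∣ Nat.card G)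
    (hC : ∀ t : G, t * t = 1 → t ≠ 1 → ¬ (p - 1) / 2 ∣ Nat.card (Subgroup.centralizer {t})) :
    ∃ (g : G) (a : ZMod p), a ≠ 0 ∧ φ g none = some 0 ∧ φ g (some 0) = none ∧
      ∀ x, x ≠ 0 → φ g (some x) = some (a * x⁻¹) := by
  rcases hp with rfl | rfl
  · have c1 : ((2 : ZMod 7) ≠ 0) ∧ ((2 : ZMod 7) ≠ 1) ∧ IsSquare (2 : ZMod 7) ∧
        (2 : ZMod 7) ^ 3 = 1 ∧ (2 : ZMod 7) ≠ 0 := by decide
    have c2 : ∀ l : ZMod 7, IsSquare l → l * l = 1 → l = 1 := by decide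
    have c3 : ∀ s : ZMod 7, s ≠ 0 → IsSquare s →
        ∃ k : Fin 3, s = 2 ^ (k : ℕ) ∧ (s ^ (k : ℕ) = 2 → s = 2 ∨ s * 2 = 1) := by decide
    have c4 : ∀ x e : ZMod 7, x ≠ 0 → e ≠ 0 →
        (∃ i : Fin 3, (2 : ZMod 7) ^ (i : ℕ) * 2 ^ (i : ℕ) = e) ∨
          (∃ i : Fin 3, x = 2 ^ (i : ℕ)) ∨ ∃ i : Fin 3, x = 2 ^ (i : ℕ) * e := by
      decide +kernel
    have : Fact (Nat.Prime 7) := ⟨by norm_num⟩
    refine idb_core h h2 2 3 (by norm_num) c1.1 c1.2.1 c1.2.2.1 c1.2.2.2.1 hC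
      ?_ ?_ c2 c1.2.2.2.2
    · intro s hs hq
      obtain ⟨k, hk⟩ := c3 s hs hq
      exact ⟨k, hk⟩
    · intro x e hx he
      rcases c4 x e hx he with ⟨i, hi⟩ | ⟨i, hi⟩ | ⟨i, hi⟩
      · exact Or.inl ⟨i, hi⟩
      · exact Or.inr (Or.inl ⟨i, hi⟩)
      · exact Or.inr (Or.inr ⟨i, hi⟩)
  · have c1 : ((3 : ZMod 11) ≠ 0) ∧ ((3 : ZMod 11) ≠ 1) ∧ IsSquare (3 : ZMod 11) ∧
        (3 : ZMod 11) ^ 5 = 1 ∧ (2 : ZMod 11) ≠ 0 := by decide
    have c2 : ∀ l : ZMod 11, IsSquare l → l * l = 1 → l = 1 := by decide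
    have c3 : ∀ s : ZMod 11, s ≠ 0 → IsSquare s →
        ∃ k : Fin 5, s = 3 ^ (k : ℕ) ∧ (s ^ (k : ℕ) = 3 → s = 3 ∨ s * 3 = 1) := by decide
    have c4 : ∀ x e : ZMod 11, x ≠ 0 → e ≠ 0 →
        (∃ i : Fin 5, (3 : ZMod 11) ^ (i : ℕ) * 3 ^ (i : ℕ) = e) ∨
          (∃ i : Fin 5, x = 3 ^ (i : ℕ)) ∨ ∃ i : Fin 5, x = 3 ^ (i : ℕ) * e := by
      decide +kernel
    have : Fact (Nat.Prime 11) := ⟨by norm_num⟩
    refine idb_core h h2 3 5 (by norm_num) c1.1 c1.2.1 c1.2.2.1 c1.2.2.2.1 hC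
      ?_ ?_ c2 c1.2.2.2.2
    · intro s hs hq
      obtain ⟨k, hk⟩ := c3 s hs hq
      exact ⟨k, hk⟩
    · intro x e hx he
      rcases c4 x e hx he with ⟨i, hi⟩ | ⟨i, hi⟩ | ⟨i, hi⟩
      · exact Or.inl ⟨i, hi⟩
      · exact Or.inr (Or.inl ⟨i, hi⟩)
      · exact Or.inr (Or.inr ⟨i, hi⟩)

end Pool.Agent.SHAF
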