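import Mathlib
import Pool.Agent.SHAN.IdA

set_option autoImplicit false

/-!
Simple groups of order 168, 660, 1092: an outer automorphism (module IDD).
-/

namespace Pool.Agent.SHAF

theorem idd_nonsq (p : ℕ) (hp : p = 7 ∨ p = 11 ∨ p = 13) : ∃ ν : ZMod p, ν ≠ 0 ∧ ¬ IsSquare ν := by
  rcases hp with rfl | rfl | rfl
  · exact ⟨3, by decide, by decide⟩
  · exact ⟨2, by decide, by decide⟩
  · exact ⟨2, by decide, by decide⟩

theorem idd_prime (p : ℕ) (hp : p = 7 ∨ p = 11 ∨ p = 13) : p.Prime := by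
  rcases hp with rfl | rfl | rfl <;> norm_num

/-- the multiplication by `ν` -/
def idd_mu {p : ℕ} [Fact p.Prime] (ν : ZMod p) (hν : ν ≠ 0) : Equiv.Perm (Option (ZMod p)) :=
  Equiv.optionCongr (Equiv.mulLeft₀ ν hν)

theorem idd_mu_none {p : ℕ} [Fact p.Prime] (ν : ZMod p) (hν : ν ≠ 0) : idd_mu ν hν none = none := rfl

theorem idd_mu_some {p : ℕ} [Fact p.Prime] (ν : ZMod p) (hν : ν ≠ 0) (x : ZMod p) :
    idd_mu ν hν (some x) = some (ν * x) := rfl

/-- powers of the translation -/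
theorem idd_tau {p : ℕ} [Fact p.Prime] {G : Type} [Group G] {φ : G →* Equiv.Perm (Option (ZMod p))}
    (h : Line p φ) (c : ZMod p) : ∃ u : G, φ u none = none ∧ ∀ x, φ u (some x) = some (x + c) := by
  obtain ⟨u, hu1, hu2⟩ := h.tau
  have key : ∀ k : ℕ, φ (u ^ k) none = none ∧ ∀ x, φ (u ^ k) (some x) = some (x + k) := by
    intro k
    induction k with
    | zero =>
      refine ⟨by rw [pow_zero, map_one]; rfl, fun x => ?_⟩
      rw [pow_zero, map_one, Nat.cast_zero, add_zero]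
      rfl
    | succ k ih =>
      refine ⟨?_, fun x => ?_⟩
      · rw [pow_succ', map_mul, Equiv.Perm.mul_apply, ih.1, hu1]
      · rw [pow_succ', map_mul, Equiv.Perm.mul_apply, ih.2, hu2, Nat.cast_succ, add_assoc]
  have h1 := key c.val
  rw [ZMod.natCast_zmod_val] at h1
  exact ⟨_, h1⟩

/-- the elements whose image is mapped to the image by the conjugation with `m` -/
def idd_R {X G : Type} [Group G] (φ : G →* Equiv.Perm X) (m : Equiv.Perm X) : Subgroup G :=
  (φ.range.comap (MulAut.conj m).toMonoidHom).comap φ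

theorem idd_mem {X G : Type} [Group G] {φ : G →* Equiv.Perm X} {m : Equiv.Perm X} {g : G} :
    g ∈ idd_R φ m ↔ ∃ g', φ g' = m * φ g * m⁻¹ := Iff.rfl

theorem idd_top {p : ℕ} [Fact p.Prime] {G : Type} [Group G]
    {φ : G →* Equiv.Perm (Option (ZMod p))} (h : Line p φ)
    (hg : ∃ (g : G) (a : ZMod p), a ≠ 0 ∧ φ g none = some 0 ∧ φ g (some 0) = none ∧
      ∀ x, x ≠ 0 → φ g (some x) = some (a * x⁻¹)) (ν : ZMod p) (hν : ν ≠ 0) (w : G) :
    w ∈ idd_R φ (idd_mu ν hν) := by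
  -- translations
  have ht : ∀ (v : G) (c : ZMod p), φ v none = none → (∀ x, φ v (some x) = some (x + c)) →
      v ∈ idd_R φ (idd_mu ν hν) := by
    intro v c h1 h2
    obtain ⟨v', hv1, hv2⟩ := idd_tau h (ν * c)
    refine idd_mem.2 ⟨v', ?_⟩
    rw [eq_mul_inv_iff_mul_eq]
    ext1 x
    rcases x with _ | x
    · rw [Equiv.Perm.mul_apply, Equiv.Perm.mul_apply, idd_mu_none, h1, hv1, idd_mu_none]
    · rw [Equiv.Perm.mul_apply, Equiv.Perm.mul_apply, idd_mu_some, h2, hv2, idd_mu_some, mul_add]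
  -- multiplications
  have hm : ∀ (v : G) (l : ZMod p), φ v none = none → (∀ x, φ v (some x) = some (l * x)) →
      v ∈ idd_R φ (idd_mu ν hν) := by
    intro v l h1 h2
    refine idd_mem.2 ⟨v, ?_⟩
    rw [eq_mul_inv_iff_mul_eq]
    ext1 x
    rcases x with _ | x
    · rw [Equiv.Perm.mul_apply, Equiv.Perm.mul_apply, idd_mu_none, h1, idd_mu_none]
    · rw [Equiv.Perm.mul_apply, Equiv.Perm.mul_apply, idd_mu_some, h2, h2, idd_mu_some, mul_left_comm]
  -- the elements fixing the point at infinity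
  have hn : ∀ v : G, φ v none = none → v ∈ idd_R φ (idd_mu ν hν) := by
    intro v h1
    obtain ⟨c, hc⟩ : ∃ c, φ v (some 0) = some c := by
      rcases h2 : φ v (some 0) with _ | c
      · rw [← h1] at h2
        exact absurd ((φ v).injective h2) (by simp)
      · exact ⟨c, rfl⟩
    obtain ⟨u, hu1, hu2⟩ := idd_tau h c
    have h3 : φ (u⁻¹ * v) none = none := by
      rw [map_mul, Equiv.Perm.mul_apply, h1, map_inv, Equiv.Perm.inv_eq_iff_eq, hu1]
    have h4 : φ (u⁻¹ * v) (some 0) = some 0 := by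
      rw [map_mul, Equiv.Perm.mul_apply, hc, map_inv, Equiv.Perm.inv_eq_iff_eq, hu2, zero_add]
    obtain ⟨l, -, hl⟩ := h.stab _ h3 h4
    have h5 := (idd_R φ (idd_mu ν hν)).mul_mem (ht u c hu1 hu2) (hm _ l h3 hl)
    rwa [mul_inv_cancel_left] at h5
  -- the involution
  obtain ⟨g, a, ha, hg1, hg2, hg3⟩ := hg
  have hgm : g ∈ idd_R φ (idd_mu ν hν) := by
    obtain ⟨k, hk1, hk2⟩ := (h.sq (ν * ν) (mul_ne_zero hν hν)).1 ⟨ν, rfl⟩
    refine idd_mem.2 ⟨k * g, ?_⟩
    rw [eq_mul_inv_iff_mul_eq]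
    ext1 x
    rcases x with _ | x
    · rw [Equiv.Perm.mul_apply, Equiv.Perm.mul_apply, idd_mu_none, map_mul, Equiv.Perm.mul_apply, hg1,
        hk2, idd_mu_some, mul_zero, mul_zero]
    · rw [Equiv.Perm.mul_apply, Equiv.Perm.mul_apply, idd_mu_some, map_mul, Equiv.Perm.mul_apply]
      by_cases hx : x = 0
      · rw [hx, mul_zero, hg2, hk1, idd_mu_none]
      · rw [hg3 _ (mul_ne_zero hν hx), hg3 x hx, hk2, idd_mu_some]
        congr 1
        field_simp
  rcases h0 : φ w none with _ | i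
  · exact hn w h0
  · obtain ⟨u, hu1, hu2⟩ := idd_tau h i
    have h3 : φ (g⁻¹ * (u⁻¹ * w)) none = none := by
      rw [map_mul, Equiv.Perm.mul_apply, map_mul, Equiv.Perm.mul_apply, h0, map_inv, map_inv,
        Equiv.Perm.inv_eq_iff_eq, hg1, Equiv.Perm.inv_eq_iff_eq, hu2, zero_add]
    have h5 := (idd_R φ (idd_mu ν hν)).mul_mem (ht u i hu1 hu2)
      ((idd_R φ (idd_mu ν hν)).mul_mem hgm (hn _ h3))
    rwa [mul_inv_cancel_left, mul_inv_cancel_left] at h5

theorem line_outer {G : Type} [Group G] [Finite G] (p : ℕ) (hp : p = 7 ∨ p = 11 ∨ p = 13)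
    (φ : G →* Equiv.Perm (Option (ZMod p))) (h : Line p φ)
    (hg : ∃ (g : G) (a : ZMod p), a ≠ 0 ∧ φ g none = some 0 ∧ φ g (some 0) = none ∧
      ∀ x, x ≠ 0 → φ g (some x) = some (a * x⁻¹)) :
    ∃ α : MulAut G, (∀ g, α ≠ MulAut.conj g) ∧ ∃ g, α * α = MulAut.conj g := by
  haveI : Fact p.Prime := ⟨idd_prime p hp⟩
  obtain ⟨ν, hν, hns⟩ := idd_nonsq p hp
  have hR : ∀ w : G, ∃ w', φ w' = idd_mu ν hν * φ w * (idd_mu ν hν)⁻¹ := fun w =>
    idd_mem.1 (idd_top h hg ν hν w)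
  choose f hf using hR
  have hmul : ∀ x y, f (x * y) = f x * f y := by
    intro x y
    apply h.inj
    rw [map_mul, hf, hf, hf, map_mul]
    group
  have hinj : Function.Injective f := by
    intro x y hxy
    apply h.inj
    have h1 := hf x
    rw [hxy, hf y] at h1
    exact (mul_left_cancel (mul_right_cancel h1)).symm
  have hbij : Function.Bijective f := Finite.injective_iff_bijective.1 hinj
  let α : MulAut G := MulEquiv.ofBijective (MonoidHom.mk' f hmul) hbij
  have hα : ∀ x, α x = f x := fun x => rfl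
  refine ⟨α, ?_, ?_⟩
  · intro g1 h1
    have h2 : ∀ x, φ g1 * φ x * (φ g1)⁻¹ = idd_mu ν hν * φ x * (idd_mu ν hν)⁻¹ := by
      intro x
      rw [← hf x, ← hα x, h1, MulAut.conj_apply, map_mul, map_mul, map_inv]
    have h3 : ∀ x, ((φ g1)⁻¹ * idd_mu ν hν) * φ x = φ x * ((φ g1)⁻¹ * idd_mu ν hν) := by
      intro x
      have h4 := h2 x
      have h5 : idd_mu ν hν * φ x = φ g1 * φ x * (φ g1)⁻¹ * idd_mu ν hν := by
        rw [h4, inv_mul_cancel_right]
      rw [mul_assoc, h5]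
      group
    have h4 : ((φ g1)⁻¹ * idd_mu ν hν) none = none := by
      obtain ⟨u, hu1, hu2⟩ := h.tau
      have h5 := congrArg (fun e : Equiv.Perm (Option (ZMod p)) => e none) (h3 u)
      simp only [Equiv.Perm.mul_apply] at h5
      rw [hu1] at h5
      rcases h6 : ((φ g1)⁻¹ * idd_mu ν hν) none with _ | c
      · rfl
      · rw [Equiv.Perm.mul_apply] at h6
        rw [h6, hu2, Option.some_inj] at h5
        exact absurd h5 (by simp)
    have h5 : (φ g1)⁻¹ * idd_mu ν hν = 1 := by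
      ext1 x
      obtain ⟨k, hk⟩ := h.trans x
      have h6 := congrArg (fun e : Equiv.Perm (Option (ZMod p)) => e none) (h3 k)
      simp only [Equiv.Perm.mul_apply] at h6 h4
      rw [hk, h4, hk] at h6
      rw [Equiv.Perm.mul_apply, h6]
      rfl
    have h6 : φ g1 = idd_mu ν hν := (inv_mul_eq_one.1 h5)
    apply hns
    refine (h.sq ν hν).2 ⟨g1, ?_, fun x => ?_⟩
    · rw [h6, idd_mu_none]
    · rw [h6, idd_mu_some]
  · obtain ⟨k, hk1, hk2⟩ := (h.sq (ν * ν) (mul_ne_zero hν hν)).1 ⟨ν, rfl⟩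
    have hk : φ k = idd_mu ν hν * idd_mu ν hν := by
      ext1 x
      rcases x with _ | x
      · rw [hk1, Equiv.Perm.mul_apply, idd_mu_none, idd_mu_none]
      · rw [hk2, Equiv.Perm.mul_apply, idd_mu_some, idd_mu_some, mul_assoc]
    refine ⟨k, ?_⟩
    ext1 x
    apply h.inj
    rw [MulAut.mul_apply, hα, hα, hf, hf, MulAut.conj_apply, map_mul, map_mul, map_inv, hk]
    group

end Pool.Agent.SHAF
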