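import Mathlib

set_option autoImplicit false

/-!
Involutions, dihedral or quaternion Sylow 2-subgroup of order 8 (module INVD).
-/

namespace Pool.Agent.SHAF

private theorem invd_sign {α : Type*} [Fintype α] [DecidableEq α] (σ : Equiv.Perm α) (h2 : σ ^ 2 = 1)
    (hfix : ∀ a, σ a ≠ a) {m : ℕ} (hm : Odd m) (hc : Fintype.card α = 2 * m) : Equiv.Perm.sign σ = -1 := by
  have hne : σ ≠ 1 := by
    rintro rfl
    have hpos : 0 < Fintype.card α := by
      rw [hc]
      have := hm.pos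
      omega
    obtain ⟨a⟩ := Fintype.card_pos_iff.1 hpos
    exact hfix a rfl
  have ho : orderOf σ = 2 := orderOf_eq_prime h2 hne
  have hp : (orderOf σ).Prime := by rw [ho]; exact Nat.prime_two
  obtain ⟨n, hn⟩ := Equiv.Perm.cycleType_prime_order hp
  rw [ho] at hn
  have hs : σ.support = Finset.univ := by
    ext a
    simp [hfix a]
  have hsum := Equiv.Perm.sum_cycleType σ
  rw [hs, Finset.card_univ, hc, hn, Multiset.sum_replicate, smul_eq_mul] at hsum
  have hnm : n + 1 = m := by omega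
  rw [Equiv.Perm.sign_of_cycleType, hn, Multiset.sum_replicate, Multiset.card_replicate, smul_eq_mul, hnm]
  apply Odd.neg_one_pow
  obtain ⟨k, rfl⟩ := hm
  exact ⟨3 * k + 1, by ring⟩

private theorem invd_cyc {G : Type} [Group G] {x w : G} (hx : orderOf x = 4) (hw : w ∈ Subgroup.zpowers x)
    (h2 : w * w = 1) (h1 : w ≠ 1) : w = x ^ 2 := by
  obtain ⟨k, rfl⟩ := Subgroup.mem_zpowers_iff.1 hw
  rw [← zpow_add] at h2
  have h3 : (orderOf x : ℤ) ∣ k + k := orderOf_dvd_iff_zpow_eq_one.2 h2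
  have h4 : ¬ (orderOf x : ℤ) ∣ k := fun h => h1 (orderOf_dvd_iff_zpow_eq_one.1 h)
  rw [hx] at h3 h4
  have h5 : k % 4 = 2 := by omega
  have h6 : x ^ (k % (orderOf x : ℤ)) = x ^ k := zpow_mod_orderOf x k
  rw [hx] at h6
  rw [← h6]
  push_cast
  rw [h5]
  exact zpow_natCast x 2

/-- Thompson's transfer argument -/
theorem inv_dih {G : Type} [Group G] [Finite G] [IsSimpleGroup G] (hns : ¬ Group.IsSolvable G)
    (P : Sylow 2 G) (e : Nonempty (P ≃* DihedralGroup 4)) :
    ∀ s t : G, s * s = 1 → s ≠ 1 → t * t = 1 → t ≠ 1 → ∃ g, g * s * g⁻¹ = t := by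
  classical
  obtain ⟨e⟩ := e
  obtain ⟨x, hx, hxP⟩ : ∃ x : G, orderOf x = 4 ∧ x ∈ P := by
    refine ⟨(e.symm (DihedralGroup.r 1) : P), ?_, (e.symm (DihedralGroup.r 1)).2⟩
    rw [Subgroup.orderOf_coe, MulEquiv.orderOf_eq e.symm, DihedralGroup.orderOf_r_one]
  have hPc : Nat.card P = 8 := by
    rw [Nat.card_congr e.toEquiv, DihedralGroup.nat_card]
  have hMc : Nat.card (Subgroup.zpowers x) = 4 := by rw [Nat.card_zpowers, hx]
  have h1 := Subgroup.card_mul_index (P : Subgroup G)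
  have h2 := Subgroup.card_mul_index (Subgroup.zpowers x)
  have h1' : 8 * (P : Subgroup G).index = Nat.card G := by
    rw [← h1]
    congr 1
    exact hPc.symm
  rw [hMc] at h2
  have hodd : Odd (P : Subgroup G).index := by
    have h3 := P.not_dvd_index
    rw [← Nat.not_even_iff_odd, even_iff_two_dvd]
    exact h3
  have hidx : (Subgroup.zpowers x).index = 2 * (P : Subgroup G).index := by omega
  have : Fintype (G ⧸ Subgroup.zpowers x) := Fintype.ofFinite _
  have hcard : Fintype.card (G ⧸ Subgroup.zpowers x) = 2 * (P : Subgroup G).index := by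
    rw [← hidx, Subgroup.index, Nat.card_eq_fintype_card]
  let f : G →* ℤˣ := (Equiv.Perm.sign (α := G ⧸ Subgroup.zpowers x)).comp
    (MulAction.toPermHom G (G ⧸ Subgroup.zpowers x))
  have hf : f.ker = ⊤ := by
    rcases IsSimpleGroup.eq_bot_or_eq_top_of_normal f.ker inferInstance with h | h
    · exact absurd (Group.isSolvable_of_isSolvable_injective ((MonoidHom.ker_eq_bot_iff f).1 h)) hns
    · exact h
  have key : ∀ t : G, t * t = 1 → t ≠ 1 → ∃ g : G, g⁻¹ * t * g = x ^ 2 := by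
    intro t ht ht1
    by_contra hcon
    have hfix : ∀ a : G ⧸ Subgroup.zpowers x,
        MulAction.toPermHom G (G ⧸ Subgroup.zpowers x) t a ≠ a := by
      intro a
      induction a using QuotientGroup.induction_on with
      | H g =>
        intro h
        have h3 : ((t * g : G) : G ⧸ Subgroup.zpowers x) = (g : G ⧸ Subgroup.zpowers x) := h
        have h4 := QuotientGroup.eq.1 h3.symm
        refine hcon ⟨g, invd_cyc hx ?_ ?_ ?_⟩
        · rw [mul_assoc]
          exact h4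
        · have : g⁻¹ * t * g * (g⁻¹ * t * g) = g⁻¹ * (t * t) * g := by group
          rw [this, ht, mul_one, inv_mul_cancel]
        · intro h5
          apply ht1
          have : t = g * (g⁻¹ * t * g) * g⁻¹ := by group
          rw [this, h5, mul_one, mul_inv_cancel]
    have hsq : (MulAction.toPermHom G (G ⧸ Subgroup.zpowers x) t) ^ 2 = 1 := by
      rw [← map_pow, pow_two, ht, map_one]
    have h3 := invd_sign _ hsq hfix hodd hcard
    have h4 : f t = 1 := by
      have : t ∈ f.ker := by rw [hf]; exact Subgroup.mem_top t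
      exact this
    have h5 : f t = -1 := h3
    rw [h4] at h5
    exact absurd h5 (by decide)
  intro s t hs hs1 ht ht1
  obtain ⟨g, hg⟩ := key s hs hs1
  obtain ⟨h, hh⟩ := key t ht ht1
  refine ⟨h * g⁻¹, ?_⟩
  have h3 : h * g⁻¹ * s * (h * g⁻¹)⁻¹ = h * (g⁻¹ * s * g) * h⁻¹ := by group
  rw [h3, hg, ← hh]
  group

private theorem invd_q8 : ∀ a b : QuaternionGroup 2, a * a = 1 → a ≠ 1 → b * b = 1 → b ≠ 1 → a = b := by
  decide

theorem inv_quat {G : Type} [Group G] [Finite G] (P : Sylow 2 G)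
    (e : Nonempty (P ≃* QuaternionGroup 2)) :
    (∀ s t : G, s * s = 1 → s ≠ 1 → t * t = 1 → t ≠ 1 → ∃ g, g * s * g⁻¹ = t) ∧
      (∀ s t : G, s * s = 1 → s ≠ 1 → t * t = 1 → t ≠ 1 → s * t = t * s → s = t) := by
  obtain ⟨e⟩ := e
  have hP : ∀ a b : G, a ∈ P → b ∈ P → a * a = 1 → a ≠ 1 → b * b = 1 → b ≠ 1 → a = b := by
    intro a b ha hb ha2 ha1 hb2 hb1
    have h1 : ∀ c : P, (c : G) * c = 1 → (c : G) ≠ 1 → e c * e c = 1 ∧ e c ≠ 1 := by
      intro c hc hc1
      refine ⟨?_, fun h => hc1 ?_⟩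
      · rw [← map_mul]
        have : c * c = 1 := Subtype.ext hc
        rw [this, map_one]
      · have : c = 1 := (MulEquiv.map_eq_one_iff e).1 h
        rw [this]
        rfl
    obtain ⟨u1, u2⟩ := h1 ⟨a, ha⟩ ha2 ha1
    obtain ⟨v1, v2⟩ := h1 ⟨b, hb⟩ hb2 hb1
    have h2 := e.injective (invd_q8 _ _ u1 u2 v1 v2)
    exact congrArg (fun c : P => (c : G)) h2
  have hK : ∀ K : Subgroup G, (∀ x ∈ K, x * x = 1) → ∃ g : G, ∀ x ∈ K, g⁻¹ * x * g ∈ P := by
    intro K hK
    have hp : IsPGroup 2 K := by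
      intro x
      refine ⟨1, ?_⟩
      rw [pow_one, pow_two]
      exact Subtype.ext (hK x x.2)
    obtain ⟨Q, hQ⟩ := hp.exists_le_sylow
    obtain ⟨g, hg⟩ := MulAction.exists_smul_eq G P Q
    refine ⟨g, fun x hx => ?_⟩
    have h1 : x ∈ (Q : Subgroup G) := hQ hx
    rw [← hg, Sylow.coe_subgroup_smul, Subgroup.mem_pointwise_smul_iff_inv_smul_mem] at h1
    have h2 : (MulAut.conj g)⁻¹ • x = g⁻¹ * x * g := by
      rw [← map_inv, MulAut.smul_def, MulAut.conj_apply, inv_inv]
    rw [h2] at h1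
    exact h1
  have hconj : ∀ (g x : G), x * x = 1 → x ≠ 1 → (g⁻¹ * x * g) * (g⁻¹ * x * g) = 1 ∧ g⁻¹ * x * g ≠ 1 := by
    intro g x hx hx1
    refine ⟨?_, fun h => hx1 ?_⟩
    · have : g⁻¹ * x * g * (g⁻¹ * x * g) = g⁻¹ * (x * x) * g := by group
      rw [this, hx, mul_one, inv_mul_cancel]
    · have : x = g * (g⁻¹ * x * g) * g⁻¹ := by group
      rw [this, h, mul_one, mul_inv_cancel]
  have hz : ∀ s : G, s * s = 1 → ∀ x ∈ Subgroup.zpowers s, x * x = 1 := by
    intro s hs x hx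
    obtain ⟨k, rfl⟩ := Subgroup.mem_zpowers_iff.1 hx
    rw [← (Commute.refl s).mul_zpow, hs, one_zpow]
  constructor
  · intro s t hs hs1 ht ht1
    obtain ⟨g, hg⟩ := hK (Subgroup.zpowers s) (hz s hs)
    obtain ⟨h, hh⟩ := hK (Subgroup.zpowers t) (hz t ht)
    obtain ⟨a1, a2⟩ := hconj g s hs hs1
    obtain ⟨b1, b2⟩ := hconj h t ht ht1
    have h1 := hP _ _ (hg s (Subgroup.mem_zpowers s)) (hh t (Subgroup.mem_zpowers t)) a1 a2 b1 b2
    refine ⟨h * g⁻¹, ?_⟩
    have h3 : h * g⁻¹ * s * (h * g⁻¹)⁻¹ = h * (g⁻¹ * s * g) * h⁻¹ := by group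
    rw [h3, h1]
    group
  · intro s t hs hs1 ht ht1 hc
    have hc' : Commute s t := hc
    let K : Subgroup G :=
      { carrier := {x | x * x = 1 ∧ Commute x s ∧ Commute x t ∧ x ∈ Subgroup.closure {s, t}}
        mul_mem' := by
          rintro a b ⟨a1, a2, a3, a4⟩ ⟨b1, b2, b3, b4⟩
          have hab : Commute a b := by
            have h5 : b ∈ Subgroup.centralizer ({a} : Set G) := by
              refine (Subgroup.closure_le _).2 ?_ b4
              rintro y (rfl | rfl)
              · exact Subgroup.mem_centralizer_singleton_iff.2 a2.symm.eq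
              · exact Subgroup.mem_centralizer_singleton_iff.2 a3.symm.eq
            exact (Subgroup.mem_centralizer_singleton_iff.1 h5).symm
          refine ⟨?_, a2.mul_left b2, a3.mul_left b3, Subgroup.mul_mem _ a4 b4⟩
          rw [← pow_two, hab.mul_pow, pow_two, pow_two, a1, b1, mul_one]
        one_mem' := ⟨mul_one 1, Commute.one_left s, Commute.one_left t, Subgroup.one_mem _⟩
        inv_mem' := by
          rintro a ⟨a1, a2, a3, a4⟩
          refine ⟨?_, a2.inv_left, a3.inv_left, Subgroup.inv_mem _ a4⟩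
          rw [← mul_inv_rev, a1, inv_one] }
    obtain ⟨g, hg⟩ := hK K fun x hx => hx.1
    have hsK : s ∈ K := ⟨hs, Commute.refl s, hc', Subgroup.subset_closure (Or.inl rfl)⟩
    have htK : t ∈ K := ⟨ht, hc'.symm, Commute.refl t, Subgroup.subset_closure (Or.inr rfl)⟩
    obtain ⟨a1, a2⟩ := hconj g s hs hs1
    obtain ⟨b1, b2⟩ := hconj g t ht ht1
    have h1 := hP _ _ (hg s hsK) (hg t htK) a1 a2 b1 b2
    exact mul_left_cancel (mul_right_cancel h1)

end Pool.Agent.SHAF
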