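import Mathlib
import Pool.Agent.SHAF.ListSol

set_option autoImplicit false

/-!
Excluded extensions among the soluble groups of the list (module SOLX).
-/

namespace Pool.Agent.SHAF

open Pool.Agent.SHA

lemma sx_a4 : ∃ a b c d : alternatingGroup (Fin 4), a * b * a⁻¹ * b⁻¹ ≠ 1 ∧
    (a * b * a⁻¹ * b⁻¹) * (a * b * a⁻¹ * b⁻¹) = 1 ∧ c * d * c⁻¹ * d⁻¹ ≠ 1 ∧
    c * d * c⁻¹ * d⁻¹ ≠ a * b * a⁻¹ * b⁻¹ := by
  decide +kernel

lemma sx_a4card : Nat.card (alternatingGroup (Fin 4)) = 12 := by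
  rw [Nat.card_eq_fintype_card]
  decide +kernel

lemma sx_comm_of_cyc {X : Type} [Group X] (h : IsCyclic X) (a b : X) : a * b = b * a := by
  obtain ⟨g, hg⟩ := IsCyclic.exists_generator (α := X)
  obtain ⟨i, hi⟩ := Subgroup.mem_zpowers_iff.mp (hg a)
  obtain ⟨j, hj⟩ := Subgroup.mem_zpowers_iff.mp (hg b)
  rw [← hi, ← hj, ← zpow_add, ← zpow_add, add_comm]

lemma sx_comm_of_iso {X A : Type} [Group X] [CommGroup A] (e : X ≃* A) (a b : X) : a * b = b * a := by
  apply e.injective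
  rw [map_mul, map_mul, mul_comm]

/-- the abelian cases and the others -/
lemma sx_cases {X : Type} [Group X] (h : SolList X) (hn : ∃ a b : X, a * b ≠ b * a) :
    (∃ f : X →* Equiv.Perm (Fin 4), Function.Injective f) ∨ Nonempty (X ≃* QuaternionGroup 2) ∨
      BinTet X ∨ MetaList X := by
  obtain ⟨a, b, hab⟩ := hn
  obtain ⟨-, h | h | h | h | h | h | h⟩ := h
  · exact absurd (sx_comm_of_cyc h.1 a b) hab
  · obtain ⟨e⟩ := h
    exact absurd (sx_comm_of_iso e a b) hab
  · obtain ⟨e⟩ := h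
    exact absurd (sx_comm_of_iso e a b) hab
  · exact Or.inl h
  · exact Or.inr (Or.inl h)
  · exact Or.inr (Or.inr (Or.inl h))
  · exact Or.inr (Or.inr (Or.inr h))

lemma sx_q8card : Nat.card (QuaternionGroup 2) = 8 := by
  rw [Nat.card_eq_fintype_card, QuaternionGroup.card]

lemma sx_d8card : Nat.card (DihedralGroup 4) = 8 := by
  rw [Nat.card_eq_fintype_card, DihedralGroup.card]

lemma sx_dvd24 {X : Type} [Group X] (f : X →* Equiv.Perm (Fin 4)) (hf : Function.Injective f) :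
    Nat.card X ∣ 24 := by
  rw [← perm4_card]
  have h1 : Nat.card X = Nat.card f.range :=
    Nat.card_congr (MonoidHom.ofInjective hf).toEquiv
  rw [h1]
  exact Subgroup.card_subgroup_dvd_card _

/-- the symmetric group of degree 4 has trivial centre -/
lemma sx_center {X : Type} [Group X] (f : X →* Equiv.Perm (Fin 4)) (hf : Function.Injective f)
    (h24 : Nat.card X = 24) (t : X) (hc : ∀ g, t * g = g * t) : t = 1 := by
  haveI : Finite X := Nat.finite_of_card_ne_zero (by rw [h24]; norm_num)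
  have hbij : Function.Bijective f := by
    rw [Nat.bijective_iff_injective_and_card]
    exact ⟨hf, by rw [h24, perm4_card]⟩
  by_contra ht
  have h1 : f t ≠ 1 := fun h => ht (hf (by rw [h, map_one]))
  obtain ⟨x, hx, -⟩ := perm4_conj (f t) h1
  obtain ⟨g, rfl⟩ := hbij.2 x
  apply hx
  rw [← map_mul, ← hc, map_mul]
  group

/-- the kernel and the image of a group of type MetaList -/
lemma sx_meta {X : Type} [Group X] (h : MetaList X) : ∃ (q c d : ℕ) (N H : Subgroup X) (π : X →* H),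
    q.Prime ∧ q % 2 = 1 ∧ Nat.card N = q ∧ π.ker = N ∧ (∀ x y : H, x * y = y * x) ∧
      Nat.card X = q * (c * d) ∧ 1 < d ∧ d ∣ q - 1 ∧ Params q c d := by
  obtain ⟨q, c, d, N, H, hq, hN, hNc, hcompl, hab, hc, hH, hd, hpar, -⟩ := h
  haveI := hN
  obtain ⟨π, hπ, -⟩ := compl_proj N H hcompl
  refine ⟨q, c, d, N, H, π, hq, goodPP_odd (params_q hpar), hNc, hπ, fun x y =>
    Subtype.ext (hab x.1 x.2 y.1 y.2), ?_, hd, ?_, hpar⟩
  · rw [← hcompl.card_mul, hNc, hH]
  · have h1 := compl_card hq N H hNc hcompl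
    rw [hc, hH] at h1
    have hcpos : 0 < c := by
      rcases params_c hpar with h | h | h | h <;> omega
    have h2 := Nat.eq_of_mul_eq_mul_left hcpos h1
    rw [← h2]
    exact idx_dvd hq N hNc

lemma sx_zz {X : Type} [Group X] {u : X} (h : u * u = 1) (m : ℤ) : u ^ m * u ^ m = 1 := by
  rw [← (Commute.refl u).mul_zpow m, h, one_zpow]

/-- no extension of `A_4` by a group of odd prime order -/
theorem sol_no_a4 {X : Type} [Group X] (h : SolList X) (f : X →* alternatingGroup (Fin 4))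
    (hf : Function.Surjective f) {p : ℕ} (hp : p.Prime) (hp2 : p ≠ 2) (hk : Nat.card f.ker = p) :
    False := by
  obtain ⟨a, b, c, d, h1, h2, h3, h4⟩ := sx_a4
  obtain ⟨a, rfl⟩ := hf a
  obtain ⟨b, rfl⟩ := hf b
  obtain ⟨c, rfl⟩ := hf c
  obtain ⟨d, rfl⟩ := hf d
  have hcard : Nat.card X = 12 * p := by
    rw [Subgroup.card_eq_card_quotient_mul_card_subgroup f.ker, hk,
      Nat.card_congr (QuotientGroup.quotientKerEquivOfSurjective f hf).toEquiv, sx_a4card]
  have hn : ∃ a b : X, a * b ≠ b * a := by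
    refine ⟨a, b, fun hab => h1 ?_⟩
    rw [← map_mul, hab, map_mul]
    group
  have hp3 : 3 ≤ p := by
    have := hp.two_le
    omega
  rcases sx_cases h hn with ⟨g, hg⟩ | ⟨⟨e⟩⟩ | h | h
  · have := sx_dvd24 g hg
    rw [hcard] at this
    have := Nat.le_of_dvd (by norm_num) this
    omega
  · have := Nat.card_congr e.toEquiv
    rw [sx_q8card, hcard] at this
    omega
  · have := h.1
    omega
  · obtain ⟨q, -, -, N, H, π, hq, -, hNc, hπ, hab, -, -⟩ := sx_meta h
    have hcomm : ∀ x y : X, x * y * x⁻¹ * y⁻¹ ∈ N := by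
      intro x y
      rw [← hπ, MonoidHom.mem_ker, map_mul, map_mul, map_mul, map_inv, map_inv, hab (π x) (π y)]
      group
    have hm1 := hcomm a b
    have hm2 := hcomm c d
    haveI : Fact q.Prime := ⟨hq⟩
    have hmem := mem_zpowers_of_prime_card (G := N) (p := q) hNc
      (g := ⟨a * b * a⁻¹ * b⁻¹, hm1⟩) (g' := ⟨c * d * c⁻¹ * d⁻¹, hm2⟩) (by
        intro h5
        apply h1
        have h6 : a * b * a⁻¹ * b⁻¹ = 1 := congrArg Subtype.val h5
        rw [← map_mul, ← map_inv, ← map_mul, ← map_inv, ← map_mul, h6, map_one])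
    obtain ⟨k, hk'⟩ := Subgroup.mem_zpowers_iff.mp hmem
    have h5 : (a * b * a⁻¹ * b⁻¹) ^ k = c * d * c⁻¹ * d⁻¹ := congrArg Subtype.val hk'
    have h6 : (f a * f b * (f a)⁻¹ * (f b)⁻¹) ^ k = f c * f d * (f c)⁻¹ * (f d)⁻¹ := by
      have := congrArg f h5
      simpa only [map_zpow, map_mul, map_inv] using this
    rcases Int.even_or_odd k with ⟨m, hm⟩ | ⟨m, hm⟩
    · apply h3
      rw [← h6, hm, zpow_add, sx_zz h2 m]
    · apply h4
      rw [← h6, hm, zpow_add, two_mul, zpow_add, zpow_one, sx_zz h2 m, one_mul]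

/-- a 2-subgroup of a group of type MetaList is abelian -/
lemma sx_meta2 {X : Type} [Group X] [Finite X] (h : MetaList X) (P : Subgroup X) (h8 : Nat.card P = 8)
    (x y : P) : x * y = y * x := by
  obtain ⟨q, c, d, N, H, π, hq, hq2, hNc, hπ, hab, -, -⟩ := sx_meta h
  have hmem : x * y * x⁻¹ * y⁻¹ = 1 := by
    have h1 : ((x * y * x⁻¹ * y⁻¹ : P) : X) ∈ N := by
      rw [← hπ, MonoidHom.mem_ker]
      simp only [Subgroup.coe_mul, Subgroup.coe_inv, map_mul, map_inv]
      rw [hab (π x) (π y)]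
      group
    have h2 : orderOf ((x * y * x⁻¹ * y⁻¹ : P) : X) ∣ q := by
      rw [← hNc]
      have := orderOf_dvd_natCard (⟨_, h1⟩ : N)
      rwa [Subgroup.orderOf_mk] at this
    have h3 : orderOf ((x * y * x⁻¹ * y⁻¹ : P) : X) ∣ 8 := by
      rw [Subgroup.orderOf_coe, ← h8]
      exact orderOf_dvd_natCard _
    have hcop : Nat.Coprime q 8 := by
      have : Nat.Coprime q (2 ^ 3) := by
        apply Nat.Coprime.pow_right
        exact (Nat.odd_iff.mpr hq2).coprime_two_right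
      exact this
    have h4 := Nat.eq_one_of_dvd_coprimes hcop h2 h3
    rw [Subgroup.orderOf_coe, orderOf_eq_one_iff] at h4
    exact h4
  calc x * y = (x * y * x⁻¹ * y⁻¹) * (y * x) := by group
    _ = y * x := by rw [hmem, one_mul]

/-- subgroups of order 8 of `SL(2,3)` -/
lemma sx_bt {X : Type} [Group X] [Finite X] (h : BinTet X) (P : Subgroup X) (h8 : Nat.card P = 8) :
    ∀ x y : P, x * x = 1 → x ≠ 1 → y * y = 1 → y ≠ 1 → x = y := by
  obtain ⟨Q, z, w, hQn, -, hQc, hQi, -, -, -, -, h5, -⟩ := bt_data h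
  have hPQ : P ≤ Q := by
    intro g hg
    have h1 : (QuotientGroup.mk' Q g) ^ 3 = 1 := by
      have : (QuotientGroup.mk' Q g) ^ Nat.card (X ⧸ Q) = 1 := pow_card_eq_one'
      rwa [← Subgroup.index_eq_card, hQi] at this
    have h2 : (QuotientGroup.mk' Q g) ^ 8 = 1 := by
      have h3 : g ^ 8 = 1 := by
        have : (⟨g, hg⟩ : P) ^ Nat.card P = 1 := pow_card_eq_one'
        rw [h8] at this
        exact congrArg Subtype.val this
      rw [← map_pow, h3, map_one]
    have h3 : QuotientGroup.mk' Q g = 1 := by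
      have h4 : (QuotientGroup.mk' Q g) ^ 9 = 1 := by
        rw [show (9 : ℕ) = 3 * 3 by norm_num, pow_mul, h1, one_pow]
      have h5 : (QuotientGroup.mk' Q g) ^ 9 = (QuotientGroup.mk' Q g) ^ 8 * QuotientGroup.mk' Q g := by
        rw [← pow_succ]
      rw [h5, h2, one_mul] at h4
      exact h4
    have h4 : g ∈ (QuotientGroup.mk' Q).ker := h3
    rwa [QuotientGroup.ker_mk'] at h4
  intro x y hx hx1 hy hy1
  have key : ∀ u : P, u * u = 1 → u ≠ 1 → (u : X) = z := by
    intro u hu hu1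
    rcases h5 u (hPQ u.2) (congrArg Subtype.val hu) with h6 | h6
    · exact absurd (Subtype.ext h6) hu1
    · exact h6
  exact Subtype.ext ((key x hx hx1).trans (key y hy hy1).symm)

lemma sx_nonab_d8 : ∃ a b : DihedralGroup 4, a * b ≠ b * a := ⟨DihedralGroup.r 1, DihedralGroup.sr 0, by decide⟩

lemma sx_nonab_q8 : ∃ a b : QuaternionGroup 2, a * b ≠ b * a :=
  ⟨QuaternionGroup.a 1, QuaternionGroup.xa 0, by decide⟩

lemma sx_inv_d8 : ∃ a b : DihedralGroup 4, a * a = 1 ∧ a ≠ 1 ∧ b * b = 1 ∧ b ≠ 1 ∧ a ≠ b :=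
  ⟨DihedralGroup.sr 1, DihedralGroup.sr 0, by decide, by decide, by decide, by decide, by decide⟩

lemma sx_nonab {X A : Type} [Group X] [Group A] (P : Subgroup X) (e : P ≃* A)
    (h : ∃ a b : A, a * b ≠ b * a) : ∃ a b : P, a * b ≠ b * a := by
  obtain ⟨a, b, hab⟩ := h
  refine ⟨e.symm a, e.symm b, fun h => hab ?_⟩
  rw [← map_mul, ← map_mul] at h
  exact e.symm.injective h

lemma sx_nonab' {X : Type} [Group X] (P : Subgroup X) (h : ∃ a b : P, a * b ≠ b * a) :
    ∃ a b : X, a * b ≠ b * a := by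
  obtain ⟨a, b, hab⟩ := h
  exact ⟨a, b, fun h => hab (Subtype.ext h)⟩

/-- dihedral Sylow 2-subgroup of order 8 and a central involution -/
theorem sol_d8 {X : Type} [Group X] (h : SolList X) (P : Subgroup X)
    (e : Nonempty (P ≃* DihedralGroup 4)) (h16 : ¬ 16 ∣ Nat.card X) (t : X) (ht1 : t ≠ 1)
    (hc : ∀ g, t * g = g * t) : Nat.card X = 8 := by
  haveI := h.1
  obtain ⟨e⟩ := e
  have hP8 : Nat.card P = 8 := by rw [Nat.card_congr e.toEquiv, sx_d8card]
  have h8 : 8 ∣ Nat.card X := by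
    rw [← hP8]
    exact Subgroup.card_subgroup_dvd_card P
  have hnab := sx_nonab P e sx_nonab_d8
  rcases sx_cases h (sx_nonab' P hnab) with ⟨g, hg⟩ | ⟨⟨e'⟩⟩ | h | h
  · have h24 := sx_dvd24 g hg
    obtain ⟨m, hm⟩ := h8
    rw [hm] at h24 h16
    have h3 : m ∣ 3 := by
      have : 8 * m ∣ 8 * 3 := h24
      exact Nat.dvd_of_mul_dvd_mul_left (by norm_num) this
    rcases (Nat.dvd_prime Nat.prime_three).mp h3 with h4 | h4
    · rw [hm, h4]
    · exact absurd (sx_center g hg (by rw [hm, h4]) t hc) ht1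
  · rw [Nat.card_congr e'.toEquiv, sx_q8card]
  · exfalso
    obtain ⟨a, b, ha, ha1, hb, hb1, hab⟩ := sx_inv_d8
    have h1 := sx_bt h P hP8 (e.symm a) (e.symm b) (by rw [← map_mul, ha, map_one])
      (fun h => ha1 (e.symm.injective (by rw [h, map_one]))) (by rw [← map_mul, hb, map_one])
      (fun h => hb1 (e.symm.injective (by rw [h, map_one])))
    exact hab (e.symm.injective h1)
  · obtain ⟨a, b, hab⟩ := hnab
    exact absurd (sx_meta2 h P hP8 a b) hab

/-- quaternion Sylow 2-subgroup -/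
theorem sol_q8 {X : Type} [Group X] (h : SolList X) (P : Subgroup X)
    (e : Nonempty (P ≃* QuaternionGroup 2)) (h16 : ¬ 16 ∣ Nat.card X) :
    Nat.card X = 8 ∨ Nat.card X = 24 := by
  haveI := h.1
  obtain ⟨e⟩ := e
  have hP8 : Nat.card P = 8 := by rw [Nat.card_congr e.toEquiv, sx_q8card]
  have hnab := sx_nonab P e sx_nonab_q8
  rcases sx_cases h (sx_nonab' P hnab) with ⟨g, hg⟩ | ⟨⟨e'⟩⟩ | h | h
  · exfalso
    obtain ⟨e2⟩ := perm4_ord8 (g.comp P.subtype) (hg.comp P.subtype_injective) hP8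
    obtain ⟨a, b, ha, ha1, hb, hb1, hab⟩ := sx_inv_d8
    obtain ⟨z, -, -, -, hz, -, -⟩ := q8_facts
    have key : ∀ u : DihedralGroup 4, u * u = 1 → u ≠ 1 → e (e2.symm u) = z := by
      intro u hu hu1
      rcases hz (e (e2.symm u)) (by rw [← map_mul, ← map_mul, hu, map_one, map_one]) with h1 | h1
      · exfalso
        apply hu1
        apply e2.symm.injective
        apply e.injective
        rw [h1, map_one, map_one]
      · exact h1
    apply hab
    apply e2.symm.injective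
    apply e.injective
    rw [key a ha ha1, key b hb hb1]
  · left
    rw [Nat.card_congr e'.toEquiv, sx_q8card]
  · exact Or.inr h.1
  · obtain ⟨a, b, hab⟩ := hnab
    exact absurd (sx_meta2 h P hP8 a b) hab

/-- no nonabelian subgroup of order 12 in a group of order 24 with a central involution -/
theorem sol_24 {X : Type} [Group X] (h : SolList X) (h24 : Nat.card X = 24) (t : X) (ht : t * t = 1)
    (ht1 : t ≠ 1) (hc : ∀ g, t * g = g * t) (Y : Subgroup X) (hY : Nat.card Y = 12)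
    (hn : ∃ x ∈ Y, ∃ y ∈ Y, x * y ≠ y * x) : False := by
  haveI := h.1
  obtain ⟨x, hx, y, hy, hxy⟩ := hn
  rcases sx_cases h ⟨x, y, hxy⟩ with ⟨g, hg⟩ | ⟨⟨e'⟩⟩ | h | h
  · exact ht1 (sx_center g hg h24 t hc)
  · rw [Nat.card_congr e'.toEquiv, sx_q8card] at h24
    omega
  · exact bintet_no12 h Y hY
  · obtain ⟨q, c, d, N, H, π, hq, hq2, hNc, hπ, hab, hcard, hd, hdq, hpar⟩ := sx_meta h
    rw [h24] at hcard
    have hq24 : q ∣ 24 := Dvd.intro _ hcard.symm
    have hq3 : q = 3 := by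
      have h1 : q ∣ 2 ^ 3 * 3 := hq24
      rcases (hq.dvd_mul).mp h1 with h2 | h2
      · have h3 := (Nat.prime_dvd_prime_iff_eq hq Nat.prime_two).mp (hq.dvd_of_dvd_pow h2)
        omega
      · exact (Nat.prime_dvd_prime_iff_eq hq Nat.prime_three).mp h2
    subst hq3
    have hd2 : d = 2 := by
      rcases (Nat.dvd_prime Nat.prime_two).mp hdq with h1 | h1
      · omega
      · exact h1
    subst hd2
    have hc4 : c = 4 := by omega
    subst hc4
    rcases hpar with ⟨h1, h2⟩ | ⟨h1, h2⟩ | ⟨h1, h2⟩ | ⟨h1, h2, h3⟩ | ⟨h1, h2⟩ | ⟨h1, h2, h3⟩ <;> omega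

end Pool.Agent.SHAF
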