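import Mathlib
import Pool.Agent.SHAF.Nonsol
import Pool.Agent.SHAN.SolX

set_option autoImplicit false

/-!
Outer automorphisms (module OUT).
-/

namespace Pool.Agent.SHAF

open Pool.Agent.SHA

variable {K : (G : Type) → [Group G] → Prop}

theorem out_sol {D : Type} [Group D] [Finite D] (C : Subgroup D) (hC : C.index = 2)
    (hC12 : Nat.card C = 12) (t : D) (htC : t ∈ C) (ht : t * t = 1) (ht1 : t ≠ 1)
    (hc : ∀ g, t * g = g * t) : Group.IsSolvable D := by
  have hCn : C.Normal := Subgroup.normal_of_index_eq_two hC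
  have hsC : Group.IsSolvable C := by
    let t' : C := ⟨t, htC⟩
    have hto : orderOf t' = 2 := by
      have : Fact (Nat.Prime 2) := ⟨Nat.prime_two⟩
      apply orderOf_eq_prime
      · rw [pow_two]
        exact Subtype.ext ht
      · intro h
        exact ht1 (congrArg Subtype.val h)
    have hZn : (Subgroup.zpowers t').Normal := by
      constructor
      intro n hn g
      obtain ⟨k, rfl⟩ := Subgroup.mem_zpowers_iff.mp hn
      have h1 : Commute t' g := Subtype.ext (hc g)
      have h2 : g * t' ^ k * g⁻¹ = t' ^ k := by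
        rw [(h1.zpow_left k).symm.eq, mul_assoc, mul_inv_cancel, mul_one]
      rw [h2]
      exact hn
    have hZc : Nat.card (Subgroup.zpowers t') = 2 := by rw [Nat.card_zpowers, hto]
    have h1 : Group.IsSolvable (Subgroup.zpowers t') := sol_cyc inferInstance
    have hq : Nat.card (C ⧸ Subgroup.zpowers t') = 6 := by
      have h2 := (Subgroup.zpowers t').card_mul_index
      rw [hZc, hC12] at h2
      have h3 : (Subgroup.zpowers t').index = Nat.card (C ⧸ Subgroup.zpowers t') := rfl
      omega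
    have h2 : Group.IsSolvable (C ⧸ Subgroup.zpowers t') := sol_six (by rw [hq])
    refine Group.isSolvable_of_ker_le_range (Subgroup.zpowers t').subtype
      (QuotientGroup.mk' (Subgroup.zpowers t')) ?_
    rw [QuotientGroup.ker_mk', Subgroup.range_subtype]
  have h2 : Group.IsSolvable (D ⧸ C) := sol_six (by
    have h3 : Nat.card (D ⧸ C) = 2 := hC
    rw [h3]; norm_num)
  refine Group.isSolvable_of_ker_le_range C.subtype (QuotientGroup.mk' C) ?_
  rw [QuotientGroup.ker_mk', Subgroup.range_subtype]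

/-- the subgroup generated by a subgroup and an element that normalises it and has its square in it -/
def outD {A : Type} [Group A] (C : Subgroup A) (b : A) (hb2 : b * b ∈ C)
    (hn : ∀ x ∈ C, b⁻¹ * x * b ∈ C) : Subgroup A where
  carrier := {g | g ∈ C ∨ b⁻¹ * g ∈ C}
  mul_mem' := by
    rintro g d (hg | hg) (hd | hd)
    · exact Or.inl (C.mul_mem hg hd)
    · right
      have : b⁻¹ * (g * d) = (b⁻¹ * g * b) * (b⁻¹ * d) := by group
      rw [this]
      exact C.mul_mem (hn g hg) hd
    · right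
      have : b⁻¹ * (g * d) = (b⁻¹ * g) * d := by group
      rw [this]
      exact C.mul_mem hg hd
    · left
      have : g * d = (b * b) * (b⁻¹ * (b⁻¹ * g) * b) * (b⁻¹ * d) := by group
      rw [this]
      exact C.mul_mem (C.mul_mem hb2 (hn _ hg)) hd
  one_mem' := Or.inl C.one_mem
  inv_mem' := by
    rintro g (hg | hg)
    · exact Or.inl (C.inv_mem hg)
    · right
      have : b⁻¹ * g⁻¹ = (b⁻¹ * (b⁻¹ * g)⁻¹ * b) * (b * b)⁻¹ := by group
      rw [this]
      exact C.mul_mem (hn _ (C.inv_mem hg)) (C.inv_mem hb2)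

theorem out_index {A : Type} [Group A] (C : Subgroup A) (b : A) (hb2 : b * b ∈ C)
    (hn : ∀ x ∈ C, b⁻¹ * x * b ∈ C) (hb : b ∉ C) :
    (C.subgroupOf (outD C b hb2 hn)).index = 2 := by
  rw [Subgroup.index_eq_two_iff]
  refine ⟨⟨b, Or.inr (by rw [inv_mul_cancel]; exact C.one_mem)⟩, ?_⟩
  rintro ⟨g, hg⟩
  simp only [Subgroup.mem_subgroupOf, Subgroup.coe_mul]
  by_cases hgC : g ∈ C
  · right
    refine ⟨hgC, ?_⟩
    intro h
    apply hb
    have : b = g⁻¹ * (g * b) := by group
    rw [this]
    exact C.mul_mem (C.inv_mem hgC) h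
  · left
    refine ⟨?_, hgC⟩
    rcases hg with hg | hg
    · exact absurd hg hgC
    · have : g * b = (b * b) * (b⁻¹ * (b⁻¹ * g) * b) := by group
      rw [this]
      exact C.mul_mem hb2 (hn _ hg)

theorem no_outer (hK : SHAClosed K) (hE : ¬ K (E 3)) {G : Type} [Group G] [Finite G]
    (hG : K G) (hcen : ∀ z : G, (∀ g, z * g = g * z) → z = 1) (t : G) (ht : t * t = 1) (ht1 : t ≠ 1)
    (hconj : ∀ s t : G, s * s = 1 → s ≠ 1 → t * t = 1 → t ≠ 1 → ∃ g, g * s * g⁻¹ = t)
    (ha : Nat.card (Subgroup.centralizer {t}) = 8 ∨ Nat.card (Subgroup.centralizer {t}) = 12)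
    (hn : ∃ x ∈ Subgroup.centralizer {t}, ∃ y ∈ Subgroup.centralizer {t}, x * y ≠ y * x)
    (α : MulAut G) (h1 : ∀ g, α ≠ MulAut.conj g) (h2 : ∃ g, α * α = MulAut.conj g) : False := by
  have hcinj : Function.Injective (MulAut.conj : G →* MulAut G) := by
    rw [injective_iff_map_eq_one]
    intro z hz
    apply hcen
    intro g
    have h3 : MulAut.conj z g = g := by rw [hz]; rfl
    rw [MulAut.conj_apply] at h3
    calc z * g = z * g * z⁻¹ * z := by group
      _ = g * z := by rw [h3]
  have hac : ∀ (γ : MulAut G) (x : G), γ * MulAut.conj x = MulAut.conj (γ x) * γ := by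
    intro γ x
    ext y
    simp [MulAut.conj_apply]
  -- normalise the automorphism
  obtain ⟨g, hg⟩ := hconj (α t) t (by rw [← map_mul, ht, map_one])
    (fun h => ht1 (by
      apply α.injective
      rw [h, map_one])) ht ht1
  obtain ⟨v, hv⟩ := h2
  obtain ⟨β, hβ⟩ : ∃ β : MulAut G, β = MulAut.conj g * α := ⟨_, rfl⟩
  have hβt : β t = t := by
    rw [hβ]
    exact hg
  have hβn : ∀ x, β ≠ MulAut.conj x := by
    intro x hx
    apply h1 (g⁻¹ * x)
    rw [map_mul, ← hx, hβ, map_inv]
    group
  have hβ2 : β * β = MulAut.conj (g * α g * v) := by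
    rw [hβ, map_mul, map_mul, ← hv]
    calc MulAut.conj g * α * (MulAut.conj g * α)
        = MulAut.conj g * (α * MulAut.conj g) * α := by group
      _ = _ := by rw [hac]; group
  obtain ⟨u, hu⟩ : ∃ u, u = g * α g * v := ⟨_, rfl⟩
  rw [← hu] at hβ2
  have huC : u ∈ Subgroup.centralizer {t} := by
    rw [Subgroup.mem_centralizer_singleton_iff]
    have h3 : (β * β) t = t := by
      show β (β t) = t
      rw [hβt, hβt]
    rw [hβ2, MulAut.conj_apply] at h3
    calc u * t = u * t * u⁻¹ * u := by group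
      _ = t * u := by rw [h3]
  have hβit : β⁻¹ t = t := by
    have h3 : β⁻¹ (β t) = t := by
      show (β⁻¹ * β) t = t
      rw [inv_mul_cancel]
      rfl
    rw [hβt] at h3
    exact h3
  let C : Subgroup (MulAut G) := (Subgroup.centralizer {t}).map (MulAut.conj : G →* MulAut G)
  have hb2 : β * β ∈ C := ⟨u, huC, hβ2.symm⟩
  have hnC : ∀ x ∈ C, β⁻¹ * x * β ∈ C := by
    rintro _ ⟨x, hx, rfl⟩
    refine ⟨β⁻¹ x, ?_, ?_⟩
    · rw [SetLike.mem_coe, Subgroup.mem_centralizer_singleton_iff] at hx ⊢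
      rw [← hβit, ← map_mul, ← map_mul, hx]
    · rw [hac]
      group
  have hbC : β ∉ C := by
    rintro ⟨x, -, hx⟩
    exact hβn x hx.symm
  have hidx := out_index C β hb2 hnC hbC
  have hCD : C ≤ outD C β hb2 hnC := fun x hx => Or.inl hx
  have hcC : Nat.card C = Nat.card (Subgroup.centralizer {t}) :=
    (Nat.card_congr ((Subgroup.centralizer {t}).equivMapOfInjective _ hcinj).toEquiv).symm
  have hcC' : Nat.card (C.subgroupOf (outD C β hb2 hnC)) = Nat.card (Subgroup.centralizer {t}) := by
    rw [← hcC]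
    exact Nat.card_congr (Subgroup.subgroupOfEquivOfLe hCD).toEquiv
  have hDc : Nat.card (outD C β hb2 hnC) = Nat.card (Subgroup.centralizer {t}) * 2 := by
    have h3 := (C.subgroupOf (outD C β hb2 hnC)).card_mul_index
    rw [hidx, hcC'] at h3
    exact h3.symm
  have hKD : K (outD C β hb2 hnC) :=
    hK.sub _ _ (outD C β hb2 hnC).subtype (Subgroup.subtype_injective _) (hK.aut _ hG)
  have htC : t ∈ Subgroup.centralizer {t} := by
    rw [Subgroup.mem_centralizer_singleton_iff]
  obtain ⟨x, hx, y, hy, hxy⟩ := hn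
  have hmem : ∀ x ∈ Subgroup.centralizer {t}, MulAut.conj x ∈ outD C β hb2 hnC :=
    fun x hx => hCD ⟨x, hx, rfl⟩
  have hxy' : (⟨MulAut.conj x, hmem x hx⟩ : outD C β hb2 hnC) * ⟨MulAut.conj y, hmem y hy⟩ ≠
      ⟨MulAut.conj y, hmem y hy⟩ * ⟨MulAut.conj x, hmem x hx⟩ := by
    intro h
    apply hxy
    apply hcinj
    rw [map_mul, map_mul]
    exact congrArg Subtype.val h
  rcases ha with ha | ha
  · rw [ha] at hDc
    have hp : IsPGroup 2 (outD C β hb2 hnC) := IsPGroup.of_card (n := 4) (by rw [hDc]; norm_num)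
    rcases two_groups hK hE hKD hp with h3 | ⟨-, h3⟩
    · omega
    · apply hxy'
      letI := IsCyclic.commGroup (α := outD C β hb2 hnC)
      exact mul_comm _ _
  · rw [ha] at hDc hcC'
    have hcent : ∀ γ : outD C β hb2 hnC,
        (⟨MulAut.conj t, hmem t htC⟩ : outD C β hb2 hnC) * γ =
          γ * ⟨MulAut.conj t, hmem t htC⟩ := by
      rintro ⟨γ, hγ⟩
      apply Subtype.ext
      show MulAut.conj t * γ = γ * MulAut.conj t
      have h4 : γ t = t := by
        rcases hγ with ⟨z, hz, rfl⟩ | ⟨z, hz, hz2⟩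
        · rw [SetLike.mem_coe, Subgroup.mem_centralizer_singleton_iff] at hz
          rw [MulAut.conj_apply, hz]
          group
        · have h5 : γ = β * MulAut.conj z := by
            rw [hz2]
            group
          rw [SetLike.mem_coe, Subgroup.mem_centralizer_singleton_iff] at hz
          rw [h5]
          show β (MulAut.conj z t) = t
          rw [MulAut.conj_apply, hz]
          have h6 : t * z * z⁻¹ = t := by group
          rw [h6, hβt]
      rw [hac, h4]
    have htt : (⟨MulAut.conj t, hmem t htC⟩ : outD C β hb2 hnC) * ⟨MulAut.conj t, hmem t htC⟩ = 1 := by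
      apply Subtype.ext
      show MulAut.conj t * MulAut.conj t = 1
      rw [← map_mul, ht, map_one]
    have htt1 : (⟨MulAut.conj t, hmem t htC⟩ : outD C β hb2 hnC) ≠ 1 := by
      intro h
      apply ht1
      apply hcinj
      rw [map_one]
      exact congrArg Subtype.val h
    have hsol : Group.IsSolvable (outD C β hb2 hnC) :=
      out_sol (C.subgroupOf (outD C β hb2 hnC)) hidx hcC' ⟨MulAut.conj t, hmem t htC⟩
        (by
          rw [Subgroup.mem_subgroupOf]
          exact ⟨t, htC, rfl⟩) htt htt1 hcent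
    have hlist := sol_forward hK hE (outD C β hb2 hnC) hKD
    refine sol_24 hlist (by rw [hDc]) ⟨MulAut.conj t, hmem t htC⟩ htt htt1 hcent
      (C.subgroupOf (outD C β hb2 hnC)) hcC' ?_
    refine ⟨⟨MulAut.conj x, hmem x hx⟩, ?_, ⟨MulAut.conj y, hmem y hy⟩, ?_, hxy'⟩
    · rw [Subgroup.mem_subgroupOf]
      exact ⟨x, hx, rfl⟩
    · rw [Subgroup.mem_subgroupOf]
      exact ⟨y, hy, rfl⟩

end Pool.Agent.SHAF
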