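import Mathlib

set_option autoImplicit false

/-!
Simple groups of small order (module SIXTY).
-/

namespace Pool.Agent.SHAF

theorem sixty_ker {G H : Type} [Group G] [IsSimpleGroup G] [Group H] (f : G →* H)
    (g : G) (hg : f g ≠ 1) : Function.Injective f := by
  rcases (IsSimpleGroup.eq_bot_or_eq_top_of_normal f.ker inferInstance) with h | h
  · exact (MonoidHom.ker_eq_bot_iff f).mp h
  · exfalso
    apply hg
    have : g ∈ f.ker := by rw [h]; exact Subgroup.mem_top g
    exact this

theorem simple60 {G : Type} [Group G] [Finite G] [IsSimpleGroup G] (h : Nat.card G = 60)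
    (H : Subgroup G) (hH : Nat.card H = 12) : Nonempty (G ≃* alternatingGroup (Fin 5)) := by
  have hidx : H.index = 5 := by
    have h1 := H.card_mul_index
    rw [h, hH] at h1
    omega
  have hcard : Nat.card (G ⧸ H) = 5 := hidx
  let e0 : (G ⧸ H) ≃ Fin 5 := Finite.equivFinOfCardEq hcard
  let f : G →* Equiv.Perm (Fin 5) := (e0.permCongrHom.toMonoidHom).comp (MulAction.toPermHom G (G ⧸ H))
  have hne : H ≠ ⊤ := by
    intro h2
    rw [h2, Subgroup.index_top] at hidx
    omega
  have hex : ∃ g : G, g ∉ H := by
    by_contra hcon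
    push Not at hcon
    exact hne ((Subgroup.eq_top_iff' H).mpr hcon)
  obtain ⟨g, hg⟩ := hex
  have hfg : f g ≠ 1 := by
    intro h3
    have h4 : MulAction.toPermHom G (G ⧸ H) g = 1 := by
      apply (e0.permCongrHom).injective
      rw [map_one]
      exact h3
    have h5 : g • ((1 : G) : G ⧸ H) = ((1 : G) : G ⧸ H) := by
      have := congrArg (fun s : Equiv.Perm (G ⧸ H) => s ((1 : G) : G ⧸ H)) h4
      simpa using this
    apply hg
    have h6 : ((g * 1 : G) : G ⧸ H) = ((1 : G) : G ⧸ H) := h5
    rw [QuotientGroup.eq] at h6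
    simpa using h6
  have hinj := sixty_ker f g hfg
  have hr : f.range.index = 2 := by
    have h1 := f.range.card_mul_index
    have h2 : Nat.card f.range = 60 := by
      rw [← h]
      exact (Nat.card_congr (MonoidHom.ofInjective hinj).toEquiv).symm
    rw [h2, Nat.card_eq_fintype_card, Fintype.card_perm, Fintype.card_fin] at h1
    have : Nat.factorial 5 = 120 := by decide
    omega
  have h3 := Equiv.Perm.eq_alternatingGroup_of_index_eq_two hr
  exact ⟨(MonoidHom.ofInjective hinj).trans (MulEquiv.subgroupCongr h3)⟩

theorem sixty_syl {G : Type} [Group G] [Finite G] [IsSimpleGroup G] (p m : ℕ) [hp : Fact p.Prime]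
    (h : Nat.card G = p * m) (hpm : ¬ p ∣ m) (hm1 : m ≠ 1)
    (hm : ∀ n : ℕ, n ∣ m → n % p = 1 % p → n = 1) : False := by
  have hpp := hp.out
  have P : Sylow p G := default
  have hm0 : m ≠ 0 := by
    rintro rfl
    exact hpm (dvd_zero p)
  have hfac : (Nat.card G).factorization p = 1 := by
    rw [h, Nat.factorization_mul hpp.ne_zero hm0, Finsupp.add_apply,
      hpp.factorization_self, Nat.factorization_eq_zero_of_not_dvd hpm]
  have hPc : Nat.card (P : Subgroup G) = p := by
    rw [P.card_eq_multiplicity, hfac, pow_one]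
  have hidx : (P : Subgroup G).index = m := by
    have h1 := (P : Subgroup G).card_mul_index
    rw [hPc, h] at h1
    exact Nat.eq_of_mul_eq_mul_left hpp.pos h1
  have h1 : Nat.card (Sylow p G) = 1 := by
    apply hm
    · have := P.card_dvd_index
      rw [hidx] at this
      exact this
    · exact card_sylow_modEq_one p G
  have hsub : Subsingleton (Sylow p G) := (Nat.card_eq_one_iff_unique.mp h1).1
  have hn : (P : Subgroup G).Normal := P.normal_of_subsingleton
  rcases IsSimpleGroup.eq_bot_or_eq_top_of_normal (P : Subgroup G) hn with h2 | h2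
  · rw [h2, Subgroup.card_bot] at hPc
    exact hpp.one_lt.ne hPc
  · rw [h2, Subgroup.index_top] at hidx
    exact hm1 hidx.symm

/-- the orders 372, 2220, 104, excluded with Sylow's theorem -/
theorem not_simple {G : Type} [Group G] [Finite G] [IsSimpleGroup G] (hns : ¬ Group.IsSolvable G)
    (h : Nat.card G = 372 ∨ Nat.card G = 2220 ∨ Nat.card G = 104) : False := by
  rcases h with h | h | h
  · have : Fact (Nat.Prime 31) := ⟨by norm_num⟩
    refine sixty_syl 31 12 (by rw [h]) (by norm_num) (by norm_num) ?_
    intro n hn h1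
    have h2 := Nat.le_of_dvd (by norm_num) hn
    interval_cases n <;> omega
  · have : Fact (Nat.Prime 37) := ⟨by norm_num⟩
    refine sixty_syl 37 60 (by rw [h]) (by norm_num) (by norm_num) ?_
    intro n hn h1
    have h2 := Nat.le_of_dvd (by norm_num) hn
    interval_cases n <;> omega
  · have : Fact (Nat.Prime 13) := ⟨by norm_num⟩
    refine sixty_syl 13 8 (by rw [h]) (by norm_num) (by norm_num) ?_
    intro n hn h1
    have h2 := Nat.le_of_dvd (by norm_num) hn
    interval_cases n <;> omega

end Pool.Agent.SHAF
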