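import Mathlib

set_option autoImplicit false

/-!
Elements of 2-power order inverted by an involution (module TWO).
-/

namespace Pool.Agent.SHAF

/-- an element of 2-power order is in a Sylow subgroup -/
theorem two_sylow {G : Type} [Group G] [Finite G] {x : G} (h : ∃ k, orderOf x = 2 ^ k) :
    ∃ Q : Sylow 2 G, x ∈ Q := by
  obtain ⟨k, hk⟩ := h
  have h1 : IsPGroup 2 (Subgroup.zpowers x) := IsPGroup.of_card (by rw [Nat.card_zpowers, hk])
  obtain ⟨Q, hQ⟩ := h1.exists_le_sylow
  exact ⟨Q, hQ (Subgroup.mem_zpowers x)⟩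

theorem two_order {G : Type} [Group G] {x : G} (k : ℕ) (h : x ^ (2 ^ k) = 1) :
    ∃ k, orderOf x = 2 ^ k := by
  obtain ⟨j, -, hj⟩ := (Nat.dvd_prime_pow Nat.prime_two).1 (orderOf_dvd_of_pow_eq_one h)
  exact ⟨j, hj⟩

theorem two_comm {G : Type} [Group G] {t x : G} : t * x * t⁻¹ = x ↔ x * t = t * x := by
  rw [mul_inv_eq_iff_eq_mul]
  exact eq_comm

theorem two_inv {G : Type} [Group G] {x : G} (h : x * x = 1) : x⁻¹ = x := inv_eq_of_mul_eq_one_left h

theorem two_klein {G : Type} [Group G] [Finite G] (P : Sylow 2 G) (h4 : Nat.card P = 4)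
    (hnc : ¬ IsCyclic P) (t : G) (ht : t * t = 1) :
    Nat.card {x : G // t * x * t⁻¹ = x⁻¹ ∧ ∃ k, orderOf x = 2 ^ k} =
      Nat.card {x : Subgroup.centralizer {t} // x * x = 1} := by
  have hP : ∀ y : P, y * y = 1 := by
    intro y
    have h1 : orderOf y ∣ 4 := h4 ▸ orderOf_dvd_natCard y
    have h2 : orderOf y ≤ 4 := Nat.le_of_dvd (by norm_num) h1
    have h3 : orderOf y ≠ 4 := fun h => hnc (isCyclic_of_orderOf_eq_card y (by rw [h, h4]))
    have h5 : orderOf y ∣ 2 := by
      interval_cases orderOf y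
      · exact absurd h1 (by norm_num)
      · norm_num
      · norm_num
      · exact absurd h1 (by norm_num)
      · exact absurd rfl h3
    have h6 := orderOf_dvd_iff_pow_eq_one.1 h5
    rwa [pow_two] at h6
  have hx : ∀ x : G, (∃ k, orderOf x = 2 ^ k) → x * x = 1 := by
    intro x h
    obtain ⟨Q, hQ⟩ := two_sylow h
    have h1 := hP (Q.equiv P ⟨x, hQ⟩)
    rw [← map_mul] at h1
    have h2 := (MulEquiv.map_eq_one_iff _).1 h1
    exact congrArg Subtype.val h2
  refine Nat.card_congr
    { toFun := fun x => ⟨⟨x.1, ?_⟩, ?_⟩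
      invFun := fun x => ⟨x.1.1, ?_, ?_⟩
      left_inv := fun x => rfl
      right_inv := fun x => rfl }
  · rw [Subgroup.mem_centralizer_singleton_iff, ← two_comm, x.2.1, two_inv (hx _ x.2.2)]
  · exact Subtype.ext (hx _ x.2.2)
  · have h1 : (x.1 : G) * x.1 = 1 := congrArg Subtype.val x.2
    rw [two_inv h1, two_comm]
    exact Subgroup.mem_centralizer_singleton_iff.1 x.1.2
  · have h1 : (x.1 : G) * x.1 = 1 := congrArg Subtype.val x.2
    exact two_order 1 (by rw [pow_one, pow_two, h1])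

theorem two_d1 : (Finset.univ.filter fun d : DihedralGroup 4 => d * d = 1).card = 6 := by
  decide

theorem two_d2 : ∀ z : DihedralGroup 4, z ≠ 1 → (∀ d, d * z = z * d) → z = DihedralGroup.r 2 := by
  decide

theorem two_d3 : (Finset.univ.filter fun d : DihedralGroup 4 => d * d = DihedralGroup.r 2).card = 2 := by
  decide

theorem two_d4 : ∀ c d : DihedralGroup 4, c * c = 1 → c ≠ 1 → c ≠ DihedralGroup.r 2 →
    d * d = DihedralGroup.r 2 → c * d * c⁻¹ = d⁻¹ := by
  decide

theorem two_d5 : ∀ d : DihedralGroup 4, d * d * (d * d) = 1 := by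
  decide

theorem two_dih {G : Type} [Group G] [Finite G] (P : Sylow 2 G)
    (e : Nonempty (P ≃* DihedralGroup 4)) (hC : ∀ s : G, s * s = 1 → s ≠ 1 →
      Nonempty (Subgroup.centralizer {s} ≃* DihedralGroup 4)) (t : G) (ht : t * t = 1)
    (ht1 : t ≠ 1) :
    Nat.card {x : G // t * x * t⁻¹ = x⁻¹ ∧ ∃ k, orderOf x = 2 ^ k} = 14 := by
  classical
  have hfin : Fintype G := Fintype.ofFinite G
  obtain ⟨e⟩ := e
  have hx : ∀ x : G, (∃ k, orderOf x = 2 ^ k) → x * x * (x * x) = 1 := by
    intro x h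
    obtain ⟨Q, hQ⟩ := two_sylow h
    have h1 := two_d5 (e (Q.equiv P ⟨x, hQ⟩))
    rw [← map_mul, ← map_mul, ← map_mul, ← map_mul] at h1
    have h2 := (MulEquiv.map_eq_one_iff _).1 ((MulEquiv.map_eq_one_iff _).1 h1)
    exact congrArg Subtype.val h2
  -- the involutions of the centraliser
  have c1 : (Finset.univ.filter fun x : G => x * x = 1 ∧ x * t = t * x).card = 6 := by
    obtain ⟨f⟩ := hC t ht ht1
    rw [← two_d1]
    symm
    refine Finset.card_bij (fun d _ => (f.symm d : G)) ?_ ?_ ?_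
    · intro d hd
      rw [Finset.mem_filter] at hd ⊢
      refine ⟨Finset.mem_univ _, ?_, Subgroup.mem_centralizer_singleton_iff.1 (f.symm d).2⟩
      rw [← Subgroup.coe_mul, ← map_mul, hd.2, map_one, Subgroup.coe_one]
    · intro a _ b _ h
      exact f.symm.injective (Subtype.ext h)
    · intro x hx
      rw [Finset.mem_filter] at hx
      refine ⟨f ⟨x, Subgroup.mem_centralizer_singleton_iff.2 hx.2.2⟩, ?_, ?_⟩
      · rw [Finset.mem_filter]
        refine ⟨Finset.mem_univ _, ?_⟩
        rw [← map_mul, ← map_one f]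
        congr 1
        exact Subtype.ext hx.2.1
      · rw [MulEquiv.symm_apply_apply]
  have c2 : (Finset.univ.filter fun s : G => (s * s = 1 ∧ s * t = t * s) ∧ s ≠ 1 ∧ s ≠ t).card = 4 := by
    have h1 : (Finset.univ.filter fun s : G => (s * s = 1 ∧ s * t = t * s) ∧ s ≠ 1 ∧ s ≠ t) =
        ((Finset.univ.filter fun x : G => x * x = 1 ∧ x * t = t * x).erase 1).erase t := by
      ext s
      simp only [Finset.mem_filter, Finset.mem_erase, Finset.mem_univ, true_and]
      tauto
    rw [h1, Finset.card_erase_of_mem, Finset.card_erase_of_mem, c1]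
    · rw [Finset.mem_filter]
      exact ⟨Finset.mem_univ _, one_mul 1, by rw [one_mul, mul_one]⟩
    · rw [Finset.mem_erase, Finset.mem_filter]
      exact ⟨ht1, Finset.mem_univ _, ht, rfl⟩
  -- the fibres
  have c3 : ∀ s : G, s * s = 1 → s * t = t * s → s ≠ 1 → s ≠ t →
      (Finset.univ.filter fun x : G => (t * x * t⁻¹ = x⁻¹ ∧ ∃ k, orderOf x = 2 ^ k) ∧ x * x = s).card
        = 2 := by
    intro s hs hst hs1 hne
    obtain ⟨f⟩ := hC s hs hs1
    have hsm : s ∈ Subgroup.centralizer {s} := Subgroup.mem_centralizer_singleton_iff.2 rfl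
    have htm : t ∈ Subgroup.centralizer {s} := Subgroup.mem_centralizer_singleton_iff.2 hst.symm
    have hfs : f ⟨s, hsm⟩ = DihedralGroup.r 2 := by
      apply two_d2
      · intro h
        exact hs1 (congrArg Subtype.val ((MulEquiv.map_eq_one_iff _).1 h))
      · intro d
        obtain ⟨c, rfl⟩ := f.surjective d
        rw [← map_mul, ← map_mul]
        congr 1
        exact Subtype.ext (Subgroup.mem_centralizer_singleton_iff.1 c.2)
    have hft : f ⟨t, htm⟩ * f ⟨t, htm⟩ = 1 := by
      rw [← map_mul, ← map_one f]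
      congr 1
      exact Subtype.ext ht
    have hft1 : f ⟨t, htm⟩ ≠ 1 := by
      intro h
      exact ht1 (congrArg Subtype.val ((MulEquiv.map_eq_one_iff _).1 h))
    have hft2 : f ⟨t, htm⟩ ≠ DihedralGroup.r 2 := by
      intro h
      rw [← hfs] at h
      exact hne (congrArg Subtype.val (f.injective h)).symm
    rw [← two_d3]
    symm
    refine Finset.card_bij (fun d _ => (f.symm d : G)) ?_ ?_ ?_
    · intro d hd
      rw [Finset.mem_filter] at hd ⊢
      have h1 : (f.symm d : G) * f.symm d = s := by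
        rw [← Subgroup.coe_mul, ← map_mul, hd.2, ← hfs, MulEquiv.symm_apply_apply]
      refine ⟨Finset.mem_univ _, ⟨?_, ?_⟩, h1⟩
      · have h2 := two_d4 _ d hft hft1 hft2 hd.2
        have h3 := congrArg f.symm h2
        rw [map_mul, map_mul, map_inv, map_inv, MulEquiv.symm_apply_apply] at h3
        exact congrArg Subtype.val h3
      · refine two_order 2 ?_
        rw [show 2 ^ 2 = 2 * 2 by norm_num, pow_mul, pow_two, pow_two, h1, hs]
    · intro a _ b _ h
      exact f.symm.injective (Subtype.ext h)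
    · intro x hx
      rw [Finset.mem_filter] at hx
      have hxm : x ∈ Subgroup.centralizer {s} := by
        rw [Subgroup.mem_centralizer_singleton_iff, ← hx.2.2, mul_assoc]
      refine ⟨f ⟨x, hxm⟩, ?_, ?_⟩
      · rw [Finset.mem_filter]
        refine ⟨Finset.mem_univ _, ?_⟩
        rw [← map_mul, ← hfs]
        congr 1
        exact Subtype.ext hx.2.2
      · rw [MulEquiv.symm_apply_apply]
  have c0 : (Finset.univ.filter fun x : G =>
      (t * x * t⁻¹ = x⁻¹ ∧ ∃ k, orderOf x = 2 ^ k) ∧ x * x = 1).card = 6 := by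
    rw [← c1]
    congr 1
    ext x
    simp only [Finset.mem_filter, Finset.mem_univ, true_and]
    constructor
    · rintro ⟨⟨h1, -⟩, h2⟩
      rw [two_inv h2] at h1
      exact ⟨h2, two_comm.1 h1⟩
    · rintro ⟨h1, h2⟩
      refine ⟨⟨?_, two_order 1 (by rw [pow_one, pow_two, h1])⟩, h1⟩
      rw [two_inv h1]
      exact two_comm.2 h2
  -- the sum
  rw [Nat.card_eq_fintype_card, Fintype.card_subtype]
  let T : Finset G := insert 1
    (Finset.univ.filter fun s : G => (s * s = 1 ∧ s * t = t * s) ∧ s ≠ 1 ∧ s ≠ t)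
  have hT : ∀ x ∈ (Finset.univ.filter fun x : G => t * x * t⁻¹ = x⁻¹ ∧ ∃ k, orderOf x = 2 ^ k),
      x * x ∈ T := by
    intro x hxA
    obtain ⟨-, h1, h2⟩ := Finset.mem_filter.1 hxA
    rw [Finset.mem_insert]
    by_cases h3 : x * x = 1
    · exact Or.inl h3
    · refine Or.inr (Finset.mem_filter.2 ⟨Finset.mem_univ _, ⟨hx x h2, ?_⟩, h3, ?_⟩)
      · have h4 : t * (x * x) * t⁻¹ = (t * x * t⁻¹) * (t * x * t⁻¹) := by group
        rw [← two_comm, h4, h1, ← mul_inv_rev, two_inv (hx x h2)]
      · intro h4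
        have h5 : x * t = t * x := by rw [← h4, mul_assoc]
        have h6 := two_comm.2 h5
        rw [h1] at h6
        apply h3
        nth_rewrite 1 [← h6]
        exact inv_mul_cancel x
  rw [Finset.card_eq_sum_card_fiberwise hT, Finset.sum_insert]
  · simp only [Finset.filter_filter]
    rw [c0, Finset.sum_congr rfl (g := fun _ => 2), Finset.sum_const, c2]
    · rfl
    · intro s hs
      obtain ⟨-, ⟨h1, h2⟩, h3, h4⟩ := Finset.mem_filter.1 hs
      exact c3 s h1 h2 h3 h4
  · intro h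
    exact (Finset.mem_filter.1 h).2.2.1 rfl

theorem two_quat {G : Type} [Group G] [Finite G] 
    (huniq : ∀ s t : G, s * s = 1 → s ≠ 1 → t * t = 1 → t ≠ 1 → s * t = t * s → s = t)
    (t : G) (ht : t * t = 1) (ht1 : t ≠ 1) :
    Nat.card {x : G // t * x * t⁻¹ = x⁻¹ ∧ ∃ k, orderOf x = 2 ^ k} = 2 := by
  have key : ∀ x : G, (t * x * t⁻¹ = x⁻¹ ∧ ∃ k, orderOf x = 2 ^ k) ↔ x ∈ ({1, t} : Set G) := by
    intro x
    rw [Set.mem_insert_iff, Set.mem_singleton_iff]
    constructor
    · rintro ⟨h1, k, hk⟩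
      by_cases hx1 : x = 1
      · exact Or.inl hx1
      right
      have hk0 : k ≠ 0 := by
        rintro rfl
        rw [pow_zero, orderOf_eq_one_iff] at hk
        exact hx1 hk
      obtain ⟨j, rfl⟩ := Nat.exists_eq_succ_of_ne_zero hk0
      have hs : x ^ (2 ^ j) * x ^ (2 ^ j) = 1 := by
        rw [← pow_add, ← two_mul, ← pow_succ', ← Nat.succ_eq_add_one, ← hk, pow_orderOf_eq_one]
      have hs1 : x ^ (2 ^ j) ≠ 1 := by
        intro h
        have h2 := orderOf_dvd_of_pow_eq_one h
        rw [hk] at h2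
        have h3 := Nat.le_of_dvd (pow_pos (by norm_num) _) h2
        rw [Nat.succ_eq_add_one, pow_succ] at h3
        have h4 : 0 < 2 ^ j := pow_pos (by norm_num) _
        omega
      have hst : x ^ (2 ^ j) * t = t * x ^ (2 ^ j) := by
        rw [← two_comm, ← conj_pow, h1, inv_pow, two_inv hs]
      have h2 := huniq _ t hs hs1 ht ht1 hst
      have h3 : x * t = t * x := by
        rw [← h2, ← pow_succ, ← pow_succ']
      have h4 := two_comm.2 h3
      rw [h1] at h4
      have h5 : x * x = 1 := by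
        nth_rewrite 1 [← h4]
        exact inv_mul_cancel x
      exact huniq x t h5 hx1 ht ht1 h3
    · rintro (rfl | rfl)
      · exact ⟨by rw [mul_one, mul_inv_cancel, inv_one], 0, by rw [orderOf_one, pow_zero]⟩
      · exact ⟨by rw [ht, one_mul], two_order 1 (by rw [pow_one, pow_two, ht])⟩
  have h1 : Nat.card {x : G // t * x * t⁻¹ = x⁻¹ ∧ ∃ k, orderOf x = 2 ^ k} =
      Nat.card ({1, t} : Set G) := Nat.card_congr (Equiv.subtypeEquivRight key)
  rw [h1, Nat.card_coe_set_eq, Set.ncard_pair ht1.symm]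

end Pool.Agent.SHAF
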