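import Mathlib
import Pool.Agent.SHAN.Common
import Pool.Agent.SHAN.Conj
import Pool.Agent.SHAN.InvD
import Pool.Agent.SHAN.Two
import Pool.Agent.SHAN.Arith2
import Pool.Agent.SHAN.Sixty
import Pool.Agent.SHAN.IdB
import Pool.Agent.SHAN.IdD
import Pool.Agent.SHAN.Outer

set_option autoImplicit false

/-!
Simple groups with a dihedral Sylow 2-subgroup of order 8 (module CASED).
-/

namespace Pool.Agent.SHAF

open Pool.Agent.SHA

variable {K : (G : Type) → [Group G] → Prop}

lemma cd_d8 : ∃ z y : DihedralGroup 4, z ≠ 1 ∧ z * z = 1 ∧ (∀ s, s * z = z * s) ∧ y ≠ 1 ∧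
    y * y = 1 ∧ y ≠ z :=
  ⟨DihedralGroup.r 2, DihedralGroup.sr 0, by decide, by decide, by decide, by decide, by decide,
    by decide⟩

theorem case_dih (hK : SHAClosed K) (hE : ¬ K (E 3)) {G : Type} [Group G] [Finite G]
    [IsSimpleGroup G] (hG : K G) (hns : ¬ Group.IsSolvable G)
    (IH : ∀ (H : Type) [Group H] [Finite H], K H → Nat.card H < Nat.card G → FinList H)
    (P : Sylow 2 G) (e : Nonempty (P ≃* DihedralGroup 4)) : False := by
  haveI : Fact (Nat.Prime 2) := ⟨Nat.prime_two⟩
  have hconj := inv_dih hns P e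
  obtain ⟨e⟩ := e
  obtain ⟨z, y, hz1, hz2, hz4, hy1, hy2, hyz⟩ := cd_d8
  -- the central involution of P
  set t : G := ((e.symm z : P) : G) with htdef
  have ht : t * t = 1 := by
    have h1 : e.symm z * e.symm z = 1 := by rw [← map_mul, hz2, map_one]
    exact congrArg Subtype.val h1
  have ht1 : t ≠ 1 := by
    intro h1
    apply hz1
    have h2 : e.symm z = 1 := Subtype.ext h1
    apply e.symm.injective
    rw [h2, map_one]
  have htc : ∀ g ∈ (P : Subgroup G), t * g = g * t := by
    intro g hg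
    have h1 : e.symm z * ⟨g, hg⟩ = ⟨g, hg⟩ * e.symm z := by
      apply e.injective
      rw [map_mul, map_mul, e.apply_symm_apply]
      exact (hz4 _).symm
    exact congrArg Subtype.val h1
  set C := Subgroup.centralizer ({t} : Set G) with hCdef
  have hPC : (P : Subgroup G) ≤ C := by
    intro g hg
    rw [hCdef, Subgroup.mem_centralizer_iff]
    rintro w rfl
    exact htc g hg
  have hcardP : Nat.card P = 8 := by
    rw [Nat.card_congr e.toEquiv, Nat.card_eq_fintype_card, DihedralGroup.card]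
  have htC : t ∈ C := by
    rw [hCdef, Subgroup.mem_centralizer_iff]
    rintro w rfl
    rfl
  have hlt := cent_lt hns t ht1
  have hKC : K C := hK.sub _ _ C.subtype C.subtype_injective hG
  have hFC : FinList C := IH C hKC hlt
  have h16 : ¬ 16 ∣ Nat.card C := by
    intro h
    have h0 : 2 ^ 4 ∣ Nat.card G := h.trans (Subgroup.card_subgroup_dvd_card C)
    have h1 : 2 ^ 4 ∣ Nat.card P := by
      rw [Sylow.card_eq_multiplicity]
      exact pow_dvd_pow 2 ((Nat.prime_two.pow_dvd_iff_le_factorization Nat.card_pos.ne').mp h0)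
    rw [hcardP] at h1
    omega
  have hcen : ∀ g : C, (⟨t, htC⟩ : C) * g = g * ⟨t, htC⟩ := fun g =>
    Subtype.ext (Subgroup.mem_centralizer_iff.mp g.2 t (Set.mem_singleton t))
  have ha : Nat.card C = 8 := by
    rcases central_two hFC ⟨t, htC⟩ (Subtype.ext ht) (fun h => ht1 (congrArg Subtype.val h))
      hcen with h | h
    · exact sol_d8 h ((P : Subgroup G).subgroupOf C)
        ⟨(Subgroup.subgroupOfEquivOfLe hPC).trans e⟩ h16 ⟨t, htC⟩
        (fun h => ht1 (congrArg Subtype.val h)) hcen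
    · exfalso
      have hy' : (⟨((e.symm y : P) : G), hPC (e.symm y).2⟩ : C) * ⟨((e.symm y : P) : G), hPC (e.symm y).2⟩ = 1 := by
        apply Subtype.ext
        have h1 : e.symm y * e.symm y = 1 := by rw [← map_mul, hy2, map_one]
        have h2 : ((e.symm y : P) : G) * ((e.symm y : P) : G) = 1 := congrArg Subtype.val h1
        exact h2
      have hy1' : (⟨((e.symm y : P) : G), hPC (e.symm y).2⟩ : C) ≠ 1 := by
        intro h1
        apply hy1
        have h3 : ((e.symm y : P) : G) = 1 := congrArg Subtype.val h1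
        have h2 : e.symm y = 1 := Subtype.ext h3
        apply e.symm.injective
        rw [h2, map_one]
      have h1 := (binico_facts h).2.2.2.2.2 _ _ hy' hy1' (Subtype.ext ht : (⟨t, htC⟩ : C) * ⟨t, htC⟩ = 1)
        (fun h => ht1 (congrArg Subtype.val h))
      apply hyz
      apply e.symm.injective
      apply Subtype.ext
      have h3 := congrArg (fun x : C => (x : G)) h1
      exact h3
  have hPCeq : (P : Subgroup G) = C :=
    Subgroup.eq_of_le_of_card_ge hPC (by rw [ha]; exact hcardP.ge)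
  have eC : Nonempty (C ≃* DihedralGroup 4) := ⟨(MulEquiv.subgroupCongr hPCeq).symm.trans e⟩
  have hCs : ∀ s : G, s * s = 1 → s ≠ 1 →
      Nonempty (Subgroup.centralizer {s} ≃* DihedralGroup 4) := by
    intro s hs hs1
    obtain ⟨g, hg⟩ := hconj t s ht ht1 hs hs1
    obtain ⟨f⟩ := cd_conj g t s hg
    obtain ⟨eC⟩ := eC
    exact ⟨f.trans eC⟩
  have hcards : ∀ s : G, s * s = 1 → s ≠ 1 → Nat.card (Subgroup.centralizer ({s} : Set G)) = 8 := by
    intro s hs hs1
    obtain ⟨f⟩ := hCs s hs hs1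
    rw [Nat.card_congr f.toEquiv, Nat.card_eq_fintype_card, DihedralGroup.card]
  obtain ⟨n, hn1, hn2⟩ := class_count hconj t ht ht1
  have hND := nd_of hK hE hG hns IH t
  have htot := total_count t ht (disj t ht hND)
  rw [hn1, two_dih P ⟨e⟩ hCs t ht ht1] at htot
  have hnonab : ∃ a b : DihedralGroup 4, a * b ≠ b * a :=
    ⟨DihedralGroup.r 1, DihedralGroup.sr 0, by decide⟩
  have hncP : ¬ IsCyclic P := by
    intro h
    obtain ⟨a, b, hab⟩ := hnonab
    apply hab
    obtain ⟨g, hg⟩ := IsCyclic.exists_generator (α := P)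
    obtain ⟨i, hi⟩ := Subgroup.mem_zpowers_iff.mp (hg (e.symm a))
    obtain ⟨j, hj⟩ := Subgroup.mem_zpowers_iff.mp (hg (e.symm b))
    apply e.symm.injective
    rw [map_mul, map_mul, ← hi, ← hj, ← zpow_add, ← zpow_add, add_comm]
  have hPa : Nat.card P ∣ 8 := by rw [hcardP]
  rw [← hCdef, ha] at hn2
  have hloc : ∀ p ∈ (Nat.card G).primeFactors.erase 2, gcount t p = 0 ∨
      ∃ s, Loc 8 n p s ∧ gcount t p = (p - 1) * s := by
    intro p hp
    rw [Finset.mem_erase] at hp
    have hpp := Nat.prime_of_mem_primeFactors hp.2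
    rcases local_loc hconj t ht ht1 hND P hncP ha hPa hn2 hpp hp.1 with
      h | h | ⟨Q, H, c, d, h, hi, hd, hc, -⟩
    · exact Or.inl h
    · exact Or.inr h
    · exfalso
      have h1 := dvd_cent h hconj hc t ht ht1
      rw [← hCdef, ha] at h1
      have h2 : p ∣ 2 ^ 3 := h1
      exact hp.1 ((Nat.prime_dvd_prime_iff_eq hpp Nat.prime_two).mp (hpp.dvd_of_dvd_pow h2))
  obtain ⟨hL, hsum⟩ := loc_sum _ (gcount t) hloc
  have hn : n = 13 + ∑ p ∈ ((Nat.card G).primeFactors.erase 2).filter (fun p => gcount t p ≠ 0),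
      (p - 1) * (gcount t p / (p - 1)) := by
    rw [← hsum]
    have : ∑ p ∈ (Nat.card G).primeFactors.erase 2, gcount t p =
      ∑ p ∈ (Nat.card G).primeFactors.erase 2,
          Nat.card {x : G // t * x * t⁻¹ = x⁻¹ ∧ p ∣ orderOf x} := rfl
    rw [this]
    omega
  rcases arith_d8 n _ _ hL hn with h13 | h21
  · exact not_simple hns (Or.inr (Or.inr (by rw [← hn2, h13])))
  · have h168 : Nat.card G = 168 := by rw [← hn2, h21]
    obtain ⟨φ, hφ⟩ := exists_line (G := G) 7 (Or.inl rfl) (by rw [h168])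
    have hg := line_inv7 7 (Or.inl rfl) φ hφ (by rw [h168]; decide) (by
      intro s hs hs1
      rw [hcards s hs hs1]
      decide)
    obtain ⟨α, hα1, hα2⟩ := line_outer 7 (Or.inl rfl) φ hφ hg
    refine no_outer hK hE hG (fun z hz => center_triv hns z hz) t ht ht1 hconj (Or.inl ha) ?_ α hα1 hα2
    obtain ⟨a, b, hab⟩ := hnonab
    refine ⟨((e.symm a : P) : G), hPC (e.symm a).2, ((e.symm b : P) : G), hPC (e.symm b).2, ?_⟩
    intro h
    apply hab
    apply e.symm.injective
    rw [map_mul, map_mul]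
    exact Subtype.ext h

end Pool.Agent.SHAF
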