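import Mathlib
import Pool.Agent.SHAN.Arith

set_option autoImplicit false

/-!
Arithmetic, Klein four-groups (module AR1).
-/

namespace Pool.Agent.SHAF

lemma ar1_dvd {a n p s : ℕ} (h : Loc a n p s) : p ∣ n := by
  obtain ⟨N, hN, -⟩ := h.syl
  obtain ⟨c, d, hcd, -⟩ := h.cd
  have h1 : p ∣ s * n := ⟨N, by rw [← hN, mul_comm]⟩
  rcases h.hp.dvd_mul.1 h1 with h2 | h2
  · exact absurd (h2.trans ⟨c * d, hcd.symm⟩) h.ha
  · exact h2

lemma ar1_syl {a n p s : ℕ} (h : Loc a n p s) : (s * n / p) % p = 1 := by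
  obtain ⟨N, hN, h1⟩ := h.syl
  rw [← hN, Nat.mul_div_cancel _ h.hp.pos]
  exact h1

lemma ar1_three {B h m x y z : ℕ} (h1 : B + 3 * h * (m + 2) < m * (m + 1) * (m + 2))
    (h2 : 3 * h ≤ m * (m + 1)) (hx : m ≤ x) (hxy : x < y) (hyz : y < z) :
    B + h * (x + y + z) < x * y * z := by
  obtain ⟨r, hr⟩ := Nat.exists_eq_add_of_le h2
  have h3 : m * (m + 1) ≤ x * y := Nat.mul_le_mul hx (by omega)
  have h4 : m * (m + 1) * z ≤ x * y * z := Nat.mul_le_mul_right _ h3
  have h5 : h * (x + y + z) ≤ h * (3 * z) := Nat.mul_le_mul_left _ (by omega)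
  rw [hr] at h1 h4
  have h6 : r * (m + 2) ≤ r * z := Nat.mul_le_mul_left _ (by omega)
  have h7 : (3 * h + r) * (m + 2) = 3 * h * (m + 2) + r * (m + 2) := by ring
  have h8 : (3 * h + r) * z = h * (3 * z) + r * z := by ring
  omega

lemma ar1_sorted (T : Finset ℕ) (hT : T.card = 3) :
    ∃ x y z, x < y ∧ y < z ∧ T = {x, y, z} := by
  obtain ⟨x, y, z, h1, h2, h3, rfl⟩ := Finset.card_eq_three.1 hT
  rcases lt_or_gt_of_ne h1 with h4 | h4 <;> rcases lt_or_gt_of_ne h2 with h5 | h5 <;>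
    rcases lt_or_gt_of_ne h3 with h6 | h6
  · exact ⟨x, y, z, h4, h6, rfl⟩
  · exact ⟨x, z, y, h5, h6, by ext a; simp only [Finset.mem_insert, Finset.mem_singleton]; tauto⟩
  · omega
  · exact ⟨z, x, y, h5, h4, by ext a; simp only [Finset.mem_insert, Finset.mem_singleton]; tauto⟩
  · exact ⟨y, x, z, h4, h5, by ext a; simp only [Finset.mem_insert, Finset.mem_singleton]; tauto⟩
  · omega
  · exact ⟨y, z, x, h6, h5, by ext a; simp only [Finset.mem_insert, Finset.mem_singleton]; tauto⟩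
  · exact ⟨z, y, x, h6, h4, by ext a; simp only [Finset.mem_insert, Finset.mem_singleton]; tauto⟩

lemma ar1_big {B h m : ℕ} (h1 : B + 3 * h * (m + 2) < m * (m + 1) * (m + 2))
    (h2 : 3 * h ≤ m * (m + 1)) (hm2 : 2 ≤ m) (T : Finset ℕ) (hT : 3 ≤ T.card) (hm : ∀ p ∈ T, m ≤ p) :
    B + h * ∑ p ∈ T, p < ∏ p ∈ T, p := by
  obtain ⟨T0, hT0, hc⟩ := Finset.exists_subset_card_eq hT
  have key : ∀ U : Finset ℕ, (∀ p ∈ U, m ≤ p) → Disjoint T0 U →
      B + h * ∑ p ∈ T0 ∪ U, p < ∏ p ∈ T0 ∪ U, p := by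
    intro U
    induction U using Finset.induction_on with
    | empty =>
      intro _ _
      obtain ⟨x, y, z, hxy, hyz, rfl⟩ := ar1_sorted T0 hc
      rw [Finset.union_empty, Finset.sum_insert (by simp; omega), Finset.sum_insert (by simp; omega),
        Finset.sum_singleton, Finset.prod_insert (by simp; omega), Finset.prod_insert (by simp; omega),
        Finset.prod_singleton, ← add_assoc, ← mul_assoc]
      exact ar1_three h1 h2 (hm x (hT0 (by simp))) hxy hyz
    | insert q U hq ih =>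
      intro hU hd
      rw [Finset.disjoint_insert_right] at hd
      have ih' := ih (fun p hp => hU p (Finset.mem_insert_of_mem hp)) hd.2
      have hqm : m ≤ q := hU q (Finset.mem_insert_self _ _)
      have hqn : q ∉ T0 ∪ U := by
        rw [Finset.mem_union]
        rintro (h' | h')
        · exact hd.1 h'
        · exact hq h'
      rw [Finset.union_insert, Finset.sum_insert hqn, Finset.prod_insert hqn]
      have hS : 2 ≤ ∑ p ∈ T0 ∪ U, p := by
        obtain ⟨x, hx⟩ : T0.Nonempty := by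
          rw [← Finset.card_pos]
          omega
        have h3 : x ≤ ∑ p ∈ T0 ∪ U, p := Finset.single_le_sum (f := fun p => p)
          (fun _ _ => Nat.zero_le _) (Finset.mem_union_left U hx)
        have h4 := hm x (hT0 hx)
        omega
      generalize ∑ p ∈ T0 ∪ U, p = W at *
      generalize ∏ p ∈ T0 ∪ U, p = P at *
      have h5 : q * (B + h * W + 1) ≤ q * P := Nat.mul_le_mul_left _ ih'
      have h6 : h * 2 ≤ h * W := Nat.mul_le_mul_left _ hS
      obtain ⟨r, rfl⟩ : ∃ r, q = r + 2 := ⟨q - 2, by omega⟩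
      have h7 : (r + 2) * (B + h * W + 1) = (r + 1) * (B + h * W) + (B + h * W) + (r + 2) := by ring
      have h8 : h * ((r + 2) + W) = h * (r + 2) + h * W := by ring
      have h9 : (r + 1) * (h * 2) ≤ (r + 1) * (B + h * W) := Nat.mul_le_mul_left _ (by omega)
      have h10 : (r + 1) * (h * 2) = h * (r + 2) + h * r := by ring
      omega
  have h3 := key (T \ T0) (fun p hp => hm p (Finset.mem_sdiff.1 hp).1) Finset.disjoint_sdiff
  rwa [Finset.union_sdiff_of_subset hT0] at h3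

lemma ar1_prod {a n : ℕ} {T : Finset ℕ} {s : ℕ → ℕ} (h : ∀ p ∈ T, Loc a n p (s p)) :
    ∏ p ∈ T, p ∣ n :=
  Finset.prod_primes_dvd n (fun p hp => (h p hp).hp.prime) (fun p hp => ar1_dvd (h p hp))

lemma ar1_not_big {a B k m n : ℕ} (h1 : B + 3 * k * (m + 2) < m * (m + 1) * (m + 2))
    (h2 : 3 * k ≤ m * (m + 1)) (hm2 : 2 ≤ m) {T : Finset ℕ} {s : ℕ → ℕ} (hB : 0 < B)
    (h : ∀ p ∈ T, Loc a n p (s p)) (hs : ∀ p ∈ T, s p ≤ k) (hm : ∀ p ∈ T, m ≤ p)
    (hn : n = B + ∑ p ∈ T, (p - 1) * s p) : T.card ≤ 2 := by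
  by_contra hc
  have h3 := ar1_big h1 h2 hm2 T (by omega) hm
  have h4 := Nat.le_of_dvd (by omega) (ar1_prod h)
  have h5 : ∑ p ∈ T, (p - 1) * s p ≤ k * ∑ p ∈ T, p := by
    rw [Finset.mul_sum]
    apply Finset.sum_le_sum
    intro p hp
    rw [mul_comm]
    exact Nat.mul_le_mul (hs p hp) (Nat.sub_le _ _)
  omega

lemma ar1_s4 {n p s : ℕ} (h : Loc 4 n p s) : s = 2 := by
  obtain ⟨c, d, hcd, ⟨f, rfl⟩, -, -⟩ := h.cd
  obtain ⟨e, rfl⟩ := h.even
  have h1 : e * (c * f) = 1 := by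
    have : 2 * e * (c * (2 * f)) = 4 * (e * (c * f)) := by ring
    omega
  have h2 := Nat.eq_one_of_mul_eq_one_right h1
  omega

lemma ar1_s12 {n p s : ℕ} (h : Loc 12 n p s) : s = 2 ∨ s = 6 := by
  obtain ⟨c, d, hcd, ⟨f, rfl⟩, -, -⟩ := h.cd
  obtain ⟨e, rfl⟩ := h.even
  have h1 : e * (c * f) = 3 := by
    have : 2 * e * (c * (2 * f)) = 4 * (e * (c * f)) := by ring
    omega
  have h2 : e ∣ 3 := ⟨_, h1.symm⟩
  rcases (Nat.dvd_prime Nat.prime_three).1 h2 with h3 | h3 <;> omega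

lemma ar1_p3 {a n p s : ℕ} (h : Loc a n p s) : 3 ≤ p := by
  have h1 := h.hp.two_le
  have h2 := h.hp2
  omega

lemma ar1_p5 {n p s : ℕ} (h : Loc 12 n p s) : 5 ≤ p := by
  have h1 := ar1_p3 h
  have h2 := h.ha
  by_contra h3
  have h4 : p = 3 ∨ p = 4 := by omega
  rcases h4 with rfl | rfl <;> exact h2 (by decide)

lemma ar1_pair4 {n p q s t : ℕ} (hpq : p < q) (hp : Loc 4 n p s) (hq : Loc 4 n q t)
    (hn : n = 3 + ((p - 1) * s + (q - 1) * t)) : n = 15 := by
  have e1 := ar1_s4 hp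
  have e2 := ar1_s4 hq
  subst e1 e2
  have h3 := ar1_p3 hp
  obtain ⟨u, rfl⟩ : ∃ u, p = u + 1 := ⟨p - 1, by omega⟩
  obtain ⟨v, rfl⟩ : ∃ v, q = v + 1 := ⟨q - 1, by omega⟩
  simp only [Nat.add_sub_cancel] at hn
  have h4 : v + 1 ∣ 2 * u + 1 := by
    have h5 := ar1_dvd hq
    rw [hn] at h5
    have h6 : 3 + (u * 2 + v * 2) = (2 * u + 1) + 2 * (v + 1) := by ring
    rw [h6] at h5
    exact (Nat.dvd_add_left (Dvd.intro_left 2 rfl)).1 h5
  obtain ⟨w, hw⟩ := h4
  have h7 : w = 1 := by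
    rcases Nat.lt_or_ge w 2 with h8 | h8
    · interval_cases w <;> omega
    · have h9 : (v + 1) * 2 ≤ (v + 1) * w := Nat.mul_le_mul_left _ h8
      omega
  subst h7
  have h8 : v = 2 * u := by omega
  subst h8
  have h9 : u + 1 ∣ 3 := by
    have h5 := ar1_dvd hp
    rw [hn] at h5
    have h6 : 3 + (u * 2 + 2 * u * 2) + 3 = 6 * (u + 1) := by ring
    have h10 : u + 1 ∣ 3 + (u * 2 + 2 * u * 2) + 3 := by
      rw [h6]
      exact Dvd.intro_left 6 rfl
    exact (Nat.dvd_add_right h5).1 h10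
  have h10 := Nat.le_of_dvd (by omega) h9
  have h11 : u = 2 := by omega
  subst h11
  omega

def ar1_ok (p q s t : ℕ) : Bool :=
  !(decide (4 < p) && decide (p < q) && decide ((31 + ((p - 1) * s + (q - 1) * t)) % p = 0) &&
    decide ((31 + ((p - 1) * s + (q - 1) * t)) % q = 0) &&
    decide ((s * (31 + ((p - 1) * s + (q - 1) * t)) / p) % p = 1) &&
    decide ((t * (31 + ((p - 1) * s + (q - 1) * t)) / q) % q = 1)) ||
  decide (31 + ((p - 1) * s + (q - 1) * t) = 91)

lemma ar1_check : ∀ p ∈ List.range 13, ∀ q ∈ List.range 98, ∀ s ∈ [2, 6], ∀ t ∈ [2, 6],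
    ar1_ok p q s t = true := by
  decide +kernel

lemma ar1_pair12 {n p q s t : ℕ} (hpq : p < q) (hp : Loc 12 n p s) (hq : Loc 12 n q t)
    (hn : n = 31 + ((p - 1) * s + (q - 1) * t)) : n = 91 := by
  have h5 := ar1_p5 hp
  have dp := ar1_dvd hp
  have dq := ar1_dvd hq
  have hs := ar1_s12 hp
  have ht := ar1_s12 hq
  have hs6 : s ≤ 6 := by omega
  have ht6 : t ≤ 6 := by omega
  have b1 : (p - 1) * s ≤ (p - 1) * 6 := Nat.mul_le_mul_left _ hs6
  have b2 : (q - 1) * t ≤ (q - 1) * 6 := Nat.mul_le_mul_left _ ht6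
  have hcop : Nat.Coprime p q := (Nat.coprime_primes hp.hp hq.hp).2 hpq.ne
  have hle := Nat.le_of_dvd (by omega) (Nat.Coprime.mul_dvd_of_dvd_of_dvd hcop dp dq)
  have hp13 : p < 13 := by
    by_contra h6
    have h7 : 13 * q ≤ p * q := Nat.mul_le_mul_right _ (by omega)
    omega
  have hq98 : q < 98 := by
    have h8 : q ∣ 31 + (p - 1) * s - t := by
      have h9 : n = q * t + (31 + (p - 1) * s - t) := by
        obtain ⟨v, rfl⟩ : ∃ v, q = v + 1 := ⟨q - 1, by omega⟩
        have h10 : (v + 1) * t = v * t + t := by ring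
        simp only [Nat.add_sub_cancel] at hn
        omega
      rw [h9] at dq
      exact (Nat.dvd_add_right (Dvd.intro _ rfl)).1 dq
    have h9 := Nat.le_of_dvd (by omega) h8
    have h10 : (p - 1) * 6 ≤ 11 * 6 := Nat.mul_le_mul_right _ (by omega)
    omega
  have hsl : s ∈ [2, 6] := by
    rcases hs with rfl | rfl <;> decide
  have htl : t ∈ [2, 6] := by
    rcases ht with rfl | rfl <;> decide
  have key := ar1_check p (List.mem_range.2 hp13) q (List.mem_range.2 hq98) s hsl t htl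
  have k1 := ar1_syl hp
  have k2 := ar1_syl hq
  rw [ar1_ok, ← hn, decide_eq_true (show 4 < p by omega), decide_eq_true hpq,
    decide_eq_true (Nat.mod_eq_zero_of_dvd dp), decide_eq_true (Nat.mod_eq_zero_of_dvd dq),
    decide_eq_true k1, decide_eq_true k2] at key
  simpa using key

theorem arith_k4 (n : ℕ) (T : Finset ℕ) (s : ℕ → ℕ) (h : ∀ p ∈ T, Loc 4 n p (s p))
    (hn : n = 3 + ∑ p ∈ T, (p - 1) * s p) : n = 3 ∨ n = 15 := by
  have hc := ar1_not_big (a := 4) (B := 3) (k := 2) (m := 3) (by norm_num) (by norm_num) (by norm_num)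
    (by norm_num) h (fun p hp => (ar1_s4 (h p hp)).le) (fun p hp => ar1_p3 (h p hp)) hn
  have hc' : T.card = 0 ∨ T.card = 1 ∨ T.card = 2 := by omega
  rcases hc' with h0 | h0 | h0
  · rw [Finset.card_eq_zero] at h0
    subst h0
    left
    simpa using hn
  · obtain ⟨p, rfl⟩ := Finset.card_eq_one.1 h0
    exfalso
    have hp := h p (Finset.mem_singleton_self _)
    rw [Finset.sum_singleton, ar1_s4 hp] at hn
    have h1 := ar1_dvd hp
    have h2 := ar1_p3 hp
    obtain ⟨v, rfl⟩ : ∃ v, p = v + 1 := ⟨p - 1, by omega⟩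
    simp only [Nat.add_sub_cancel] at hn
    have h3 : n = 2 * (v + 1) + 1 := by omega
    rw [h3] at h1
    have h4 := Nat.le_of_dvd (by omega) ((Nat.dvd_add_right (Dvd.intro_left 2 rfl)).1 h1)
    omega
  · right
    obtain ⟨p, q, hpq, rfl⟩ := Finset.card_eq_two.1 h0
    have hp := h p (by simp)
    have hq := h q (by simp)
    rw [Finset.sum_pair hpq] at hn
    rcases lt_or_gt_of_ne hpq with h1 | h1
    · exact ar1_pair4 h1 hp hq hn
    · exact ar1_pair4 h1 hq hp (by rw [hn, add_comm ((p - 1) * s p)])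

theorem arith_k12 (n : ℕ) (T : Finset ℕ) (s : ℕ → ℕ) (h : ∀ p ∈ T, Loc 12 n p (s p))
    (hn : n = 31 + ∑ p ∈ T, (p - 1) * s p) : n = 31 ∨ n = 55 ∨ n = 91 := by
  have hc := ar1_not_big (a := 12) (B := 31) (k := 6) (m := 5) (by norm_num) (by norm_num) (by norm_num)
    (by norm_num) h (fun p hp => by rcases ar1_s12 (h p hp) with h1 | h1 <;> omega)
    (fun p hp => ar1_p5 (h p hp)) hn
  have hc' : T.card = 0 ∨ T.card = 1 ∨ T.card = 2 := by omega
  rcases hc' with h0 | h0 | h0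
  · rw [Finset.card_eq_zero] at h0
    subst h0
    left
    simpa using hn
  · right
    left
    obtain ⟨p, rfl⟩ := Finset.card_eq_one.1 h0
    have hp := h p (Finset.mem_singleton_self _)
    rw [Finset.sum_singleton] at hn
    have h1 := ar1_dvd hp
    have h2 := ar1_p5 hp
    have k1 := ar1_syl hp
    obtain ⟨v, rfl⟩ : ∃ v, p = v + 1 := ⟨p - 1, by omega⟩
    simp only [Nat.add_sub_cancel] at hn
    rcases ar1_s12 hp with h3 | h3
    · exfalso
      rw [h3] at hn k1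
      have h4 : n = 2 * (v + 1) + 29 := by omega
      rw [h4] at h1
      have h5 := (Nat.dvd_add_right (Dvd.intro_left 2 rfl)).1 h1
      rcases (Nat.dvd_prime (by norm_num)).1 h5 with h6 | h6
      · omega
      · have h7 : v = 28 := by omega
        subst h7
        subst hn
        revert k1
        decide
    · rw [h3] at hn
      have h4 : n = 6 * (v + 1) + 25 := by omega
      rw [h4] at h1
      have h5 := (Nat.dvd_add_right (Dvd.intro_left 6 rfl)).1 h1
      have h6 : v + 1 ∣ 5 ^ 2 := h5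
      have h7 := hp.hp.dvd_of_dvd_pow h6
      rcases (Nat.dvd_prime (by norm_num)).1 h7 with h8 | h8
      · omega
      · omega
  · right
    right
    obtain ⟨p, q, hpq, rfl⟩ := Finset.card_eq_two.1 h0
    have hp := h p (by simp)
    have hq := h q (by simp)
    rw [Finset.sum_pair hpq] at hn
    rcases lt_or_gt_of_ne hpq with h1 | h1
    · exact ar1_pair12 h1 hp hq hn
    · exact ar1_pair12 h1 hq hp (by rw [hn, add_comm ((p - 1) * s p)])

end Pool.Agent.SHAF
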