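import Mathlib

set_option autoImplicit false

/-!
Burnside's transfer theorem at the prime 3 (module BURN).
-/

namespace Pool.Agent.SHAF

/-- an automorphism of order dividing 2 of a cyclic 3-group is trivial or the inversion -/
lemma burn_aut {C : Type} [Group C] [Finite C] [IsCyclic C] {k : ℕ} (hk : Nat.card C = 3 ^ k)
    (α : MulAut C) (h2 : α * α = 1) (h1 : α ≠ 1) (x : C) : α x = x⁻¹ := by
  obtain ⟨m, hm⟩ := MonoidHom.map_cyclic (α : C →* C)
  have hm' : ∀ g : C, α g = g ^ m := hm
  obtain ⟨c, hc⟩ := IsCyclic.exists_generator (α := C)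
  have hord : (orderOf c : ℤ) = 3 ^ k := by
    rw [orderOf_eq_card_of_forall_mem_zpowers hc, hk]
    norm_num
  have hmm : (3 : ℤ) ^ k ∣ (m - 1) * (m + 1) := by
    rw [← hord, orderOf_dvd_iff_zpow_eq_one]
    have h3 : (c ^ m) ^ m = c := by
      have h4 := DFunLike.congr_fun h2 c
      rw [MulAut.mul_apply, MulAut.one_apply, hm' c, hm' _] at h4
      exact h4
    have h5 : (m - 1) * (m + 1) = m * m - 1 := by ring
    rw [h5, zpow_sub, zpow_mul, h3, zpow_one, mul_inv_cancel]
  by_cases h3 : (3 : ℤ) ∣ m - 1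
  · exfalso
    apply h1
    have h4 : IsCoprime ((3 : ℤ) ^ k) (m + 1) := by
      apply IsCoprime.pow_left
      rw [Prime.coprime_iff_not_dvd Int.prime_three]
      intro h5
      have h6 : (3 : ℤ) ∣ (m + 1) - (m - 1) := dvd_sub h5 h3
      have h7 : (m + 1) - (m - 1) = 2 := by ring
      rw [h7] at h6
      norm_num at h6
    have h5 : (3 : ℤ) ^ k ∣ m - 1 := h4.dvd_of_dvd_mul_right hmm
    refine MulEquiv.ext fun g => ?_
    rw [MulAut.one_apply, hm' g]
    have h6 : g ^ (m - 1) = 1 := by
      rw [← orderOf_dvd_iff_zpow_eq_one]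
      refine dvd_trans ?_ h5
      have : (orderOf g : ℤ) ∣ (Nat.card C : ℤ) := by exact_mod_cast orderOf_dvd_natCard g
      rw [hk] at this
      exact_mod_cast this
    rw [zpow_sub, zpow_one, mul_inv_eq_one] at h6
    exact h6
  · have h4 : IsCoprime ((3 : ℤ) ^ k) (m - 1) := by
      apply IsCoprime.pow_left
      rw [Prime.coprime_iff_not_dvd Int.prime_three]
      exact h3
    have h5 : (3 : ℤ) ^ k ∣ m + 1 := h4.dvd_of_dvd_mul_left hmm
    rw [hm' x]
    have h6 : x ^ (m + 1) = 1 := by
      rw [← orderOf_dvd_iff_zpow_eq_one]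
      refine dvd_trans ?_ h5
      have : (orderOf x : ℤ) ∣ (Nat.card C : ℤ) := by exact_mod_cast orderOf_dvd_natCard x
      rw [hk] at this
      exact_mod_cast this
    rw [zpow_add, zpow_one, mul_eq_one_iff_eq_inv] at h6
    exact h6

/-- a simple nonsoluble group of order divisible by 3 with cyclic Sylow 3-subgroups in which the
2-elements have order at most 2: an involution inverts an element of order 3 -/
theorem burn3 {G : Type} [Group G] [Finite G] [IsSimpleGroup G] (hns : ¬ Group.IsSolvable G)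
    (P : Sylow 3 G) (hP : IsCyclic P) (h3 : 3 ∣ Nat.card G)
    (h2 : ∀ x : G, (∃ k, orderOf x = 2 ^ k) → x * x = 1) :
    ∃ t y : G, t * t = 1 ∧ t ≠ 1 ∧ orderOf y = 3 ∧ t * y * t⁻¹ = y⁻¹ := by
  have : Fact (Nat.Prime 3) := ⟨Nat.prime_three⟩
  have := hP
  obtain ⟨k, hk⟩ := IsPGroup.iff_card.mp P.2
  have hPab : ∀ x ∈ P, ∀ y ∈ P, x * y = y * x := by
    intro x hx y hy
    let : CommGroup P := IsCyclic.commGroup
    have : (⟨x, hx⟩ : P) * ⟨y, hy⟩ = ⟨y, hy⟩ * ⟨x, hx⟩ := mul_comm _ _
    exact congrArg Subtype.val this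
  -- 3 divides the order of P
  have h3P : 3 ∣ Nat.card P := by
    by_contra h
    have h4 := P.card_mul_index
    have h5 : 3 ∣ Nat.card P * P.index := by rw [h4]; exact h3
    rcases (Nat.Prime.dvd_mul Nat.prime_three).mp h5 with h6 | h6
    · exact h h6
    · exact P.not_dvd_index h6
  -- N(P) does not centralise P
  have hN : ¬ (Subgroup.normalizer ((P : Subgroup G) : Set G)) ≤
      Subgroup.centralizer ((P : Subgroup G) : Set G) := by
    intro hle
    have hMo : ¬ 3 ∣ Nat.card (MonoidHom.transferSylow P hle).ker :=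
      MonoidHom.not_dvd_card_ker_transferSylow P hle
    rcases IsSimpleGroup.eq_bot_or_eq_top_of_normal (MonoidHom.transferSylow P hle).ker
      inferInstance with h | h
    · apply hns
      let : CommGroup P := IsCyclic.commGroup
      have : Group.IsSolvable P := inferInstance
      exact Group.isSolvable_of_isSolvable_injective ((MonoidHom.ker_eq_bot_iff _).mp h)
    · apply hMo
      rw [h, Subgroup.card_top]
      exact h3
  rw [SetLike.not_le_iff_exists] at hN
  obtain ⟨g, hg, hgc⟩ := hN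
  let κ := (P : Subgroup G).normalizerMonoidHom
  set g' : Subgroup.normalizer ((P : Subgroup G) : Set G) := ⟨g, hg⟩ with hg'
  have hκ1 : κ g' ≠ 1 := by
    intro h
    apply hgc
    have h8' : g' ∈ κ.ker := h
    rw [Subgroup.normalizerMonoidHom_ker] at h8'
    exact h8'
  -- the index of P in the normaliser is prime to 3
  have hPn : ((P : Subgroup G).subgroupOf
      (Subgroup.normalizer ((P : Subgroup G) : Set G))).Normal := inferInstance
  set m := ((P : Subgroup G).subgroupOf
      (Subgroup.normalizer ((P : Subgroup G) : Set G))).index with hm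
  have hm3 : ¬ 3 ∣ m := by
    intro h2
    apply P.not_dvd_index
    refine h2.trans ?_
    exact Subgroup.relIndex_dvd_index_of_le Subgroup.le_normalizer
  have hgm : g' ^ m ∈ ((P : Subgroup G).subgroupOf
      (Subgroup.normalizer ((P : Subgroup G) : Set G))) := Subgroup.pow_index_mem _ g'
  have hκm : (κ g') ^ m = 1 := by
    rw [← map_pow]
    have h5 : g' ^ m ∈ κ.ker := by
      rw [Subgroup.normalizerMonoidHom_ker, Subgroup.mem_subgroupOf,
        Subgroup.mem_centralizer_iff]
      intro y hy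
      exact hPab y hy _ hgm
    exact h5
  have hκo : orderOf (κ g') ∣ 2 := by
    have h5 : orderOf (κ g') ∣ Nat.card (MulAut P) := orderOf_dvd_natCard _
    have h6 : orderOf (κ g') ∣ m := orderOf_dvd_of_pow_eq_one hκm
    have hk0 : 0 < k := by
      rcases Nat.eq_zero_or_pos k with h | h
      · rw [hk, h] at h3P
        norm_num at h3P
      · exact h
    rw [IsCyclic.card_mulAut, hk, Nat.totient_prime_pow Nat.prime_three hk0] at h5
    have h7 : Nat.Coprime (orderOf (κ g')) (3 ^ (k - 1)) := by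
      apply Nat.Coprime.pow_right
      apply Nat.Coprime.symm
      rw [Nat.Prime.coprime_iff_not_dvd Nat.prime_three]
      intro h8
      exact hm3 (h8.trans h6)
    exact h7.dvd_of_dvd_mul_left h5
  have hκ2 : κ g' * κ g' = 1 := by
    rw [← sq]
    exact orderOf_dvd_iff_pow_eq_one.mp hκo
  -- the 2-part of g
  obtain ⟨e, o, ho, hgo⟩ := Nat.exists_eq_two_pow_mul_odd (n := orderOf g) (orderOf_pos g).ne'
  have ht2 : g ^ o * g ^ o = 1 := by
    apply h2
    refine ⟨e, ?_⟩
    rw [orderOf_pow, hgo]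
    have : Nat.gcd (2 ^ e * o) o = o := Nat.gcd_eq_right (Dvd.intro_left _ rfl)
    rw [this]
    exact Nat.mul_div_cancel _ ho.pos
  have hκt : κ (g' ^ o) = κ g' := by
    rw [map_pow]
    obtain ⟨r, hr⟩ := ho
    rw [hr, pow_succ, pow_mul, sq, hκ2, one_pow, one_mul]
  obtain ⟨y, hy⟩ := exists_prime_orderOf_dvd_card' (G := P) 3 h3P
  refine ⟨g ^ o, y.1, ht2, ?_, ?_, ?_⟩
  · intro h
    apply hκ1
    have : g' ^ o = 1 := Subtype.ext h
    rw [← hκt, this, map_one]
  · exact (Subgroup.orderOf_coe y).trans hy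
  · have h7 : (κ (g' ^ o)) y = y⁻¹ := by
      rw [hκt]
      exact burn_aut hk _ hκ2 hκ1 y
    have h8 := congrArg Subtype.val h7
    exact h8

end Pool.Agent.SHAF
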