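import Mathlib
import Pool.Agent.SHAN.IdA

set_option autoImplicit false

/-!
Simple groups of order 1092: an involution (module IDC).
-/

namespace Pool.Agent.SHAF

theorem idc_prime : Nat.Prime 13 := by norm_num

local instance idc_fact : Fact (Nat.Prime 13) := ⟨idc_prime⟩

theorem idc_tau {G : Type} [Group G] {φ : G →* Equiv.Perm (Option (ZMod 13))} (h : Line 13 φ) (i : ZMod 13) :
    ∃ v : G, φ v none = none ∧ ∀ x, φ v (some x) = some (x + i) := by
  obtain ⟨u, hu, hu'⟩ := h.tau
  have key : ∀ k : ℕ, φ (u ^ k) none = none ∧ ∀ x, φ (u ^ k) (some x) = some (x + (k : ZMod 13)) := by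
    intro k
    induction k with
    | zero =>
      refine ⟨?_, fun x => ?_⟩
      · rw [pow_zero, map_one, Equiv.Perm.one_apply]
      · rw [pow_zero, map_one, Equiv.Perm.one_apply, Nat.cast_zero, add_zero]
    | succ k ih =>
      rw [pow_succ', map_mul]
      refine ⟨?_, fun x => ?_⟩
      · rw [Equiv.Perm.mul_apply, ih.1, hu]
      · rw [Equiv.Perm.mul_apply, ih.2, hu', Nat.cast_succ, add_assoc]
  refine ⟨u ^ i.val, (key _).1, fun x => ?_⟩
  rw [(key _).2, ZMod.natCast_zmod_val]

theorem idc_inv {G : Type} [Group G] {φ : G →* Equiv.Perm (Option (ZMod 13))} {g : G}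
    {x y : Option (ZMod 13)} (h : φ g x = y) : φ g⁻¹ y = x := by
  rw [map_inv, ← h]
  exact (φ g).symm_apply_apply x

theorem idc_two {G : Type} [Group G] {φ : G →* Equiv.Perm (Option (ZMod 13))} (h : Line 13 φ)
    {x y : Option (ZMod 13)} (hxy : x ≠ y) : ∃ g : G, φ g none = x ∧ φ g (some 0) = y := by
  obtain ⟨g₁, hg₁⟩ := h.trans x
  have h1 : φ g₁⁻¹ y ≠ none := by
    intro h2
    apply hxy
    have h3 := idc_inv h2
    rw [inv_inv] at h3
    rw [← hg₁, h3]
  obtain ⟨i, hi⟩ := Option.ne_none_iff_exists'.1 h1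
  obtain ⟨v, hv, hv'⟩ := idc_tau h i
  refine ⟨g₁ * v, ?_, ?_⟩
  · rw [map_mul, Equiv.Perm.mul_apply, hv, hg₁]
  · rw [map_mul, Equiv.Perm.mul_apply, hv', zero_add]
    have h3 := idc_inv hi
    rwa [inv_inv] at h3

theorem idc_three {G : Type} [Group G] {φ : G →* Equiv.Perm (Option (ZMod 13))} (h : Line 13 φ) {w : G}
    {a b c : Option (ZMod 13)} (hab : a ≠ b) (hac : a ≠ c) (hbc : b ≠ c)
    (ha : φ w a = a) (hb : φ w b = b) (hc : φ w c = c) : w = 1 := by
  obtain ⟨g, h1, h2⟩ := idc_two h hab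
  have key : ∀ x y, φ g x = y → φ w y = y → φ (g⁻¹ * w * g) x = x := by
    intro x y hx hy
    rw [map_mul, map_mul, Equiv.Perm.mul_apply, Equiv.Perm.mul_apply, hx, hy, idc_inv hx]
  obtain ⟨l, hl, hl'⟩ := h.stab (g⁻¹ * w * g) (key _ _ h1 ha) (key _ _ h2 hb)
  have h3 : φ g (φ g⁻¹ c) = c := by
    have h4 := idc_inv (φ := φ) (g := g⁻¹) (x := c) rfl
    rwa [inv_inv] at h4
  have h4 : φ g⁻¹ c ≠ none := by
    intro h5
    rw [h5, h1] at h3
    exact hac h3
  obtain ⟨j, hj⟩ := Option.ne_none_iff_exists'.1 h4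
  have hj0 : j ≠ 0 := by
    rintro rfl
    rw [hj, h2] at h3
    exact hbc h3
  rw [hj] at h3
  have h5 := key _ _ h3 hc
  rw [hl', Option.some_inj] at h5
  have hl1 : l = 1 := by
    exact mul_right_cancel₀ hj0 (h5.trans (one_mul j).symm)
  have h6 : φ (g⁻¹ * w * g) = 1 := by
    ext1 x
    rw [Equiv.Perm.one_apply]
    rcases x with _ | x
    · exact key _ _ h1 ha
    · rw [hl', hl1, one_mul]
  have h7 : g⁻¹ * w * g = 1 := h.inj (h6.trans (map_one φ).symm)
  have h8 : w = g * (g⁻¹ * w * g) * g⁻¹ := by group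
  rw [h8, h7]
  group

/-- the map `x ↦ 1/x` on squares, `x ↦ b/x` on nonsquares -/
def idcG (b : ZMod 13) : Option (ZMod 13) → Option (ZMod 13)
  | none => some 0
  | some x => if x = 0 then none else if x ^ 6 = 1 then some (x ^ 11) else some (b * x ^ 11)

/-- translation -/
def idcU : Option (ZMod 13) → Option (ZMod 13)
  | none => none
  | some x => some (x + 1)

/-- multiplication by `4` -/
def idcH : Option (ZMod 13) → Option (ZMod 13)
  | none => none
  | some x => some (4 * x)

theorem idc_bad {G : Type} [Group G] {φ : G →* Equiv.Perm (Option (ZMod 13))} (h : Line 13 φ) {g : G} {b : ZMod 13}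
    (hb : b ^ 6 = 1) (hg : ∀ x, φ g x = idcG b x) : b = 1 := by
  obtain ⟨u, hu, hu'⟩ := h.tau
  have hu2 : ∀ x, φ u x = idcU x := by
    intro x
    rcases x with _ | x
    · exact hu
    · exact hu' x
  obtain ⟨k, hk, hk'⟩ := (h.sq 4 (by decide)).1 ⟨2, by decide⟩
  have hk2 : ∀ x, φ k x = idcH x := by
    intro x
    rcases x with _ | x
    · exact hk
    · exact hk' x
  have h1 : b = 1 ∨ b = 4 ∨ b = 10 ∨ b = 12 ∨ b = 3 ∨ b = 9 := by
    have h0 : ∀ b : ZMod 13, b ^ 6 = 1 → b = 1 ∨ b = 4 ∨ b = 10 ∨ b = 12 ∨ b = 3 ∨ b = 9 := by decide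
    exact h0 b hb
  have fin : ∀ (w : G) (a b c d : Option (ZMod 13)), a ≠ b → a ≠ c → b ≠ c → φ w a = a → φ w b = b →
      φ w c = c → φ w d ≠ d → False := by
    intro w a b c d hab hac hbc ha hb hc hd
    rw [idc_three h hab hac hbc ha hb hc, map_one] at hd
    exact hd rfl
  rcases h1 with h1 | rfl | rfl | rfl | rfl | rfl
  · exact h1
  · refine (fin g (some 1) (some 2) (some 11) none (by decide) (by decide) (by decide) ?_ ?_ ?_ ?_).elim
    all_goals rw [hg]; decide
  · refine (fin g (some 1) (some 6) (some 7) none (by decide) (by decide) (by decide) ?_ ?_ ?_ ?_).elim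
    all_goals rw [hg]; decide
  · refine (fin g (some 1) (some 5) (some 8) none (by decide) (by decide) (by decide) ?_ ?_ ?_ ?_).elim
    all_goals rw [hg]; decide
  · refine (fin (g * (u * (u * (k * k)))) (some 2) (some 6) (some 9) none (by decide) (by decide) (by decide)
      ?_ ?_ ?_ ?_).elim
    all_goals
      simp only [map_mul, Equiv.Perm.mul_apply, hg, hu2, hk2]
      decide
  · refine (fin (g * (u * (k * (k * k)))) (some 4) (some 6) (some 8) none (by decide) (by decide) (by decide)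
      ?_ ?_ ?_ ?_).elim
    all_goals
      simp only [map_mul, Equiv.Perm.mul_apply, hg, hu2, hk2]
      decide

/-- there is an involution that interchanges `∞` and `0` -/
theorem idc_invol {G : Type} [Group G] {φ : G →* Equiv.Perm (Option (ZMod 13))} (h : Line 13 φ) :
    ∃ t : G, t * t = 1 ∧ φ t none = some 0 ∧ φ t (some 0) = none := by
  obtain ⟨s, hs, hs'⟩ := (h.sq 12 (by decide)).1 ⟨5, by decide⟩
  have hss : s * s = 1 := by
    apply h.inj
    rw [map_one, map_mul]
    ext1 x
    rw [Equiv.Perm.mul_apply, Equiv.Perm.one_apply]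
    rcases x with _ | x
    · rw [hs, hs]
    · rw [hs', hs', ← mul_assoc, show (12 : ZMod 13) * 12 = 1 by decide, one_mul]
  obtain ⟨g, h1, h2⟩ := idc_two h (x := some 1) (y := some 12) (by decide)
  have h3 : φ s (some 1) = some 12 := by rw [hs']; decide
  have h4 : φ s (some 12) = some 1 := by rw [hs']; decide
  refine ⟨g⁻¹ * s * g, ?_, ?_, ?_⟩
  · rw [show g⁻¹ * s * g * (g⁻¹ * s * g) = g⁻¹ * (s * s) * g by group, hss]
    group
  · rw [map_mul, map_mul, Equiv.Perm.mul_apply, Equiv.Perm.mul_apply, h1, h3, idc_inv h2]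
  · rw [map_mul, map_mul, Equiv.Perm.mul_apply, Equiv.Perm.mul_apply, h2, h4, idc_inv h1]

/-- commuting elements `t`, `k` in a group of order 12 -/
theorem idc_comm {C : Type} [Group C] [Finite C] (hC : Nat.card C = 12) {t k : C} (htk : t * k = k * t)
    (hk : orderOf k = 6) (ht : t ∉ Subgroup.zpowers k) (x y : C) : x * y = y * x := by
  set A : Subgroup C := Subgroup.closure {t, k} with hA
  have hcomm : ∀ a ∈ A, ∀ b ∈ A, a * b = b * a := by
    have hAc : ∀ a ∈ ({t, k} : Set C), ∀ b ∈ ({t, k} : Set C), a * b = b * a := by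
      intro a ha b hb
      rw [Set.mem_insert_iff, Set.mem_singleton_iff] at ha hb
      rcases ha with rfl | rfl <;> rcases hb with rfl | rfl
      · rfl
      · exact htk
      · exact htk.symm
      · rfl
    intro a ha b hb
    have h0 : IsMulCommutative (Subgroup.closure ({t, k} : Set C)) := Subgroup.isMulCommutative_closure hAc
    have := h0.is_comm.comm (⟨a, ha⟩ : Subgroup.closure {t, k}) ⟨b, hb⟩
    exact congrArg Subtype.val this
  have h1 : Subgroup.zpowers k ≤ A := by
    rw [Subgroup.zpowers_le]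
    exact Subgroup.subset_closure (Set.mem_insert_of_mem _ rfl)
  have h2 : t ∈ A := Subgroup.subset_closure (Set.mem_insert _ _)
  have h3 : Nat.card (Subgroup.zpowers k) = 6 := by rw [Nat.card_zpowers, hk]
  have h4 : 6 ∣ Nat.card A := by
    rw [← h3]
    exact Subgroup.card_dvd_of_le h1
  have h5 : Nat.card A ∣ 12 := by
    rw [← hC]
    exact Subgroup.card_subgroup_dvd_card A
  have h6 : Nat.card A ≠ 6 := by
    intro h6
    have h7 : Subgroup.zpowers k = A := Subgroup.eq_of_le_of_card_ge h1 (by rw [h6, h3])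
    exact ht (h7 ▸ h2)
  have h7 : Nat.card A = 12 := by
    obtain ⟨c, hc⟩ := h4
    rw [hc] at h5 h6 ⊢
    have h8 : c ∣ 2 := by
      obtain ⟨d, hd⟩ := h5
      rw [mul_assoc] at hd
      exact ⟨d, by omega⟩
    have h9 : c ≤ 2 := Nat.le_of_dvd (by norm_num) h8
    interval_cases c <;> omega
  have h8 : A = ⊤ := Subgroup.eq_top_of_card_eq A (by rw [h7, hC])
  exact hcomm x (h8 ▸ Subgroup.mem_top x) y (h8 ▸ Subgroup.mem_top y)

/-- `G` contains a map `x ↦ a / x` -/
theorem line_inv13 {G : Type} [Group G] [Finite G]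
    (φ : G →* Equiv.Perm (Option (ZMod 13))) (h : Line 13 φ)
    (hC : ∀ t : G, t * t = 1 → t ≠ 1 → Nat.card (Subgroup.centralizer {t}) = 12 ∧
      ∃ x ∈ Subgroup.centralizer {t}, ∃ y ∈ Subgroup.centralizer {t}, x * y ≠ y * x) :
    ∃ (g : G) (a : ZMod 13), a ≠ 0 ∧ φ g none = some 0 ∧ φ g (some 0) = none ∧
      ∀ x, x ≠ 0 → φ g (some x) = some (a * x⁻¹) := by
  obtain ⟨t, htt, ht0, ht1⟩ := idc_invol h
  obtain ⟨k, hk, hk'⟩ := (h.sq 4 (by decide)).1 ⟨2, by decide⟩
  have hT2 : ∀ x, φ t (φ t x) = x := by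
    intro x
    rw [← Equiv.Perm.mul_apply, ← map_mul, htt, map_one, Equiv.Perm.one_apply]
  have hf : ∃ f : ZMod 13 → ZMod 13, ∀ x, x ≠ 0 → φ t (some x) = some (f x) ∧ f x ≠ 0 := by
    have h1 : ∀ x : ZMod 13, ∃ y : ZMod 13, x ≠ 0 → φ t (some x) = some y ∧ y ≠ 0 := by
      intro x
      by_cases hx : x = 0
      · exact ⟨0, fun h' => absurd hx h'⟩
      · have h2 : φ t (some x) ≠ none := by
          intro h2
          rw [← ht1] at h2
          exact hx (Option.some_inj.1 ((φ t).injective h2))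
        obtain ⟨y, hy⟩ := Option.ne_none_iff_exists'.1 h2
        refine ⟨y, fun _ => ⟨hy, ?_⟩⟩
        rintro rfl
        rw [← ht0] at hy
        exact Option.some_ne_none _ ((φ t).injective hy)
    choose f hf using h1
    exact ⟨f, hf⟩
  obtain ⟨f, hf⟩ := hf
  have hff : ∀ x, x ≠ 0 → f (f x) = x := by
    intro x hx
    have h1 := hT2 (some x)
    rw [(hf x hx).1, (hf _ (hf x hx).2).1] at h1
    exact Option.some_inj.1 h1
  -- the conjugate of `k`
  obtain ⟨s, hs, hs'⟩ := h.stab (t * k * t)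
    (by rw [map_mul, map_mul, Equiv.Perm.mul_apply, Equiv.Perm.mul_apply, ht0, hk', mul_zero, ht1])
    (by rw [map_mul, map_mul, Equiv.Perm.mul_apply, Equiv.Perm.mul_apply, ht1, hk, ht0])
  have h4 : (4 : ZMod 13) ≠ 0 := by decide
  have hs2 : ∀ y, y ≠ 0 → f (4 * y) = s * f y := by
    intro y hy
    have h1 := hs' (f y)
    rw [map_mul, map_mul, Equiv.Perm.mul_apply, Equiv.Perm.mul_apply, (hf _ (hf y hy).2).1, hff y hy, hk',
      (hf _ (mul_ne_zero h4 hy)).1] at h1
    exact Option.some_inj.1 h1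
  have hpow : ∀ (m : ℕ) (y : ZMod 13), y ≠ 0 → f (4 ^ m * y) = s ^ m * f y := by
    intro m
    induction m with
    | zero => intro y _; rw [pow_zero, pow_zero, one_mul, one_mul]
    | succ m ih =>
      intro y hy
      rw [pow_succ', mul_assoc, hs2 _ (mul_ne_zero (pow_ne_zero _ h4) hy), ih y hy, pow_succ', mul_assoc]
  have h1 : (1 : ZMod 13) ≠ 0 := one_ne_zero
  have hinj : ∀ m : ℕ, s ^ m = 1 → (4 : ZMod 13) ^ m = 1 := by
    intro m hm
    have h2 := hpow m 1 h1
    rw [hm, one_mul, mul_one] at h2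
    have h3 := congrArg f h2
    rwa [hff _ (pow_ne_zero _ h4), hff _ h1] at h3
  have hs6 : s ^ 6 = 1 := by
    have h2 := hpow 6 1 h1
    rw [show (4 : ZMod 13) ^ 6 * 1 = 1 by decide] at h2
    exact mul_right_cancel₀ (hf 1 h1).2 (h2.symm.trans (one_mul _).symm)
  have hs3 : s ^ 3 ≠ 1 := fun h' => absurd (hinj 3 h') (by decide)
  have hs22 : s ^ 2 ≠ 1 := fun h' => absurd (hinj 2 h') (by decide)
  have hcases : s = 4 ∨ s = 10 := by
    have h0 : ∀ s : ZMod 13, s ^ 6 = 1 → s ^ 3 ≠ 1 → s ^ 2 ≠ 1 → s = 4 ∨ s = 10 := by decide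
    exact h0 s hs6 hs3 hs22
  have ht_ne : t ≠ 1 := by
    rintro rfl
    rw [map_one, Equiv.Perm.one_apply] at ht0
    exact Option.some_ne_none _ ht0.symm
  rcases hcases with rfl | rfl
  · -- `t` and `k` commute
    exfalso
    obtain ⟨hcard, x, hx, y, hy, hxy⟩ := hC t htt ht_ne
    have htk : t * k = k * t := by
      have h2 : t * k * t = k := by
        apply h.inj
        ext1 z
        rcases z with _ | z
        · rw [map_mul, map_mul, Equiv.Perm.mul_apply, Equiv.Perm.mul_apply, ht0, hk', mul_zero, ht1, hk]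
        · rw [hs', hk']
      calc t * k = t * k * (t * t) := by rw [htt, mul_one]
        _ = t * k * t * t := by rw [← mul_assoc]
        _ = k * t := by rw [h2]
    have hkc : k ∈ Subgroup.centralizer {t} := by
      rw [Subgroup.mem_centralizer_singleton_iff]
      exact htk.symm
    have htc : t ∈ Subgroup.centralizer {t} := by
      rw [Subgroup.mem_centralizer_singleton_iff]
    have hkpow : ∀ m : ℕ, φ (k ^ m) none = none ∧ ∀ x, φ (k ^ m) (some x) = some (4 ^ m * x) := by
      intro m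
      induction m with
      | zero =>
        refine ⟨?_, fun x => ?_⟩
        · rw [pow_zero, map_one, Equiv.Perm.one_apply]
        · rw [pow_zero, map_one, Equiv.Perm.one_apply, pow_zero, one_mul]
      | succ m ih =>
        rw [pow_succ', map_mul]
        refine ⟨?_, fun x => ?_⟩
        · rw [Equiv.Perm.mul_apply, ih.1, hk]
        · rw [Equiv.Perm.mul_apply, ih.2, hk', pow_succ', mul_assoc]
    have hko : orderOf k = 6 := by
      refine (orderOf_eq_iff (by norm_num)).2 ⟨?_, ?_⟩
      · apply h.inj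
        rw [map_one]
        ext1 z
        rw [Equiv.Perm.one_apply]
        rcases z with _ | z
        · exact (hkpow 6).1
        · rw [(hkpow 6).2, show (4 : ZMod 13) ^ 6 = 1 by decide, one_mul]
      · intro m hm hm0 hm1
        have h2 := (hkpow m).2 1
        rw [hm1, map_one, Equiv.Perm.one_apply, Option.some_inj, mul_one] at h2
        interval_cases m <;> exact absurd h2 (by decide)
    have hcomm := idc_comm (C := Subgroup.centralizer {t}) hcard (t := ⟨t, htc⟩) (k := ⟨k, hkc⟩)
      (Subtype.ext htk) (by rw [← Subgroup.orderOf_coe]; exact hko) (by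
        intro h2
        rw [Subgroup.mem_zpowers_iff] at h2
        obtain ⟨m, hm⟩ := h2
        have h3 : k ^ m = t := congrArg Subtype.val hm
        have h5 : t ∈ Subgroup.zpowers k := ⟨m, h3⟩
        rw [← mem_powers_iff_mem_zpowers] at h5
        obtain ⟨j, hj⟩ := h5
        have h6 := (hkpow j).1
        have h7 : k ^ j = t := hj
        rw [h7, ht0] at h6
        exact Option.some_ne_none _ h6) ⟨x, hx⟩ ⟨y, hy⟩
    exact hxy (congrArg Subtype.val hcomm)
  · -- the inverting case
    have hsqk : ∀ x : ZMod 13, x ^ 6 = 1 → ∃ m : Fin 6, x = 4 ^ (m : ℕ) := by decide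
    have hnsk : ∀ x : ZMod 13, x ≠ 0 → x ^ 6 ≠ 1 → ∃ m : Fin 6, x = 4 ^ (m : ℕ) * 2 := by decide
    have hfs : ∀ x : ZMod 13, x ^ 6 = 1 → f x = f 1 * x ^ 11 := by
      intro x hx
      obtain ⟨m, rfl⟩ := hsqk x hx
      have h2 := hpow m 1 h1
      rw [mul_one] at h2
      rw [h2, ← pow_mul, mul_comm (m : ℕ) 11, pow_mul, show (4 : ZMod 13) ^ 11 = 10 by decide, mul_comm]
    have hfn : ∀ x : ZMod 13, x ≠ 0 → x ^ 6 ≠ 1 → f x = 2 * f 2 * x ^ 11 := by
      intro x hx0 hx
      obtain ⟨m, rfl⟩ := hnsk x hx0 hx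
      rw [hpow m 2 (by decide), mul_pow, ← pow_mul, mul_comm (m : ℕ) 11, pow_mul,
        show (4 : ZMod 13) ^ 11 = 10 by decide]
      have h3 : (2 : ZMod 13) * 2 ^ 11 = 1 := by decide
      linear_combination (-(10 : ZMod 13) ^ (m : ℕ) * f 2) * h3
    have hinv : ∀ x : ZMod 13, x ≠ 0 → x⁻¹ = x ^ 11 := by
      intro x hx
      have h2 : x ^ 12 = 1 := by
        have h0 : ∀ x : ZMod 13, x ≠ 0 → x ^ 12 = 1 := by decide
        exact h0 x hx
      exact inv_eq_of_mul_eq_one_right (by rw [← pow_succ', h2])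
    by_cases he : (f 1) ^ 6 = 1
    · -- squares to squares
      have he0 := (hf 1 h1).2
      have h2ne : (2 : ZMod 13) ≠ 0 := by decide
      have he'0 := (hf 2 h2ne).2
      have he' : (f 2) ^ 6 ≠ 1 := by
        intro he'
        have h3 := hfs _ he'
        rw [hff 2 h2ne] at h3
        have h5 := congrArg (fun z => z ^ 6) h3
        simp only [mul_pow] at h5
        rw [he, ← pow_mul, mul_comm 11 6, pow_mul, he', one_pow, mul_one] at h5
        exact absurd h5 (by decide)
      obtain ⟨e, he1, he2⟩ := (h.sq (f 1) he0).1 (by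
        have : ∀ x : ZMod 13, x ^ 6 = 1 → IsSquare x := by decide
        exact this _ he)
      have hb6 : (2 * f 2 * (f 1) ^ 11) ^ 6 = 1 := by
        have h3 : ∀ z : ZMod 13, z ≠ 0 → z ^ 6 ≠ 1 → (2 * z) ^ 6 = 1 := by decide
        rw [mul_pow, h3 _ he'0 he', one_mul, ← pow_mul, mul_comm 11 6, pow_mul, he, one_pow]
      have hg : ∀ x, φ (t * e) x = idcG (2 * f 2 * (f 1) ^ 11) x := by
        intro x
        rw [map_mul, Equiv.Perm.mul_apply]
        rcases x with _ | x
        · rw [he1, ht0]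
          rfl
        · rw [he2]
          by_cases hx : x = 0
          · subst hx
            rw [mul_zero, ht1]
            rfl
          · rw [(hf _ (mul_ne_zero he0 hx)).1]
            by_cases hx6 : x ^ 6 = 1
            · rw [hfs _ (by rw [mul_pow, he, hx6, one_mul])]
              show _ = if x = 0 then none else if x ^ 6 = 1 then some (x ^ 11) else
                some (2 * f 2 * (f 1) ^ 11 * x ^ 11)
              rw [if_neg hx, if_pos hx6, Option.some_inj, mul_pow, ← mul_assoc, ← pow_succ',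
                show (11 + 1) = 6 * 2 by norm_num, pow_mul, he, one_pow, one_mul]
            · rw [hfn _ (mul_ne_zero he0 hx) (by rw [mul_pow, he, one_mul]; exact hx6)]
              show _ = if x = 0 then none else if x ^ 6 = 1 then some (x ^ 11) else
                some (2 * f 2 * (f 1) ^ 11 * x ^ 11)
              rw [if_neg hx, if_neg hx6, Option.some_inj, mul_pow, ← mul_assoc]
      have hb1 := idc_bad h hb6 hg
      refine ⟨t * e, 1, one_ne_zero, ?_, ?_, ?_⟩
      · rw [hg]; rfl
      · rw [hg]; rfl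
      · intro x hx
        rw [hg, hb1, one_mul, hinv x hx]
        show (if x = 0 then none else if x ^ 6 = 1 then some (x ^ 11) else some (1 * x ^ 11)) = _
        rw [if_neg hx, one_mul, ite_self]
    · have he0 := (hf 1 h1).2
      have h3 := hfn _ he0 he
      rw [hff 1 h1] at h3
      have h5 : (2 : ZMod 13) * f 2 = f 1 := by
        have h6 : (f 1) ^ 12 = 1 := by
          have : ∀ x : ZMod 13, x ≠ 0 → x ^ 12 = 1 := by decide
          exact this _ he0
        calc (2 : ZMod 13) * f 2 = 2 * f 2 * (f 1) ^ 12 := by rw [h6, mul_one]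
          _ = (2 * f 2 * (f 1) ^ 11) * f 1 := by ring
          _ = f 1 := by rw [← h3, one_mul]
      refine ⟨t, f 1, he0, ht0, ht1, ?_⟩
      intro x hx
      rw [(hf x hx).1, hinv x hx]
      by_cases hx6 : x ^ 6 = 1
      · rw [hfs x hx6]
      · rw [hfn x hx hx6, h5]

end Pool.Agent.SHAF
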