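import Mathlib

set_option autoImplicit false

/-!
Involutions, Klein four-group as Sylow 2-subgroup (module INVK).
-/

namespace Pool.Agent.SHAF

/-- elements of a noncyclic group of order four -/
lemma invk_sq {P : Type} [Group P] [Finite P] (h4 : Nat.card P = 4) (hnc : ¬ IsCyclic P) (x : P) :
    x * x = 1 := by
  have h1 : orderOf x ∣ 4 := h4 ▸ orderOf_dvd_natCard x
  have h2 : orderOf x ≠ 4 := fun h => hnc (isCyclic_of_orderOf_eq_card x (h.trans h4.symm))
  have h3 : orderOf x ≤ 4 := Nat.le_of_dvd (by norm_num) h1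
  have h5 : orderOf x ∣ 2 := by
    interval_cases h : orderOf x
    · exact absurd h1 (by norm_num)
    · norm_num
    · norm_num
    · exact absurd h1 (by norm_num)
    · exact absurd rfl h2
  have h6 := orderOf_dvd_iff_pow_eq_one.1 h5
  rwa [pow_two] at h6

lemma invk_comm {P : Type} [Group P] (h : ∀ x : P, x * x = 1) (x y : P) : x * y = y * x := by
  have hi : ∀ x : P, x⁻¹ = x := fun x => inv_eq_of_mul_eq_one_right (h x)
  have h1 := hi (x * y)
  rw [mul_inv_rev, hi, hi] at h1
  exact h1.symm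

/-- four different elements are all elements -/
lemma invk_four {P : Type} [Group P] [Finite P] (h4 : Nat.card P = 4) {a b c d : P}
    (hab : a ≠ b) (hac : a ≠ c) (had : a ≠ d) (hbc : b ≠ c) (hbd : b ≠ d) (hcd : c ≠ d) (x : P) :
    x = a ∨ x = b ∨ x = c ∨ x = d := by
  classical
  have := Fintype.ofFinite P
  have hS : ({a, b, c, d} : Finset P).card = 4 := by
    rw [Finset.card_insert_of_notMem, Finset.card_insert_of_notMem, Finset.card_insert_of_notMem,
      Finset.card_singleton]
    · simpa using hcd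
    · simp [hbc, hbd]
    · simp [hab, hac, had]
  have hu : ({a, b, c, d} : Finset P) = Finset.univ := by
    apply Finset.eq_univ_of_card
    rw [hS, ← Nat.card_eq_fintype_card, h4]
  have hx : x ∈ ({a, b, c, d} : Finset P) := hu ▸ Finset.mem_univ x
  simpa using hx

/-- an automorphism of odd order of the Klein four-group which fixes an involution is trivial -/
lemma invk_fix {P : Type} [Group P] [Finite P] (h4 : Nat.card P = 4) (h : ∀ x : P, x * x = 1)
    (α : MulAut P) {m : ℕ} (hm : ¬ 2 ∣ m) (hα : α ^ m = 1) {s : P} (hs : s ≠ 1) (hf : α s = s) :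
    α = 1 := by
  have h2 : α ^ 2 = 1 := by
    refine MulEquiv.ext fun x => ?_
    change α (α x) = x
    by_cases hx1 : x = 1
    · rw [hx1, map_one, map_one]
    by_cases hxs : x = s
    · rw [hxs, hf, hf]
    have h5 : s * x ≠ 1 := by
      intro h6
      apply hxs
      have h7 : x = s * (s * x) := by rw [← mul_assoc, h, one_mul]
      rw [h7, h6, mul_one]
    have h6 : s * x ≠ s := fun h7 => hx1 (mul_eq_left.mp h7)
    have h7 : s * x ≠ x := fun h8 => hs (mul_eq_right.mp h8)
    rcases invk_four h4 (a := 1) (b := s) (c := x) (d := s * x) (Ne.symm hs) (Ne.symm hx1)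
      (Ne.symm h5) (Ne.symm hxs) (Ne.symm h6) (Ne.symm h7) (α x) with h8 | h8 | h8 | h8
    · exact absurd (α.injective (h8.trans (map_one α).symm)) hx1
    · exact absurd (α.injective (h8.trans hf.symm)) hxs
    · rw [h8, h8]
    · rw [h8, map_mul, hf, h8, ← mul_assoc, h, one_mul]
  obtain ⟨k, hk⟩ := Nat.odd_iff.2 (Nat.two_dvd_ne_zero.1 hm)
  rw [hk, pow_succ, pow_mul, h2, one_pow, one_mul] at hα
  exact hα

/-- in a simple nonsoluble group with a Klein four-group `P` as Sylow 2-subgroup all involutions are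
conjugate, and the normaliser of `P` does not centralise `P` -/
theorem inv_klein {G : Type} [Group G] [Finite G] [IsSimpleGroup G] (hns : ¬ Group.IsSolvable G)
    (P : Sylow 2 G) (h4 : Nat.card P = 4) (hnc : ¬ IsCyclic P) :
    (∀ s t : G, s * s = 1 → s ≠ 1 → t * t = 1 → t ≠ 1 → ∃ g, g * s * g⁻¹ = t) ∧
      ∃ g ∈ Subgroup.normalizer ((P : Subgroup G) : Set G), ∃ v ∈ (P : Subgroup G),
        g * v ≠ v * g := by
  have : Fact (Nat.Prime 2) := ⟨Nat.prime_two⟩
  have hsq : ∀ x : P, x * x = 1 := invk_sq h4 hnc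
  have hcm : ∀ x y : P, x * y = y * x := invk_comm hsq
  have hPab : ∀ x ∈ P, ∀ y ∈ P, x * y = y * x := fun x hx y hy =>
    congrArg Subtype.val (hcm ⟨x, hx⟩ ⟨y, hy⟩)
  -- the normaliser does not centralise
  have hne : ∃ g ∈ Subgroup.normalizer ((P : Subgroup G) : Set G), ∃ v ∈ (P : Subgroup G),
      g * v ≠ v * g := by
    by_contra hall
    push Not at hall
    have hle : (Subgroup.normalizer ((P : Subgroup G) : Set G)) ≤
        Subgroup.centralizer ((P : Subgroup G) : Set G) := by
      intro g hg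
      rw [Subgroup.mem_centralizer_iff]
      intro v hv
      exact (hall g hg v hv).symm
    have hMo : ¬ 2 ∣ Nat.card (MonoidHom.transferSylow P hle).ker :=
      MonoidHom.not_dvd_card_ker_transferSylow P hle
    have hGc : 4 ∣ Nat.card G := h4 ▸ Subgroup.card_subgroup_dvd_card (P : Subgroup G)
    rcases (inferInstance : (MonoidHom.transferSylow P hle).ker.Normal).eq_bot_or_eq_top with h | h
    · apply hns
      have : Group.IsSolvable P := by
        apply Group.isSolvable_of_comm
        exact hcm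
      exact Group.isSolvable_of_isSolvable_injective ((MonoidHom.ker_eq_bot_iff _).1 h)
    · rw [h, Subgroup.card_top] at hMo
      exact hMo (dvd_trans (by norm_num) hGc)
  refine ⟨?_, hne⟩
  obtain ⟨g, hg, v, hv, hgv⟩ := hne
  set g' : Subgroup.normalizer ((P : Subgroup G) : Set G) := ⟨g, hg⟩ with hg'
  set κ := (P : Subgroup G).normalizerMonoidHom with hκ
  have hPn : ((P : Subgroup G).subgroupOf
      (Subgroup.normalizer ((P : Subgroup G) : Set G))).Normal := inferInstance
  set m := ((P : Subgroup G).subgroupOf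
      (Subgroup.normalizer ((P : Subgroup G) : Set G))).index with hm
  have hmodd : ¬ 2 ∣ m := by
    intro h2
    apply P.not_dvd_index
    refine h2.trans ?_
    exact Subgroup.relIndex_dvd_index_of_le Subgroup.le_normalizer
  have hgm : g' ^ m ∈ ((P : Subgroup G).subgroupOf
      (Subgroup.normalizer ((P : Subgroup G) : Set G))) := Subgroup.pow_index_mem _ g'
  have hκm : (κ g') ^ m = 1 := by
    rw [← map_pow]
    have h5 : g' ^ m ∈ κ.ker := by
      rw [Subgroup.normalizerMonoidHom_ker, Subgroup.mem_subgroupOf, Subgroup.mem_centralizer_iff]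
      intro y hy
      exact hPab y hy _ hgm
    exact h5
  have hκ1 : κ g' ≠ 1 := by
    intro h1
    have h5 : g' ∈ κ.ker := h1
    rw [Subgroup.normalizerMonoidHom_ker, Subgroup.mem_subgroupOf, Subgroup.mem_centralizer_iff] at h5
    exact hgv (h5 v hv).symm
  have hκa : ∀ x : P, ((κ g' x : P) : G) = g * x * g⁻¹ := fun x => rfl
  have hnf : ∀ s : P, s ≠ 1 → κ g' s ≠ s := fun s hs hf =>
    hκ1 (invk_fix h4 hsq _ hmodd hκm hs hf)
  -- involutions of `P`
  have hP : ∀ s t : P, s ≠ 1 → t ≠ 1 → ∃ a : G, a * s * a⁻¹ = t := by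
    intro s t hs ht
    have h1 : κ g' s ≠ 1 := fun h => hs ((κ g').injective (h.trans (map_one _).symm))
    have h2 : κ g' (κ g' s) ≠ 1 := fun h => h1 ((κ g').injective (h.trans (map_one _).symm))
    have h3 : κ g' s ≠ s := hnf s hs
    have h5 : κ g' (κ g' s) ≠ κ g' s := fun h => h3 ((κ g').injective h)
    have h6 : κ g' (κ g' s) ≠ s := by
      intro h
      have h7 : s * κ g' s ≠ 1 := by
        intro h8
        apply h3
        have h9 : κ g' s = s * (s * κ g' s) := by rw [← mul_assoc, hsq, one_mul]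
        rw [h9, h8, mul_one]
      apply hnf _ h7
      rw [map_mul, h]
      exact hcm _ _
    rcases invk_four h4 (a := 1) (b := s) (c := κ g' s) (d := κ g' (κ g' s)) (Ne.symm hs)
      (Ne.symm h1) (Ne.symm h2) (Ne.symm h3) (Ne.symm h6) (Ne.symm h5) t with h8 | h8 | h8 | h8
    · exact absurd h8 ht
    · exact ⟨1, by rw [h8]; group⟩
    · exact ⟨g, by rw [h8, hκa]⟩
    · exact ⟨g * g, by rw [h8, hκa, hκa]; group⟩
  -- every involution is conjugate to an element of `P`
  have hin : ∀ s : G, s * s = 1 → ∃ a : G, a * s * a⁻¹ ∈ (P : Subgroup G) := by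
    intro s hs
    have h1 : IsPGroup 2 (Subgroup.zpowers s) := by
      rintro ⟨x, k, rfl⟩
      refine ⟨1, ?_⟩
      apply Subtype.ext
      change (s ^ k) ^ (2 ^ 1) = 1
      rw [pow_one, pow_two, ← zpow_add, ← two_mul, zpow_mul]
      have : s ^ (2 : ℤ) = 1 := by rw [zpow_two, hs]
      rw [this, one_zpow]
    obtain ⟨Q, hQ⟩ := h1.exists_le_sylow
    obtain ⟨a, ha⟩ := MulAction.exists_smul_eq G Q P
    refine ⟨a, ?_⟩
    have h2 : a * s * a⁻¹ ∈ (a • Q : Sylow 2 G) := by
      rw [Sylow.smul_def]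
      refine ⟨s, hQ (Subgroup.mem_zpowers s), rfl⟩
    rw [ha] at h2
    exact h2
  intro s t hs hs1 ht ht1
  obtain ⟨a, ha⟩ := hin s hs
  obtain ⟨b, hb⟩ := hin t ht
  have ha1 : (⟨a * s * a⁻¹, ha⟩ : P) ≠ 1 := by
    intro h
    apply hs1
    have h1 : a * s * a⁻¹ = 1 := congrArg Subtype.val h
    have h2 : s = a⁻¹ * (a * s * a⁻¹) * a := by group
    rw [h2, h1]
    group
  have hb1 : (⟨b * t * b⁻¹, hb⟩ : P) ≠ 1 := by
    intro h
    apply ht1
    have h1 : b * t * b⁻¹ = 1 := congrArg Subtype.val h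
    have h2 : t = b⁻¹ * (b * t * b⁻¹) * b := by group
    rw [h2, h1]
    group
  obtain ⟨c, hc⟩ := hP _ _ ha1 hb1
  have hc' : c * (a * s * a⁻¹) * c⁻¹ = b * t * b⁻¹ := hc
  refine ⟨b⁻¹ * c * a, ?_⟩
  have h3 : b⁻¹ * c * a * s * (b⁻¹ * c * a)⁻¹ = b⁻¹ * (c * (a * s * a⁻¹) * c⁻¹) * b := by group
  rw [h3, hc']
  group

end Pool.Agent.SHAF
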