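import Mathlib
import Pool.Agent.SHAF.ListSol
import Pool.Agent.SHAN.SolX

set_option autoImplicit false

/-!
Soluble groups of the list with a Klein four-group as Sylow 2-subgroup (module SOLK).
-/

namespace Pool.Agent.SHAF

open Pool.Agent.SHA
open scoped Pointwise

lemma sk_comm {X : Type} [Group X] (P : Subgroup X) (h2 : ∀ v ∈ P, v * v = 1) :
    ∀ u ∈ P, ∀ v ∈ P, u * v = v * u := by
  intro u hu v hv
  have h1 := h2 _ (P.mul_mem hu hv)
  have h3 := h2 u hu
  have h4 := h2 v hv
  calc u * v = u * (u * v * (u * v)) * v := by rw [h1]; group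
    _ = (u * u) * (v * u) * (v * v) := by group
    _ = v * u := by rw [h3, h4]; group

lemma sk_four {X : Type} [Group X] (P : Subgroup X) (h4 : Nat.card P = 4) :
    4 ∣ Nat.card X := by
  rw [← h4]
  exact Subgroup.card_subgroup_dvd_card P

lemma sk_dvd24 {n : ℕ} (h : n ∣ 24) (h4 : 4 ∣ n) (h8 : ¬ 8 ∣ n) : n = 4 ∨ n = 12 := by
  obtain ⟨m, rfl⟩ := h4
  have h1 : m ∣ 6 := by
    have : 4 * m ∣ 4 * 6 := h
    exact Nat.dvd_of_mul_dvd_mul_left (by norm_num) this
  have h2 : m ≤ 6 := Nat.le_of_dvd (by norm_num) h1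
  interval_cases m <;> omega

lemma sk_eq_of_card {X : Type} [Group X] [Finite X] (P : Subgroup X) (h4 : Nat.card P = 4)
    (h : Nat.card X = 4) : P = ⊤ := Subgroup.eq_top_of_card_eq P (by rw [h4, h])

/-- a normal Klein four-group that is not central -/
theorem sol_klein_norm {X : Type} [Group X] (h : SolList X) (P : Subgroup X) [P.Normal]
    (h4 : Nat.card P = 4) (h2 : ∀ v ∈ P, v * v = 1) (h8 : ¬ 8 ∣ Nat.card X)
    (hx : ∃ x : X, ∃ v ∈ P, x * v ≠ v * x) :
    Nat.card X = 12 ∧ Subgroup.centralizer (P : Set X) ≤ P := by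
  haveI := h.1
  obtain ⟨x, v, hv, hxv⟩ := hx
  rcases sx_cases h ⟨x, v, hxv⟩ with ⟨g, hg⟩ | ⟨⟨e⟩⟩ | h | h
  · rcases sk_dvd24 (sx_dvd24 g hg) (sk_four P h4) h8 with hc | hc
    · exfalso
      have htop := sk_eq_of_card P h4 hc
      apply hxv
      refine sk_comm P h2 x ?_ v hv
      rw [htop]
      exact Subgroup.mem_top x
    · refine ⟨hc, ?_⟩
      set C := Subgroup.centralizer (P : Set X) with hC
      have hPC : P ≤ C := by
        intro u hu
        rw [hC, Subgroup.mem_centralizer_iff]
        intro w hw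
        exact sk_comm P h2 w hw u hu
      have h5 : Nat.card C = 4 ∨ Nat.card C = 12 := by
        refine sk_dvd24 ?_ ?_ ?_
        · exact (Subgroup.card_subgroup_dvd_card C).trans (by rw [hc]; decide)
        · rw [← h4]
          exact Subgroup.card_dvd_of_le hPC
        · intro h
          exact h8 (h.trans (Subgroup.card_subgroup_dvd_card C))
      rcases h5 with h5 | h5
      · exact (Subgroup.eq_of_le_of_card_ge hPC (by rw [h4, h5])).ge
      · exfalso
        have htop := Subgroup.eq_top_of_card_eq C (by rw [h5, hc])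
        have hxC : x ∈ C := by rw [htop]; exact Subgroup.mem_top x
        exact hxv (Subgroup.mem_centralizer_iff.mp hxC v hv).symm
  · exfalso
    apply h8
    rw [Nat.card_congr e.toEquiv, sx_q8card]
  · exfalso
    apply h8
    rw [h.1]
    decide
  · exfalso
    obtain ⟨q, c, d, N, H, π, hq, hq2, hNc, hπ, hab, -, -⟩ := sx_meta h
    have h1 : x * v * x⁻¹ * v⁻¹ ∈ N := by
      rw [← hπ, MonoidHom.mem_ker, map_mul, map_mul, map_mul, map_inv, map_inv, hab (π x) (π v)]
      group
    have h3 : x * v * x⁻¹ * v⁻¹ ∈ P :=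
      P.mul_mem ((inferInstance : P.Normal).conj_mem v hv x) (P.inv_mem hv)
    have h5 : orderOf (x * v * x⁻¹ * v⁻¹) ∣ 2 :=
      orderOf_dvd_of_pow_eq_one (by rw [pow_two, h2 _ h3])
    have h6 : orderOf (x * v * x⁻¹ * v⁻¹) ∣ q := by
      rw [← hNc]
      have := orderOf_dvd_natCard (⟨_, h1⟩ : N)
      rwa [Subgroup.orderOf_mk] at this
    have hcop : Nat.Coprime 2 q := (Nat.odd_iff.mpr hq2).coprime_two_left
    have h7 := Nat.eq_one_of_dvd_coprimes hcop h5 h6
    rw [orderOf_eq_one_iff] at h7
    apply hxv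
    calc x * v = (x * v * x⁻¹ * v⁻¹) * (v * x) := by group
      _ = v * x := by rw [h7, one_mul]

lemma sk_a4cen : ∀ z : alternatingGroup (Fin 4), (∀ g, z * g = g * z) → z = 1 := by
  decide +kernel

/-- elements of order 2 acting on a normal subgroup of prime order -/
lemma sk_inverts {X : Type} [Group X] [Finite X] (N : Subgroup X) [hN : N.Normal] {q : ℕ}
    (hq : q.Prime) (hNc : Nat.card N = q) (h : X) (hh : h * h = 1)
    (hn : h ∉ Subgroup.centralizer (N : Set X)) : ∀ n ∈ N, h * n * h⁻¹ = n⁻¹ := by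
  haveI : Fact q.Prime := ⟨hq⟩
  haveI : IsCyclic N := isCyclic_of_prime_card hNc
  have hcomm : ∀ a ∈ N, ∀ b ∈ N, a * b = b * a := by
    intro a ha b hb
    exact congrArg Subtype.val (sx_comm_of_cyc (X := N) inferInstance ⟨a, ha⟩ ⟨b, hb⟩)
  let F : Subgroup X :=
    { carrier := {z | z ∈ N ∧ h * z * h⁻¹ = z}
      one_mem' := ⟨N.one_mem, by simp⟩
      mul_mem' := by
        rintro a b ⟨ha, ha'⟩ ⟨hb, hb'⟩
        refine ⟨N.mul_mem ha hb, ?_⟩
        calc h * (a * b) * h⁻¹ = (h * a * h⁻¹) * (h * b * h⁻¹) := by group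
          _ = a * b := by rw [ha', hb']
      inv_mem' := by
        rintro a ⟨ha, ha'⟩
        refine ⟨N.inv_mem ha, ?_⟩
        calc h * a⁻¹ * h⁻¹ = (h * a * h⁻¹)⁻¹ := by group
          _ = a⁻¹ := by rw [ha'] }
  have hFN : F ≤ N := fun z hz => hz.1
  have hF : F = ⊥ := by
    have hd : Nat.card F ∣ q := by
      rw [← hNc]
      exact Subgroup.card_dvd_of_le hFN
    rcases (Nat.dvd_prime hq).mp hd with h1 | h1
    · exact Subgroup.card_eq_one.mp h1
    · exfalso
      have hEq : F = N := Subgroup.eq_of_le_of_card_ge hFN (by rw [h1, hNc])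
      apply hn
      rw [Subgroup.mem_centralizer_iff]
      intro y hy
      have : y ∈ F := by rw [hEq]; exact hy
      have h2 := this.2
      calc y * h = (h * y * h⁻¹) * h := by rw [h2]
        _ = h * y := by group
  intro y hy
  have hty : h * y * h⁻¹ ∈ N := hN.conj_mem y hy h
  have hz : y * (h * y * h⁻¹) ∈ F := by
    refine ⟨N.mul_mem hy hty, ?_⟩
    calc h * (y * (h * y * h⁻¹)) * h⁻¹ = (h * y * h⁻¹) * ((h * h) * y * (h * h)⁻¹) := by group
      _ = (h * y * h⁻¹) * y := by rw [hh]; simp
      _ = y * (h * y * h⁻¹) := hcomm _ hty _ hy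
  rw [hF, Subgroup.mem_bot] at hz
  exact eq_inv_of_mul_eq_one_right hz

/-- the number of elements with square 1 -/
lemma sk_count {X : Type} [Group X] [Finite X] (N H : Subgroup X) [hN : N.Normal] {q : ℕ}
    (hq : q.Prime) (hq2 : q % 2 = 1) (hNc : Nat.card N = q) (hcompl : N.IsComplement' H)
    (hH2 : ∀ h ∈ H, h * h = 1) (hc : Nat.card (H ⊓ Subgroup.centralizer (N : Set X) : Subgroup X) = 2)
    (hH : Nat.card H = 4) : Nat.card {x : X // x * x = 1} = 2 * q + 2 := by
  classical
  have hbij : Function.Bijective (fun x : N × H => (x.1 * x.2 : X)) := hcompl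
  have key : ∀ p : N × H, ((p.1 : X) * p.2) * ((p.1 : X) * p.2) = 1 ↔
      ((p.2 : X) ∈ Subgroup.centralizer (N : Set X) ∧ p.1 = 1) ∨
        (p.2 : X) ∉ Subgroup.centralizer (N : Set X) := by
    rintro ⟨⟨n, hn⟩, ⟨h, hh⟩⟩
    dsimp only
    have hh2 := hH2 h hh
    have e1 : (n * h) * (n * h) = n * (h * n * h⁻¹) * (h * h) := by group
    rw [e1, hh2, mul_one]
    by_cases hc : h ∈ Subgroup.centralizer (N : Set X)
    · have h3 : h * n * h⁻¹ = n := by
        rw [← Subgroup.mem_centralizer_iff.mp hc n hn]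
        group
      rw [h3]
      constructor
      · intro h4
        left
        refine ⟨hc, Subtype.ext ?_⟩
        change n = 1
        have h5 : orderOf n ∣ 2 := orderOf_dvd_of_pow_eq_one (by rw [pow_two, h4])
        have h6 : orderOf n ∣ q := by
          rw [← hNc]
          have := orderOf_dvd_natCard (⟨n, hn⟩ : N)
          rwa [Subgroup.orderOf_mk] at this
        have hcop : Nat.Coprime 2 q := (Nat.odd_iff.mpr hq2).coprime_two_left
        exact orderOf_eq_one_iff.mp (Nat.eq_one_of_dvd_coprimes hcop h5 h6)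
      · rintro (⟨-, h4⟩ | h4)
        · have h5 : n = 1 := congrArg Subtype.val h4
          rw [h5, mul_one]
        · exact absurd hc h4
    · have h3 := sk_inverts N hq hNc h hh2 hc n hn
      rw [h3, mul_inv_cancel]
      exact ⟨fun _ => Or.inr hc, fun _ => rfl⟩
  let e1 : {x : X // x * x = 1} ≃ {p : N × H // ((p.1 : X) * p.2) * ((p.1 : X) * p.2) = 1} :=
    ((Equiv.ofBijective _ hbij).subtypeEquiv (fun p => Iff.rfl)).symm
  let e2 : {p : N × H // ((p.1 : X) * p.2) * ((p.1 : X) * p.2) = 1} ≃
      {h : H // (h : X) ∈ Subgroup.centralizer (N : Set X)} ⊕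
        N × {h : H // ¬ (h : X) ∈ Subgroup.centralizer (N : Set X)} :=
    { toFun := fun p => if hc : (p.1.2 : X) ∈ Subgroup.centralizer (N : Set X) then
          Sum.inl ⟨p.1.2, hc⟩ else Sum.inr (p.1.1, ⟨p.1.2, hc⟩)
      invFun := fun s => match s with
        | Sum.inl h => ⟨(1, h.1), (key (1, h.1)).mpr (Or.inl ⟨h.2, rfl⟩)⟩
        | Sum.inr p => ⟨(p.1, p.2.1), (key (p.1, p.2.1)).mpr (Or.inr p.2.2)⟩
      left_inv := by
        rintro ⟨⟨n, h⟩, hp⟩
        rcases (key (n, h)).mp hp with ⟨h1, h2⟩ | h1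
        · have h2' : n = 1 := h2
          subst h2'
          have h1' : (h : X) ∈ Subgroup.centralizer (N : Set X) := h1
          simp only [dif_pos h1']
        · have h1' : ¬ (h : X) ∈ Subgroup.centralizer (N : Set X) := h1
          simp only [dif_neg h1']
      right_inv := by
        rintro (⟨h, hh⟩ | ⟨n, ⟨h, hh⟩⟩)
        · simp only [dif_pos hh]
        · simp only [dif_neg hh] }
  have hcC : Nat.card {h : H // (h : X) ∈ Subgroup.centralizer (N : Set X)} = 2 := by
    rw [← hc]
    refine Nat.card_congr ⟨fun h => ⟨h.1.1, h.1.2, h.2⟩, fun h => ⟨⟨h.1, h.2.1⟩, h.2.2⟩,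
      fun _ => rfl, fun _ => rfl⟩
  have hcC' : Nat.card {h : H // ¬ (h : X) ∈ Subgroup.centralizer (N : Set X)} = 2 := by
    have h1 : Nat.card H = Nat.card {h : H // (h : X) ∈ Subgroup.centralizer (N : Set X)} +
        Nat.card {h : H // ¬ (h : X) ∈ Subgroup.centralizer (N : Set X)} := by
      rw [← Nat.card_sum]
      exact Nat.card_congr (Equiv.sumCompl _).symm
    omega
  rw [Nat.card_congr (e1.trans e2), Nat.card_sum, Nat.card_prod, hcC, hcC', hNc]
  ring

/-- a self-centralising Klein four-group and a central involution -/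
theorem sol_klein_cent {X : Type} [Group X] (h : SolList X) (P : Subgroup X)
    (h4 : Nat.card P = 4) (h2 : ∀ v ∈ P, v * v = 1) (h8 : ¬ 8 ∣ Nat.card X)
    (hC : Subgroup.centralizer (P : Set X) ≤ P) (t : X) (ht : t * t = 1) (ht1 : t ≠ 1)
    (hc : ∀ g, t * g = g * t) :
    (Nat.card X = 4 ∧ ∀ x : X, x * x = 1) ∨ ∃ r, (r = 3 ∨ r = 5 ∨ r = 7) ∧ Nat.card X = 4 * r ∧
      Nat.card {x : X // x * x = 1} = 2 * r + 2 ∧
      ∃ R : Subgroup X, R.Normal ∧ Nat.card R = r ∧ ∃ x : X, ∃ y ∈ R, x * y ≠ y * x := by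
  haveI := h.1
  haveI : Fact (Nat.Prime 2) := ⟨Nat.prime_two⟩
  by_cases hab : ∀ x y : X, x * y = y * x
  · left
    have htop : P = ⊤ := by
      rw [eq_top_iff]
      intro g _
      apply hC
      rw [Subgroup.mem_centralizer_iff]
      intro w _
      exact hab w g
    refine ⟨?_, fun x => h2 x (by rw [htop]; exact Subgroup.mem_top x)⟩
    rw [← h4, htop]
    exact Subgroup.card_top.symm
  push Not at hab
  rcases sx_cases h hab with ⟨g, hg⟩ | ⟨⟨e⟩⟩ | h | h
  · exfalso
    rcases sk_dvd24 (sx_dvd24 g hg) (sk_four P h4) h8 with hc4 | hc12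
    · obtain ⟨x, y, hxy⟩ := hab
      have htop := sk_eq_of_card P h4 hc4
      exact hxy (sk_comm P h2 x (by rw [htop]; exact Subgroup.mem_top x) y
        (by rw [htop]; exact Subgroup.mem_top y))
    · have hidx : g.range.index = 2 := by
        have h1 := Subgroup.card_mul_index g.range
        rw [perm4_card, ← Nat.card_congr (MonoidHom.ofInjective hg).toEquiv, hc12] at h1
        omega
      have hr : g.range = alternatingGroup (Fin 4) :=
        Equiv.Perm.eq_alternatingGroup_of_index_eq_two hidx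
      have hmem : ∀ x, g x ∈ alternatingGroup (Fin 4) := fun x => by
        rw [← hr]
        exact ⟨x, rfl⟩
      have h1 : (⟨g t, hmem t⟩ : alternatingGroup (Fin 4)) = 1 := by
        apply sk_a4cen
        rintro ⟨y, hy⟩
        have hy' : y ∈ g.range := by rw [hr]; exact hy
        obtain ⟨x, rfl⟩ := hy'
        apply Subtype.ext
        change g t * g x = g x * g t
        rw [← map_mul, hc, map_mul]
      apply ht1
      apply hg
      rw [map_one]
      exact congrArg Subtype.val h1
  · exfalso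
    apply h8
    rw [Nat.card_congr e.toEquiv, sx_q8card]
  · exfalso
    apply h8
    rw [h.1]
    decide
  · right
    obtain ⟨q, c, d, N, H, hq, hN, hNc, hcompl, habH, hcc, hH, hd, hpar, -⟩ := h
    haveI := hN
    have hq2 := goodPP_odd (params_q hpar)
    have hcard : Nat.card X = q * Nat.card H := by
      rw [← hcompl.card_mul, hNc]
    have h4X := sk_four P h4
    have h4H : 2 ^ 2 ∣ Nat.card H := by
      have h1 : 2 ^ 2 ∣ q * Nat.card H := by rw [← hcard]; exact h4X
      refine Nat.Coprime.dvd_of_dvd_mul_left ?_ h1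
      exact Nat.Coprime.pow_left 2 (Nat.odd_iff.mpr hq2).coprime_two_left
    obtain ⟨S', hS'⟩ := Sylow.exists_subgroup_card_pow_prime (G := H) 2 h4H
    set S : Subgroup X := S'.map H.subtype with hS
    have hSc : Nat.card S = 4 := by
      have : Nat.card S = Nat.card S' :=
        Nat.card_congr (S'.equivMapOfInjective H.subtype H.subtype_injective).symm.toEquiv
      rw [this, hS']
      norm_num
    have hSH : S ≤ H := Subgroup.map_subtype_le S'
    have hfac : (Nat.card X).factorization 2 = 2 := by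
      have h0 : Nat.card X ≠ 0 := Nat.card_pos.ne'
      apply le_antisymm
      · by_contra hcon
        push Not at hcon
        apply h8
        have : 2 ^ 3 ∣ Nat.card X := (Nat.prime_two.pow_dvd_iff_le_factorization h0).mpr hcon
        exact this
      · exact (Nat.prime_two.pow_dvd_iff_le_factorization h0).mp h4X
    let SP : Sylow 2 X := Sylow.ofCard P (by rw [hfac, h4]; norm_num)
    let SS : Sylow 2 X := Sylow.ofCard S (by rw [hfac, hSc]; norm_num)
    obtain ⟨g, hg⟩ := MulAction.exists_smul_eq X SP SS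
    have hgS : ∀ v, v ∈ P ↔ g * v * g⁻¹ ∈ S := by
      intro v
      have h1 : (SS : Subgroup X) = MulAut.conj g • (SP : Subgroup X) := by
        rw [← hg]
        rfl
      have h2 : (SS : Subgroup X) = S := rfl
      have h3 : (SP : Subgroup X) = P := rfl
      rw [h2, h3] at h1
      rw [h1, Subgroup.mem_pointwise_smul_iff_inv_smul_mem]
      have : (MulAut.conj g)⁻¹ • (g * v * g⁻¹) = v := by
        rw [← map_inv, MulAut.smul_def, MulAut.conj_apply]
        group
      rw [this]
    have hHS : H ≤ S := by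
      intro x hx
      have h1 : g⁻¹ * x * g ∈ P := by
        apply hC
        rw [Subgroup.mem_centralizer_iff]
        intro v hv
        have h5 := hSH ((hgS v).mp hv)
        have h6 := habH _ h5 x hx
        calc v * (g⁻¹ * x * g) = g⁻¹ * ((g * v * g⁻¹) * x) * g := by group
          _ = g⁻¹ * (x * (g * v * g⁻¹)) * g := by rw [h6]
          _ = g⁻¹ * x * g * v := by group
      have h5 := (hgS _).mp h1
      have h6 : g * (g⁻¹ * x * g) * g⁻¹ = x := by group
      rwa [h6] at h5
    have hHeq : H = S := le_antisymm hHS hSH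
    have hH4 : Nat.card H = 4 := by rw [hHeq]; exact hSc
    have hH2 : ∀ x ∈ H, x * x = 1 := by
      intro x hx
      have h1 : g⁻¹ * x * g ∈ P := by
        rw [hgS]
        have h6 : g * (g⁻¹ * x * g) * g⁻¹ = x := by group
        rw [h6]
        exact hHS hx
      have h5 := h2 _ h1
      calc x * x = g * ((g⁻¹ * x * g) * (g⁻¹ * x * g)) * g⁻¹ := by group
        _ = 1 := by rw [h5]; group
    rw [hH4] at hH
    -- c = 2, d = 2
    have hcd : c = 2 ∧ d = 2 := by
      rcases params_c hpar with h1 | h1 | h1 | h1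
      · exfalso
        rw [h1] at hcc
        have hbot := Subgroup.card_eq_one.mp hcc
        -- H embeds in the automorphism group of N
        have hcyc : IsCyclic H := by
          obtain ⟨hcycA, -⟩ := mulAut_prime_cyc (N := N) hq hNc
          haveI := hcycA
          refine isCyclic_of_injective ((MulAut.conjNormal : X →* MulAut N).comp H.subtype) ?_
          rw [injective_iff_map_eq_one]
          rintro ⟨x, hx⟩ hx1
          have h5 : x ∈ (MulAut.conjNormal : X →* MulAut N).ker := hx1
          rw [← cent_eq_ker] at h5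
          have h6 : x ∈ (H ⊓ Subgroup.centralizer (N : Set X) : Subgroup X) := ⟨hx, h5⟩
          rw [hbot, Subgroup.mem_bot] at h6
          exact Subtype.ext h6
        obtain ⟨w, hw⟩ := IsCyclic.exists_generator (α := H)
        have h5 : orderOf w = 4 := by
          rw [← hH4]
          exact orderOf_eq_card_of_forall_mem_zpowers hw
        have h6 : orderOf w ∣ 2 := orderOf_dvd_of_pow_eq_one (by
          rw [pow_two]
          exact Subtype.ext (hH2 w.1 w.2))
        rw [h5] at h6
        omega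
      · refine ⟨h1, ?_⟩
        rw [h1] at hH
        omega
      · rw [h1] at hH
        omega
      · rw [h1] at hH
        omega
    obtain ⟨rfl, rfl⟩ := hcd
    have hqv : q = 3 ∨ q = 5 ∨ q = 7 := by
      rcases hpar with ⟨h1, h2⟩ | ⟨h1, h2, h3⟩ | ⟨h1, h2⟩ | ⟨h1, h2, h3⟩ | ⟨h1, h2⟩ | ⟨h1, h2, h3⟩
      · omega
      · omega
      · exact h2
      · omega
      · omega
      · omega
    refine ⟨q, hqv, by rw [hcard, hH4]; ring, sk_count N H hq hq2 hNc hcompl hH2 hcc hH4, N, hN, hNc, ?_⟩
    by_contra hcon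
    push Not at hcon
    have h1 : H ⊓ Subgroup.centralizer (N : Set X) = H := by
      rw [inf_eq_left]
      intro x _
      rw [Subgroup.mem_centralizer_iff]
      intro y hy
      exact (hcon x y hy).symm
    rw [h1, hH4] at hcc
    omega

end Pool.Agent.SHAF
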