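import Mathlib
import Pool.Agent.SHAN.NormQ
import Pool.Agent.SHAN.InvK
import Pool.Agent.SHAN.SolK

set_option autoImplicit false

/-!
Klein four-group as Sylow 2-subgroup: centralisers of involutions (module KLEINS).
-/

namespace Pool.Agent.SHAF

open Pool.Agent.SHA

variable {K : (G : Type) → [Group G] → Prop}

lemma ks_exp {V : Type} [Group V] [Finite V] (h4 : Nat.card V = 4) (hn : ¬ IsCyclic V) (v : V) :
    v * v = 1 := by
  obtain ⟨e⟩ := klein_of h4 hn
  have h : ∀ u : E 2, u * u = 1 := by decide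
  apply e.symm.injective
  rw [map_mul, map_one]
  exact h _

/-- a group whose quotient by a central subgroup of order 2 has a cyclic Sylow 2-subgroup -/
lemma ks_sol (hK : SHAClosed K) (hE : ¬ K (E 3)) {C : Type} [Group C] [Finite C] (hC : K C)
    (t : C) (ht : t * t = 1) (ht1 : t ≠ 1) (hc : ∀ g, t * g = g * t) (h8 : ¬ 8 ∣ Nat.card C) :
    Group.IsSolvable C := by
  haveI : Fact (Nat.Prime 2) := ⟨Nat.prime_two⟩
  have ho : orderOf t = 2 := orderOf_eq_prime (by rw [pow_two, ht]) ht1
  haveI hN : (Subgroup.zpowers t).Normal := by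
    refine ⟨fun x hx g => ?_⟩
    obtain ⟨k, rfl⟩ := Subgroup.mem_zpowers_iff.mp hx
    have h1 : g * t ^ k * g⁻¹ = t ^ k := by
      have : Commute t g := hc g
      have h2 := this.zpow_left k
      rw [← h2.eq]
      group
    rw [h1]
    exact Subgroup.zpow_mem _ (Subgroup.mem_zpowers t) k
  have hcard : Nat.card C = Nat.card (C ⧸ Subgroup.zpowers t) * 2 := by
    rw [Subgroup.card_eq_card_quotient_mul_card_subgroup (Subgroup.zpowers t), Nat.card_zpowers, ho]
  have h4 : ¬ 2 ^ 2 ∣ Nat.card (C ⧸ Subgroup.zpowers t) := by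
    rintro ⟨m, hm⟩
    apply h8
    rw [hcard, hm]
    exact ⟨m, by ring⟩
  obtain P : Sylow 2 (C ⧸ Subgroup.zpowers t) := default
  have hP : Nat.card P ≤ 2 := by
    obtain ⟨n, hn⟩ := IsPGroup.iff_card.mp P.2
    have hd : Nat.card P ∣ Nat.card (C ⧸ Subgroup.zpowers t) := Subgroup.card_subgroup_dvd_card _
    rw [hn] at hd ⊢
    have hn1 : n < 2 := by
      by_contra hcon
      exact h4 ((pow_dvd_pow 2 (by omega)).trans hd)
    interval_cases n <;> norm_num
  haveI : IsCyclic P := cyc_of_le3 (by omega)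
  have hKQ : K (C ⧸ Subgroup.zpowers t) :=
    hK.quo _ _ (QuotientGroup.mk' _) (QuotientGroup.mk'_surjective _) hC
  haveI := isZGroup_of_two hK hE hKQ P inferInstance
  haveI : Group.IsSolvable (C ⧸ Subgroup.zpowers t) := inferInstance
  haveI : Group.IsSolvable (Subgroup.zpowers t) := inferInstance
  refine Group.isSolvable_of_ker_le_range (Subgroup.zpowers t).subtype
    (QuotientGroup.mk' (Subgroup.zpowers t)) ?_
  rw [QuotientGroup.ker_mk', Subgroup.range_subtype]

lemma ks_no8 {G : Type} [Group G] [Finite G] (P : Sylow 2 G) (h4 : Nat.card P = 4) :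
    ¬ 8 ∣ Nat.card G := by
  haveI : Fact (Nat.Prime 2) := ⟨Nat.prime_two⟩
  intro h
  have h1 : 2 ^ 3 ∣ Nat.card P := by
    rw [Sylow.card_eq_multiplicity]
    exact pow_dvd_pow 2 ((Nat.prime_two.pow_dvd_iff_le_factorization Nat.card_pos.ne').mp h)
  rw [h4] at h1
  omega

/-- the normaliser of the Sylow 2-subgroup -/
lemma ks_norm (hK : SHAClosed K) (hE : ¬ K (E 3)) {G : Type} [Group G] [Finite G]
    [IsSimpleGroup G] (hG : K G) (hns : ¬ Group.IsSolvable G)
    (P : Sylow 2 G) (h4 : Nat.card P = 4) (hnc : ¬ IsCyclic P) :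
    Nat.card (Subgroup.normalizer ((P : Subgroup G) : Set G)) = 12 ∧
    Subgroup.centralizer ((P : Subgroup G) : Set G) ≤ P := by
  haveI : Fact (Nat.Prime 2) := ⟨Nat.prime_two⟩
  set X := Subgroup.normalizer ((P : Subgroup G) : Set G) with hX
  have hPX : (P : Subgroup G) ≤ X := Subgroup.le_normalizer
  have hexp : ∀ v ∈ (P : Subgroup G), v * v = 1 := by
    intro v hv
    have := ks_exp h4 hnc ⟨v, hv⟩
    exact congrArg Subtype.val this
  have hKX : K X := hK.sub _ _ X.subtype X.subtype_injective hG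
  haveI hPn : ((P : Subgroup G).subgroupOf X).Normal := inferInstance
  have hcP : Nat.card ((P : Subgroup G).subgroupOf X) = 4 := by
    rw [Nat.card_congr (Subgroup.subgroupOfEquivOfLe hPX).toEquiv]
    exact h4
  have h8 : ¬ 8 ∣ Nat.card X := fun h => ks_no8 P h4 (h.trans (Subgroup.card_subgroup_dvd_card X))
  have hsol : Group.IsSolvable X := by
    have hKQ : K (X ⧸ (P : Subgroup G).subgroupOf X) :=
      hK.quo _ _ (QuotientGroup.mk' _) (QuotientGroup.mk'_surjective _) hKX
    have hodd : ¬ 2 ∣ Nat.card (X ⧸ (P : Subgroup G).subgroupOf X) := by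
      rintro ⟨m, hm⟩
      apply h8
      rw [Subgroup.card_eq_card_quotient_mul_card_subgroup ((P : Subgroup G).subgroupOf X), hm, hcP]
      exact ⟨m, by ring⟩
    haveI := odd_isZGroup hK hE hKQ hodd
    haveI : Group.IsSolvable (X ⧸ (P : Subgroup G).subgroupOf X) := inferInstance
    haveI : Group.IsSolvable ((P : Subgroup G).subgroupOf X) := sol_two (n := 2) (by rw [hcP]; norm_num)
    refine Group.isSolvable_of_ker_le_range ((P : Subgroup G).subgroupOf X).subtype
      (QuotientGroup.mk' ((P : Subgroup G).subgroupOf X)) ?_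
    rw [QuotientGroup.ker_mk', Subgroup.range_subtype]
  haveI := hsol
  have hlist : SolList X := sol_forward hK hE X hKX
  obtain ⟨-, g, hg, v, hv, hgv⟩ := inv_klein hns P h4 hnc
  obtain ⟨h12, hc⟩ := sol_klein_norm hlist ((P : Subgroup G).subgroupOf X) hcP
    (fun u hu => Subtype.ext (hexp u.1 (Subgroup.mem_subgroupOf.mp hu))) h8
    ⟨⟨g, hg⟩, ⟨v, hPX hv⟩, Subgroup.mem_subgroupOf.mpr hv, fun h => hgv (congrArg Subtype.val h)⟩
  refine ⟨h12, fun g hg => ?_⟩
  have hgX : g ∈ X := Subgroup.centralizer_le_normalizer _ hg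
  have h1 : (⟨g, hgX⟩ : X) ∈ Subgroup.centralizer (((P : Subgroup G).subgroupOf X : Subgroup X) : Set X) := by
    rw [Subgroup.mem_centralizer_iff]
    intro u hu
    apply Subtype.ext
    exact Subgroup.mem_centralizer_iff.mp hg u.1 (Subgroup.mem_subgroupOf.mp hu)
  exact Subgroup.mem_subgroupOf.mp (hc h1)

theorem klein_struct (hK : SHAClosed K) (hE : ¬ K (E 3)) {G : Type} [Group G] [Finite G]
    [IsSimpleGroup G] (hG : K G) (hns : ¬ Group.IsSolvable G)
    (IH : ∀ (H : Type) [Group H] [Finite H], K H → Nat.card H < Nat.card G → FinList H)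
    (P : Sylow 2 G) (h4 : Nat.card P = 4) (hnc : ¬ IsCyclic P) :
    Nat.card (Subgroup.normalizer ((P : Subgroup G) : Set G)) = 12 ∧
    Subgroup.centralizer ((P : Subgroup G) : Set G) ≤ P ∧
    ∀ t : G, t * t = 1 → t ≠ 1 →
      (Nat.card (Subgroup.centralizer {t}) = 4 ∧
        Nat.card {x : Subgroup.centralizer {t} // x * x = 1} = 4) ∨
      ∃ r, (r = 3 ∨ r = 5 ∨ r = 7) ∧ Nat.card (Subgroup.centralizer {t}) = 4 * r ∧
        Nat.card {x : Subgroup.centralizer {t} // x * x = 1} = 2 * r + 2 ∧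
        ∃ R : Subgroup G, R ≤ Subgroup.centralizer {t} ∧ Nat.card R = r ∧
          (∃ x ∈ Subgroup.centralizer {t}, x ∈ Subgroup.normalizer (R : Set G) ∧
            ∃ y ∈ R, x * y ≠ y * x) ∧
          ∃ s ∈ Subgroup.normalizer (R : Set G), s * s = 1 ∧ s ≠ 1 ∧ ∃ y ∈ R, s * y ≠ y * s := by
  haveI : Fact (Nat.Prime 2) := ⟨Nat.prime_two⟩
  obtain ⟨h12, hcP⟩ := ks_norm hK hE hG hns P h4 hnc
  refine ⟨h12, hcP, fun t ht ht1 => ?_⟩
  have ho : orderOf t = 2 := orderOf_eq_prime (by rw [pow_two, ht]) ht1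
  have hpg : IsPGroup 2 (Subgroup.zpowers t) :=
    IsPGroup.of_card (n := 1) (by rw [Nat.card_zpowers, ho]; norm_num)
  obtain ⟨S, hS⟩ := hpg.exists_le_sylow
  have htS : t ∈ (S : Subgroup G) := hS (Subgroup.mem_zpowers t)
  have e : P ≃* S := Sylow.equiv P S
  have h4S : Nat.card S = 4 := by
    rw [← h4]
    exact (Nat.card_congr e.toEquiv).symm
  have hncS : ¬ IsCyclic S := fun h => hnc (isCyclic_of_injective e.toMonoidHom e.injective)
  obtain ⟨-, hcS⟩ := ks_norm hK hE hG hns S h4S hncS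
  have hexp : ∀ v ∈ (S : Subgroup G), v * v = 1 := by
    intro v hv
    have := ks_exp h4S hncS ⟨v, hv⟩
    exact congrArg Subtype.val this
  have hcomm : ∀ u ∈ (S : Subgroup G), ∀ v ∈ (S : Subgroup G), u * v = v * u := by
    intro u hu v hv
    have h1 := hexp _ (S.mul_mem hu hv)
    have h2 := hexp u hu
    have h3 := hexp v hv
    calc u * v = u * (u * v * (u * v)) * v := by rw [h1]; group
      _ = (u * u) * (v * u) * (v * v) := by group
      _ = v * u := by rw [h2, h3]; group
  set C := Subgroup.centralizer ({t} : Set G) with hCdef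
  have hSC : (S : Subgroup G) ≤ C := by
    intro v hv
    rw [hCdef, Subgroup.mem_centralizer_iff]
    rintro w rfl
    exact hcomm _ htS _ hv
  have htC : t ∈ C := hSC htS
  have hKC : K C := hK.sub _ _ C.subtype C.subtype_injective hG
  have h8 : ¬ 8 ∣ Nat.card C := fun h => ks_no8 P h4 (h.trans (Subgroup.card_subgroup_dvd_card C))
  have htc : ∀ g : C, (⟨t, htC⟩ : C) * g = g * ⟨t, htC⟩ := by
    intro g
    apply Subtype.ext
    exact Subgroup.mem_centralizer_iff.mp g.2 t (Set.mem_singleton t)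
  have htt : (⟨t, htC⟩ : C) * ⟨t, htC⟩ = 1 := Subtype.ext ht
  have htn : (⟨t, htC⟩ : C) ≠ 1 := fun h => ht1 (congrArg Subtype.val h)
  haveI := ks_sol hK hE hKC ⟨t, htC⟩ htt htn htc h8
  have hlist : SolList C := sol_forward hK hE C hKC
  have hcard : Nat.card ((S : Subgroup G).subgroupOf C) = 4 := by
    rw [Nat.card_congr (Subgroup.subgroupOfEquivOfLe hSC).toEquiv]
    exact h4S
  rcases sol_klein_cent hlist ((S : Subgroup G).subgroupOf C) hcard
    (fun u hu => Subtype.ext (hexp u.1 (Subgroup.mem_subgroupOf.mp hu))) h8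
    (fun g hg => by
      rw [Subgroup.mem_subgroupOf]
      apply hcS
      rw [Subgroup.mem_centralizer_iff]
      intro v hv
      exact congrArg Subtype.val (Subgroup.mem_centralizer_iff.mp hg ⟨v, hSC hv⟩
        (Subgroup.mem_subgroupOf.mpr hv)))
    ⟨t, htC⟩ htt htn htc with ⟨hc4, hall⟩ | ⟨r, hr, hcr, hcnt, R, hRn, hRc, x, y, hy, hxy⟩
  · left
    refine ⟨hc4, ?_⟩
    rw [← hc4]
    exact Nat.card_congr (Equiv.subtypeUnivEquiv hall)
  · right
    have hxn : ∀ x : C, (x : G) ∈ Subgroup.normalizer ((R.map C.subtype : Subgroup G) : Set G) := by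
      intro x
      rw [Subgroup.mem_normalizer_iff]
      intro z
      constructor
      · rintro ⟨w, hw, rfl⟩
        exact ⟨x * w * x⁻¹, hRn.conj_mem w hw x, rfl⟩
      · rintro ⟨w, hw, hwz⟩
        refine ⟨x⁻¹ * w * x, ?_, ?_⟩
        · have := hRn.conj_mem w hw x⁻¹
          rwa [inv_inv] at this
        · change x.1⁻¹ * w.1 * x.1 = z
          have hwz' : w.1 = x.1 * z * x.1⁻¹ := hwz
          rw [hwz']
          group
    have hcR : Nat.card (R.map C.subtype) = r := by
      rw [← hRc]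
      exact Nat.card_congr (R.equivMapOfInjective C.subtype C.subtype_injective).symm.toEquiv
    refine ⟨r, hr, hcr, hcnt, R.map C.subtype, Subgroup.map_subtype_le R, hcR,
      ⟨x.1, x.2, hxn x, y.1, ⟨y, hy, rfl⟩, fun h => hxy (Subtype.ext h)⟩, ?_⟩
    by_contra hcon
    push Not at hcon
    -- everything in S centralises R
    have hScen : (S : Subgroup G).subgroupOf C ≤ Subgroup.centralizer (R : Set C) := by
      intro u hu
      rw [Subgroup.mem_centralizer_iff]
      intro v hv
      apply Subtype.ext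
      change v.1 * u.1 = u.1 * v.1
      by_cases hu1 : u.1 = 1
      · rw [hu1, one_mul, mul_one]
      · exact (hcon u.1 (hxn u) (hexp u.1 (Subgroup.mem_subgroupOf.mp hu)) hu1 v.1 ⟨v, hv, rfl⟩).symm
    have hRcen : R ≤ Subgroup.centralizer (R : Set C) := by
      have hrp : r.Prime := by
        rcases hr with rfl | rfl | rfl <;> norm_num
      haveI : Fact r.Prime := ⟨hrp⟩
      haveI : IsCyclic R := isCyclic_of_prime_card hRc
      intro u hu
      rw [Subgroup.mem_centralizer_iff]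
      intro v hv
      obtain ⟨g, hg⟩ := IsCyclic.exists_generator (α := R)
      obtain ⟨i, hi⟩ := Subgroup.mem_zpowers_iff.mp (hg ⟨u, hu⟩)
      obtain ⟨j, hj⟩ := Subgroup.mem_zpowers_iff.mp (hg ⟨v, hv⟩)
      have h1 : (⟨v, hv⟩ : R) * ⟨u, hu⟩ = ⟨u, hu⟩ * ⟨v, hv⟩ := by
        rw [← hi, ← hj, ← zpow_add, ← zpow_add, add_comm]
      exact congrArg Subtype.val h1
    have h1 : 4 ∣ Nat.card (Subgroup.centralizer (R : Set C)) := by
      rw [← hcard]
      exact Subgroup.card_dvd_of_le hScen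
    have h2 : r ∣ Nat.card (Subgroup.centralizer (R : Set C)) := by
      rw [← hRc]
      exact Subgroup.card_dvd_of_le hRcen
    have hcop : Nat.Coprime 4 r := by
      rcases hr with rfl | rfl | rfl <;> norm_num
    have h3 : 4 * r ∣ Nat.card (Subgroup.centralizer (R : Set C)) := hcop.mul_dvd_of_dvd_of_dvd h1 h2
    have h4' : Nat.card (Subgroup.centralizer (R : Set C)) = Nat.card C :=
      Nat.dvd_antisymm (Subgroup.card_subgroup_dvd_card _) (by rw [hcr]; exact h3)
    have h5 := Subgroup.eq_top_of_card_eq _ h4'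
    apply hxy
    have h6 : x ∈ Subgroup.centralizer (R : Set C) := by rw [h5]; exact Subgroup.mem_top x
    exact (Subgroup.mem_centralizer_iff.mp h6 y hy).symm

end Pool.Agent.SHAF
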