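import Mathlib
import Pool.Agent.SHAN.KleinS
import Pool.Agent.SHAN.Common
import Pool.Agent.SHAN.Conj
import Pool.Agent.SHAN.Two
import Pool.Agent.SHAN.Arith1
import Pool.Agent.SHAN.Arith2
import Pool.Agent.SHAN.Burn3
import Pool.Agent.SHAN.Sixty
import Pool.Agent.SHAN.IdB
import Pool.Agent.SHAN.IdC
import Pool.Agent.SHAN.IdD
import Pool.Agent.SHAN.Outer

set_option autoImplicit false

/-!
Simple groups with a Klein four-group as Sylow 2-subgroup (module CASEK).
-/

namespace Pool.Agent.SHAF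

open Pool.Agent.SHA

variable {K : (G : Type) → [Group G] → Prop}

/-- `gcount` is positive if `t` inverts an element of order `p` -/
lemma gcount_pos {G : Type} [Group G] [Finite G] (t y : G) {p : ℕ} (hy : orderOf y = p)
    (h : t * y * t⁻¹ = y⁻¹) : gcount t p ≠ 0 := by
  have : Nonempty {x : G // t * x * t⁻¹ = x⁻¹ ∧ p ∣ orderOf x} := ⟨⟨y, h, by rw [hy]⟩⟩
  exact Nat.card_pos.ne'

/-- conjugates of inverted elements -/
lemma conj_inverted {G : Type} [Group G] (g s t y : G) (h : g * s * g⁻¹ = t)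
    (hy : s * y * s⁻¹ = y⁻¹) : t * (g * y * g⁻¹) * t⁻¹ = (g * y * g⁻¹)⁻¹ := by
  rw [← h]
  calc g * s * g⁻¹ * (g * y * g⁻¹) * (g * s * g⁻¹)⁻¹ = g * (s * y * s⁻¹) * g⁻¹ := by group
    _ = g * y⁻¹ * g⁻¹ := by rw [hy]
    _ = (g * y * g⁻¹)⁻¹ := by group

/-- the case `|C(t)| = 12` -/
lemma case_twelve (hK : SHAClosed K) (hE : ¬ K (E 3)) {G : Type} [Group G] [Finite G]
    [IsSimpleGroup G] (hG : K G) (hns : ¬ Group.IsSolvable G)
    (hconj : ∀ s t : G, s * s = 1 → s ≠ 1 → t * t = 1 → t ≠ 1 → ∃ g, g * s * g⁻¹ = t)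
    (t : G) (ht : t * t = 1) (ht1 : t ≠ 1)
    (ha : Nat.card (Subgroup.centralizer ({t} : Set G)) = 12)
    (hn : ∃ x ∈ Subgroup.centralizer ({t} : Set G), ∃ y ∈ Subgroup.centralizer ({t} : Set G),
      x * y ≠ y * x)
    (hcard : Nat.card G = 660 ∨ Nat.card G = 1092) : False := by
  have hall : ∀ s : G, s * s = 1 → s ≠ 1 → Nat.card (Subgroup.centralizer ({s} : Set G)) = 12 ∧
      ∃ x ∈ Subgroup.centralizer ({s} : Set G), ∃ y ∈ Subgroup.centralizer ({s} : Set G),
        x * y ≠ y * x := by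
    intro s hs hs1
    obtain ⟨g, hg⟩ := hconj t s ht ht1 hs hs1
    obtain ⟨f⟩ := cd_conj g t s hg
    refine ⟨by rw [Nat.card_congr f.toEquiv, ha], ?_⟩
    obtain ⟨x, hx, y, hy, hxy⟩ := hn
    refine ⟨(f.symm ⟨x, hx⟩).1, (f.symm ⟨x, hx⟩).2, (f.symm ⟨y, hy⟩).1, (f.symm ⟨y, hy⟩).2, ?_⟩
    intro h
    apply hxy
    have h1 : f.symm ⟨x, hx⟩ * f.symm ⟨y, hy⟩ = f.symm ⟨y, hy⟩ * f.symm ⟨x, hx⟩ := Subtype.ext h
    rw [← map_mul, ← map_mul] at h1
    exact congrArg Subtype.val (f.symm.injective h1)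
  obtain ⟨α, hα1, hα2⟩ : ∃ α : MulAut G, (∀ g, α ≠ MulAut.conj g) ∧ ∃ g, α * α = MulAut.conj g := by
    rcases hcard with h | h
    · obtain ⟨φ, hφ⟩ := exists_line (G := G) 11 (Or.inr (Or.inl rfl)) (by rw [h])
      exact line_outer 11 (Or.inr (Or.inl rfl)) φ hφ
        (line_inv7 11 (Or.inr rfl) φ hφ (by rw [h]; decide) (by
          intro s hs hs1
          rw [(hall s hs hs1).1]
          decide))
    · obtain ⟨φ, hφ⟩ := exists_line (G := G) 13 (Or.inr (Or.inr rfl)) (by rw [h])
      exact line_outer 13 (Or.inr (Or.inr rfl)) φ hφ (line_inv13 φ hφ hall)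
  exact no_outer hK hE hG (fun z hz => center_triv hns z hz) t ht ht1 hconj (Or.inr ha) hn α hα1 hα2

theorem case_klein (hK : SHAClosed K) (hE : ¬ K (E 3)) {G : Type} [Group G] [Finite G]
    [IsSimpleGroup G] (hG : K G) (hns : ¬ Group.IsSolvable G)
    (IH : ∀ (H : Type) [Group H] [Finite H], K H → Nat.card H < Nat.card G → FinList H)
    (P : Sylow 2 G) (h4 : Nat.card P = 4) (hnc : ¬ IsCyclic P) :
    Nonempty (G ≃* alternatingGroup (Fin 5)) := by
  haveI : Fact (Nat.Prime 2) := ⟨Nat.prime_two⟩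
  obtain ⟨hconj, -⟩ := inv_klein hns P h4 hnc
  obtain ⟨h12, hcP, hst⟩ := klein_struct hK hE hG hns IH P h4 hnc
  have h12G : 12 ∣ Nat.card G := by
    rw [← h12]
    exact Subgroup.card_subgroup_dvd_card _
  have h2G : 2 ∣ Nat.card G := (by decide : 2 ∣ 12).trans h12G
  obtain ⟨t, ht2⟩ := exists_prime_orderOf_dvd_card' (G := G) 2 h2G
  have ht : t * t = 1 := by
    have := pow_orderOf_eq_one t
    rwa [ht2, pow_two] at this
  have ht1 : t ≠ 1 := by
    rintro rfl
    rw [orderOf_one] at ht2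
    omega
  have hlt := cent_lt hns t ht1
  obtain ⟨n, hn1, hn2⟩ := class_count hconj t ht ht1
  have hND := nd_of hK hE hG hns IH t
  have htot := total_count t ht (disj t ht hND)
  have hdefg : ∑ p ∈ (Nat.card G).primeFactors.erase 2,
      Nat.card {x : G // t * x * t⁻¹ = x⁻¹ ∧ p ∣ orderOf x} =
      ∑ p ∈ (Nat.card G).primeFactors.erase 2, gcount t p := rfl
  rw [hn1, two_klein P h4 hnc t ht, hdefg] at htot
  -- an element of order 3 is inverted by t
  have h3 : gcount t 3 ≠ 0 := by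
    haveI : Fact (Nat.Prime 3) := ⟨Nat.prime_three⟩
    obtain P3 : Sylow 3 G := default
    have hcyc : IsCyclic P3 := odd_p_groups hK hE Nat.prime_three (by norm_num)
      (hK.sub _ _ P3.1.subtype P3.1.subtype_injective hG) P3.2
    have h2el : ∀ x : G, (∃ k, orderOf x = 2 ^ k) → x * x = 1 := by
      rintro x ⟨k, hk⟩
      have hpg : IsPGroup 2 (Subgroup.zpowers x) := IsPGroup.of_card (n := k) (by rw [Nat.card_zpowers, hk])
      obtain ⟨S, hS⟩ := hpg.exists_le_sylow
      have e : P ≃* S := Sylow.equiv P S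
      have h4S : Nat.card S = 4 := by
        rw [← h4]
        exact (Nat.card_congr e.toEquiv).symm
      have hncS : ¬ IsCyclic S := fun h => hnc (isCyclic_of_injective e.toMonoidHom e.injective)
      exact congrArg Subtype.val (ks_exp h4S hncS ⟨x, hS (Subgroup.mem_zpowers x)⟩)
    obtain ⟨s, y, hs, hs1, hy, hsy⟩ := burn3 hns P3 hcyc ((by decide : 3 ∣ 12).trans h12G) h2el
    obtain ⟨g, hg⟩ := hconj s t hs hs1 ht ht1
    refine gcount_pos t (g * y * g⁻¹) ?_ (conj_inverted g s t y hg hsy)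
    rw [← hy]
    exact (MulAut.conj g).orderOf_eq y
  have h3mem : 3 ∈ (Nat.card G).primeFactors.erase 2 := by
    rw [Finset.mem_erase, Nat.mem_primeFactors]
    exact ⟨by norm_num, Nat.prime_three, (by decide : 3 ∣ 12).trans h12G, Nat.card_pos.ne'⟩
  rcases hst t ht ht1 with ⟨ha, hcnt⟩ | ⟨r, hr, ha, hcnt, R, hRC, hRc, ⟨x, hxC, hxN, y, hyR, hxy⟩,
    s, hsN, hs, hs1, y', hy'R, hsy'⟩
  · -- |C(t)| = 4
    rw [hcnt] at htot
    rw [ha] at hn2
    have hPa : Nat.card P ∣ 4 := by rw [h4]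
    have hloc : ∀ p ∈ (Nat.card G).primeFactors.erase 2, gcount t p = 0 ∨
        ∃ s, Loc 4 n p s ∧ gcount t p = (p - 1) * s := by
      intro p hp
      rw [Finset.mem_erase] at hp
      have hpp := Nat.prime_of_mem_primeFactors hp.2
      rcases local_loc hconj t ht ht1 hND P hnc ha hPa hn2 hpp hp.1 with
        h | h | ⟨Q, H, c, d, h, hi, hd, hc, -⟩
      · exact Or.inl h
      · exact Or.inr h
      · exfalso
        have h1 := dvd_cent h hconj hc t ht ht1
        rw [ha] at h1
        have h2 : p ∣ 2 ^ 2 := h1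
        exact hp.1 ((Nat.prime_dvd_prime_iff_eq hpp Nat.prime_two).mp (hpp.dvd_of_dvd_pow h2))
    obtain ⟨hL, hsum⟩ := loc_sum _ (gcount t) hloc
    rcases arith_k4 n _ _ hL (by rw [← hsum]; omega) with h | h
    · exfalso
      -- order 12
      have hcG : Nat.card G = 12 := by rw [← hn2, h]
      have htop := Subgroup.eq_top_of_card_eq (Subgroup.normalizer ((P : Subgroup G) : Set G))
        (by rw [h12, hcG])
      haveI : (P : Subgroup G).Normal := Subgroup.normalizer_eq_top_iff.mp htop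
      rcases (inferInstance : (P : Subgroup G).Normal).eq_bot_or_eq_top with h5 | h5
      · have : Nat.card (P : Subgroup G) = 1 := by rw [h5]; exact Subgroup.card_bot
        omega
      · have h6 : Nat.card (P : Subgroup G) = Nat.card G := by rw [h5]; exact Subgroup.card_top
        omega
    · exact simple60 (by rw [← hn2, h]) (Subgroup.normalizer ((P : Subgroup G) : Set G)) h12
  · exfalso
    have hrp : r.Prime := by
      rcases hr with rfl | rfl | rfl <;> norm_num
    have hr2 : r ≠ 2 := by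
      rcases hr with rfl | rfl | rfl <;> norm_num
    rw [hcnt] at htot
    rw [ha] at hn2
    have hPa : Nat.card P ∣ 4 * r := by rw [h4]; exact Dvd.intro r rfl
    -- the contribution of r
    have hgr : gcount t r = 4 * r * (r - 1) := by
      haveI : Fact r.Prime := ⟨hrp⟩
      have hinv := inverts hrp R hRc s hs hsN ⟨y', hy'R, hsy'⟩
      obtain ⟨⟨w, hwR⟩, hw2⟩ := exists_prime_orderOf_dvd_card' (G := R) r (by rw [hRc])
      rw [Subgroup.orderOf_mk] at hw2
      obtain ⟨g, hg⟩ := hconj s t hs hs1 ht ht1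
      have hne : gcount t r ≠ 0 := by
        refine gcount_pos t (g * w * g⁻¹) ?_ (conj_inverted g s t w hg (hinv w hwR))
        rw [← hw2]
        exact (MulAut.conj g).orderOf_eq w
      rcases local_loc hconj t ht ht1 hND P hnc ha hPa hn2 hrp hr2 with
        h | ⟨s', h, -⟩ | ⟨Q, H, c, d, h, hi, hd, hc, s', hs'0, hs', hg'⟩
      · exact absurd h hne
      · exact absurd (Dvd.intro_left 4 rfl) h.ha
      · obtain ⟨hc2, hd2⟩ := par_klein h P h4 hnc hcP hd hc
        subst hc2 hd2
        have hj : Nat.card {x : G // x ∈ H ∧ x ∈ Subgroup.centralizer (Q : Set G) ∧ x * x = 1} = 2 := by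
          rw [← h.cardC]
          refine Nat.card_congr (Equiv.subtypeEquivRight fun u => ?_)
          constructor
          · rintro ⟨h1, h2, -⟩
            exact ⟨h1, h2⟩
          · rintro ⟨h1, h2⟩
            refine ⟨h1, h2, ?_⟩
            have h3 := pow_card_eq_one' (x := (⟨u, h1, h2⟩ :
              (H ⊓ Subgroup.centralizer (Q : Set G) : Subgroup G)))
            rw [h.cardC, pow_two] at h3
            exact congrArg Subtype.val h3
        rw [hj] at hs' hg'
        have hs2 : s' = 2 * r := by omega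
        rw [hg', hs2]
        ring
    have hrmem : r ∈ (Nat.card G).primeFactors.erase 2 := by
      rw [Finset.mem_erase, Nat.mem_primeFactors]
      refine ⟨hr2, hrp, ?_, Nat.card_pos.ne'⟩
      rw [← hn2]
      exact (Dvd.intro_left 4 rfl : r ∣ 4 * r).mul_right n
    have hloc : ∀ p ∈ ((Nat.card G).primeFactors.erase 2).erase r, gcount t p = 0 ∨
        ∃ s, Loc (4 * r) n p s ∧ gcount t p = (p - 1) * s := by
      intro p hp
      rw [Finset.mem_erase, Finset.mem_erase] at hp
      have hpp := Nat.prime_of_mem_primeFactors hp.2.2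
      rcases local_loc hconj t ht ht1 hND P hnc ha hPa hn2 hpp hp.2.1 with
        h | h | ⟨Q, H, c, d, h, hi, hd, hc, -⟩
      · exact Or.inl h
      · exact Or.inr h
      · exfalso
        have h1 := dvd_cent h hconj hc t ht ht1
        rw [ha] at h1
        rcases (hpp.dvd_mul).mp h1 with h2 | h2
        · have h3 : p ∣ 2 ^ 2 := h2
          exact hp.2.1 ((Nat.prime_dvd_prime_iff_eq hpp Nat.prime_two).mp (hpp.dvd_of_dvd_pow h3))
        · exact hp.1 ((Nat.prime_dvd_prime_iff_eq hpp hrp).mp h2)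
    obtain ⟨hL, hsum⟩ := loc_sum _ (gcount t) hloc
    rw [← Finset.add_sum_erase _ _ hrmem, hgr, hsum] at htot
    rcases hr with rfl | rfl | rfl
    · rcases arith_k12 n _ _ hL (by omega) with h | h | h
      · exact not_simple hns (Or.inl (by rw [← hn2, h]))
      · exact case_twelve hK hE hG hns hconj t ht ht1 ha ⟨x, hxC, y, hRC hyR, hxy⟩
          (Or.inl (by rw [← hn2, h]))
      · exact case_twelve hK hE hG hns hconj t ht ht1 ha ⟨x, hxC, y, hRC hyR, hxy⟩
          (Or.inr (by rw [← hn2, h]))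
    · have h3T : 3 ∈ (((Nat.card G).primeFactors.erase 2).erase 5).filter
          (fun p => gcount t p ≠ 0) := by
        rw [Finset.mem_filter, Finset.mem_erase]
        exact ⟨⟨by norm_num, h3mem⟩, h3⟩
      have h := arith_k20 n _ _ hL h3T (by omega)
      exact not_simple hns (Or.inr (Or.inl (by rw [← hn2, h])))
    · have h3T : 3 ∈ (((Nat.card G).primeFactors.erase 2).erase 7).filter
          (fun p => gcount t p ≠ 0) := by
        rw [Finset.mem_filter, Finset.mem_erase]
        exact ⟨⟨by norm_num, h3mem⟩, h3⟩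
      exact arith_k28 n _ _ hL h3T (by omega)

end Pool.Agent.SHAF
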