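import Mathlib
import Pool.Agent.SHAN.Arith

set_option autoImplicit false

/-!
Arithmetic, quaternion groups (module AR3).
-/

namespace Pool.Agent.SHAF

/-- the candidates for the primes -/
def ar3_L : List ℕ := [3, 5, 7, 11, 13, 17, 19, 23, 29, 31, 37, 43, 47, 59, 163, 487, 1459]

/-- the candidates for the numbers `s` -/
def ar3_D (a : ℕ) : List ℕ := [2, 4, 6, 8, 10, 12, 20, 24, 30, 40, 60].filter fun t => Nat.beq (a % t) 0

/-- the conditions on `s` -/
def ar3_c (a n p s : ℕ) : Bool :=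
  Nat.beq (n % p) 0 && (!(Nat.beq (a % p) 0) && (Nat.beq (s * n / p % p) 1 &&
    (!(Nat.beq (n % (p * p)) 0) &&
      ((Nat.beq (a % s) 0 && (Nat.beq (a / s % 2) 0 && Nat.beq ((p - 1) % (a / s)) 0)) ||
        (Nat.beq (a % (3 * s)) 0 && (Nat.beq (a / (3 * s) % 2) 0 &&
          (Nat.beq ((p - 1) % (a / (3 * s))) 0 &&
            (Nat.beq p 5 || (Nat.beq p 7 && Nat.beq (a / (3 * s)) 2)))))))))

/-- one prime -/
def ar3_k1 (a : ℕ) : Bool :=
  ar3_L.all fun q => (ar3_D a).all fun t => !(ar3_c a (1 + (q - 1) * t) q t)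

/-- two primes -/
def ar3_k2 (a : ℕ) : Bool :=
  ar3_L.all fun p => Nat.beq (a % p) 0 || ar3_L.all fun q => Nat.ble q p ||
    (ar3_D a).all fun u => (ar3_D a).all fun t =>
      !(ar3_c a (1 + ((p - 1) * u + (q - 1) * t)) q t && ar3_c a (1 + ((p - 1) * u + (q - 1) * t)) p u)

/-- three primes -/
def ar3_k3 (a h : ℕ) : Bool :=
  ar3_L.all fun p => Nat.beq (a % p) 0 || ar3_L.all fun r => Nat.ble r p || (Nat.beq (a % r) 0 ||
    (Nat.ble (3 * h) (p * r) || ar3_L.all fun q => Nat.ble q r ||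
      (ar3_D a).all fun u => (ar3_D a).all fun v => (ar3_D a).all fun t =>
        !(ar3_c a (1 + (((p - 1) * u + (r - 1) * v) + (q - 1) * t)) q t &&
          (ar3_c a (1 + (((p - 1) * u + (r - 1) * v) + (q - 1) * t)) p u &&
            ar3_c a (1 + (((p - 1) * u + (r - 1) * v) + (q - 1) * t)) r v))))

theorem ar3_k1_8 : ar3_k1 8 = true := by decide +kernel

theorem ar3_k1_24 : ar3_k1 24 = true := by decide +kernel

theorem ar3_k1_120 : ar3_k1 120 = true := by decide +kernel

theorem ar3_k2_8 : ar3_k2 8 = true := by decide +kernel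

theorem ar3_k2_24 : ar3_k2 24 = true := by decide +kernel

theorem ar3_k2_120 : ar3_k2 120 = true := by decide +kernel

theorem ar3_k3_8 : ar3_k3 8 4 = true := by decide +kernel

theorem ar3_k3_24 : ar3_k3 24 12 = true := by decide +kernel

theorem ar3_k3_120 : ar3_k3 120 60 = true := by decide +kernel

theorem ar3_c_of {a n p s : ℕ} (h : Loc a n p s) (hd : p ∣ n) : ar3_c a n p s = true := by
  obtain ⟨c, d, h1, h2, h3, h4⟩ := h.cd
  obtain ⟨N, h5, h6⟩ := h.syl
  have hs := h.pos
  have hp := h.hp.pos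
  have e1 : Nat.beq (n % p) 0 = true := Nat.beq_eq.mpr (Nat.eq_zero_of_dvd_of_lt
    ((Nat.dvd_mod_iff dvd_rfl).2 hd) (Nat.mod_lt _ hp))
  have e2 : Nat.beq (a % p) 0 = false := by
    rw [← Bool.not_eq_true, Nat.beq_eq]
    exact fun h' => h.ha (Nat.dvd_of_mod_eq_zero h')
  have e3 : Nat.beq (s * n / p % p) 1 = true := by
    rw [Nat.beq_eq, ← h5, Nat.mul_div_cancel _ hp, h6]
  have e4 : Nat.beq (n % (p * p)) 0 = false := by
    rw [← Bool.not_eq_true, Nat.beq_eq]
    exact fun h' => h.sq (by rw [pow_two]; exact Nat.dvd_of_mod_eq_zero h')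
  unfold ar3_c
  rw [e1, e2, e3, e4]
  rcases h4 with rfl | ⟨rfl, h4⟩
  · have f1 : a = d * s := by rw [← h1]; ring
    have f2 : a / s = d := by rw [f1, Nat.mul_div_cancel _ hs]
    have f3 : Nat.beq (a % s) 0 = true := by rw [Nat.beq_eq, f1, Nat.mul_mod_left]
    have f4 : Nat.beq (a / s % 2) 0 = true := by
      rw [Nat.beq_eq, f2]
      exact Nat.mod_eq_zero_of_dvd h2
    have f5 : Nat.beq ((p - 1) % (a / s)) 0 = true := by
      rw [Nat.beq_eq, f2]
      exact Nat.mod_eq_zero_of_dvd h3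
    rw [f3, f4, f5]
    rfl
  · have h3s : 0 < 3 * s := by omega
    have f1 : a = d * (3 * s) := by rw [← h1]; ring
    have f2 : a / (3 * s) = d := by rw [f1, Nat.mul_div_cancel _ h3s]
    have f3 : Nat.beq (a % (3 * s)) 0 = true := by rw [Nat.beq_eq, f1, Nat.mul_mod_left]
    have f4 : Nat.beq (a / (3 * s) % 2) 0 = true := by
      rw [Nat.beq_eq, f2]
      exact Nat.mod_eq_zero_of_dvd h2
    have f5 : Nat.beq ((p - 1) % (a / (3 * s))) 0 = true := by
      rw [Nat.beq_eq, f2]
      exact Nat.mod_eq_zero_of_dvd h3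
    have f6 : (Nat.beq p 5 || (Nat.beq p 7 && Nat.beq (a / (3 * s)) 2)) = true := by
      rw [f2]
      rcases h4 with h4 | ⟨h4, h7⟩
      · rw [h4]
        rfl
      · rw [h4, h7]
        rfl
    rw [f3, f4, f5, f6]
    simp

theorem ar3_mem {p : ℕ} (hp : p.Prime) (hg : GoodPP p) (hlt : p < 4375) : p ∈ ar3_L := by
  rcases hg with ⟨k, hk, rfl⟩ | h | ⟨_, j, hj, rfl⟩
  · have h1 : k = 1 := by
      by_contra hne
      exact Nat.Prime.not_prime_pow (by omega : 2 ≤ k) hp
    rw [h1]
    decide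
  · simp only [List.mem_cons, List.not_mem_nil, or_false] at h
    rcases h with rfl | rfl | rfl | rfl | rfl | rfl | rfl | rfl | rfl | rfl | rfl | rfl | rfl | rfl
    · decide
    · exact absurd hp (by norm_num)
    · decide
    · exact absurd hp (by norm_num)
    all_goals decide
  · have h1 : j < 7 := by
      by_contra hne
      have h2 : 3 ^ 7 ≤ 3 ^ j := Nat.pow_le_pow_right (by norm_num) (by omega)
      norm_num at h2
      omega
    interval_cases j
    · decide
    · decide
    · exact absurd hp (by norm_num)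
    · decide
    · decide
    · decide

/-- the bound for the largest prime -/
theorem ar3_bd {n X q t : ℕ} (hq : 1 ≤ q) (hd : q ∣ n) (hn : n = X + (q - 1) * t) (hX : X % 2 = 1)
    (ht : 2 ∣ t) (hX' : X < 4375) (ht' : t < 4375) : q < 4375 := by
  by_contra hge
  obtain ⟨r, rfl⟩ : ∃ r, q = r + 1 := ⟨q - 1, by omega⟩
  rw [Nat.add_sub_cancel] at hn
  obtain ⟨m, hm⟩ := hd
  have h1 : ((r + 1 : ℕ) : ℤ) ∣ (X : ℤ) - t := by
    refine ⟨(m : ℤ) - t, ?_⟩
    have h2 : ((r + 1 : ℕ) : ℤ) * m = X + r * t := by exact_mod_cast hm.symm.trans hn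
    rw [mul_sub, h2]
    push_cast
    ring
  have h3 := Int.eq_zero_of_abs_lt_dvd h1 (by
    rw [abs_lt]
    omega)
  obtain ⟨u, rfl⟩ := ht
  omega

theorem ar3_key {a m h n : ℕ} {T : Finset ℕ} {s : ℕ → ℕ} (hah : a = 2 * h) (h1 : 2 ≤ h)
    (h60 : h ≤ 60) (hD : ∀ t, t ∣ a → 2 ∣ t → t ≤ 60 → t ∈ ar3_D a) (hm3 : 3 ≤ m)
    (hm : ∀ p, p.Prime → p ≠ 2 → ¬ p ∣ a → m ≤ p) (hmk : ∀ k, 3 ≤ k → h * (k + 1) ≤ m ^ k)
    (hk1 : ar3_k1 a = true) (hk2 : ar3_k2 a = true) (hk3 : ar3_k3 a h = true)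
    (hT : ∀ p ∈ T, Loc a n p (s p)) (hn : n = 1 + ∑ p ∈ T, (p - 1) * s p) : n = 1 := by
  by_cases hne : T.Nonempty
  swap
  · rw [Finset.not_nonempty_iff_eq_empty.1 hne, Finset.sum_empty] at hn
    exact hn
  exfalso
  -- simple facts
  have hsa : ∀ p ∈ T, s p ∣ a := by
    intro p hp
    obtain ⟨c, d, h2, -⟩ := (hT p hp).cd
    exact ⟨_, h2.symm⟩
  have hsh : ∀ p ∈ T, s p ≤ h := by
    intro p hp
    obtain ⟨c, d, h2, h3, h4, h5⟩ := (hT p hp).cd
    have hcd : 2 ≤ c * d := by
      have hd : 0 < d := by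
        rcases Nat.eq_zero_or_pos d with h6 | h6
        · rw [h6, mul_zero, mul_zero] at h2
          omega
        · exact h6
      have hd2 : 2 ≤ d := Nat.le_of_dvd hd h3
      rcases h5 with rfl | ⟨rfl, _⟩
      · omega
      · omega
    have h6 : s p * 2 ≤ s p * (c * d) := Nat.mul_le_mul_left _ hcd
    omega
  have hdn : ∀ p ∈ T, p ∣ n := by
    intro p hp
    have hl := hT p hp
    obtain ⟨N, h2, -⟩ := hl.syl
    have h3 : p ∣ s p * n := ⟨N, by rw [← h2, mul_comm]⟩
    rcases hl.hp.dvd_mul.1 h3 with h4 | h4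
    · exact absurd (h4.trans (hsa p hp)) hl.ha
    · exact h4
  have hsD : ∀ p ∈ T, s p ∈ ar3_D a := fun p hp =>
    hD _ (hsa p hp) (hT p hp).even ((hsh p hp).trans h60)
  have hpm : ∀ p ∈ T, m ≤ p := fun p hp => hm p (hT p hp).hp (hT p hp).hp2 (hT p hp).ha
  have hap : ∀ p ∈ T, Nat.beq (a % p) 0 = false := by
    intro p hp
    rw [← Bool.not_eq_true, Nat.beq_eq]
    exact fun h' => (hT p hp).ha (Nat.dvd_of_mod_eq_zero h')
  have hc : ∀ p ∈ T, ar3_c a n p (s p) = true := fun p hp => ar3_c_of (hT p hp) (hdn p hp)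
  have hn0 : 0 < n := by omega
  -- the largest prime
  obtain ⟨q, hq, hmax⟩ := T.exists_max_image id hne
  have hmax' : ∀ p ∈ T.erase q, p < q := fun p hp =>
    lt_of_le_of_ne (hmax p (Finset.mem_of_mem_erase hp)) (Finset.ne_of_mem_erase hp)
  have hq1 : 1 ≤ q := (hT q hq).hp.pos
  have hsum := Finset.add_sum_erase T (fun p => (p - 1) * s p) hq
  have hprod := Finset.mul_prod_erase T (fun p => p) hq
  have hdvd : ∏ p ∈ T, p ∣ n :=
    Finset.prod_primes_dvd n (fun p hp => (hT p hp).hp.prime) hdn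
  have hcard : (T.erase q).card + 1 = T.card := Finset.card_erase_add_one hq
  have hub : n < ((T.erase q).card + 1) * h * q := by
    have h2 : ∑ p ∈ T, (p - 1) * s p ≤ T.card • ((q - 1) * h) := by
      refine Finset.sum_le_card_nsmul _ _ _ fun p hp => ?_
      exact Nat.mul_le_mul (Nat.sub_le_sub_right (hmax p hp) 1) (hsh p hp)
    rw [smul_eq_mul, ← hcard] at h2
    obtain ⟨r, rfl⟩ : ∃ r, q = r + 1 := ⟨q - 1, by omega⟩
    rw [Nat.add_sub_cancel] at h2
    have h3 : ((T.erase (r + 1)).card + 1) * h * (r + 1) =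
        ((T.erase (r + 1)).card + 1) * (r * h) + ((T.erase (r + 1)).card * h + h) := by ring
    rw [h3, hn]
    have h4 : 0 ≤ (T.erase (r + 1)).card * h := Nat.zero_le _
    omega
  have hlow : (∏ p ∈ T.erase q, p) < ((T.erase q).card + 1) * h := by
    have h2 := Nat.le_of_dvd hn0 hdvd
    rw [← hprod] at h2
    have h3 : q * ∏ p ∈ T.erase q, p < q * (((T.erase q).card + 1) * h) := by
      rw [mul_comm q (((T.erase q).card + 1) * h)]
      exact lt_of_le_of_lt h2 hub
    exact Nat.lt_of_mul_lt_mul_left h3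
  have hlow2 : m ^ (T.erase q).card ≤ ∏ p ∈ T.erase q, p := by
    rw [← Finset.prod_const]
    exact Finset.prod_le_prod (fun _ _ => Nat.zero_le _)
      (fun p hp => hpm p (Finset.mem_of_mem_erase hp))
  have hc2 : (T.erase q).card < 3 := by
    by_contra hge
    have h2 := hmk _ (not_lt.1 hge)
    rw [mul_comm] at h2
    exact absurd (h2.trans hlow2) (not_le.2 hlow)
  have hcases : (T.erase q).card = 0 ∨ (T.erase q).card = 1 ∨ (T.erase q).card = 2 := by omega
  rcases hcases with h0 | h0 | h0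
  · -- one prime
    rw [Finset.card_eq_zero.1 h0, Finset.sum_empty, add_zero] at hsum
    rw [← hsum] at hn
    have hq4 : q < 4375 := ar3_bd hq1 (hdn q hq) hn (by norm_num) (hT q hq).even (by norm_num)
      (by have := hsh q hq; omega)
    have h2 := List.all_eq_true.1 hk1 q (ar3_mem (hT q hq).hp (hT q hq).good hq4)
    have h3 := List.all_eq_true.1 h2 (s q) (hsD q hq)
    rw [← hn, hc q hq] at h3
    exact absurd h3 (by decide)
  · -- two primes
    obtain ⟨p, hp⟩ := Finset.card_eq_one.1 h0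
    have hpT : p ∈ T := Finset.mem_of_mem_erase (by rw [hp]; exact Finset.mem_singleton_self p)
    have hpq : p < q := hmax' p (by rw [hp]; exact Finset.mem_singleton_self p)
    rw [hp, Finset.sum_singleton, add_comm] at hsum
    rw [← hsum] at hn
    rw [hp, Finset.prod_singleton, Finset.card_singleton] at hlow
    have hpL : p ∈ ar3_L := ar3_mem (hT p hpT).hp (hT p hpT).good (by omega)
    have hp59 : p ≤ 59 := by
      have h2 : ∀ r ∈ ar3_L, r < 120 → r ≤ 59 := by decide
      exact h2 p hpL (by omega)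
    have hb : (p - 1) * s p ≤ 58 * 60 := Nat.mul_le_mul (by omega) ((hsh p hpT).trans h60)
    have hev : 2 ∣ (p - 1) * s p := (hT p hpT).even.mul_left _
    have hq4 : q < 4375 := ar3_bd hq1 (hdn q hq) (X := 1 + (p - 1) * s p)
      (by rw [hn]; ring) (by omega) (hT q hq).even (by omega) (by have := hsh q hq; omega)
    have h2 := List.all_eq_true.1 hk2 p hpL
    rw [hap p hpT, Bool.false_or] at h2
    have h3 := List.all_eq_true.1 h2 q (ar3_mem (hT q hq).hp (hT q hq).good hq4)
    have h3' : Nat.ble q p = false := by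
      rw [← Bool.not_eq_true, Nat.ble_eq]
      omega
    rw [h3', Bool.false_or] at h3
    have h4 := List.all_eq_true.1 (List.all_eq_true.1 h3 (s p) (hsD p hpT)) (s q) (hsD q hq)
    rw [← hn, hc q hq, hc p hpT] at h4
    exact absurd h4 (by decide)
  · -- three primes
    obtain ⟨p, r, hpr, hU⟩ := Finset.card_eq_two.1 h0
    wlog hlt : p < r generalizing p r
    · exact this r p hpr.symm (by rw [hU, Finset.pair_comm]) (by omega)
    have hpU : p ∈ T.erase q := by rw [hU]; exact Finset.mem_insert_self _ _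
    have hrU : r ∈ T.erase q := by
      rw [hU]
      exact Finset.mem_insert_of_mem (Finset.mem_singleton_self r)
    have hpT := Finset.mem_of_mem_erase hpU
    have hrT := Finset.mem_of_mem_erase hrU
    have hrq := hmax' r hrU
    rw [hU, Finset.sum_pair hpr, add_comm] at hsum
    rw [← hsum] at hn
    rw [hU, Finset.prod_pair hpr, Finset.card_pair hpr] at hlow
    have hp3 : 3 ≤ p := hm3.trans (hpm p hpT)
    have hr3 : 3 ≤ r := hm3.trans (hpm r hrT)
    have hlow' : p * r < 180 := by omega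
    have hp60 : p < 60 := by nlinarith
    have hr60 : r < 60 := by nlinarith
    have hpr62 : p + r ≤ 62 := by nlinarith
    have hpL : p ∈ ar3_L := ar3_mem (hT p hpT).hp (hT p hpT).good (by omega)
    have hrL : r ∈ ar3_L := ar3_mem (hT r hrT).hp (hT r hrT).good (by omega)
    have hb1 : (p - 1) * s p ≤ (p - 1) * 60 := Nat.mul_le_mul_left _ ((hsh p hpT).trans h60)
    have hb2 : (r - 1) * s r ≤ (r - 1) * 60 := Nat.mul_le_mul_left _ ((hsh r hrT).trans h60)
    have hev1 : 2 ∣ (p - 1) * s p := (hT p hpT).even.mul_left _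
    have hev2 : 2 ∣ (r - 1) * s r := (hT r hrT).even.mul_left _
    have hq4 : q < 4375 := ar3_bd hq1 (hdn q hq) (X := 1 + ((p - 1) * s p + (r - 1) * s r))
      (by rw [hn]; ring) (by omega) (hT q hq).even (by omega) (by have := hsh q hq; omega)
    have h2 := List.all_eq_true.1 hk3 p hpL
    rw [hap p hpT, Bool.false_or] at h2
    have h3 := List.all_eq_true.1 h2 r hrL
    have h3' : Nat.ble r p = false := by
      rw [← Bool.not_eq_true, Nat.ble_eq]
      omega
    have h3'' : Nat.ble (3 * h) (p * r) = false := by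
      rw [← Bool.not_eq_true, Nat.ble_eq]
      omega
    rw [h3', Bool.false_or, hap r hrT, Bool.false_or, h3'', Bool.false_or] at h3
    have h4 := List.all_eq_true.1 h3 q (ar3_mem (hT q hq).hp (hT q hq).good hq4)
    have h4' : Nat.ble q r = false := by
      rw [← Bool.not_eq_true, Nat.ble_eq]
      omega
    rw [h4', Bool.false_or] at h4
    have h5 := List.all_eq_true.1 (List.all_eq_true.1 (List.all_eq_true.1 h4 (s p) (hsD p hpT))
      (s r) (hsD r hrT)) (s q) (hsD q hq)
    rw [← hn, hc q hq, hc p hpT, hc r hrT] at h5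
    exact absurd h5 (by decide)

theorem ar3_pow {m h : ℕ} (hm : 3 ≤ m) (h3 : h * 4 ≤ m ^ 3) : ∀ k, 3 ≤ k → h * (k + 1) ≤ m ^ k := by
  intro k hk
  induction k, hk using Nat.le_induction with
  | base => exact h3
  | succ k hk ih =>
    have h1 : h * (k + 1 + 1) ≤ h * (k + 1) * 3 := by nlinarith
    calc h * (k + 1 + 1) ≤ h * (k + 1) * 3 := h1
      _ ≤ m ^ k * m := Nat.mul_le_mul ih hm
      _ = m ^ (k + 1) := (pow_succ m k).symm

theorem ar3_ge {p : ℕ} (hp : p.Prime) (h2 : p ≠ 2) : 3 ≤ p := by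
  have := hp.two_le
  omega

theorem arith_q (a : ℕ) (ha : a = 8 ∨ a = 24 ∨ a = 120) (n : ℕ) (T : Finset ℕ) (s : ℕ → ℕ)
    (h : ∀ p ∈ T, Loc a n p (s p)) (hn : n = 1 + ∑ p ∈ T, (p - 1) * s p) : n = 1 := by
  rcases ha with rfl | rfl | rfl
  · refine ar3_key (m := 3) (h := 4) rfl (by norm_num) (by norm_num) ?_ le_rfl ?_
      (ar3_pow le_rfl (by norm_num)) ar3_k1_8 ar3_k2_8 ar3_k3_8 h hn
    · intro t h1 h2 h3
      revert h1 h2
      interval_cases t <;> decide
    · exact fun p hp h2 _ => ar3_ge hp h2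
  · refine ar3_key (m := 5) (h := 12) rfl (by norm_num) (by norm_num) ?_ (by norm_num) ?_
      (ar3_pow (by norm_num) (by norm_num)) ar3_k1_24 ar3_k2_24 ar3_k3_24 h hn
    · intro t h1 h2 h3
      revert h1 h2
      interval_cases t <;> decide
    · intro p hp h2 h3
      have h4 := ar3_ge hp h2
      by_contra h5
      have h6 : p = 3 ∨ p = 4 := by omega
      rcases h6 with rfl | rfl
      · exact h3 (by norm_num)
      · exact absurd hp (by norm_num)
  · refine ar3_key (m := 7) (h := 60) rfl (by norm_num) (by norm_num) ?_ (by norm_num) ?_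
      (ar3_pow (by norm_num) (by norm_num)) ar3_k1_120 ar3_k2_120 ar3_k3_120 h hn
    · intro t h1 h2 h3
      revert h1 h2
      interval_cases t <;> decide
    · intro p hp h2 h3
      have h4 := ar3_ge hp h2
      by_contra h5
      have h6 : p = 3 ∨ p = 4 ∨ p = 5 ∨ p = 6 := by omega
      rcases h6 with rfl | rfl | rfl | rfl
      · exact h3 (by norm_num)
      · exact absurd hp (by norm_num)
      · exact h3 (by norm_num)
      · exact absurd hp (by norm_num)

end Pool.Agent.SHAF
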