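import Mathlib
import Pool.Agent.SHAN.Common
import Pool.Agent.SHAN.InvD
import Pool.Agent.SHAN.Two
import Pool.Agent.SHAN.Arith3
import Pool.Agent.SHAN.SolX

set_option autoImplicit false

/-!
Simple groups with a quaternion Sylow 2-subgroup of order 8 (module CASEQ).
-/

namespace Pool.Agent.SHAF

open Pool.Agent.SHA

variable {K : (G : Type) → [Group G] → Prop}

lemma cq_q8 : ∃ z : QuaternionGroup 2, z ≠ 1 ∧ z * z = 1 ∧ (∀ s, s * s = 1 → s = 1 ∨ s = z) ∧
    (∀ s, s * z = z * s) := by
  obtain ⟨z, h1, h2, -, h3, -, h4⟩ := q8_facts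
  exact ⟨z, h1, h2, h3, h4⟩

theorem case_quat (hK : SHAClosed K) (hE : ¬ K (E 3)) {G : Type} [Group G] [Finite G]
    [IsSimpleGroup G] (hG : K G) (hns : ¬ Group.IsSolvable G)
    (IH : ∀ (H : Type) [Group H] [Finite H], K H → Nat.card H < Nat.card G → FinList H)
    (P : Sylow 2 G) (e : Nonempty (P ≃* QuaternionGroup 2)) : False := by
  haveI : Fact (Nat.Prime 2) := ⟨Nat.prime_two⟩
  obtain ⟨hconj, huniq⟩ := inv_quat P e
  obtain ⟨e⟩ := e
  obtain ⟨z, hz1, hz2, hz3, hz4⟩ := cq_q8
  -- the involution of P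
  set t : G := ((e.symm z : P) : G) with htdef
  have ht : t * t = 1 := by
    have h1 : e.symm z * e.symm z = 1 := by rw [← map_mul, hz2, map_one]
    exact congrArg Subtype.val h1
  have ht1 : t ≠ 1 := by
    intro h1
    apply hz1
    have h2 : e.symm z = 1 := Subtype.ext h1
    apply e.symm.injective
    rw [h2, map_one]
  have htc : ∀ g ∈ (P : Subgroup G), t * g = g * t := by
    intro g hg
    have h1 : e.symm z * ⟨g, hg⟩ = ⟨g, hg⟩ * e.symm z := by
      apply e.injective
      rw [map_mul, map_mul, e.apply_symm_apply]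
      exact (hz4 _).symm
    exact congrArg Subtype.val h1
  set C := Subgroup.centralizer ({t} : Set G) with hCdef
  have hPC : (P : Subgroup G) ≤ C := by
    intro g hg
    rw [hCdef, Subgroup.mem_centralizer_iff]
    rintro w rfl
    exact htc g hg
  have hcardP : Nat.card P = 8 := by
    rw [Nat.card_congr e.toEquiv, Nat.card_eq_fintype_card, QuaternionGroup.card]
  have htC : t ∈ C := by
    rw [hCdef, Subgroup.mem_centralizer_iff]
    rintro w rfl
    rfl
  have hlt := cent_lt hns t ht1
  have hKC : K C := hK.sub _ _ C.subtype C.subtype_injective hG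
  have hFC : FinList C := IH C hKC hlt
  have h16 : ¬ 16 ∣ Nat.card C := by
    intro h
    have h0 : 2 ^ 4 ∣ Nat.card G := h.trans (Subgroup.card_subgroup_dvd_card C)
    have h1 : 2 ^ 4 ∣ Nat.card P := by
      rw [Sylow.card_eq_multiplicity]
      exact pow_dvd_pow 2 ((Nat.prime_two.pow_dvd_iff_le_factorization Nat.card_pos.ne').mp h0)
    rw [hcardP] at h1
    omega
  have ha : Nat.card C = 8 ∨ Nat.card C = 24 ∨ Nat.card C = 120 := by
    rcases central_two hFC ⟨t, htC⟩ (Subtype.ext ht) (fun h => ht1 (congrArg Subtype.val h))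
      (fun g => Subtype.ext (Subgroup.mem_centralizer_iff.mp g.2 t (Set.mem_singleton t))) with h | h
    · rcases sol_q8 h ((P : Subgroup G).subgroupOf C)
        ⟨(Subgroup.subgroupOfEquivOfLe hPC).trans e⟩ h16 with h | h
      · exact Or.inl h
      · exact Or.inr (Or.inl h)
    · exact Or.inr (Or.inr (binico_facts h).2.1)
  obtain ⟨n, hn1, hn2⟩ := class_count hconj t ht ht1
  have hND := nd_of hK hE hG hns IH t
  have htot := total_count t ht (disj t ht hND)
  rw [hn1, two_quat huniq t ht ht1] at htot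
  have hncP : ¬ IsCyclic P := by
    intro h
    have h1 : ∀ a b : QuaternionGroup 2, a * b = b * a := by
      intro a b
      obtain ⟨g, hg⟩ := IsCyclic.exists_generator (α := P)
      obtain ⟨i, hi⟩ := Subgroup.mem_zpowers_iff.mp (hg (e.symm a))
      obtain ⟨j, hj⟩ := Subgroup.mem_zpowers_iff.mp (hg (e.symm b))
      apply e.symm.injective
      rw [map_mul, map_mul, ← hi, ← hj, ← zpow_add, ← zpow_add, add_comm]
    exact absurd (h1 (QuaternionGroup.a 1) (QuaternionGroup.xa 0)) (by decide)
  have hPa : Nat.card P ∣ Nat.card C := by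
    exact Subgroup.card_dvd_of_le hPC
  have hloc : ∀ p ∈ (Nat.card G).primeFactors.erase 2, gcount t p = 0 ∨
      ∃ s, Loc (Nat.card C) n p s ∧ gcount t p = (p - 1) * s := by
    intro p hp
    rw [Finset.mem_erase] at hp
    have hpp := Nat.prime_of_mem_primeFactors hp.2
    rcases local_loc hconj t ht ht1 hND P hncP rfl hPa hn2 hpp hp.1 with
      h | h | ⟨Q, H, c, d, h, hi, hd, hc, -⟩
    · exact Or.inl h
    · exact Or.inr h
    · exfalso
      have hc2 := c_two h hc hd
      subst hc2
      obtain ⟨s, hs, hs1, hsc⟩ := c2_exists h hc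
      have h1 := huniq s t hs hs1 ht ht1 (c2_comm h t hi s hs hs1 hsc)
      rw [h1] at hsc
      -- t centralises and inverts Q
      haveI : Fact p.Prime := ⟨hpp⟩
      obtain ⟨⟨y, hy⟩, hy2⟩ := exists_prime_orderOf_dvd_card' (G := Q) p (by rw [h.hQ])
      rw [Subgroup.orderOf_mk] at hy2
      have h2 := hi y hy
      have h3 := Subgroup.mem_centralizer_iff.mp hsc y hy
      rw [← h3] at h2
      have h4 : y * y = 1 := by
        have h5 : y = y⁻¹ := by
          rw [← h2]
          group
        nth_rewrite 2 [h5]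
        exact mul_inv_cancel y
      have h5 : orderOf y ∣ 2 := orderOf_dvd_of_pow_eq_one (by rw [pow_two, h4])
      rw [hy2] at h5
      exact hp.1 ((Nat.prime_dvd_prime_iff_eq hpp Nat.prime_two).mp h5)
  obtain ⟨hL, hsum⟩ := loc_sum _ (gcount t) hloc
  have hn : n = 1 + ∑ p ∈ ((Nat.card G).primeFactors.erase 2).filter (fun p => gcount t p ≠ 0),
      (p - 1) * (gcount t p / (p - 1)) := by
    rw [← hsum]
    have : ∑ p ∈ (Nat.card G).primeFactors.erase 2, gcount t p =
      ∑ p ∈ (Nat.card G).primeFactors.erase 2,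
          Nat.card {x : G // t * x * t⁻¹ = x⁻¹ ∧ p ∣ orderOf x} := rfl
    rw [this]
    omega
  have hn1' : n = 1 := arith_q (Nat.card C) ha n _ _ hL hn
  rw [hn1', mul_one] at hn2
  exact absurd hn2 hlt.ne

end Pool.Agent.SHAF
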