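import Mathlib
import Pool.Agent.SHAN.Small

set_option autoImplicit false

/-!
Minimal normal subgroups (module MIN).
-/

namespace Pool.Agent.SHAF

open Pool.Agent.SHA

open scoped commutatorElement

/-- characteristic subgroups of a minimal normal subgroup -/
theorem min_char {G : Type} [Group G] (M : Subgroup G) [hM : M.Normal]
    (hmin : ∀ C : Subgroup G, C.Normal → C ≠ ⊥ → C ≤ M → C = M) (C : Subgroup M)
    [hC : C.Characteristic] : C = ⊥ ∨ C = ⊤ := by
  have hn : (C.map M.subtype).Normal := ConjAct.normal_of_characteristic_of_normal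
  by_cases h : C = ⊥
  · exact Or.inl h
  · right
    have h1 : C.map M.subtype ≠ ⊥ := by
      intro h2
      exact h ((Subgroup.map_eq_bot_iff_of_injective C M.subtype_injective).1 h2)
    have h2 : C.map M.subtype ≤ M := by
      rintro _ ⟨x, _, rfl⟩
      exact x.2
    have h3 := hmin _ hn h1 h2
    rw [eq_top_iff]
    rintro x -
    have h4 : (x : G) ∈ C.map M.subtype := by
      rw [h3]
      exact x.2
    obtain ⟨y, hy, hyx⟩ := h4
    have h5 : y = x := M.subtype_injective hyx
    rw [← h5]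
    exact hy

theorem min_sol {G : Type} [Group G] [Finite G] (M : Subgroup G) [hM : M.Normal] (h0 : M ≠ ⊥)
    (hmin : ∀ C : Subgroup G, C.Normal → C ≠ ⊥ → C ≤ M → C = M) (hs : Group.IsSolvable M) :
    ∃ p : ℕ, p.Prime ∧ (∀ x ∈ M, x ^ p = 1) ∧ ∀ x ∈ M, ∀ y ∈ M, x * y = y * x := by
  have hnt : Nontrivial M := (Subgroup.nontrivial_iff_ne_bot M).2 h0
  have hc : ∀ x y : M, x * y = y * x := by
    rcases min_char M hmin (commutator M) with h | h
    · intro x y
      have h1 : ⁅x, y⁆ ∈ commutator M := Subgroup.commutator_mem_commutator (Subgroup.mem_top x) (Subgroup.mem_top y)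
      rw [h, Subgroup.mem_bot] at h1
      exact commutatorElement_eq_one_iff_mul_comm.1 h1
    · exact absurd h (Group.IsSolvable.commutator_lt_top_of_nontrivial M).ne
  have hcard : Nat.card M ≠ 1 := (Finite.one_lt_card (α := M)).ne'
  obtain ⟨p, hp, hpd⟩ := Nat.exists_prime_and_dvd hcard
  haveI : Fact p.Prime := ⟨hp⟩
  obtain ⟨x, hx⟩ := exists_prime_orderOf_dvd_card' (G := M) p hpd
  let T : Subgroup M :=
    { carrier := {x | x ^ p = 1}
      mul_mem' := by
        intro a b ha hb
        show (a * b) ^ p = 1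
        have h1 : a ^ p = 1 := ha
        have h2 : b ^ p = 1 := hb
        rw [(show Commute a b from hc a b).mul_pow, h1, h2, one_mul]
      one_mem' := one_pow p
      inv_mem' := by
        intro a ha
        show a⁻¹ ^ p = 1
        have h1 : a ^ p = 1 := ha
        rw [inv_pow, h1, inv_one] }
  have hT : T.Characteristic := by
    rw [Subgroup.characteristic_iff_le_comap]
    intro φ a ha
    have h1 : a ^ p = 1 := ha
    show (φ a) ^ p = 1
    rw [← map_pow, h1, map_one]
  refine ⟨p, hp, ?_, ?_⟩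
  · rcases min_char M hmin T with h | h
    · exfalso
      have h1 : x ∈ T := by
        show x ^ p = 1
        rw [← hx, pow_orderOf_eq_one]
      rw [h, Subgroup.mem_bot] at h1
      rw [h1, orderOf_one] at hx
      exact hp.one_lt.ne hx
    · intro y hy
      have h1 : (⟨y, hy⟩ : M) ∈ T := by
        rw [h]
        exact Subgroup.mem_top _
      have h2 : (⟨y, hy⟩ : M) ^ p = 1 := h1
      exact congrArg (fun z : M => (z : G)) h2
  · intro a ha b hb
    exact congrArg (fun z : M => (z : G)) (hc ⟨a, ha⟩ ⟨b, hb⟩)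

theorem min_s5 {G : Type} [Group G] (M : Subgroup G) [hM : M.Normal]
    (hmin : ∀ C : Subgroup G, C.Normal → C ≠ ⊥ → C ≤ M → C = M)
    (e : M ≃* Equiv.Perm (Fin 5)) : False := by
  rcases min_char M hmin (commutator M) with h | h
  · have h1 : ⁅e.symm (Equiv.swap 0 1), e.symm (Equiv.swap 1 2)⁆ ∈ commutator M :=
      Subgroup.commutator_mem_commutator (Subgroup.mem_top _) (Subgroup.mem_top _)
    rw [h, Subgroup.mem_bot, commutatorElement_eq_one_iff_mul_comm, ← map_mul, ← map_mul] at h1
    have h2 := e.symm.injective h1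
    exact absurd h2 (by decide)
  · let f : M →* ℤˣ := Equiv.Perm.sign.comp e.toMonoidHom
    have h1 : commutator M ≤ f.ker := by
      rw [commutator_def, Subgroup.commutator_le]
      intro a _ b _
      rw [MonoidHom.mem_ker, map_commutatorElement, commutatorElement_eq_one_iff_mul_comm]
      exact mul_comm _ _
    have h2 : e.symm (Equiv.swap 0 1) ∈ commutator M := by
      rw [h]
      exact Subgroup.mem_top _
    have h3 := h1 h2
    rw [MonoidHom.mem_ker] at h3
    have h4 : f (e.symm (Equiv.swap 0 1)) = Equiv.Perm.sign (Equiv.swap (0 : Fin 5) 1) := by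
      show Equiv.Perm.sign (e (e.symm (Equiv.swap 0 1))) = _
      rw [MulEquiv.apply_symm_apply]
    rw [h4, Equiv.Perm.sign_swap (by decide)] at h3
    exact absurd h3 (by decide)

theorem min_bi {G : Type} [Group G] (M : Subgroup G) [hM : M.Normal]
    (hmin : ∀ C : Subgroup G, C.Normal → C ≠ ⊥ → C ≤ M → C = M) (hb : BinIco M) : False := by
  obtain ⟨hf, hcard, -⟩ := binico_facts hb
  obtain ⟨π, hπ, h2, h3⟩ := hb
  have h4 : ∀ z ∈ π.ker, z * z = 1 := by
    intro z hz
    have h5 : (⟨z, hz⟩ : π.ker) ^ Nat.card π.ker = 1 := pow_card_eq_one'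
    rw [h2, pow_two] at h5
    exact congrArg (fun w : π.ker => (w : M)) h5
  have hK : π.ker.Characteristic := by
    rw [Subgroup.characteristic_iff_le_comap]
    intro φ a ha
    rw [Subgroup.mem_comap]
    apply h3
    show φ a * φ a = 1
    rw [← map_mul, h4 a ha, map_one]
  rcases min_char M hmin π.ker with h | h
  · rw [h, Subgroup.card_bot] at h2
    omega
  · rw [h, Subgroup.card_top, hcard] at h2
    omega

/-- a proper nontrivial normal subgroup contains one that is elementary abelian or `A_5`, provided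
that the smaller groups are in the list -/
theorem exists_min {G : Type} [Group G] [Finite G]
    (IH : ∀ H : Subgroup G, H ≠ ⊤ → FinList H) (N : Subgroup G) [N.Normal] (h1 : N ≠ ⊥)
    (h2 : N ≠ ⊤) : ∃ M : Subgroup G, M.Normal ∧ M ≠ ⊥ ∧ M ≠ ⊤ ∧
      (Nonempty (M ≃* alternatingGroup (Fin 5)) ∨
        ∃ p : ℕ, p.Prime ∧ (∀ x ∈ M, x ^ p = 1) ∧ ∀ x ∈ M, ∀ y ∈ M, x * y = y * x) := by
  obtain ⟨M, ⟨hM1, hM2, hM3⟩, hmax⟩ := Set.Finite.exists_minimalFor
    (fun M : Subgroup G => Nat.card M) {M : Subgroup G | M.Normal ∧ M ≠ ⊥ ∧ M ≤ N}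
    (Set.toFinite _) ⟨N, ⟨inferInstance, h1, le_rfl⟩⟩
  have hmin : ∀ C : Subgroup G, C.Normal → C ≠ ⊥ → C ≤ M → C = M := by
    intro C hC1 hC2 hC3
    have h3 : Nat.card C ≤ Nat.card M := Nat.card_le_card_of_injective _ (Subgroup.inclusion_injective hC3)
    have h4 : Nat.card M ≤ Nat.card C := hmax ⟨hC1, hC2, hC3.trans hM3⟩ h3
    exact Subgroup.eq_of_le_of_card_ge hC3 h4
  have hMt : M ≠ ⊤ := by
    intro h
    apply h2
    rw [eq_top_iff, ← h]
    exact hM3
  refine ⟨M, hM1, hM2, hMt, ?_⟩
  by_cases hs : Group.IsSolvable M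
  · exact Or.inr (min_sol M hM2 hmin hs)
  · left
    rcases nonsol_order (IH M hMt) hs with ⟨_, h⟩ | ⟨_, h | h⟩
    · exact h
    · obtain ⟨e⟩ := h
      exact (min_s5 M hmin e).elim
    · exact (min_bi M hmin h).elim

end Pool.Agent.SHAF
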