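import Mathlib
import Pool.Agent.SHAF.Nonsol
import Pool.Agent.SHAN.AutA5
import Pool.Agent.SHAN.SubS5
import Pool.Agent.SHAN.SolX

set_option autoImplicit false

/-!
A normal subgroup `A_5` (module NSA).
-/

namespace Pool.Agent.SHAF

open Pool.Agent.SHA

variable {K : (G : Type) → [Group G] → Prop}

theorem nsa_embed : ∃ ι : alternatingGroup (Fin 4) →* alternatingGroup (Fin 5),
    Function.Injective ι := by
  let s : Finset (Fin 5) := {0, 1, 2, 3}
  have hs : Fintype.card s = 4 := by decide
  let e : Fin 4 ≃ s := (Fintype.equivFinOfCardEq hs).symm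
  exact ⟨(alternatingGroup.ofSubtype s).comp (Equiv.altCongrHom e).toMonoidHom,
    alternatingGroup.ofSubtype_injective.comp (Equiv.altCongrHom e).injective⟩

theorem nsa_klein : ∃ a b : alternatingGroup (Fin 5), a * a = 1 ∧ b * b = 1 ∧ a * b = b * a ∧
    a ≠ 1 ∧ b ≠ 1 ∧ a ≠ b :=
  ⟨⟨Equiv.swap 0 1 * Equiv.swap 2 3, Equiv.Perm.mem_alternatingGroup.2 (by decide)⟩,
    ⟨Equiv.swap 0 2 * Equiv.swap 1 3, Equiv.Perm.mem_alternatingGroup.2 (by decide)⟩,
    by decide, by decide, by decide, by decide, by decide, by decide⟩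

theorem nsa_centre {G : Type} [Group G] {N : Subgroup G} (e : N ≃* alternatingGroup (Fin 5))
    {z : G} (hz : z ∈ N) (hc : z ∈ Subgroup.centralizer (N : Set G)) : z = 1 := by
  have h1 : e ⟨z, hz⟩ = 1 := by
    apply a5_facts.2.2.2.2.1
    intro g
    obtain ⟨n, rfl⟩ := e.surjective g
    rw [← map_mul, ← map_mul]
    congr 1
    exact Subtype.ext ((Subgroup.mem_centralizer_iff.1 hc n n.2).symm)
  exact congrArg Subtype.val ((MulEquiv.map_eq_one_iff _).1 h1)

theorem normal_a5 (hK : SHAClosed K) (hE : ¬ K (E 3)) {G : Type} [Group G] [Finite G] (hG : K G)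
    (N : Subgroup G) [N.Normal] (e : Nonempty (N ≃* alternatingGroup (Fin 5))) : FinList G := by
  obtain ⟨e⟩ := e
  have hC : Subgroup.centralizer (N : Set G) = ⊥ := by
    by_contra hne
    have hcard : Nat.card (Subgroup.centralizer (N : Set G)) ≠ 1 := fun h =>
      hne (Subgroup.eq_bot_of_card_eq _ h)
    obtain ⟨q, hq, hqd⟩ := Nat.exists_prime_and_dvd hcard
    have : Fact q.Prime := ⟨hq⟩
    obtain ⟨y, hy⟩ := exists_prime_orderOf_dvd_card' q hqd
    have hyo : orderOf (y : G) = q := by rw [Subgroup.orderOf_coe, hy]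
    have hyN : ∀ n ∈ N, n * (y : G) = y * n := fun n hn => Subgroup.mem_centralizer_iff.1 y.2 n hn
    have hy1 : (y : G) ≠ 1 := by
      intro h
      rw [h, orderOf_one] at hyo
      exact hq.one_lt.ne hyo
    have hyn : (y : G) ∉ N := fun h => hy1 (nsa_centre e h y.2)
    by_cases h2 : q = 2
    · obtain ⟨a, b, ha, hb, hab, ha1, hb1, hne'⟩ := nsa_klein
      have key : ∀ c d : alternatingGroup (Fin 5), (e.symm c : G) = (e.symm d : G) → c = d :=
        fun c d h => e.symm.injective (Subtype.ext h)
      have hyy : (y : G) * y = 1 := by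
        have h3 := pow_orderOf_eq_one (y : G)
        rwa [hyo, h2, pow_two] at h3
      refine hE (K_E3_of hK hG (e.symm a : G) (e.symm b : G) (y : G) ?_ ?_ hyy ?_
        (hyN _ (e.symm a).2) (hyN _ (e.symm b).2) ?_ ?_ hy1 ?_ ?_ ?_ ?_)
      · rw [← Subgroup.coe_mul, ← map_mul, ha, map_one, Subgroup.coe_one]
      · rw [← Subgroup.coe_mul, ← map_mul, hb, map_one, Subgroup.coe_one]
      · rw [← Subgroup.coe_mul, ← map_mul, hab, map_mul, Subgroup.coe_mul]
      · intro h
        exact ha1 (key a 1 (by rw [h, map_one, Subgroup.coe_one]))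
      · intro h
        exact hb1 (key b 1 (by rw [h, map_one, Subgroup.coe_one]))
      · intro h
        exact hne' (key a b h)
      · intro h
        exact hyn (h ▸ (e.symm a).2)
      · intro h
        exact hyn (h ▸ (e.symm b).2)
      · intro h
        exact hyn (h ▸ N.mul_mem (e.symm a).2 (e.symm b).2)
    · obtain ⟨ι, hι⟩ := nsa_embed
      let f : alternatingGroup (Fin 4) →* G := N.subtype.comp (e.symm.toMonoidHom.comp ι)
      have hfN : ∀ a, f a ∈ N := fun a => (e.symm (ι a)).2
      have hf : Function.Injective f :=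
        N.subtype_injective.comp (e.symm.injective.comp hι)
      have hz : ∀ b : Subgroup.zpowers (y : G), (b : G) ∈ Subgroup.centralizer (N : Set G) := by
        intro b
        have h3 : Subgroup.zpowers (y : G) ≤ Subgroup.centralizer (N : Set G) := by
          rw [Subgroup.zpowers_le]
          exact y.2
        exact h3 b.2
      let F : alternatingGroup (Fin 4) × Subgroup.zpowers (y : G) →* G :=
        f.noncommCoprod (Subgroup.zpowers (y : G)).subtype (fun a b =>
          Subgroup.mem_centralizer_iff.1 (hz b) _ (hfN a))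
      have hF : Function.Injective F := by
        rw [injective_iff_map_eq_one]
        rintro ⟨a, b⟩ hab
        have h3 : f a * (b : G) = 1 := hab
        have h4 : (b : G) ∈ N := by
          rw [eq_inv_of_mul_eq_one_right h3]
          exact N.inv_mem (hfN a)
        have h5 : (b : G) = 1 := nsa_centre e h4 (hz b)
        have h6 : b = 1 := Subtype.ext h5
        rw [h5, mul_one] at h3
        have h7 : a = 1 := hf (by rw [h3, map_one])
        rw [h6, h7]
        rfl
      have hKX := hK.sub _ _ F hF hG
      have : Group.IsSolvable (Equiv.Perm (Fin 4)) := sol_s4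
      have : Group.IsSolvable (Subgroup.zpowers (y : G)) := sol_cyc inferInstance
      have hX := sol_forward hK hE (alternatingGroup (Fin 4) × Subgroup.zpowers (y : G)) hKX
      refine sol_no_a4 hX (MonoidHom.fst _ _) Prod.fst_surjective hq h2 ?_
      have h3 : Nat.card (Subgroup.zpowers (y : G)) = q := by rw [Nat.card_zpowers, hyo]
      rw [← h3]
      refine Nat.card_congr
        { toFun := fun x => x.1.2
          invFun := fun b => ⟨(1, b), rfl⟩
          left_inv := fun x => ?_
          right_inv := fun b => rfl }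
      have h4 : x.1.1 = 1 := x.2
      exact Subtype.ext (Prod.ext h4.symm rfl)
  obtain ⟨f, hf⟩ := aut_a5
  refine perm5_sub (f.comp ((MulAut.congr e).toMonoidHom.comp (MulAut.conjNormal : G →* MulAut N)))
    (hf.comp ((MulAut.congr e).injective.comp ?_))
  rw [injective_iff_map_eq_one]
  intro g hg
  have h1 : g ∈ Subgroup.centralizer (N : Set G) := by
    rw [Subgroup.mem_centralizer_iff]
    intro n hn
    have h2 : ((MulAut.conjNormal g ⟨n, hn⟩ : N) : G) = n := by
      rw [hg]
      rfl
    rw [MulAut.conjNormal_apply, mul_inv_eq_iff_eq_mul] at h2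
    exact h2.symm
  rw [hC, Subgroup.mem_bot] at h1
  exact h1

end Pool.Agent.SHAF
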