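import Mathlib
import Pool.Agent.SHAF.Nonsol
import Pool.Agent.SHAN.Small
import Pool.Agent.SHAN.SolX

set_option autoImplicit false

/-!
A normal elementary abelian subgroup (modules NSB, NSC).
-/

namespace Pool.Agent.SHAF

open Pool.Agent.SHA

variable {K : (G : Type) → [Group G] → Prop}

lemma nsb_conj : ∀ x : alternatingGroup (Fin 5), x * x = 1 → x ≠ 1 →
    ∀ y : alternatingGroup (Fin 5), y * y = 1 → y ≠ 1 →
      ∃ c : alternatingGroup (Fin 5), c * x * c⁻¹ = y := by decide +kernel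

lemma nsb_klein : ∃ a b : alternatingGroup (Fin 5), a * a = 1 ∧ b * b = 1 ∧ a * b * (a * b) = 1 ∧
    a ≠ 1 ∧ b ≠ 1 ∧ a * b ≠ 1 ∧ a ≠ b := by
  refine ⟨⟨Equiv.swap 0 1 * Equiv.swap 2 3, Equiv.Perm.mem_alternatingGroup.2 (by decide)⟩,
    ⟨Equiv.swap 0 2 * Equiv.swap 1 3, Equiv.Perm.mem_alternatingGroup.2 (by decide)⟩, ?_⟩
  decide

/-- a normal subgroup of order 2 is central -/
lemma nsb_central {G : Type} [Group G] (M : Subgroup G) [M.Normal] (h : Nat.card M = 2) :
    ∀ z ∈ M, ∀ g, z * g = g * z := by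
  intro z hz g
  obtain ⟨y, hy, hu⟩ := (Nat.card_eq_two_iff' (1 : M)).1 h
  by_cases h1 : z = 1
  · rw [h1, one_mul, mul_one]
  · have h2 : g * z * g⁻¹ ∈ M := Subgroup.Normal.conj_mem inferInstance z hz g
    have h3 : (⟨z, hz⟩ : M) = y := hu _ (fun h4 => h1 (congrArg Subtype.val h4))
    have h5 : (⟨g * z * g⁻¹, h2⟩ : M) = y := by
      refine hu _ (fun h4 => h1 ?_)
      have h6 : g * z * g⁻¹ = 1 := congrArg Subtype.val h4
      have h7 : z = g⁻¹ * (g * z * g⁻¹) * g := by group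
      rw [h7, h6, mul_one, inv_mul_cancel]
    have h8 : g * z * g⁻¹ = z := congrArg Subtype.val (h5.trans h3.symm)
    calc z * g = g * z * g⁻¹ * g := by rw [h8]
      _ = g * z := by group

/-- NSB: a normal subgroup of exponent 2 -/
theorem normal_two (hK : SHAClosed K) (hE : ¬ K (E 3)) {G : Type} [Group G] [Finite G] (hG : K G)
    (hns : ¬ Group.IsSolvable G)
    (IH : ∀ (H : Type) [Group H] [Finite H], K H → Nat.card H < Nat.card G → FinList H)
    (M : Subgroup G) [M.Normal] (h1 : M ≠ ⊥) (h2 : ∀ x ∈ M, x ^ 2 = 1) : BinIco G := by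
  have h2' : ∀ x ∈ M, x * x = 1 := fun x hx => by rw [← pow_two]; exact h2 x hx
  have hlt8 : Nat.card M < 8 := by
    by_contra hc
    exact hE (K_E3_of_sub hK hG M h2' (not_lt.1 hc))
  have : Fact (Nat.Prime 2) := ⟨Nat.prime_two⟩
  have hp : IsPGroup 2 M := by
    intro x
    exact ⟨1, by rw [pow_one]; exact Subtype.ext (h2 x x.2)⟩
  have hM1 : 1 < Nat.card M := by
    have : Nontrivial M := (Subgroup.nontrivial_iff_ne_bot M).2 h1
    exact Finite.one_lt_card
  have hMcard : Nat.card M = 2 ∨ Nat.card M = 4 := by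
    obtain ⟨n, hn⟩ := IsPGroup.iff_card.mp hp
    have hn3 : n < 3 := by
      by_contra hlt
      have : 2 ^ 3 ≤ 2 ^ n := Nat.pow_le_pow_right (by norm_num) (by omega)
      omega
    interval_cases n
    · omega
    · left; rw [hn]; norm_num
    · right; rw [hn]; norm_num
  have hMsol : Group.IsSolvable M := by
    obtain ⟨n, hn⟩ := IsPGroup.iff_card.mp hp
    exact sol_two hn
  have hcardG : Nat.card G = Nat.card (G ⧸ M) * Nat.card M := Subgroup.card_eq_card_quotient_mul_card_subgroup M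
  have hQpos : 0 < Nat.card (G ⧸ M) := Nat.card_pos
  have hQns : ¬ Group.IsSolvable (G ⧸ M) := by
    intro hs
    apply hns
    refine Group.isSolvable_of_ker_le_range M.subtype (QuotientGroup.mk' M) ?_
    rw [QuotientGroup.ker_mk', Subgroup.range_subtype]
  have hKQ : K (G ⧸ M) := hK.quo _ _ (QuotientGroup.mk' M) (QuotientGroup.mk'_surjective M) hG
  have hQlt : Nat.card (G ⧸ M) < Nat.card G := by
    rw [hcardG]
    exact lt_mul_of_one_lt_right hQpos hM1
  have hQ := nonsol_order (IH (G ⧸ M) hKQ hQlt) hQns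
  -- the order of a Sylow 2-subgroup
  obtain ⟨P⟩ : Nonempty (Sylow 2 G) := inferInstance
  have hP : Nat.card P = 4 ∨ Nat.card P = 8 := by
    rcases nonsol_sylow hK hE hG hns P with ⟨h, _⟩ | ⟨⟨e⟩⟩ | ⟨⟨e⟩⟩
    · exact Or.inl h
    · right
      rw [Nat.card_congr e.toEquiv, DihedralGroup.nat_card]
    · right
      rw [Nat.card_congr e.toEquiv]
      simp [QuaternionGroup.card, Nat.card_eq_fintype_card]
  have hPG : Nat.card P * (P : Subgroup G).index = Nat.card G := Subgroup.card_mul_index (P : Subgroup G)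
  have hPi : ¬ 2 ∣ (P : Subgroup G).index := P.not_dvd_index
  have hnot16 : ¬ 16 ∣ Nat.card G := by
    rw [← hPG]
    rcases hP with h | h <;> rw [h] <;> omega
  obtain ⟨hM2, e⟩ : Nat.card M = 2 ∧ Nonempty ((G ⧸ M) ≃* alternatingGroup (Fin 5)) := by
    rcases hQ with ⟨ha, he⟩ | ⟨ha, _⟩
    · rcases hMcard with hb | hb
      · exact ⟨hb, he⟩
      · rw [hcardG, ha, hb] at hnot16
        omega
    · rcases hMcard with hb | hb
      · rw [hcardG, ha, hb] at hnot16
        omega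
      · rw [hcardG, ha, hb] at hnot16
        omega
  obtain ⟨e⟩ := e
  let π : G →* alternatingGroup (Fin 5) := e.toMonoidHom.comp (QuotientGroup.mk' M)
  have hπ : Function.Surjective π := e.surjective.comp (QuotientGroup.mk'_surjective M)
  have hker : π.ker = M := by
    ext x
    rw [MonoidHom.mem_ker]
    change e (QuotientGroup.mk' M x) = 1 ↔ _
    rw [MulEquiv.map_eq_one_iff, ← MonoidHom.mem_ker, QuotientGroup.ker_mk']
  refine ⟨π, hπ, by rw [hker]; exact hM2, fun g hg => ?_⟩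
  by_contra hgM
  have hg1 : π g ≠ 1 := hgM
  have hcen := nsb_central M hM2
  have hpre : ∀ h : G, π h * π h = 1 → π h ≠ 1 → h * h = 1 := by
    intro h hh hh1
    obtain ⟨c, hc⟩ := nsb_conj (π g) (by rw [← map_mul, hg, map_one]) hg1 (π h) hh hh1
    obtain ⟨c', rfl⟩ := hπ c
    have hm : (c' * g * c'⁻¹)⁻¹ * h ∈ M := by
      rw [← hker, MonoidHom.mem_ker, map_mul, map_inv, map_mul, map_mul, map_inv, hc, inv_mul_cancel]
    have h3 : h = (c' * g * c'⁻¹) * ((c' * g * c'⁻¹)⁻¹ * h) := by group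
    have h4 := h2' _ hm
    have h5 := hcen _ hm (c' * g * c'⁻¹)
    have h6 : (c' * g * c'⁻¹) * (c' * g * c'⁻¹) = 1 := by
      have : (c' * g * c'⁻¹) * (c' * g * c'⁻¹) = c' * (g * g) * c'⁻¹ := by group
      rw [this, hg, mul_one, mul_inv_cancel]
    generalize (c' * g * c'⁻¹)⁻¹ * h = m at h3 h4 h5
    generalize c' * g * c'⁻¹ = w at h3 h5 h6
    rw [h3]
    calc w * m * (w * m) = w * (m * w) * m := by group
      _ = w * (w * m) * m := by rw [h5]
      _ = (w * w) * (m * m) := by group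
      _ = 1 := by rw [h6, h4, one_mul]
  obtain ⟨a, b, ha, hb, hab, ha1, hb1, hab1, hne⟩ := nsb_klein
  obtain ⟨A, rfl⟩ := hπ a
  obtain ⟨B, rfl⟩ := hπ b
  have hA := hpre A ha ha1
  have hB := hpre B hb hb1
  have hAB : A * B * (A * B) = 1 := hpre (A * B) (by rw [map_mul]; exact hab) (by rw [map_mul]; exact hab1)
  have hcomm : A * B = B * A := by
    have h3 : A * (A * B * (A * B)) * B = (A * A) * (B * A) * (B * B) := by group
    rw [hAB, hA, hB, one_mul, mul_one, mul_one] at h3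
    exact h3
  obtain ⟨z, hz, hz1⟩ : ∃ z ∈ M, z ≠ 1 := (Subgroup.ne_bot_iff_exists_ne_one).1 h1 |>.elim
    fun z hz => ⟨z, z.2, fun h => hz (Subtype.ext h)⟩
  have hπz : π z = 1 := by
    have : z ∈ π.ker := by rw [hker]; exact hz
    exact this
  refine hE (K_E3_of hK hG z A B (h2' z hz) hA hB (hcen z hz A) (hcen z hz B) hcomm hz1 ?_ ?_ ?_ ?_ ?_ ?_)
  · rintro rfl
    exact ha1 (map_one π)
  · rintro rfl
    exact hb1 (map_one π)
  · rintro rfl
    exact ha1 hπz
  · rintro rfl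
    exact hb1 hπz
  · rintro rfl
    exact hne rfl
  · intro h
    apply hne
    rw [← h, map_mul, hπz, one_mul]

end Pool.Agent.SHAF
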