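import Mathlib
import Pool.Agent.SHAF.Nonsol
import Pool.Agent.SHAN.Small
import Pool.Agent.SHAN.SolX

set_option autoImplicit false

/-!
A normal elementary abelian subgroup of odd order (module NSC).
-/

namespace Pool.Agent.SHAF

open Pool.Agent.SHA

variable {K : (G : Type) → [Group G] → Prop}

/-- a nontrivial subgroup of odd prime exponent has prime order -/
lemma nsc_card (hK : SHAClosed K) (hE : ¬ K (E 3)) {G : Type} [Group G] [Finite G] (hG : K G)
    (M : Subgroup G) (h1 : M ≠ ⊥) {p : ℕ} (hp : p.Prime) (hp2 : p ≠ 2)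
    (h2 : ∀ x ∈ M, x ^ p = 1) : Nat.card M = p := by
  haveI : Fact p.Prime := ⟨hp⟩
  have hpg : IsPGroup p M := fun x => ⟨1, by rw [pow_one]; exact Subtype.ext (h2 x x.2)⟩
  have hcyc : IsCyclic M :=
    odd_p_groups hK hE hp hp2 (hK.sub _ _ M.subtype M.subtype_injective hG) hpg
  obtain ⟨g, hg⟩ := hcyc.exists_generator
  have h3 : orderOf g = Nat.card M := orderOf_eq_card_of_forall_mem_zpowers hg
  have h4 : orderOf g ∣ p := orderOf_dvd_of_pow_eq_one (Subtype.ext (h2 g g.2))
  rcases (Nat.dvd_prime hp).mp h4 with h5 | h5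
  · exfalso
    apply h1
    rw [h3] at h5
    exact Subgroup.card_eq_one.mp h5
  · rw [← h3, h5]

lemma nsc_sol_ext {G H : Type} [Group G] [Group H] (f : G →* H) (hk : Group.IsSolvable f.ker)
    (hH : Group.IsSolvable H) : Group.IsSolvable G := by
  haveI := hk
  haveI := hH
  exact Group.isSolvable_of_ker_le_range f.ker.subtype f (by rw [Subgroup.range_subtype])

lemma nsc_sol_prime {G : Type} [Group G] {p : ℕ} (hp : p.Prime) (h : Nat.card G = p) :
    Group.IsSolvable G := by
  haveI : Fact p.Prime := ⟨hp⟩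
  exact sol_cyc (isCyclic_of_prime_card h)

/-- a subgroup of prime order has a generator of that order -/
lemma nsc_gen {G : Type} [Group G] (M : Subgroup G) {p : ℕ} (hp : p.Prime)
    (h : Nat.card M = p) : ∃ z ∈ M, orderOf z = p := by
  haveI : Fact p.Prime := ⟨hp⟩
  haveI : Finite M := Nat.finite_of_card_ne_zero (by rw [h]; exact hp.ne_zero)
  obtain ⟨x, hx⟩ := exists_prime_orderOf_dvd_card' (G := M) p (by rw [h])
  exact ⟨x, x.2, by rw [← hx]; exact Subgroup.orderOf_coe x⟩

/-- a subgroup of `G` other than `G` that contains a central subgroup of odd prime order is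
soluble -/
lemma nsc_proper (hK : SHAClosed K) {G : Type} [Group G] [Finite G] (hG : K G)
    (IH : ∀ (H : Type) [Group H] [Finite H], K H → Nat.card H < Nat.card G → FinList H)
    (C : Subgroup G) (hC : C ≠ ⊤) {p : ℕ} (hp : p.Prime) (hp2 : p ≠ 2) (z : G) (hz : z ∈ C)
    (hzo : orderOf z = p) (hc : ∀ g ∈ C, z * g = g * z) : Group.IsSolvable C := by
  have hlt : Nat.card C < Nat.card G := by
    refine lt_of_le_of_ne (Subgroup.card_le_card_group C) ?_
    intro h
    exact hC (Subgroup.eq_top_of_card_eq C h)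
  have hF : FinList C := IH C (hK.sub _ _ C.subtype C.subtype_injective hG) hlt
  refine list_sol (central_odd hF hp hp2 ⟨z, hz⟩ ?_ ?_)
  · rw [← hzo]; exact (Subgroup.orderOf_coe (⟨z, hz⟩ : C)).symm
  · rintro ⟨g, hg⟩
    exact Subtype.ext (hc g hg)

/-- the subgroup is central -/
lemma nsc_central (hK : SHAClosed K) {G : Type} [Group G] [Finite G] (hG : K G)
    (hns : ¬ Group.IsSolvable G)
    (IH : ∀ (H : Type) [Group H] [Finite H], K H → Nat.card H < Nat.card G → FinList H)
    (M : Subgroup G) [M.Normal] {p : ℕ} (hp : p.Prime) (hp2 : p ≠ 2)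
    (hM : Nat.card M = p) : Subgroup.centralizer (M : Set G) = ⊤ := by
  by_contra hC
  haveI : Fact p.Prime := ⟨hp⟩
  obtain ⟨z, hzM, hzo⟩ := nsc_gen M hp hM
  haveI hMc : IsCyclic M := isCyclic_of_prime_card hM
  have hMab : ∀ x ∈ M, ∀ y ∈ M, x * y = y * x := by
    intro x hx y hy
    have h1 : (⟨x, hx⟩ : M) * ⟨y, hy⟩ = ⟨y, hy⟩ * ⟨x, hx⟩ := by
      letI : CommGroup M := IsCyclic.commGroup
      exact mul_comm _ _
    exact congrArg Subtype.val h1
  have hs : Group.IsSolvable (Subgroup.centralizer (M : Set G)) := by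
    refine nsc_proper hK hG IH _ hC hp hp2 z ?_ hzo ?_
    · rw [Subgroup.mem_centralizer_iff]
      intro h hh
      exact hMab h hh z hzM
    · intro g hg
      rw [Subgroup.mem_centralizer_iff] at hg
      exact hg z hzM
  apply hns
  refine nsc_sol_ext (MulAut.conjNormal : G →* MulAut M) ?_ (sol_cyc (mulAut_prime_cyc hp hM).1)
  rw [← cent_eq_ker]
  exact hs

lemma nsc_sol_a4 : Group.IsSolvable (alternatingGroup (Fin 4)) := by
  haveI := sol_s4
  infer_instance

/-- the embedding of the alternating group of degree 4 -/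
lemma nsc_a4 : ∃ ι : alternatingGroup (Fin 4) →* alternatingGroup (Fin 5),
    Function.Injective ι := by
  classical
  let e4 : Fin 4 ≃ {x : Fin 5 // x ∈ Set.range (Fin.castSucc : Fin 4 → Fin 5)} :=
    Equiv.ofInjective _ (Fin.castSucc_injective 4)
  let f : Equiv.Perm (Fin 4) →* Equiv.Perm (Fin 5) := Equiv.Perm.extendDomainHom e4
  have hf : Function.Injective f := Equiv.Perm.extendDomainHom_injective e4
  have hs : ∀ x, Equiv.Perm.sign (f x) = Equiv.Perm.sign x := by
    intro x
    exact Equiv.Perm.sign_extendDomain x e4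
  refine ⟨(f.comp (alternatingGroup (Fin 4)).subtype).codRestrict (alternatingGroup (Fin 5)) ?_, ?_⟩
  · rintro ⟨x, hx⟩
    rw [Equiv.Perm.mem_alternatingGroup] at hx ⊢
    exact (hs x).trans hx
  · intro x y hxy
    exact Subtype.ext (hf (congrArg Subtype.val hxy))

/-- the quotient is not `A_5` -/
lemma nsc_a5 (hK : SHAClosed K) (hE : ¬ K (E 3)) {G : Type} [Group G] [Finite G] (hG : K G)
    (π : G →* alternatingGroup (Fin 5)) (hπ : Function.Surjective π) {p : ℕ} (hp : p.Prime)
    (hp2 : p ≠ 2) (hk : Nat.card π.ker = p) : False := by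
  obtain ⟨ι, hι⟩ := nsc_a4
  let X : Subgroup G := ι.range.comap π
  let e : alternatingGroup (Fin 4) ≃* ι.range := MonoidHom.ofInjective hι
  let f' : X →* ι.range := (π.comp X.subtype).codRestrict ι.range (fun x => x.2)
  let f : X →* alternatingGroup (Fin 4) := e.symm.toMonoidHom.comp f'
  have hf' : Function.Surjective f' := by
    rintro ⟨y, hy⟩
    obtain ⟨x, hx⟩ := hπ y
    exact ⟨⟨x, by show π x ∈ ι.range; rw [hx]; exact hy⟩, Subtype.ext hx⟩
  have hf : Function.Surjective f := e.symm.surjective.comp hf'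
  have hmem : ∀ x : X, x ∈ f.ker ↔ π x = 1 := by
    intro x
    rw [MonoidHom.mem_ker]
    have h1 : f x = e.symm (f' x) := rfl
    rw [h1, map_eq_one_iff e.symm e.symm.injective]
    exact ⟨fun h => congrArg Subtype.val h, fun h => Subtype.ext h⟩
  have hfk : Nat.card f.ker = p := by
    rw [← hk]
    exact Nat.card_congr ⟨fun x => ⟨x.1.1, (hmem _).mp x.2⟩,
      fun y => ⟨⟨y.1, by
        show π y ∈ ι.range
        rw [MonoidHom.mem_ker.mp y.2]
        exact one_mem _⟩, (hmem _).mpr y.2⟩, fun x => rfl, fun y => rfl⟩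
  haveI hXs : Group.IsSolvable X := nsc_sol_ext f (nsc_sol_prime hp hfk) nsc_sol_a4
  exact sol_no_a4 (sol_forward hK hE X (hK.sub _ _ X.subtype X.subtype_injective hG)) f hf hp hp2
    hfk

/-- the quotient is not `S_5` -/
lemma nsc_s5 (hK : SHAClosed K) {G : Type} [Group G] [Finite G] (hG : K G)
    (IH : ∀ (H : Type) [Group H] [Finite H], K H → Nat.card H < Nat.card G → FinList H)
    (π : G →* Equiv.Perm (Fin 5)) (hπ : Function.Surjective π) {p : ℕ} (hp : p.Prime)
    (hp2 : p ≠ 2) (z : G) (hzo : orderOf z = p) (hzk : π z = 1) (hzc : ∀ g, z * g = g * z) :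
    False := by
  let C : Subgroup G := (alternatingGroup (Fin 5)).comap π
  have hC : C ≠ ⊤ := by
    intro h
    obtain ⟨g, hg⟩ := hπ (Equiv.swap 0 1)
    have h1 : g ∈ C := by rw [h]; exact Subgroup.mem_top g
    have h2 : Equiv.swap (0 : Fin 5) 1 ∈ alternatingGroup (Fin 5) := by rw [← hg]; exact h1
    rw [Equiv.Perm.mem_alternatingGroup, Equiv.Perm.sign_swap (by decide)] at h2
    exact absurd h2 (by decide)
  have hzC : z ∈ C := by
    show π z ∈ alternatingGroup (Fin 5)
    rw [hzk]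
    exact one_mem _
  haveI hs : Group.IsSolvable C := nsc_proper hK hG IH C hC hp hp2 z hzC hzo (fun g _ => hzc g)
  let f : C →* alternatingGroup (Fin 5) :=
    (π.comp C.subtype).codRestrict (alternatingGroup (Fin 5)) (fun x => x.2)
  have hf : Function.Surjective f := by
    rintro ⟨y, hy⟩
    obtain ⟨x, hx⟩ := hπ y
    exact ⟨⟨x, by show π x ∈ alternatingGroup (Fin 5); rw [hx]; exact hy⟩, Subtype.ext hx⟩
  exact a5_facts.2.2.1 (Group.isSolvable_of_surjective hf)

lemma nsc_odd_inv {G : Type} [Group G] {p : ℕ} (hp : p.Prime) (hp2 : p ≠ 2) (H : Subgroup G)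
    (h : Nat.card H = p) (x : G) (hx : x ∈ H) (hxx : x * x = 1) : x = 1 := by
  have h1 : orderOf x ∣ p := by
    rw [← h, ← Subgroup.orderOf_mk x hx]
    exact orderOf_dvd_natCard _
  have h2 : orderOf x ∣ 2 := orderOf_dvd_of_pow_eq_one (by rw [pow_two]; exact hxx)
  have h3 : Nat.Coprime p 2 := (Nat.coprime_primes hp Nat.prime_two).mpr hp2
  exact orderOf_eq_one_iff.mp (Nat.eq_one_of_dvd_coprimes h3 h1 h2)

lemma nsc_two_eq {G : Type} [Group G] (H : Subgroup G) (h : Nat.card H = 2) (x y : G)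
    (hx : x ∈ H) (hy : y ∈ H) (hx1 : x ≠ 1) (hy1 : y ≠ 1) : x = y := by
  haveI : Finite H := Nat.finite_of_card_ne_zero (by rw [h]; norm_num)
  obtain ⟨u, hu1, hu⟩ := Nat.card_eq_two_iff' (1 : H) |>.mp h
  have h1 : (⟨x, hx⟩ : H) = u := hu _ (fun h => hx1 (congrArg Subtype.val h))
  have h2 : (⟨y, hy⟩ : H) = u := hu _ (fun h => hy1 (congrArg Subtype.val h))
  exact congrArg Subtype.val (h1.trans h2.symm)

/-- the quotient is not `SL(2,5)` -/
lemma nsc_bi (hK : SHAClosed K) {G Q : Type} [Group G] [Finite G] [Group Q] (hG : K G)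
    (hns : ¬ Group.IsSolvable G)
    (IH : ∀ (H : Type) [Group H] [Finite H], K H → Nat.card H < Nat.card G → FinList H)
    (π : G →* Q) (hπ : Function.Surjective π) {p : ℕ} (hp : p.Prime)
    (hp2 : p ≠ 2) (hk : Nat.card π.ker = p) (hcen : ∀ x ∈ π.ker, ∀ g, x * g = g * x)
    (hB : BinIco Q) (hQ : Nat.card Q = 120) : False := by
  haveI : Fact p.Prime := ⟨hp⟩
  haveI : Fact (Nat.Prime 2) := ⟨Nat.prime_two⟩
  obtain ⟨ρ, hρ, hk2, -⟩ := hB
  have hGc : Nat.card G = p * 120 := by
    have h1 := π.ker.card_mul_index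
    rw [Subgroup.index_ker, hk, MonoidHom.range_eq_top.mpr hπ, Subgroup.card_top, hQ] at h1
    exact h1.symm
  let σ : G →* alternatingGroup (Fin 5) := ρ.comp π
  have hσ : Function.Surjective σ := hρ.comp hπ
  have hL : Nat.card σ.ker = 2 * p := by
    have h1 := σ.ker.card_mul_index
    rw [Subgroup.index_ker, MonoidHom.range_eq_top.mpr hσ, Subgroup.card_top, a5_facts.1, hGc] at h1
    omega
  -- the kernel is abelian
  let f : σ.ker →* ρ.ker := (π.comp σ.ker.subtype).codRestrict ρ.ker (fun x => x.2)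
  haveI : IsCyclic ρ.ker := isCyclic_of_prime_card hk2
  have hab : ∀ x ∈ σ.ker, ∀ y ∈ σ.ker, x * y = y * x := by
    intro x hx y hy
    have h1 : (⟨x, hx⟩ : σ.ker) * ⟨y, hy⟩ = ⟨y, hy⟩ * ⟨x, hx⟩ := by
      refine commutative_of_cyclic_center_quotient f ?_ _ _
      rintro ⟨u, hu⟩ hu'
      rw [Subgroup.mem_center_iff]
      rintro ⟨v, hv⟩
      apply Subtype.ext
      have h2 : π u = 1 := congrArg Subtype.val (MonoidHom.mem_ker.mp hu')
      exact (hcen u h2 v).symm
    exact congrArg Subtype.val h1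
  obtain ⟨w, hw⟩ := exists_prime_orderOf_dvd_card' (G := σ.ker) 2 (by rw [hL]; exact dvd_mul_right 2 p)
  obtain ⟨z, hz⟩ := w
  have hzo : orderOf z = 2 := by rw [← hw]; exact (Subgroup.orderOf_mk z hz).symm
  have hz1 : z ≠ 1 := by
    intro h
    rw [h, orderOf_one] at hzo
    omega
  have hzz : z * z = 1 := by
    rw [← pow_two, ← hzo]
    exact pow_orderOf_eq_one z
  have huniq : ∀ y ∈ σ.ker, y * y = 1 → y ≠ 1 → y = z := by
    intro y hy hyy hy1
    have hne : ∀ u ∈ σ.ker, u * u = 1 → u ≠ 1 → π u ≠ 1 := by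
      intro u _ huu hu1 h
      exact hu1 (nsc_odd_inv hp hp2 π.ker hk u h huu)
    have h1 : π y = π z := nsc_two_eq ρ.ker hk2 _ _ hy hz (hne y hy hyy hy1) (hne z hz hzz hz1)
    have h2 : y * z ∈ π.ker := by
      rw [MonoidHom.mem_ker, map_mul, h1, ← map_mul, hzz, map_one]
    have h3 : (y * z) * (y * z) = 1 := by
      rw [show (y * z) * (y * z) = y * (z * y) * z by group, ← hab y hy z hz,
        show y * (y * z) * z = (y * y) * (z * z) by group, hyy, hzz, mul_one]
    have h4 : y * z = 1 := nsc_odd_inv hp hp2 π.ker hk _ h2 h3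
    calc y = y * (z * z) := by rw [hzz, mul_one]
      _ = (y * z) * z := by group
      _ = z := by rw [h4, one_mul]
  have hzc : ∀ g : G, g * z * g⁻¹ = z := by
    intro g
    refine huniq _ ?_ ?_ ?_
    · exact (inferInstance : σ.ker.Normal).conj_mem z hz g
    · rw [show g * z * g⁻¹ * (g * z * g⁻¹) = g * (z * z) * g⁻¹ by group, hzz]
      group
    · intro h
      apply hz1
      rw [mul_inv_eq_one] at h
      exact mul_eq_left.mp h
  let N : Subgroup G := Subgroup.zpowers z
  haveI hN : N.Normal := by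
    have h1 := zpowers_normal z (fun x => ⟨1, by rw [zpow_one]; exact hzc x⟩) 1
    rw [pow_one] at h1
    exact h1
  have hNc : Nat.card N = 2 := by rw [Nat.card_zpowers, hzo]
  have hcard : Nat.card G = Nat.card (G ⧸ N) * 2 := by
    rw [← hNc]; exact Subgroup.card_eq_card_quotient_mul_card_subgroup N
  have hpos : 0 < Nat.card (G ⧸ N) := Nat.card_pos
  have hKQ : K (G ⧸ N) := hK.quo _ _ (QuotientGroup.mk' N) (QuotientGroup.mk'_surjective N) hG
  have hQs : ¬ Group.IsSolvable (G ⧸ N) := by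
    intro h
    refine hns (nsc_sol_ext (QuotientGroup.mk' N) ?_ h)
    rw [QuotientGroup.ker_mk']
    exact nsc_sol_prime Nat.prime_two hNc
  have h2p := hp.two_le
  rcases nonsol_order (IH _ hKQ (by omega)) hQs with ⟨h, -⟩ | ⟨h, -⟩
  · omega
  · omega

theorem normal_odd (hK : SHAClosed K) (hE : ¬ K (E 3)) {G : Type} [Group G] [Finite G] (hG : K G)
    (hns : ¬ Group.IsSolvable G)
    (IH : ∀ (H : Type) [Group H] [Finite H], K H → Nat.card H < Nat.card G → FinList H)
    (M : Subgroup G) [M.Normal] (h1 : M ≠ ⊥) {p : ℕ} (hp : p.Prime) (hp2 : p ≠ 2)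
    (h2 : ∀ x ∈ M, x ^ p = 1) : False := by
  haveI : Fact p.Prime := ⟨hp⟩
  have hM : Nat.card M = p := nsc_card hK hE hG M h1 hp hp2 h2
  have hC := nsc_central hK hG hns IH M hp hp2 hM
  obtain ⟨z, hzM, hzo⟩ := nsc_gen M hp hM
  have hcen : ∀ x ∈ M, ∀ g : G, x * g = g * x := by
    intro x hx g
    have hg : g ∈ Subgroup.centralizer (M : Set G) := by rw [hC]; exact Subgroup.mem_top g
    exact (Subgroup.mem_centralizer_iff.mp hg) x hx
  have hcard : Nat.card G = Nat.card (G ⧸ M) * p := by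
    rw [← hM]; exact Subgroup.card_eq_card_quotient_mul_card_subgroup M
  have hKQ : K (G ⧸ M) := hK.quo _ _ (QuotientGroup.mk' M) (QuotientGroup.mk'_surjective M) hG
  have hQs : ¬ Group.IsSolvable (G ⧸ M) := by
    intro h
    refine hns (nsc_sol_ext (QuotientGroup.mk' M) ?_ h)
    rw [QuotientGroup.ker_mk']
    exact nsc_sol_prime hp hM
  have hlt : Nat.card (G ⧸ M) < Nat.card G := by
    rw [hcard]
    have := Nat.card_pos (α := G ⧸ M)
    nlinarith [hp.two_le]
  have hkk : ∀ {R : Type} [Group R] (e : (G ⧸ M) ≃* R),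
      (e.toMonoidHom.comp (QuotientGroup.mk' M)).ker = M := by
    intro R _ e
    ext x
    rw [MonoidHom.mem_ker]
    show e (QuotientGroup.mk' M x) = 1 ↔ _
    rw [map_eq_one_iff e e.injective]
    exact QuotientGroup.eq_one_iff x
  rcases nonsol_order (IH _ hKQ hlt) hQs with ⟨-, ⟨e⟩⟩ | ⟨h120, ⟨⟨e⟩⟩ | hB⟩
  · refine nsc_a5 hK hE hG (e.toMonoidHom.comp (QuotientGroup.mk' M))
      (e.surjective.comp (QuotientGroup.mk'_surjective M)) hp hp2 ?_
    rw [hkk e, hM]
  · refine nsc_s5 hK hG IH (e.toMonoidHom.comp (QuotientGroup.mk' M))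
      (e.surjective.comp (QuotientGroup.mk'_surjective M)) hp hp2 z hzo ?_ (hcen z hzM)
    have h3 : z ∈ (e.toMonoidHom.comp (QuotientGroup.mk' M)).ker := by rw [hkk e]; exact hzM
    exact h3
  · refine nsc_bi hK hG hns IH (QuotientGroup.mk' M) (QuotientGroup.mk'_surjective M) hp hp2 ?_ ?_
      hB h120
    · rw [QuotientGroup.ker_mk', hM]
    · rw [QuotientGroup.ker_mk']
      exact hcen

end Pool.Agent.SHAF
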