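import Mathlib
import Pool.Agent.SHAN.Small

set_option autoImplicit false

/-!
Quotients of the groups in the list (module QUO).
-/

namespace Pool.Agent.SHAF

open Pool.Agent.SHA

theorem quo_small {Q : Type} [Group Q] {A : Type} [Finite A] (u : A → Q)
    (hu : Function.Surjective u) (h : Nat.card A ≤ 7) : FinList Q := by
  haveI : Finite Q := Finite.of_surjective u hu
  exact Or.inl (small_list ((Nat.card_le_card_of_surjective u hu).trans h))

theorem quo_binico {G Q : Type} [Group G] [Group Q] (e : Q ≃* G) (h : BinIco G) : BinIco Q := by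
  obtain ⟨π, h1, h2, h3⟩ := h
  refine ⟨π.comp e.toMonoidHom, h1.comp e.surjective, ?_, fun g hg => ?_⟩
  · rw [← h2]
    refine Nat.card_congr ⟨fun x => ⟨e x.1, x.2⟩, fun y => ⟨e.symm y.1, ?_⟩, fun x => ?_, fun y => ?_⟩
    · show π (e (e.symm y.1)) = 1
      rw [e.apply_symm_apply]
      exact y.2
    · exact Subtype.ext (e.symm_apply_apply x.1)
    · exact Subtype.ext (e.apply_symm_apply y.1)
  · show π (e g) = 1
    exact h3 (e g) (by rw [← map_mul, hg, map_one])

theorem quo_a5 {Q : Type} [Group Q] (f : alternatingGroup (Fin 5) →* Q)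
    (hf : Function.Surjective f) : FinList Q := by
  rcases IsSimpleGroup.eq_bot_or_eq_top_of_normal f.ker inferInstance with h | h
  · have hi : Function.Injective f := (MonoidHom.ker_eq_bot_iff f).1 h
    exact Or.inr (Or.inl ⟨(MulEquiv.ofBijective f ⟨hi, hf⟩).symm⟩)
  · refine quo_small (A := Unit) (fun _ => 1) (fun q => ?_) (by simp)
    obtain ⟨a, rfl⟩ := hf q
    have h1 : a ∈ f.ker := by rw [h]; exact Subgroup.mem_top a
    exact ⟨(), (MonoidHom.mem_ker.1 h1).symm⟩

theorem quo_s5 {Q : Type} [Group Q] (f : Equiv.Perm (Fin 5) →* Q)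
    (hf : Function.Surjective f) : FinList Q := by
  have hn : (f.ker.subgroupOf (alternatingGroup (Fin 5))).Normal := Subgroup.normal_subgroupOf
  rcases IsSimpleGroup.eq_bot_or_eq_top_of_normal _ hn with h | h
  · have hi : Function.Injective f := by
      rw [← MonoidHom.ker_eq_bot_iff, Subgroup.eq_bot_iff_forall]
      intro z hz
      refine a5_facts.2.2.2.2.2 z fun g hg => ?_
      have h1 : z * g * z⁻¹ * g⁻¹ ∈ f.ker := by
        rw [MonoidHom.mem_ker, map_mul, map_mul, map_mul, MonoidHom.mem_ker.1 hz, map_inv f z,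
          MonoidHom.mem_ker.1 hz, inv_one, mul_one, one_mul, map_inv, mul_inv_cancel]
      have h2 : z * g * z⁻¹ * g⁻¹ ∈ alternatingGroup (Fin 5) := by
        rw [Equiv.Perm.mem_alternatingGroup, map_mul, map_mul, map_mul, map_inv, map_inv,
          mul_comm (Equiv.Perm.sign z), mul_inv_cancel_right, mul_inv_cancel]
      have h3 : (⟨z * g * z⁻¹ * g⁻¹, h2⟩ : alternatingGroup (Fin 5)) ∈
          f.ker.subgroupOf (alternatingGroup (Fin 5)) := h1
      rw [h, Subgroup.mem_bot] at h3
      have h4 : z * g * z⁻¹ * g⁻¹ = 1 := congrArg Subtype.val h3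
      exact (mul_inv_eq_iff_eq_mul.1 (mul_inv_eq_one.1 h4))
    exact Or.inr (Or.inr (Or.inl ⟨(MulEquiv.ofBijective f ⟨hi, hf⟩).symm⟩))
  · have hle : ∀ g ∈ alternatingGroup (Fin 5), f g = 1 := by
      intro g hg
      have h1 : (⟨g, hg⟩ : alternatingGroup (Fin 5)) ∈
          f.ker.subgroupOf (alternatingGroup (Fin 5)) := by
        rw [h]
        exact Subgroup.mem_top _
      exact h1
    refine quo_small (A := Bool) (fun b => if b then f (Equiv.swap 0 1) else 1) (fun q => ?_)
      (by simp)
    obtain ⟨g, rfl⟩ := hf q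
    rcases Int.units_eq_one_or (Equiv.Perm.sign g) with h1 | h1
    · refine ⟨false, ?_⟩
      rw [hle g (Equiv.Perm.mem_alternatingGroup.2 h1)]
      rfl
    · refine ⟨true, ?_⟩
      have h2 : (Equiv.swap (0 : Fin 5) 1)⁻¹ * g ∈ alternatingGroup (Fin 5) := by
        rw [Equiv.Perm.mem_alternatingGroup, map_mul, map_inv, h1, Equiv.Perm.sign_swap (by decide)]
        rfl
      have h3 := hle _ h2
      rw [map_mul, map_inv, inv_mul_eq_one] at h3
      exact h3

theorem quo_bi {G Q : Type} [Group G] [Group Q] (f : G →* Q) (hf : Function.Surjective f)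
    (h : BinIco G) : FinList Q := by
  have h0 := h
  obtain ⟨π, h1, h2, h3⟩ := h
  haveI hfin : Finite π.ker := Nat.finite_of_card_ne_zero (by rw [h2]; norm_num)
  have hn : (f.ker.map π).Normal := Subgroup.Normal.map inferInstance π h1
  rcases IsSimpleGroup.eq_bot_or_eq_top_of_normal _ hn with h | h
  · have hle : f.ker ≤ π.ker := by
      intro g hg
      have h4 : π g ∈ f.ker.map π := Subgroup.mem_map_of_mem π hg
      rw [h] at h4
      exact Subgroup.mem_bot.1 h4
    by_cases hb : f.ker = ⊥
    · have hi : Function.Injective f := (MonoidHom.ker_eq_bot_iff f).1 hb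
      exact Or.inr (Or.inr (Or.inr (quo_binico (MulEquiv.ofBijective f ⟨hi, hf⟩).symm h0)))
    · have he : f.ker = π.ker := by
        refine le_antisymm hle fun y hy => ?_
        obtain ⟨x, hx, hx1⟩ : ∃ x : G, x ∈ f.ker ∧ x ≠ 1 := by
          by_contra hcon
          push Not at hcon
          exact hb ((Subgroup.eq_bot_iff_forall _).2 hcon)
        obtain ⟨a, b, -, hab⟩ := Nat.card_eq_two_iff.1 h2
        have hall : ∀ w : π.ker, w = a ∨ w = b := by
          intro w
          have : w ∈ ({a, b} : Set π.ker) := by rw [hab]; exact Set.mem_univ w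
          exact this
        have e1 := hall 1
        have e2 := hall ⟨x, hle hx⟩
        have e3 := hall ⟨y, hy⟩
        have hne : (⟨x, hle hx⟩ : π.ker) ≠ 1 := fun h => hx1 (congrArg Subtype.val h)
        have e4 : (⟨y, hy⟩ : π.ker) = 1 ∨ (⟨y, hy⟩ : π.ker) = ⟨x, hle hx⟩ := by
          rcases e1 with e1 | e1 <;> rcases e2 with e2 | e2 <;> rcases e3 with e3 | e3
          · exact Or.inl (e3.trans e1.symm)
          · exact absurd (e2.trans e1.symm) hne
          · exact Or.inl (e3.trans e1.symm)
          · exact Or.inr (e3.trans e2.symm)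
          · exact Or.inr (e3.trans e2.symm)
          · exact Or.inl (e3.trans e1.symm)
          · exact absurd (e2.trans e1.symm) hne
          · exact Or.inl (e3.trans e1.symm)
        rcases e4 with e4 | e4
        · have e5 : y = 1 := congrArg Subtype.val e4
          rw [e5]
          exact one_mem _
        · have e5 : y = x := congrArg Subtype.val e4
          rw [e5]
          exact hx
      exact Or.inr (Or.inl ⟨(QuotientGroup.quotientKerEquivOfSurjective f hf).symm.trans
        ((QuotientGroup.quotientMulEquivOfEq he).trans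
          (QuotientGroup.quotientKerEquivOfSurjective π h1))⟩)
  · refine quo_small (A := π.ker) (fun x => f x.1) (fun q => ?_) (by rw [h2]; norm_num)
    obtain ⟨g, rfl⟩ := hf q
    have h4 : π g ∈ f.ker.map π := by rw [h]; exact Subgroup.mem_top _
    obtain ⟨m, hm, hm2⟩ := h4
    have hm' : f m = 1 := hm
    refine ⟨⟨m⁻¹ * g, ?_⟩, ?_⟩
    · rw [MonoidHom.mem_ker, map_mul, map_inv, hm2, inv_mul_cancel]
    · show f (m⁻¹ * g) = f g
      rw [map_mul, map_inv, hm', inv_one, one_mul]

theorem fin_quo {G Q : Type} [Group G] [Group Q] (f : G →* Q) (hf : Function.Surjective f)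
    (h : FinList G) : FinList Q := by
  rcases h with h | ⟨⟨e⟩⟩ | ⟨⟨e⟩⟩ | h
  · exact Or.inl (list_quo f hf h)
  · exact quo_a5 (f.comp e.symm.toMonoidHom) (hf.comp e.symm.surjective)
  · exact quo_s5 (f.comp e.symm.toMonoidHom) (hf.comp e.symm.surjective)
  · exact quo_bi f hf h

end Pool.Agent.SHAF
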