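import Mathlib
import Pool.Agent.SHAN.SubS5

set_option autoImplicit false

/-!
Subgroups of `SL(2,5)` (module SUBBI).
-/

namespace Pool.Agent.SHAF

open Pool.Agent.SHA

lemma sbi_ord : ∀ g : Equiv.Perm (Fin 5), Equiv.Perm.sign g = 1 →
    g * g = 1 ∨ g * g * g = 1 ∨ g * g * g * g * g = 1 := by decide +kernel

lemma sbi_cent : ∀ g : Equiv.Perm (Fin 5), Equiv.Perm.sign g = 1 → g ≠ 1 →
    (Finset.univ.filter fun x : Equiv.Perm (Fin 5) => x * g = g * x ∧ Equiv.Perm.sign x = 1).card =
      if g * g = 1 then 4 else if g * g * g = 1 then 3 else 5 := by decide +kernel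

lemma sbi_ordA (g : alternatingGroup (Fin 5)) : g * g = 1 ∨ g * g * g = 1 ∨ g * g * g * g * g = 1 := by
  rcases sbi_ord g (Equiv.Perm.mem_alternatingGroup.mp g.2) with h | h | h
  · exact Or.inl (Subtype.ext h)
  · exact Or.inr (Or.inl (Subtype.ext h))
  · exact Or.inr (Or.inr (Subtype.ext h))

lemma sbi_centA (g : alternatingGroup (Fin 5)) (hg : g ≠ 1) :
    Nat.card (Subgroup.centralizer ({g} : Set (alternatingGroup (Fin 5)))) =
      if g * g = 1 then 4 else if g * g * g = 1 then 3 else 5 := by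
  have hg1 : (g : Equiv.Perm (Fin 5)) ≠ 1 := fun h => hg (Subtype.ext h)
  have h1 := sbi_cent g (Equiv.Perm.mem_alternatingGroup.mp g.2) hg1
  have h2 : Nat.card (Subgroup.centralizer ({g} : Set (alternatingGroup (Fin 5)))) =
      Nat.card {x : Equiv.Perm (Fin 5) // x * g = g * x ∧ Equiv.Perm.sign x = 1} := by
    refine Nat.card_congr
      { toFun := fun x => ⟨x.1.1, ?_, Equiv.Perm.mem_alternatingGroup.mp x.1.2⟩
        invFun := fun x => ⟨⟨x.1, Equiv.Perm.mem_alternatingGroup.mpr x.2.2⟩, ?_⟩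
        left_inv := fun x => rfl
        right_inv := fun x => rfl }
    · have h3 := Subgroup.mem_centralizer_singleton_iff.mp x.2
      exact (congrArg Subtype.val h3)
    · exact Subgroup.mem_centralizer_singleton_iff.mpr (Subtype.ext x.2.1)
  have h4 : Nat.card {x : Equiv.Perm (Fin 5) // x * g = g * x ∧ Equiv.Perm.sign x = 1} =
      (Finset.univ.filter fun x : Equiv.Perm (Fin 5) => x * g = g * x ∧
        Equiv.Perm.sign x = 1).card :=
    Nat.subtype_card _ (fun x => by simp)
  rw [h2, h4, h1]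
  have e2 : ((g : Equiv.Perm (Fin 5)) * g = 1) ↔ g * g = 1 :=
    ⟨fun h => Subtype.ext h, fun h => congrArg Subtype.val h⟩
  have e3 : ((g : Equiv.Perm (Fin 5)) * g * g = 1) ↔ g * g * g = 1 :=
    ⟨fun h => Subtype.ext h, fun h => congrArg Subtype.val h⟩
  by_cases c2 : g * g = 1
  · rw [if_pos c2, if_pos (e2.mpr c2)]
  · rw [if_neg c2, if_neg (fun h => c2 (e2.mp h))]
    by_cases c3 : g * g * g = 1
    · rw [if_pos c3, if_pos (e3.mpr c3)]
    · rw [if_neg c3, if_neg (fun h => c3 (e3.mp h))]

section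

variable {H : Type} [Group H] [Finite H] (π : H →* alternatingGroup (Fin 5))

omit [Finite H] in
lemma sbi_ker (hk : Nat.card π.ker = 2) : ∃ z : H, z ≠ 1 ∧ z * z = 1 ∧ z ∈ π.ker ∧
    (∀ k ∈ π.ker, k = 1 ∨ k = z) ∧ ∀ h : H, h * z = z * h := by
  obtain ⟨z, hz, hu⟩ := (Nat.card_eq_two_iff' (1 : π.ker)).mp hk
  have h1 : ∀ k ∈ π.ker, k = 1 ∨ k = (z : H) := by
    intro k hkk
    by_cases h : k = 1
    · exact Or.inl h
    · right
      have := hu ⟨k, hkk⟩ (fun h' => h (congrArg Subtype.val h'))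
      exact congrArg Subtype.val this
  have hz1 : (z : H) ≠ 1 := fun h => hz (Subtype.ext h)
  refine ⟨z, hz1, ?_, z.2, h1, ?_⟩
  · rcases h1 _ (Subgroup.mul_mem _ z.2 z.2) with h | h
    · exact h
    · exact absurd (mul_eq_left.mp h) hz1
  · intro h
    have h2 : h * z * h⁻¹ ∈ π.ker := Subgroup.Normal.conj_mem inferInstance _ z.2 h
    rcases h1 _ h2 with h3 | h3
    · exfalso
      apply hz1
      rw [mul_inv_eq_one] at h3
      exact mul_eq_left.mp h3
    · exact mul_inv_eq_iff_eq_mul.mp h3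

omit [Finite H] in
lemma sbi_card (hk : Nat.card π.ker = 2) : Nat.card H = 2 * Nat.card π.range := by
  rw [← π.ker.card_mul_index, Subgroup.index_ker, hk]

omit [Finite H] in
/-- preimages of subgroups -/
lemma sbi_card_sub (hk : Nat.card π.ker = 2) (Q : Subgroup H) (hQ : π.ker ≤ Q) :
    Nat.card Q = 2 * Nat.card (Q.map π) := by
  rw [← Subgroup.relIndex_ker, ← hk, ← Subgroup.relIndex_bot_left π.ker,
    Subgroup.relIndex_mul_relIndex _ _ _ bot_le hQ, Subgroup.relIndex_bot_left]

omit [Finite H] in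
lemma sbi_restrict (hk : Nat.card π.ker = 2) (hi : ∀ h : H, h * h = 1 → h ∈ π.ker) (Q : Subgroup H)
    (hQ : π.ker ≤ Q) : Nat.card (π.comp Q.subtype).ker = 2 ∧
      ∀ h : Q, h * h = 1 → h ∈ (π.comp Q.subtype).ker := by
  constructor
  · rw [← hk]
    refine Nat.card_congr
      { toFun := fun x => ⟨x.1.1, x.2⟩
        invFun := fun x => ⟨⟨x.1, hQ x.2⟩, x.2⟩
        left_inv := fun x => rfl
        right_inv := fun x => rfl }
  · intro h hh
    exact hi h (congrArg Subtype.val hh)

lemma sbi_q8 (hk : Nat.card π.ker = 2) (hi : ∀ h : H, h * h = 1 → h ∈ π.ker)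
    (h8 : Nat.card H = 8) : Nonempty (H ≃* QuaternionGroup 2) := by
  obtain ⟨z, hz1, hz2, hzk, hzu, hzc⟩ := sbi_ker π hk
  have hsq : ∀ k ∈ π.ker, k * k = 1 := by
    intro k hkk
    rcases hzu k hkk with h | h
    · rw [h, mul_one]
    · rw [h, hz2]
  have hn : ¬ IsCyclic H := by
    intro hc
    obtain ⟨g, hg⟩ := IsCyclic.exists_ofOrder_eq_natCard (α := H)
    rw [h8] at hg
    have key : ∀ m : ℕ, (π g) ^ m = 1 → 8 ∣ m * 2 := by
      intro m hm
      have h1 : g ^ m ∈ π.ker := by rw [MonoidHom.mem_ker, map_pow, hm]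
      have h2 := hsq _ h1
      rw [← pow_two, ← pow_mul] at h2
      rw [← hg]
      exact orderOf_dvd_of_pow_eq_one h2
    rcases sbi_ordA (π g) with h | h | h
    · have := key 2 (by rw [pow_two, h])
      omega
    · have := key 3 (by rw [pow_succ, pow_two, h])
      omega
    · have := key 5 (by rw [pow_succ, pow_succ, pow_succ, pow_two, h])
      omega
  have hE : ∃ x : H, x * x ≠ 1 := by
    by_contra hcon
    push Not at hcon
    have h1 : π.ker = ⊤ := by
      rw [eq_top_iff]
      exact fun x _ => hi x (hcon x)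
    rw [h1, Subgroup.card_top, h8] at hk
    omega
  have two : ∀ x y : H, x * x = 1 → y * y = 1 → x ≠ 1 → y ≠ 1 → x = y := by
    intro x y hx hy hx1 hy1
    rcases hzu x (hi x hx) with h | h
    · exact absurd h hx1
    · rcases hzu y (hi y hy) with h' | h'
      · exact absurd h' hy1
      · rw [h, h']
  have tr : ∀ (X : Type) [Group X] (e : H ≃* X) (x y : X), x * x = 1 → y * y = 1 → x ≠ 1 → y ≠ 1 →
      x = y := by
    intro X _ e x y hx hy hx1 hy1
    apply e.symm.injective
    refine two _ _ (by rw [← map_mul, hx, map_one]) (by rw [← map_mul, hy, map_one]) ?_ ?_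
    · exact fun h => hx1 (by rw [← e.symm.map_one] at h; exact e.symm.injective h)
    · exact fun h => hy1 (by rw [← e.symm.map_one] at h; exact e.symm.injective h)
  rcases ord8_class h8 hn hE with ⟨⟨e⟩⟩ | ⟨⟨e⟩⟩ | h
  · exfalso
    have h1 : ∃ x y : C24, x * x = 1 ∧ y * y = 1 ∧ x ≠ 1 ∧ y ≠ 1 ∧ x ≠ y := by decide
    obtain ⟨x, y, hx, hy, hx1, hy1, hxy⟩ := h1
    exact hxy (tr _ e x y hx hy hx1 hy1)
  · exfalso
    have h1 : ∃ x y : DihedralGroup 4, x * x = 1 ∧ y * y = 1 ∧ x ≠ 1 ∧ y ≠ 1 ∧ x ≠ y := by decide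
    obtain ⟨x, y, hx, hy, hx1, hy1, hxy⟩ := h1
    exact hxy (tr _ e x y hx hy hx1 hy1)
  · exact h


lemma sbi_gt (g : alternatingGroup (Fin 5)) (hg : g ≠ 1) {q : ℕ} (hq : q = 3 ∨ q = 5) (ho : g ^ q = 1) :
    Nat.card (Subgroup.centralizer ({g} : Set (alternatingGroup (Fin 5)))) = q := by
  rw [sbi_centA g hg]
  have h2 : g * g ≠ 1 := by
    intro h
    apply hg
    rcases hq with rfl | rfl
    · rw [pow_succ, pow_two, h, one_mul] at ho
      exact ho
    · rw [pow_succ, pow_succ, pow_succ, pow_two, h, one_mul, h, one_mul] at ho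
      exact ho
  rw [if_neg h2]
  rcases hq with rfl | rfl
  · rw [if_pos (by rw [← ho, pow_succ, pow_two])]
  · rw [if_neg]
    intro h3
    apply h2
    rw [pow_succ, pow_succ, pow_succ, pow_two, h3, one_mul] at ho
    exact ho

lemma sbi_2q (hk : Nat.card π.ker = 2) {q : ℕ}
    (hq : q = 3 ∨ q = 5) (hc : Nat.card H = 4 * q) : MetaList H := by
  have hqp : q.Prime := by
    rcases hq with rfl | rfl
    · exact Nat.prime_three
    · exact Nat.prime_five
  haveI : Fact q.Prime := ⟨hqp⟩
  haveI : Fact (Nat.Prime 2) := ⟨Nat.prime_two⟩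
  obtain ⟨z, hz1, hz2, hzk, hzu, hzc⟩ := sbi_ker π hk
  obtain ⟨x, hx⟩ := exists_prime_orderOf_dvd_card' (G := H) q (by rw [hc]; exact dvd_mul_left _ _)
  have hxq : x ^ q = 1 := by rw [← hx, pow_orderOf_eq_one]
  have hodd : ∃ m, q = 2 * m + 1 := by
    rcases hq with rfl | rfl
    · exact ⟨1, rfl⟩
    · exact ⟨2, rfl⟩
  have hkq : ∀ k ∈ π.ker, k ^ q = 1 → k = 1 := by
    intro k hkk hkq
    rcases hzu k hkk with h | h
    · exact h
    · exfalso
      obtain ⟨m, hm⟩ := hodd
      rw [h, hm, pow_succ, pow_mul, pow_two, hz2, one_pow, one_mul] at hkq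
      exact hz1 hkq
  have hx1 : x ≠ 1 := by
    intro h
    rw [h, orderOf_one] at hx
    exact hqp.one_lt.ne hx
  have hπx : π x ≠ 1 := fun h => hx1 (hkq x h hxq)
  have hcR : Nat.card π.range = 2 * q := by
    have := sbi_card π hk
    omega
  have hx'1 : π.rangeRestrict x ≠ 1 := fun h => hπx (congrArg Subtype.val h)
  have hx'o : orderOf (π.rangeRestrict x) = q := by
    refine orderOf_eq_prime ?_ hx'1
    rw [← map_pow, hxq, map_one]
  have hidx : (Subgroup.zpowers (π.rangeRestrict x)).index = 2 := by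
    have h1 := (Subgroup.zpowers (π.rangeRestrict x)).card_mul_index
    rw [Nat.card_zpowers, hx'o, hcR, mul_comm 2 q] at h1
    exact Nat.eq_of_mul_eq_mul_left hqp.pos h1
  have hN' : (Subgroup.zpowers (π.rangeRestrict x)).Normal := Subgroup.normal_of_index_eq_two hidx
  have hcx : ∀ h : H, h * x * h⁻¹ ∈ Subgroup.zpowers x := by
    intro h
    have h1 : π.rangeRestrict (h * x * h⁻¹) ∈ Subgroup.zpowers (π.rangeRestrict x) := by
      rw [map_mul, map_mul, map_inv]
      exact hN'.conj_mem _ (Subgroup.mem_zpowers _) _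
    obtain ⟨k, hk1⟩ := Subgroup.mem_zpowers_iff.mp h1
    have h2 : (h * x * h⁻¹) * (x ^ k)⁻¹ ∈ π.ker := by
      rw [← MonoidHom.ker_rangeRestrict, MonoidHom.mem_ker, map_mul, map_inv, map_zpow, hk1,
        mul_inv_cancel]
    have h3 : (h * x * h⁻¹) * (x ^ k)⁻¹ = 1 := by
      rcases hzu _ h2 with h4 | h4
      · exact h4
      · refine hkq _ h2 ?_
        have h5 : h * x * h⁻¹ = z * x ^ k := by rw [← h4]; group
        have h6 : (h * x * h⁻¹) ^ q = 1 := by rw [conj_pow, hxq]; group
        have h7 : Commute z (x ^ k) := (hzc _).symm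
        rw [h5, h7.mul_pow, ← zpow_natCast (x ^ k), ← zpow_mul, mul_comm k, zpow_mul, zpow_natCast,
          hxq, one_zpow, mul_one] at h6
        rw [h4]
        exact h6
    rw [mul_inv_eq_one] at h3
    rw [h3]
    exact Subgroup.zpow_mem_zpowers _ _
  have hN : (Subgroup.zpowers x).Normal := by
    constructor
    intro n hn h
    obtain ⟨k, rfl⟩ := Subgroup.mem_zpowers_iff.mp hn
    rw [← conj_zpow]
    exact Subgroup.zpow_mem _ (hcx h) k
  have hNc : Nat.card (Subgroup.zpowers x) = q := by rw [Nat.card_zpowers, hx]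
  have hQc : Nat.card (H ⧸ Subgroup.zpowers x) = 2 ^ 2 := by
    have h1 := (Subgroup.zpowers x).card_mul_index
    rw [hNc, hc, mul_comm 4 q] at h1
    exact Nat.eq_of_mul_eq_mul_left hqp.pos h1
  have hC : Nat.card (Subgroup.centralizer (Subgroup.zpowers x : Set H)) = q * 2 := by
    have hle : π.ker ≤ Subgroup.centralizer (Subgroup.zpowers x : Set H) := by
      intro k hkk
      rw [Subgroup.mem_centralizer_iff]
      intro y _
      rcases hzu k hkk with h | h
      · rw [h, mul_one, one_mul]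
      · rw [h]
        exact hzc y
    rw [sbi_card_sub π hk _ hle, mul_comm]
    congr 1
    have hle2 : (Subgroup.centralizer (Subgroup.zpowers x : Set H)).map π ≤
        Subgroup.centralizer ({π x} : Set (alternatingGroup (Fin 5))) := by
      rintro _ ⟨c, hc, rfl⟩
      rw [Subgroup.mem_centralizer_singleton_iff]
      have := (Subgroup.mem_centralizer_iff.mp hc) x (Subgroup.mem_zpowers x)
      rw [← map_mul, ← map_mul, this]
    have h1 := Subgroup.card_dvd_of_le hle2
    rw [sbi_gt (π x) hπx hq (by rw [← map_pow, hxq, map_one])] at h1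
    rcases (Nat.dvd_prime hqp).mp h1 with h2 | h2
    · exfalso
      have h3 := Subgroup.eq_bot_of_card_eq _ h2
      have h4 : π x ∈ (Subgroup.centralizer (Subgroup.zpowers x : Set H)).map π :=
        ⟨x, cent_le hqp _ hNc (Subgroup.mem_zpowers x), rfl⟩
      rw [h3, Subgroup.mem_bot] at h4
      exact hπx h4
    · exact h2
  apply int_meta
  refine ⟨q, 2, 2, H ⧸ Subgroup.zpowers x, IsPGroup.commGroupOfCardEqPrimeSq (p := 2) hQc,
    QuotientGroup.mk' (Subgroup.zpowers x), hqp, ?_, ?_, by rw [hc]; ring, by norm_num, ?_,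
    fun h => by omega⟩
  · rw [QuotientGroup.ker_mk', hNc]
  · rw [QuotientGroup.ker_mk', hC]
  · right; right; left
    exact ⟨rfl, by rcases hq with h | h <;> simp [h]⟩


lemma sbi_kv_normal : kv4.Normal := by
  constructor
  rintro v ⟨h1, h2⟩ g
  refine ⟨?_, fun k => ?_⟩
  · have : g * v * g⁻¹ * (g * v * g⁻¹) = g * (v * v) * g⁻¹ := by group
    rw [this, h1, mul_one, mul_inv_cancel]
  · have h3 := h2 (g⁻¹ * k * g)
    calc g * v * g⁻¹ * (k * (g * v * g⁻¹) * k⁻¹)
        = g * (v * ((g⁻¹ * k * g) * v * (g⁻¹ * k * g)⁻¹)) * g⁻¹ := by group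
      _ = g * ((g⁻¹ * k * g) * v * (g⁻¹ * k * g)⁻¹ * v) * g⁻¹ := by rw [h3]
      _ = k * (g * v * g⁻¹) * k⁻¹ * (g * v * g⁻¹) := by group

lemma sbi_kv_card : Nat.card kv4 = 4 := by
  have : Nat.card kv4 = Nat.card {v : Equiv.Perm (Fin 4) // KV v} := rfl
  rw [this, Nat.card_eq_fintype_card]
  decide +kernel

lemma sbi_kv_alt : kv4 ≤ alternatingGroup (Fin 4) := by
  have h : ∀ v : Equiv.Perm (Fin 4), KV v → Equiv.Perm.sign v = 1 := by decide +kernel
  exact fun v hv => Equiv.Perm.mem_alternatingGroup.mpr (h v hv)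

lemma sbi_24 (hk : Nat.card π.ker = 2) (hi : ∀ h : H, h * h = 1 → h ∈ π.ker)
    (hc : Nat.card H = 24) (f4 : π.range →* Equiv.Perm (Fin 4)) (hf4 : Function.Injective f4) :
    BinTet H := by
  haveI : Fact (Nat.Prime 2) := ⟨Nat.prime_two⟩
  have hcR : Nat.card π.range = 12 := by
    have := sbi_card π hk
    omega
  have hker : (f4.comp π.rangeRestrict).ker = π.ker := by
    ext x
    rw [MonoidHom.mem_ker, MonoidHom.mem_ker]
    constructor
    · intro h
      have h1 : π.rangeRestrict x = 1 := hf4 (by rw [map_one]; exact h)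
      exact congrArg Subtype.val h1
    · intro h
      have h1 : π.rangeRestrict x = 1 := Subtype.ext h
      change f4 (π.rangeRestrict x) = 1
      rw [h1, map_one]
  have hrange : (f4.comp π.rangeRestrict).range = f4.range := by
    ext y
    constructor
    · rintro ⟨x, rfl⟩
      exact ⟨_, rfl⟩
    · rintro ⟨x, rfl⟩
      obtain ⟨w, rfl⟩ := π.rangeRestrict_surjective x
      exact ⟨w, rfl⟩
  have hf4c : Nat.card f4.range = 12 := by
    rw [← hcR]
    exact (Nat.card_congr (MonoidHom.ofInjective hf4).toEquiv).symm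
  have hf4i : f4.range.index = 2 := by
    have h1 := f4.range.card_mul_index
    rw [hf4c, perm4_card] at h1
    omega
  have hf4a : f4.range = alternatingGroup (Fin 4) :=
    Equiv.Perm.eq_alternatingGroup_of_index_eq_two hf4i
  haveI := sbi_kv_normal
  have hQle : π.ker ≤ kv4.comap (f4.comp π.rangeRestrict) := by
    rw [← hker]
    exact Subgroup.ker_le_comap _ _
  have hQc : Nat.card (kv4.comap (f4.comp π.rangeRestrict) : Subgroup H) = 8 := by
    rw [sbi_card_sub π hk _ hQle]
    have h1 : Nat.card (kv4.comap (f4.comp π.rangeRestrict) : Subgroup H) =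
        Nat.card (f4.comp π.rangeRestrict).ker * 4 := by
      have h2 : (kv4.comap (f4.comp π.rangeRestrict)).map (f4.comp π.rangeRestrict) = kv4 := by
        rw [Subgroup.map_comap_eq, hrange, hf4a, inf_eq_right]
        exact sbi_kv_alt
      have h3 := Subgroup.relIndex_ker (kv4.comap (f4.comp π.rangeRestrict)) (f4.comp π.rangeRestrict)
      rw [h2, sbi_kv_card] at h3
      have h4 := Subgroup.relIndex_mul_relIndex ⊥ _ _ bot_le
        (Subgroup.ker_le_comap (f4.comp π.rangeRestrict) kv4)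
      rw [h3, Subgroup.relIndex_bot_left, Subgroup.relIndex_bot_left] at h4
      exact h4.symm
    rw [hker, hk, sbi_card_sub π hk _ hQle] at h1
    omega
  have hWc : Nat.card ((kv4.comap (f4.comp π.rangeRestrict)).map π) = 4 := by
    have := sbi_card_sub π hk _ hQle
    omega
  obtain ⟨hk', hi'⟩ := sbi_restrict π hk hi _ hQle
  refine ⟨hc, kv4.comap (f4.comp π.rangeRestrict), inferInstance,
    sbi_q8 (π.comp (kv4.comap (f4.comp π.rangeRestrict)).subtype) hk' hi' hQc, ?_⟩
  generalize kv4.comap (f4.comp π.rangeRestrict) = Q at *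
  have hcomm : ∀ a b : Q.map π, a * b = b * a :=
    (IsPGroup.isMulCommutative_of_card_eq_prime_sq (p := 2) hWc).is_comm.comm
  haveI : Nontrivial (Q.map π) := (Finite.one_lt_card_iff_nontrivial).mp (by rw [hWc]; norm_num)
  obtain ⟨s, hs⟩ := exists_ne (1 : Q.map π)
  have hs1 : (s : alternatingGroup (Fin 5)) ≠ 1 := fun h => hs (Subtype.ext h)
  have hs4 : s ^ 4 = 1 := by rw [← hWc]; exact pow_card_eq_one'
  have hs4' : (s : alternatingGroup (Fin 5)) ^ 4 = 1 := congrArg Subtype.val hs4
  have hss : (s : alternatingGroup (Fin 5)) * s = 1 := by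
    rcases sbi_ordA (s : alternatingGroup (Fin 5)) with h | h | h
    · exact h
    · exfalso
      apply hs1
      rw [pow_succ, pow_succ, pow_two, h, one_mul] at hs4'
      exact hs4'
    · exfalso
      apply hs1
      rw [pow_succ, pow_succ, pow_two] at hs4'
      rw [hs4', one_mul] at h
      exact h
  have hcs : Nat.card (Subgroup.centralizer ({(s : alternatingGroup (Fin 5))} :
      Set (alternatingGroup (Fin 5)))) = 4 := by
    rw [sbi_centA _ hs1, if_pos hss]
  have hle : Q.map π ≤ Subgroup.centralizer ({(s : alternatingGroup (Fin 5))} :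
      Set (alternatingGroup (Fin 5))) := by
    intro w hw
    rw [Subgroup.mem_centralizer_singleton_iff]
    exact congrArg Subtype.val (hcomm ⟨w, hw⟩ s)
  have heq : Q.map π = Subgroup.centralizer ({(s : alternatingGroup (Fin 5))} :
      Set (alternatingGroup (Fin 5))) :=
    Subgroup.eq_of_le_of_card_ge hle (by rw [hcs, hWc])
  intro h hh
  rw [Subgroup.mem_centralizer_iff] at hh
  obtain ⟨w, hw, hws⟩ := s.2
  have h1 : π h ∈ Q.map π := by
    rw [heq, Subgroup.mem_centralizer_singleton_iff, ← hws, ← map_mul, ← map_mul, hh w hw]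
  obtain ⟨w', hw', hww⟩ := h1
  have h2 : w'⁻¹ * h ∈ π.ker := by
    rw [MonoidHom.mem_ker, map_mul, map_inv, hww, inv_mul_cancel]
  have h3 : h = w' * (w'⁻¹ * h) := by group
  rw [h3]
  exact Q.mul_mem hw' (hQle h2)


lemma sbi_sub_ord (B : Subgroup (alternatingGroup (Fin 5))) (x : B) :
    x ^ 2 = 1 ∨ x ^ 3 = 1 ∨ x ^ 5 = 1 := by
  rcases sbi_ordA (x : alternatingGroup (Fin 5)) with h | h | h
  · left
    exact Subtype.ext (by rw [Subgroup.coe_pow, pow_two, h, Subgroup.coe_one])
  · right; left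
    exact Subtype.ext (by rw [Subgroup.coe_pow, pow_succ, pow_two, h, Subgroup.coe_one])
  · right; right
    exact Subtype.ext (by
      rw [Subgroup.coe_pow, pow_succ, pow_succ, pow_succ, pow_two, h, Subgroup.coe_one])

/-- the metabelian subgroups of the alternating group of degree 5 -/
lemma sbi_meta (B : Subgroup (alternatingGroup (Fin 5))) (h60 : Nat.card B ∣ 60) (h : MetaList B) :
    Nat.card B = 6 ∨ Nat.card B = 10 := by
  obtain ⟨q, c, d, A, hA, ρ, hq, hNc, hDc, hGc, hd, hP, h4⟩ := meta_int h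
  have hc0 : 0 < c := by
    have := params_c hP
    omega
  haveI : Fact q.Prime := ⟨hq⟩
  have hq60 : q ∣ 60 := by
    refine dvd_trans ?_ h60
    rw [hGc, mul_assoc]
    exact dvd_mul_right _ _
  have hq2 : q ≠ 2 := by
    have := goodPP_odd (params_q hP)
    omega
  have hq35 : q = 3 ∨ q = 5 := by
    have h1 : q ∣ 2 * 2 * 3 * 5 := hq60
    rcases (hq.dvd_mul.mp h1) with h1 | h1
    · rcases (hq.dvd_mul.mp h1) with h1 | h1
      · exfalso
        rcases (hq.dvd_mul.mp h1) with h1 | h1
        · exact hq2 ((Nat.prime_dvd_prime_iff_eq hq Nat.prime_two).mp h1)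
        · exact hq2 ((Nat.prime_dvd_prime_iff_eq hq Nat.prime_two).mp h1)
      · exact Or.inl ((Nat.prime_dvd_prime_iff_eq hq Nat.prime_three).mp h1)
    · exact Or.inr ((Nat.prime_dvd_prime_iff_eq hq Nat.prime_five).mp h1)
  obtain ⟨x, hx⟩ := exists_prime_orderOf_dvd_card' (G := ρ.ker) q (by rw [hNc])
  have hx1 : ((x : B) : alternatingGroup (Fin 5)) ≠ 1 := by
    intro h
    have h1 : x = 1 := Subtype.ext (Subtype.ext h)
    rw [h1, orderOf_one] at hx
    exact hq.one_lt.ne hx
  have hxq : ((x : B) : alternatingGroup (Fin 5)) ^ q = 1 := by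
    have h1 : x ^ q = 1 := by rw [← hx, pow_orderOf_eq_one]
    have h2 : ((x : B)) ^ q = 1 := congrArg Subtype.val h1
    exact congrArg Subtype.val h2
  have hcen := sbi_gt _ hx1 hq35 hxq
  have hle : Nat.card (Subgroup.centralizer (ρ.ker : Set B)) ≤ q := by
    rw [← hcen]
    refine Nat.card_le_card_of_injective (fun y : Subgroup.centralizer (ρ.ker : Set B) =>
      (⟨((y : B) : alternatingGroup (Fin 5)), ?_⟩ : Subgroup.centralizer
        ({((x : B) : alternatingGroup (Fin 5))} : Set (alternatingGroup (Fin 5))))) ?_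
    · rw [Subgroup.mem_centralizer_singleton_iff]
      have h1 := (Subgroup.mem_centralizer_iff.mp y.2) (x : B) x.2
      exact (congrArg Subtype.val h1).symm
    · intro y y' hyy
      have h9 : ((y : B) : alternatingGroup (Fin 5)) = ((y' : B) : alternatingGroup (Fin 5)) :=
        (Subtype.ext_iff.mp hyy :)
      exact Subtype.ext (Subtype.ext h9)
  rw [hDc] at hle
  have hc1 : c = 1 := by
    have h1 : q * c ≤ q * 1 := by rw [mul_one]; exact hle
    have h2 := Nat.le_of_mul_le_mul_left h1 hq.pos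
    omega
  subst hc1
  have hDi : (Subgroup.centralizer (ρ.ker : Set B)).index = d := by
    have h5 := (Subgroup.centralizer (ρ.ker : Set B)).card_mul_index
    rw [hDc, hGc] at h5
    exact Nat.eq_of_mul_eq_mul_left (Nat.mul_pos hq.pos hc0) h5
  have hdq : d ∣ q - 1 := hDi ▸ idx_dvd hq ρ.ker hNc
  rcases hq35 with rfl | rfl
  · left
    have h1 : d ≤ 2 := Nat.le_of_dvd (by norm_num) hdq
    have h2 : d = 2 := by omega
    rw [hGc, h2]
  · have h1 : d ≤ 4 := Nat.le_of_dvd (by norm_num) hdq
    have h2 : d = 2 ∨ d = 4 := by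
      interval_cases d
      · left; rfl
      · omega
      · right; rfl
    rcases h2 with rfl | rfl
    · right
      rw [hGc]
    · exfalso
      obtain ⟨hcyc, hmc⟩ := mulAut_prime_cyc hq hNc
      have hrc : Nat.card (MulAut.conjNormal : B →* MulAut ρ.ker).range = 4 := by
        rw [← Subgroup.index_ker, ← cent_eq_ker, hDi]
      haveI : Finite (MulAut ρ.ker) := Nat.finite_of_card_ne_zero (by rw [hmc]; norm_num)
      have hsurj : (MulAut.conjNormal : B →* MulAut ρ.ker).range = ⊤ :=
        Subgroup.eq_top_of_card_eq _ (by rw [hrc, hmc])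
      obtain ⟨a, ha⟩ := IsCyclic.exists_ofOrder_eq_natCard (α := MulAut ρ.ker)
      obtain ⟨g, hg⟩ := (MonoidHom.range_eq_top.mp hsurj) a
      rw [hmc] at ha
      have key : ∀ m : ℕ, g ^ m = 1 → 4 ∣ m := by
        intro m hm
        have h5 : a ^ m = 1 := by rw [← hg, ← map_pow, hm, map_one]
        have h6 := orderOf_dvd_of_pow_eq_one h5
        rw [ha] at h6
        exact h6
      rcases sbi_sub_ord B g with h5 | h5 | h5
      · have := key 2 h5
        omega
      · have := key 3 h5
        omega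
      · have := key 5 h5
        omega

lemma sbi_main (hk : Nat.card π.ker = 2) (hi : ∀ h : H, h * h = 1 → h ∈ π.ker)
    (hns : π.range ≠ ⊤) : SolList H := by
  obtain ⟨z, hz1, hz2, hzk, hzu, hzc⟩ := sbi_ker π hk
  have hcard := sbi_card π hk
  have h60 : Nat.card π.range ∣ 60 := by
    rw [← a5_facts.1]
    exact Subgroup.card_subgroup_dvd_card _
  have hne : Nat.card π.range ≠ 60 := by
    intro h
    exact hns (Subgroup.eq_top_of_card_eq _ (by rw [h, a5_facts.1]))
  have h30 : Nat.card π.range ≤ 30 := by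
    obtain ⟨k, hk'⟩ := h60
    have h1 : k ≠ 1 := by
      rintro rfl
      omega
    have h0 : k ≠ 0 := by
      rintro rfl
      omega
    have h2 : 2 ≤ k := by omega
    have h3 : Nat.card π.range * 2 ≤ Nat.card π.range * k := Nat.mul_le_mul_left _ h2
    omega
  have hsol : SolList π.range := by
    rcases perm5_sub ((alternatingGroup (Fin 5)).subtype.comp π.range.subtype)
      (Subtype.val_injective.comp Subtype.val_injective) with h | ⟨⟨e⟩⟩ | ⟨⟨e⟩⟩ | h
    · exact h
    · exfalso
      have := Nat.card_congr e.toEquiv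
      rw [a5_facts.1] at this
      omega
    · exfalso
      have := Nat.card_congr e.toEquiv
      rw [a5_facts.2.1] at this
      omega
    · exfalso
      have := (binico_facts h).2.1
      omega
  have hmeta : ∀ q, (q = 3 ∨ q = 5) → Nat.card π.range = 2 * q → SolList H := by
    intro q hq hc
    exact ⟨inferInstance, Or.inr (Or.inr (Or.inr (Or.inr (Or.inr (Or.inr
      (sbi_2q π hk hq (by rw [hcard, hc]; ring)))))))⟩
  have hpos : 0 < Nat.card π.range := Nat.card_pos
  have hsmall : Nat.card π.range ≤ 3 → SolList H := fun h => small_list (by omega)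
  obtain ⟨_, h | ⟨⟨e⟩⟩ | ⟨⟨e⟩⟩ | ⟨f4, hf4⟩ | ⟨⟨e⟩⟩ | h | h⟩ := hsol
  · obtain ⟨hcyc, _⟩ := h
    obtain ⟨g, hg⟩ := IsCyclic.exists_ofOrder_eq_natCard (α := π.range)
    rcases sbi_sub_ord _ g with h | h | h
    · have h1 := Nat.le_of_dvd (by norm_num) (orderOf_dvd_of_pow_eq_one h)
      exact hsmall (by omega)
    · have h1 := Nat.le_of_dvd (by norm_num) (orderOf_dvd_of_pow_eq_one h)
      exact hsmall (by omega)
    · have h1 := (Nat.dvd_prime Nat.prime_five).mp (orderOf_dvd_of_pow_eq_one h)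
      rcases h1 with h1 | h1
      · exact hsmall (by omega)
      · have h5 : Nat.card π.range = 5 := by omega
        have hkc : IsCyclic π.ker := cyc_of_le3 (by rw [hk]; norm_num)
        have hcen : π.ker ≤ Subgroup.center H := by
          intro k hkk
          rw [Subgroup.mem_center_iff]
          intro h
          rcases hzu k hkk with h' | h'
          · rw [h', mul_one, one_mul]
          · rw [h']
            exact hzc h
        have hcy := cyc_ext π hcyc hkc hcen (by rw [hk, h5]; norm_num)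
        refine list_cyc hcy ?_
        rw [hcard, h5]
        exact Or.inr ⟨5, goodPP_5, Or.inr rfl⟩
  · exfalso
    rw [card_c24 e] at h60
    omega
  · exfalso
    have h1 : ∃ x : Multiplicative (ZMod 2 × ZMod 6), x ^ 2 ≠ 1 ∧ x ^ 3 ≠ 1 ∧ x ^ 5 ≠ 1 := by decide
    obtain ⟨x, h2, h3, h5⟩ := h1
    have tr : ∀ m : ℕ, (e.symm x) ^ m = 1 → x ^ m = 1 := by
      intro m hm
      rw [← map_pow] at hm
      exact e.symm.injective (by rw [hm, map_one])
    rcases sbi_sub_ord _ (e.symm x) with h | h | h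
    · exact h2 (tr _ h)
    · exact h3 (tr _ h)
    · exact h5 (tr _ h)
  · have h24 : Nat.card π.range ∣ 24 := by
      rw [← perm4_card]
      exact Subgroup.card_dvd_of_injective f4 hf4
    have h12 : Nat.card π.range ∣ 12 := by
      have := Nat.dvd_gcd h60 h24
      exact this
    have hcases : Nat.card π.range ≤ 3 ∨ Nat.card π.range = 4 ∨ Nat.card π.range = 6 ∨
        Nat.card π.range = 12 := by
      have h1 : Nat.card π.range ≤ 12 := Nat.le_of_dvd (by norm_num) h12
      generalize Nat.card π.range = b at h1 h12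
      interval_cases b <;> omega
    rcases hcases with h | h | h | h
    · exact hsmall h
    · exact ⟨inferInstance, Or.inr (Or.inr (Or.inr (Or.inr (Or.inl
        (sbi_q8 π hk hi (by rw [hcard, h]))))))⟩
    · exact hmeta 3 (Or.inl rfl) h
    · exact ⟨inferInstance, Or.inr (Or.inr (Or.inr (Or.inr (Or.inr (Or.inl
        (sbi_24 π hk hi (by rw [hcard, h]) f4 hf4))))))⟩
  · exfalso
    rw [Nat.card_congr e.toEquiv, Nat.card_eq_fintype_card, QuaternionGroup.card] at h60
    omega
  · exfalso
    rw [h.1] at h60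
    omega
  · rcases sbi_meta _ h60 h with h | h
    · exact hmeta 3 (Or.inl rfl) h
    · exact hmeta 5 (Or.inr rfl) h

end

theorem binico_sub {G H : Type} [Group G] [Group H] (f : H →* G) (hf : Function.Injective f)
    (h : BinIco G) : FinList H := by
  haveI := (binico_facts h).1
  haveI : Finite H := Finite.of_injective f hf
  obtain ⟨π, hs, hk, hi⟩ := h
  by_cases hinj : Function.Injective (π.comp f)
  · exact perm5_sub ((alternatingGroup (Fin 5)).subtype.comp (π.comp f))
      (Subtype.val_injective.comp hinj)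
  · have hk2 : Nat.card (π.comp f).ker = 2 := by
      have h1 : Nat.card (π.comp f).ker ≤ 2 := by
        rw [← hk]
        refine Nat.card_le_card_of_injective (fun x : (π.comp f).ker => (⟨f x.1, x.2⟩ : π.ker)) ?_
        intro x y hxy
        exact Subtype.ext (hf (congrArg Subtype.val hxy))
      have h2 : Nat.card (π.comp f).ker ≠ 1 := by
        intro h3
        exact hinj ((MonoidHom.ker_eq_bot_iff _).mp (Subgroup.eq_bot_of_card_eq _ h3))
      have h3 : 0 < Nat.card (π.comp f).ker := Nat.card_pos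
      omega
    have hi2 : ∀ x : H, x * x = 1 → x ∈ (π.comp f).ker := by
      intro x hx
      exact hi (f x) (by rw [← map_mul, hx, map_one])
    by_cases hr : (π.comp f).range = ⊤
    · exact Or.inr (Or.inr (Or.inr ⟨π.comp f, MonoidHom.range_eq_top.mp hr, hk2, hi2⟩))
    · exact Or.inl (sbi_main (π.comp f) hk2 hi2 hr)

theorem fin_sub {G H : Type} [Group G] [Group H] (f : H →* G) (hf : Function.Injective f)
    (h : FinList G) : FinList H := by
  rcases h with h | ⟨⟨e⟩⟩ | ⟨⟨e⟩⟩ | h
  · exact Or.inl (list_sub f hf h)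
  · exact perm5_sub ((alternatingGroup (Fin 5)).subtype.comp (e.toMonoidHom.comp f))
      (Subtype.val_injective.comp (e.injective.comp hf))
  · exact perm5_sub (e.toMonoidHom.comp f) (e.injective.comp hf)
  · exact binico_sub f hf h

end Pool.Agent.SHAF
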