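import Mathlib
import Pool.Agent.SHAF.Main
import Pool.Agent.SHAN.CaseK
import Pool.Agent.SHAN.CaseD
import Pool.Agent.SHAN.CaseQ
import Pool.Agent.SHAN.Min
import Pool.Agent.SHAN.NonSimA
import Pool.Agent.SHAN.NonSimB
import Pool.Agent.SHAN.NonSimC
import Pool.Agent.SHAN.SubBI
import Pool.Agent.SHAN.Quo
import Pool.Agent.SHAN.AutBI

set_option autoImplicit false

/-!
The finite members (module MAIN).
-/

namespace Pool.Agent.SHAF

open Pool.Agent.SHA

variable {K : (G : Type) → [Group G] → Prop}

theorem simple_case (hK : SHAClosed K) (hE : ¬ K (E 3)) {G : Type} [Group G] [Finite G]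
    [IsSimpleGroup G] (hG : K G) (hns : ¬ Group.IsSolvable G)
    (IH : ∀ (H : Type) [Group H] [Finite H], K H → Nat.card H < Nat.card G → FinList H) :
    FinList G := by
  obtain P : Sylow 2 G := default
  rcases nonsol_sylow hK hE hG hns P with ⟨h4, hnc⟩ | h | h
  · exact Or.inr (Or.inl (case_klein hK hE hG hns IH P h4 hnc))
  · exact (case_dih hK hE hG hns IH P h).elim
  · exact (case_quat hK hE hG hns IH P h).elim

theorem finite_member (hK : SHAClosed K) (hE : ¬ K (E 3)) :
    ∀ (n : ℕ) (G : Type) [Group G] [Finite G], K G → Nat.card G = n → FinList G := by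
  intro n
  induction n using Nat.strong_induction_on with
  | _ n ih =>
    intro G _ _ hG hn
    by_cases hs : Group.IsSolvable G
    · haveI := hs
      exact Or.inl (sol_forward hK hE G hG)
    have IH : ∀ (H : Type) [Group H] [Finite H], K H → Nat.card H < Nat.card G → FinList H := by
      intro H _ _ hH hlt
      exact ih (Nat.card H) (hn ▸ hlt) H hH rfl
    by_cases hsim : ∃ N : Subgroup G, N.Normal ∧ N ≠ ⊥ ∧ N ≠ ⊤
    · obtain ⟨N, hN, h1, h2⟩ := hsim
      haveI := hN
      have IH' : ∀ H : Subgroup G, H ≠ ⊤ → FinList H := by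
        intro H hH
        refine IH H (hK.sub _ _ H.subtype H.subtype_injective hG) ?_
        refine lt_of_le_of_ne (Subgroup.card_le_card_group H) ?_
        intro h
        exact hH (Subgroup.eq_top_of_card_eq H h)
      obtain ⟨M, hM, hM1, hM2, h | ⟨p, hp, hMp, -⟩⟩ := exists_min IH' N h1 h2
      · haveI := hM
        exact normal_a5 hK hE hG M h
      · haveI := hM
        by_cases hp2 : p = 2
        · subst hp2
          exact Or.inr (Or.inr (Or.inr (normal_two hK hE hG hs IH M hM1 hMp)))
        · exact (normal_odd hK hE hG hs IH M hM1 hp hp2 hMp).elim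
    · push Not at hsim
      haveI : Nontrivial G := by
        by_contra hnt
        rw [not_nontrivial_iff_subsingleton] at hnt
        exact hs (by infer_instance)
      haveI : IsSimpleGroup G := ⟨fun N hN => by
        by_cases hb : N = ⊥
        · exact Or.inl hb
        · exact Or.inr (hsim N hN hb)⟩
      exact simple_case hK hE hG hs IH

theorem fin_closed : SHAClosed FinList :=
  ⟨fun _ _ _ _ f hf h => fin_sub f hf h, fun _ _ _ _ f hf h => fin_quo f hf h,
    fun _ _ h => fin_aut h⟩

end Pool.Agent.SHAF
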